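import Pool.Agent.Work.MP_a2bf38_gt.Fu.I.PshGood
import Pool.Agent.Work.MP_a2bf38_gt.Fu.I.Sect
import Pool.Agent.Work.MP_a2bf38_gt.Fu.X.LocComp
import Pool.Agent.Work.MP_a2bf38_gt.Fu.I.NatFlow2

section

/-!
# The value of a holomorphic function at the centre of a ball and its mean square
-/

open scoped ContDiff ENNReal ComplexOrder Topology Pointwise
open Set MeasureTheory Filter Pool.Agent.ToricKRF Pool.Agent.ToricKRF.G Pool.Agent.KRFS
  Pool.Agent.KRFF Pool.Agent.KRFG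

namespace Pool.Agent.KRFZ

namespace Pole

variable {n : ℕ}

theorem nsq_ofC_const (w : ℂ) : nsq (ofC fun _ : Fin 1 => w) = ‖w‖ ^ 2 := by
  simp only [nsq, dotProduct, ofC, Finset.univ_unique, Finset.sum_singleton]
  rw [← Complex.normSq_eq_norm_sq, Complex.normSq_apply]

theorem smooth_nsq {m : ℕ} : ContDiffOn ℝ ∞ (nsq : Cn m → ℝ) univ := Fb.contDiff_nsq.contDiffOn

/-- the square of the modulus of a holomorphic function is psh -/
theorem pshC_normSq {h : Cn n → ℂ} {S : Set (Cn n)} (hS : IsOpen S) (hh : NF.HolC h S) :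
    PshC (fun w => ‖h w‖ ^ 2) S := by
  have hH := (Touch.holOn_ofC (h := fun _ : Fin 1 => h) hS fun _ => hh).1
  have e1 : (fun w => ‖h w‖ ^ 2) = fun w => nsq (ofC fun _ : Fin 1 => h w) := by
    funext w
    rw [nsq_ofC_const]
  rw [e1]
  refine Pool.Agent.KRFH.BallM.pshC_of_levz hS (smooth_nsq.comp hH.1 fun _ _ => mem_univ _) fun z hz u => ?_
  rw [levz_comp isOpen_univ smooth_nsq hS hH hz (mem_univ _) u, Gap.levz_nsq']
  exact Fb.nsq_nonneg _

/-- the value at the centre of a ball and the mean square -/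
theorem mean_sq {h : Cn n → ℂ} {S : Set (Cn n)} (hS : IsOpen S) (hh : NF.HolC h S) {z : Cn n}
    {r : ℝ} (hr : 0 ≤ r) (hsub : {w | nsq (w - z) ≤ r ^ 2} ⊆ S) :
    (volume {w : Cn n | nsq (w - z) ≤ r ^ 2}).toReal * ‖h z‖ ^ 2 ≤
      ∫ w in {w : Cn n | nsq (w - z) ≤ r ^ 2}, ‖h w‖ ^ 2 :=
  Pool.Agent.KRFH.BallM.mean_ball (pshC_normSq hS hh) hr hsub

/-- the volume of a ball -/
theorem volume_ball (z : Cn n) {r : ℝ} (hr : 0 < r) :
    (volume {w : Cn n | nsq (w - z) ≤ r ^ 2}).toReal =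
      r ^ (2 * n) * (volume {w : Cn n | nsq w ≤ 1}).toReal := by
  have := PshG.isAddHaar_Cn n
  have hset : {w : Cn n | nsq (w - z) ≤ r ^ 2} =
      (fun x => z + x) '' (r • {w : Cn n | nsq w ≤ 1}) := by
    ext w
    constructor
    · intro hw
      have hw' : nsq (w - z) ≤ r ^ 2 := hw
      refine ⟨w - z, ⟨r⁻¹ • (w - z), ?_, ?_⟩, by simp⟩
      · change nsq (r⁻¹ • (w - z)) ≤ 1
        rw [Pool.Agent.KRFE.SupReg.nsq_smul, inv_pow, inv_mul_le_iff₀ (by positivity), mul_one]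
        exact hw'
      · simp only
        rw [smul_smul, mul_inv_cancel₀ hr.ne', one_smul]
    · rintro ⟨x, ⟨y, hy, rfl⟩, rfl⟩
      have hy' : nsq y ≤ 1 := hy
      change nsq (z + r • y - z) ≤ r ^ 2
      rw [add_sub_cancel_left, Pool.Agent.KRFE.SupReg.nsq_smul]
      nlinarith [sq_nonneg r]
  have hd : Module.finrank ℝ ((Fin n → ℝ) × (Fin n → ℝ)) = 2 * n := by
    rw [Module.finrank_prod]
    simp
    ring
  rw [hset, image_add_left, measure_preimage_add]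
  have h1 := Measure.addHaar_smul (volume : Measure (Cn n)) r {w : Cn n | nsq w ≤ 1}
  have h2 : Module.finrank ℝ (Cn n) = 2 * n := hd
  rw [h1, h2, ENNReal.toReal_mul, ENNReal.toReal_ofReal (abs_nonneg _),
    abs_of_nonneg (by positivity)]

theorem volume_unit_pos : 0 < (volume {w : Cn n | nsq w ≤ 1}).toReal := by
  have := PshG.isAddHaar_Cn n
  have hc : IsCompact {w : Cn n | nsq w ≤ 1} := ABP.isCompact_nsq
  refine ENNReal.toReal_pos ?_ hc.measure_lt_top.ne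
  refine (Measure.measure_pos_of_mem_nhds volume (x := (0 : Cn n)) ?_).ne'
  have h1 : {w : Cn n | nsq w < 1} ∈ 𝓝 (0 : Cn n) :=
    (isOpen_lt Pool.Agent.KRFE.SupReg.continuous_nsq continuous_const).mem_nhds (by
      change nsq (0 : Cn n) < 1
      rw [Pool.Agent.KRFE.SupReg.nsq_zero]
      exact one_pos)
  exact mem_of_superset h1 fun w (hw : nsq w < 1) => hw.le

end Pole

end Pool.Agent.KRFZ

end

section

/-!
# The isotropic pole
-/

open scoped ContDiff ENNReal ComplexOrder Topology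
open Set MeasureTheory Filter Pool.Agent.ToricKRF Pool.Agent.ToricKRF.G Pool.Agent.KRFS
  Pool.Agent.KRFF Pool.Agent.KRFG

namespace Pool.Agent.KRFZ

namespace HM

variable {n : ℕ}

theorem isCompact_ball (z : Cn n) (r : ℝ) : IsCompact {w : Cn n | nsq (w - z) ≤ r ^ 2} := by
  refine Metric.isCompact_of_isClosed_isBounded
    (isClosed_le (KRFH.BallM.continuous_nsq.comp (continuous_id.sub continuous_const))
      continuous_const)
    ((Metric.isBounded_closedBall (x := z) (r := |r|)).subset fun w hw => ?_)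
  rw [mem_closedBall_iff_norm]
  refine norm_le_of_nsq_le (abs_nonneg r) ?_
  rw [sq_abs]
  exact hw

/-- The value at the centre is bounded by the lower integral over the ball. -/
theorem mean_sq_lint {h : Cn n → ℂ} {V : Set (Cn n)} (hV : IsOpen V) (hh : NF.HolC h V) {z : Cn n}
    {r : ℝ} (hr : 0 < r) (hsub : {w | nsq (w - z) ≤ r ^ 2} ⊆ V) {I : ℝ} (hI : 0 ≤ I)
    (hint : ∫⁻ w in {w : Cn n | nsq (w - z) ≤ r ^ 2}, ENNReal.ofReal (‖h w‖ ^ 2) ≤
      ENNReal.ofReal I) :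
    r ^ (2 * n) * (volume {w : Cn n | nsq w ≤ 1}).toReal * ‖h z‖ ^ 2 ≤ I := by
  have h1 := Pole.mean_sq hV hh hr.le hsub
  rw [Pole.volume_ball z hr] at h1
  refine h1.trans ?_
  have hc : ContinuousOn (fun w => ‖h w‖ ^ 2) {w : Cn n | nsq (w - z) ≤ r ^ 2} :=
    (hh.1.continuousOn.mono hsub).norm.pow 2
  rw [integral_eq_lintegral_of_nonneg_ae (Eventually.of_forall fun w => by positivity)
    (hc.aestronglyMeasurable (isCompact_ball z r).measurableSet)]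
  exact ENNReal.toReal_le_of_le_ofReal hI hint

/-- **The isotropic pole.**  If `W₁ ≤ B` and `o ≤ Ω` on the ball of radius `ε`, and
`|F w - F z₀| ≤ L |w - z₀|`, then `|g (z₀)|^2 ≤ C ε^2 ∫ |g|^2 exp (- W₁ - (n+1) log (|F - F z₀|^2 +
ε^2)) Ω`. -/
theorem pole {N : ℕ} {F : Cn n → Cn N} {W₁ Ω : Cn n → ℝ} {z₀ : Cn n} {ε L B o : ℝ} (hε : 0 < ε)
    (ho : 0 < o)
    (hF : ∀ w, nsq (w - z₀) ≤ ε ^ 2 → nsq (F w - F z₀) ≤ L ^ 2 * nsq (w - z₀))
    (hW : ∀ w, nsq (w - z₀) ≤ ε ^ 2 → W₁ w ≤ B)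
    (hΩ : ∀ w, nsq (w - z₀) ≤ ε ^ 2 → o ≤ Ω w) {V : Set (Cn n)} (hV : IsOpen V) {g : Cn n → ℂ}
    (hg : NF.HolC g V) (hsub : {w | nsq (w - z₀) ≤ ε ^ 2} ⊆ V) {I : ℝ} (hI : 0 ≤ I)
    (hint : ∫⁻ w in {w : Cn n | nsq (w - z₀) ≤ ε ^ 2}, ENNReal.ofReal (‖g w‖ ^ 2 *
      Real.exp (-(W₁ w + (n + 1) * Real.log (nsq (F w - F z₀) + ε ^ 2))) * Ω w) ≤
      ENNReal.ofReal I) :
    ‖g z₀‖ ^ 2 ≤ Real.exp B * (L ^ 2 + 1) ^ (n + 1) /
      (o * (volume {w : Cn n | nsq w ≤ 1}).toReal) * ε ^ 2 * I := by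
  set v := (volume {w : Cn n | nsq w ≤ 1}).toReal with hv
  have hvp : 0 < v := Pole.volume_unit_pos
  set K : ℝ := Real.exp B * ((L ^ 2 + 1) * ε ^ 2) ^ (n + 1) / o with hK
  have hKp : 0 < K := by positivity
  have hpt : ∀ w, nsq (w - z₀) ≤ ε ^ 2 → ‖g w‖ ^ 2 ≤ K * (‖g w‖ ^ 2 *
      Real.exp (-(W₁ w + (n + 1) * Real.log (nsq (F w - F z₀) + ε ^ 2))) * Ω w) := by
    intro w hw
    set q : ℝ := nsq (F w - F z₀) + ε ^ 2 with hq
    have hq0 : 0 < q := by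
      have := Fb.nsq_nonneg (F w - F z₀)
      positivity
    have hq1 : q ≤ (L ^ 2 + 1) * ε ^ 2 := by
      have h1 := hF w hw
      have h2 : L ^ 2 * nsq (w - z₀) ≤ L ^ 2 * ε ^ 2 := mul_le_mul_of_nonneg_left hw (sq_nonneg L)
      rw [hq]
      linarith
    have he : Real.exp (-(W₁ w + (n + 1) * Real.log q)) = Real.exp (-W₁ w) * (q ^ (n + 1))⁻¹ := by
      rw [neg_add, Real.exp_add, show -((n + 1 : ℝ) * Real.log q) = -(((n + 1 : ℕ) : ℝ) *
        Real.log q) by push_cast; ring, Real.exp_neg ((((n + 1 : ℕ) : ℝ)) * _), Real.exp_nat_mul,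
        Real.exp_log hq0]
    rw [he]
    have h3 : 1 ≤ K * (Real.exp (-W₁ w) * (q ^ (n + 1))⁻¹ * Ω w) := by
      have h4 : Real.exp (-B) ≤ Real.exp (-W₁ w) := Real.exp_le_exp.2 (by linarith [hW w hw])
      have h5 : (((L ^ 2 + 1) * ε ^ 2) ^ (n + 1))⁻¹ ≤ (q ^ (n + 1))⁻¹ := by
        gcongr
      have h6 : K * (Real.exp (-B) * (((L ^ 2 + 1) * ε ^ 2) ^ (n + 1))⁻¹ * o) = 1 := by
        rw [hK, Real.exp_neg]
        have : Real.exp B ≠ 0 := (Real.exp_pos B).ne'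
        field_simp
      rw [← h6]
      have h7 := hΩ w hw
      gcongr
    calc ‖g w‖ ^ 2 = ‖g w‖ ^ 2 * 1 := (mul_one _).symm
      _ ≤ ‖g w‖ ^ 2 * (K * (Real.exp (-W₁ w) * (q ^ (n + 1))⁻¹ * Ω w)) :=
        mul_le_mul_of_nonneg_left h3 (sq_nonneg _)
      _ = _ := by ring
  have h1 : ∫⁻ w in {w : Cn n | nsq (w - z₀) ≤ ε ^ 2}, ENNReal.ofReal (‖g w‖ ^ 2) ≤
      ENNReal.ofReal (K * I) := by
    calc ∫⁻ w in {w : Cn n | nsq (w - z₀) ≤ ε ^ 2}, ENNReal.ofReal (‖g w‖ ^ 2) ≤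
        ∫⁻ w in {w : Cn n | nsq (w - z₀) ≤ ε ^ 2}, ENNReal.ofReal K * ENNReal.ofReal (‖g w‖ ^ 2 *
          Real.exp (-(W₁ w + (n + 1) * Real.log (nsq (F w - F z₀) + ε ^ 2))) * Ω w) := by
          refine setLIntegral_mono' (isCompact_ball z₀ ε).measurableSet fun w hw => ?_
          rw [← ENNReal.ofReal_mul hKp.le]
          exact ENNReal.ofReal_le_ofReal (hpt w hw)
      _ = ENNReal.ofReal K * ∫⁻ w in {w : Cn n | nsq (w - z₀) ≤ ε ^ 2}, ENNReal.ofReal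
          (‖g w‖ ^ 2 * Real.exp (-(W₁ w + (n + 1) * Real.log (nsq (F w - F z₀) + ε ^ 2))) *
            Ω w) := lintegral_const_mul' _ _ ENNReal.ofReal_ne_top
      _ ≤ ENNReal.ofReal K * ENNReal.ofReal I := mul_le_mul_right hint _
      _ = ENNReal.ofReal (K * I) := (ENNReal.ofReal_mul hKp.le).symm
  have h2 := mean_sq_lint hV hg hε hsub (by positivity) h1
  rw [← hv] at h2
  have hεn : 0 < ε ^ (2 * n) := by positivity
  have h3 : ‖g z₀‖ ^ 2 ≤ K * I / (ε ^ (2 * n) * v) := by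
    rw [le_div_iff₀ (by positivity)]
    linarith
  refine h3.trans (le_of_eq ?_)
  rw [hK, mul_pow, show (ε ^ 2) ^ (n + 1) = ε ^ (2 * n) * ε ^ 2 by rw [← pow_mul]; ring]
  field_simp

/-! ### The weight of the pole -/

open Pool.Agent.KRFX.NC (D_nsq D_ip fs fs_nonneg contDiff_nsq contDiff_ip ip_J_J)
open Pool.Agent.KRFS.ABP (ip ip_self)

theorem pos_pole (a : Cn n) {ε : ℝ} (hε : ε ≠ 0) (y : Cn n) : 0 < nsq (y - a) + ε ^ 2 := by
  have h1 := Fb.nsq_nonneg (y - a)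
  positivity

theorem contDiff_logpole (a : Cn n) {ε : ℝ} (hε : ε ≠ 0) :
    ContDiff ℝ ∞ fun y : Cn n => Real.log (nsq (y - a) + ε ^ 2) :=
  ((contDiff_nsq.comp (contDiff_id.sub contDiff_const)).add contDiff_const).log fun y =>
    (pos_pole a hε y).ne'

theorem D_logpole (a : Cn n) {ε : ℝ} (hε : ε ≠ 0) (y u : Cn n) :
    D u (fun y => Real.log (nsq (y - a) + ε ^ 2)) y = 2 * ip (y - a) u / (nsq (y - a) + ε ^ 2) := by
  have h1 : HasFDerivAt (fun y : Cn n => nsq (y - a) + ε ^ 2) (fderiv ℝ nsq (y - a)) y := by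
    have h0 : HasFDerivAt (nsq : Cn n → ℝ) (fderiv ℝ nsq (y - a)) (y - a) :=
      (contDiff_nsq.differentiable (by simp) (y - a)).hasFDerivAt
    exact (h0.comp y ((hasFDerivAt_id y).sub_const a)).add_const _
  have h2 := (h1.log (pos_pole a hε y).ne').fderiv
  unfold D
  rw [h2]
  have h3 := D_nsq (y - a) u
  unfold D at h3
  simp only [smul_apply, smul_eq_mul, h3]
  field_simp

theorem DD_logpole (a : Cn n) {ε : ℝ} (hε : ε ≠ 0) (y u : Cn n) :
    D u (D u fun y => Real.log (nsq (y - a) + ε ^ 2)) y =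
      (2 * nsq u * (nsq (y - a) + ε ^ 2) - 4 * ip (y - a) u ^ 2) /
        (nsq (y - a) + ε ^ 2) ^ 2 := by
  have h1 : (D u fun y : Cn n => Real.log (nsq (y - a) + ε ^ 2)) =
      fun y => 2 * ip (y - a) u / (nsq (y - a) + ε ^ 2) := by
    funext y'
    exact D_logpole a hε y' u
  have hp := (pos_pole a hε y).ne'
  unfold D at h1 ⊢
  rw [h1]
  have h2 : HasFDerivAt (fun y : Cn n => nsq (y - a) + ε ^ 2) (fderiv ℝ nsq (y - a)) y := by
    have h0 : HasFDerivAt (nsq : Cn n → ℝ) (fderiv ℝ nsq (y - a)) (y - a) :=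
      (contDiff_nsq.differentiable (by simp) (y - a)).hasFDerivAt
    exact (h0.comp y ((hasFDerivAt_id y).sub_const a)).add_const _
  have h3 : HasFDerivAt (fun y : Cn n => ip (y - a) u) (fderiv ℝ (fun z => ip z u) (y - a)) y := by
    have h0 : HasFDerivAt (fun z : Cn n => ip z u) (fderiv ℝ (fun z => ip z u) (y - a)) (y - a) :=
      ((contDiff_ip u).differentiable (by simp) (y - a)).hasFDerivAt
    exact h0.comp y ((hasFDerivAt_id y).sub_const a)
  have h8 : HasFDerivAt (fun y : Cn n => (nsq (y - a) + ε ^ 2)⁻¹)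
      (-((nsq (y - a) + ε ^ 2) ^ 2)⁻¹ • fderiv ℝ nsq (y - a)) y :=
    (hasDerivAt_inv hp).comp_hasFDerivAt y h2
  have h4 := ((h3.const_mul 2).fun_mul h8).fderiv
  have h7 : (fun y : Cn n => 2 * ip (y - a) u / (nsq (y - a) + ε ^ 2)) =
      fun y => 2 * ip (y - a) u * (nsq (y - a) + ε ^ 2)⁻¹ := by
    funext z
    rw [div_eq_mul_inv]
  rw [h7, h4]
  have h5 := D_nsq (y - a) u
  have h6 := D_ip (y - a) u u
  unfold D at h5 h6
  simp only [smul_apply, add_apply, smul_eq_mul, h5, h6, ip_self]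
  field_simp
  ring

/-- `log (|y - a|^2 + ε^2)` is plurisubharmonic. -/
theorem levz_logpole (a : Cn n) {ε : ℝ} (hε : ε ≠ 0) (y u : Cn n) :
    0 ≤ levz (fun y => Real.log (nsq (y - a) + ε ^ 2)) u y := by
  unfold levz
  rw [DD_logpole a hε, DD_logpole a hε]
  have h1 : nsq (J u) = nsq u := by
    rw [← ip_self, ← ip_self, ip_J_J]
  have h2 := fs_nonneg (y - a) u
  unfold fs at h2
  have h3 := Fb.nsq_nonneg u
  have h4 : 0 ≤ nsq u * ε ^ 2 := by positivity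
  rw [h1, ← add_div, div_div]
  refine div_nonneg ?_ (by positivity)
  nlinarith

end HM

end Pool.Agent.KRFZ

end
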