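import Pool.Agent.Work.MP_a2bf38_gt.Fu.X.LocComp
import Pool.Agent.Work.MP_a2bf38_gt.Fu.G.Chart2
import Pool.Agent.Work.MP_a2bf38_gt.Fu.I.NatLin
import Pool.Agent.Work.MP_a2bf38_gt.Fu.I.NatFlow2
import Pool.Agent.Work.MP_a2bf38_gt.Fu.H.BoundLin

section

/-!
# Curves and the Łojasiewicz inequality in the refined charts
-/

open scoped ContDiff ENNReal ComplexOrder Topology
open Set MeasureTheory Filter Pool.Agent.ToricKRF Pool.Agent.ToricKRF.G Pool.Agent.KRFS
  Pool.Agent.KRFF Pool.Agent.KRFG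

namespace Pool.Agent.KRFZ

section HolD

variable {n m : ℕ}

theorem HolD.comp {H : Cn n → Cn m} {S : Set (Cn n)} (hS : IsOpen S) (hH : HolOn H S)
    {g : ℂ → Cn n} {U : Set ℂ} (hU : IsOpen U) (hg : HolD g U) (h : MapsTo g U S) :
    HolD (fun s => H (g s)) U := by
  refine ⟨hH.1.comp hg.smooth h, fun s hs => ?_⟩
  have h1 : fderiv ℝ (fun s => H (g s)) s = (fderiv ℝ H (g s)).comp (fderiv ℝ g s) :=
    fderiv_comp s (NF.diffAt hS hH.1 (h hs)) (NF.diffAt hU hg.smooth hs)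
  rw [h1, ContinuousLinearMap.comp_apply, ContinuousLinearMap.comp_apply, hg.holo s hs,
    hH.2 _ (h hs)]

theorem HolD.congr {g g' : ℂ → Cn n} {U : Set ℂ} (hU : IsOpen U) (hg : HolD g U)
    (h : EqOn g' g U) : HolD g' U := by
  refine ⟨hg.smooth.congr h, fun s hs => ?_⟩
  have h1 : g' =ᶠ[𝓝 s] g := by
    filter_upwards [hU.mem_nhds hs] with x hx
    exact h hx
  rw [h1.fderiv_eq]
  exact hg.holo s hs

theorem HolD.mono {g : ℂ → Cn n} {U U' : Set ℂ} (hg : HolD g U) (h : U' ⊆ U) : HolD g U' :=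
  ⟨hg.smooth.mono h, fun s hs => hg.holo s (h hs)⟩

end HolD

theorem lapC_congr {G G' : ℂ → ℝ} {s : ℂ} (h : G =ᶠ[𝓝 s] G') : lapC G s = lapC G' s := by
  unfold lapC
  rw [LC.D_D_congr _ _ h, LC.D_D_congr _ _ h]

section Refine

variable {M : Type} [MetricSpace M] {n : ℕ} {κ κ' : Type}
  {e : κ → OpenPartialHomeomorph M (Cn n)} {e' : κ' → OpenPartialHomeomorph M (Cn n)}
  {σ : κ' → κ} {T : ℝ} {ψ : κ → ℝ × Cn n → ℝ}

/-- one section in the new charts -/
theorem sect_refine (he : IsAtlas e) (hψ : IsKRF e T ψ) (hT : 0 < T) (h : IsRefinement e e' σ)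
    {s : ℂ} {r : ℝ} {c : κ} {c' : κ'} {g : ℂ → Cn n} (hg : HolD g (Metric.ball s r))
    (hm : ∀ s' ∈ Metric.ball s r, g s' ∈ (e c).target)
    (hm' : ∀ s' ∈ Metric.ball s r, (e c).symm (g s') ∈ (e' c').source) :
    HolD (fun s' => e' c' ((e c).symm (g s'))) (Metric.ball s r) ∧
      ∀ s' ∈ Metric.ball s r,
        lev (newψ e e' σ ψ c') (fderiv ℝ (fun s' => e' c' ((e c).symm (g s'))) s' 1)
          (0, e' c' ((e c).symm (g s'))) = lev (ψ c) (fderiv ℝ g s' 1) (0, g s') := by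
  have hB : IsOpen (Metric.ball s r) := Metric.isOpen_ball
  have hd : ∀ s' ∈ Metric.ball s r, g s' ∈ dom e c (σ c') := fun s' hs' =>
    ⟨hm s' hs', h.sub c' (hm' s' hs')⟩
  have h1 : HolD (fun s' => tr e c (σ c') (g s')) (Metric.ball s r) :=
    HolD.comp (isOpen_dom _ _) (he.holo _ _) hB hg hd
  have hsymm : ∀ s' ∈ Metric.ball s r,
      (e (σ c')).symm (tr e c (σ c') (g s')) = (e c).symm (g s') := fun s' hs' =>
    (e (σ c')).left_inv (hd s' hs').2
  have h2 : HolD (fun s' => e' c' ((e (σ c')).symm (tr e c (σ c') (g s')))) (Metric.ball s r) := by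
    refine HolD.comp (isOpen_dom' c') (h.holo' c') hB h1 fun s' hs' => ?_
    refine ⟨(e (σ c')).map_source (hd s' hs').2, ?_⟩
    rw [hsymm s' hs']
    exact hm' s' hs'
  have h3 : HolD (fun s' => e' c' ((e c).symm (g s'))) (Metric.ball s r) := by
    refine HolD.congr hB h2 fun s' hs' => ?_
    simp only [hsymm s' hs']
  refine ⟨h3, fun s' hs' => ?_⟩
  have ht : (0 : ℝ) ∈ Ico 0 T := ⟨le_rfl, hT⟩
  have hw : e' c' ((e c).symm (g s')) ∈ (e' c').target := (e' c').map_source (hm' s' hs')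
  have hg1 : gmap e e' σ c' (e' c' ((e c).symm (g s'))) = tr e c (σ c') (g s') := by
    rw [gmap_apply (hm' s' hs')]
    rfl
  have h4 : fderiv ℝ (gmap e e' σ c') (e' c' ((e c).symm (g s')))
      (fderiv ℝ (fun s' => e' c' ((e c).symm (g s'))) s' 1) =
      fderiv ℝ (tr e c (σ c')) (g s') (fderiv ℝ g s' 1) := by
    have d1 : DifferentiableAt ℝ (fun s' => e' c' ((e c).symm (g s'))) s' :=
      NF.diffAt hB h3.smooth hs'
    have d2 : DifferentiableAt ℝ (gmap e e' σ c') (e' c' ((e c).symm (g s'))) :=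
      NF.diffAt (e' c').open_target (gmap_holo h c').1 hw
    have d3 : DifferentiableAt ℝ g s' := NF.diffAt hB hg.smooth hs'
    have d4 : DifferentiableAt ℝ (tr e c (σ c')) (g s') :=
      NF.diffAt (isOpen_dom _ _) (he.holo _ _).1 (hd s' hs')
    have e1 : fderiv ℝ (fun s' => gmap e e' σ c' (e' c' ((e c).symm (g s')))) s' =
        (fderiv ℝ (gmap e e' σ c') (e' c' ((e c).symm (g s')))).comp
          (fderiv ℝ (fun s' => e' c' ((e c).symm (g s'))) s') :=
      (HasFDerivAt.comp (g := gmap e e' σ c') (f := fun s' => e' c' ((e c).symm (g s'))) s'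
        d2.hasFDerivAt d1.hasFDerivAt).fderiv
    have e2 : fderiv ℝ (fun s' => tr e c (σ c') (g s')) s' =
        (fderiv ℝ (tr e c (σ c')) (g s')).comp (fderiv ℝ g s') := fderiv_comp s' d4 d3
    have e3 : (fun s' => gmap e e' σ c' (e' c' ((e c).symm (g s')))) =ᶠ[𝓝 s']
        fun s' => tr e c (σ c') (g s') := by
      filter_upwards [hB.mem_nhds hs'] with x hx
      rw [gmap_apply (hm' x hx)]
      rfl
    rw [e3.fderiv_eq, e2] at e1
    exact (congrArg (fun L : ℂ →L[ℝ] Cn n => L 1) e1).symm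
  rw [refine_lev hψ h ht hw, h4, hg1]
  exact (hψ.compat c (σ c') 0 ht _ (hd s' hs') _).symm

/-- a curve in the new charts -/
theorem IsCurve.refine (he : IsAtlas e) (hψ : IsKRF e T ψ) (hT : 0 < T)
    (h : IsRefinement e e' σ) {A : Set M} {C l α : ℝ} {D : ℕ} {γ : ℂ → Fin D → M}
    {ρ : M → ℝ} {s₀ s₁ : ℂ} (hc : IsCurve e ψ A C l α γ ρ s₀ s₁) :
    IsCurve e' (newψ e e' σ ψ) A C l α γ ρ s₀ s₁ where
  mem := hc.mem
  cont := hc.cont
  holder := hc.holder
  rho_cont := hc.rho_cont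
  rho_bound := hc.rho_bound
  sect := by
    obtain ⟨E, hE, hs⟩ := hc.sect
    refine ⟨E, hE, fun s hsE => ?_⟩
    obtain ⟨r, c, g, hr, hg, hm, hγ, hρ, hle⟩ := hs s hsE
    choose c' hc' using fun i => h.cover ((e (c i)).symm (g i s))
    have hev : ∀ᶠ s' in 𝓝 s, ∀ i, (e (c i)).symm (g i s') ∈ (e' (c' i)).source := by
      rw [Filter.eventually_all]
      intro i
      have hsb : s ∈ Metric.ball s r := Metric.mem_ball_self hr
      have h1 : ContinuousAt (g i) s :=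
        (hg i).smooth.continuousOn.continuousAt (Metric.isOpen_ball.mem_nhds hsb)
      have h2 : ContinuousAt (e (c i)).symm (g i s) :=
        (e (c i)).symm.continuousAt (by simpa using hm i s hsb)
      exact (ContinuousAt.comp (f := g i) h2 h1).eventually
        ((e' (c' i)).open_source.mem_nhds (hc' i))
    obtain ⟨r', hr', hb⟩ := Metric.eventually_nhds_iff_ball.1 hev
    have hsub : Metric.ball s (min r r') ⊆ Metric.ball s r :=
      Metric.ball_subset_ball (min_le_left _ _)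
    have hsub' : ∀ s' ∈ Metric.ball s (min r r'), ∀ i,
        (e (c i)).symm (g i s') ∈ (e' (c' i)).source := fun s' hs' =>
      hb s' (Metric.ball_subset_ball (min_le_right _ _) hs')
    have key := fun i => sect_refine (σ := σ) he hψ hT h (c := c i) (c' := c' i)
      ((hg i).mono hsub) (fun s' hs' => hm i s' (hsub hs')) (fun s' hs' => hsub' s' hs' i)
    refine ⟨min r r', c', fun i s' => e' (c' i) ((e (c i)).symm (g i s')), lt_min hr hr',
      fun i => (key i).1, fun i s' hs' => (e' (c' i)).map_source (hsub' s' hs' i),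
      fun s' hs' => ?_, fun i => ?_, fun i s' hs' => ?_⟩
    · obtain ⟨τ, hτ⟩ := hγ s' (hsub hs')
      refine ⟨τ, fun i => ?_⟩
      rw [hτ i, (e' (c' i)).left_inv (hsub' s' hs' i)]
    · refine ((hρ i).mono hsub).congr fun s' hs' => ?_
      simp only [(e' (c' i)).left_inv (hsub' s' hs' i)]
    · rw [(key i).2 s' hs']
      refine (hle i s' (hsub hs')).trans (le_of_eq ?_)
      refine lapC_congr ?_
      filter_upwards [Metric.isOpen_ball.mem_nhds hs'] with x hx
      rw [(e' (c' i)).left_inv (hsub' x hx i)]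

end Refine

/-- a Łojasiewicz inequality with exponent `a` -/
theorem lojAt_of {M Z : Type} [MetricSpace M] [MetricSpace Z] {f : M → Z} {C a : ℝ} (hC : 0 < C)
    (ha : 0 < a) (h : ∀ x x' : M, ∃ x₁ x₁' : M, f x₁ = f x₁' ∧
      dist x x₁ ≤ C * dist (f x) (f x') ^ a ∧ dist x' x₁' ≤ C * dist (f x) (f x') ^ a) :
    ∃ Λ, 1 ≤ Λ ∧ LojAt f Λ := by
  refine ⟨max 1 ((1 + |Real.log C|) / a), le_max_left _ _, fun l x x' hl hd => ?_⟩
  obtain ⟨x₁, x₁', h1, h2, h3⟩ := h x x'
  set L : ℝ := max 1 ((1 + |Real.log C|) / a) with hL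
  have hLa : 1 + |Real.log C| ≤ L * a := by
    have h4 : (1 + |Real.log C|) / a ≤ L := le_max_right _ _
    rwa [div_le_iff₀ ha] at h4
  have key : C * dist (f x) (f x') ^ a ≤ Real.exp (-l) := by
    have h4 : dist (f x) (f x') ^ a ≤ Real.exp (-(L * l)) ^ a :=
      Real.rpow_le_rpow dist_nonneg hd ha.le
    have h5 : Real.exp (-(L * l)) ^ a = Real.exp (-(L * l) * a) := by
      rw [← Real.exp_mul]
    have h6 : C = Real.exp (Real.log C) := (Real.exp_log hC).symm
    calc C * dist (f x) (f x') ^ a ≤ C * Real.exp (-(L * l) * a) := by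
          rw [← h5]
          exact mul_le_mul_of_nonneg_left h4 hC.le
      _ = Real.exp (Real.log C + -(L * l) * a) := by
          rw [Real.exp_add, ← h6]
      _ ≤ Real.exp (-l) := by
          apply Real.exp_le_exp.2
          have h7 : (1 + |Real.log C|) * l ≤ L * a * l :=
            mul_le_mul_of_nonneg_right hLa (by linarith)
          have h8 : |Real.log C| * 1 ≤ |Real.log C| * l :=
            mul_le_mul_of_nonneg_left hl (abs_nonneg _)
          have h9 := le_abs_self (Real.log C)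
          nlinarith
  exact ⟨x₁, x₁', h1, h2.trans key, h3.trans key⟩

end Pool.Agent.KRFZ

end

section

/-!
# The map and the limit class in the refined charts

`e'` is a refinement of the atlas `e` of `M`, and `q' j = r_j⁻¹ (q - q(z_j))` are the scaled
embeddings of `Z`, with the potentials `K' j y = K (q(z_j) + r_j y)`.
-/

open scoped ContDiff ENNReal ComplexOrder Topology
open Set Filter Pool.Agent.ToricKRF Pool.Agent.ToricKRF.G Pool.Agent.KRFS Pool.Agent.KRFF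

namespace Pool.Agent.KRFZ

namespace NP

theorem isOpen_nsq {m : ℕ} (r : ℝ) : IsOpen {y : Cn m | nsq y < r} := by
  have h : Continuous (nsq : Cn m → ℝ) := by
    unfold nsq dotProduct
    fun_prop
  exact isOpen_lt h continuous_const

theorem levz_zero {m : ℕ} (K : Cn m → ℝ) (y : Cn m) : levz K 0 y = 0 := by
  simp [levz, D, J, Prod.mk_zero_zero]

/-- the form of a scaled potential -/
theorem levz_scale {m : ℕ} {K : Cn m → ℝ} {O : Set (Cn m)} (hO : IsOpen O)
    (hK : ContDiffOn ℝ ∞ K O) (y₀ : Cn m) (r : ℝ) {y : Cn m} (hy : y₀ + r • y ∈ O) (u : Cn m) :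
    levz (fun y => K (y₀ + r • y)) u y = levz K (r • u) (y₀ + r • y) := by
  have h := levz_comp hO hK isOpen_univ (NT.hol_scale r y₀ univ) (mem_univ y) hy u
  rw [h]
  congr 1
  rw [fderiv_const_add]
  have h2 : fderiv ℝ (fun z : Cn m => r • z) y = r • ContinuousLinearMap.id ℝ (Cn m) :=
    (r • ContinuousLinearMap.id ℝ (Cn m)).fderiv
  rw [h2]
  simp

theorem holC_comp {n m : ℕ} {G : Cn m → ℂ} {S' : Set (Cn m)} (hS' : IsOpen S')
    (hG : NF.HolC G S') {H : Cn n → Cn m} {S : Set (Cn n)} (hS : IsOpen S) (hH : HolOn H S)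
    (h : MapsTo H S S') : NF.HolC (fun z => G (H z)) S := by
  refine ⟨hG.1.comp hH.1 h, fun z hz u => ?_⟩
  have h1 : fderiv ℝ (fun z => G (H z)) z = (fderiv ℝ G (H z)).comp (fderiv ℝ H z) :=
    fderiv_comp z (NF.diffAt hS' hG.1 (h hz)) (NF.diffAt hS hH.1 hz)
  rw [h1, ContinuousLinearMap.comp_apply, ContinuousLinearMap.comp_apply, hH.2 z hz,
    hG.2 _ (h hz)]

section

variable {M Z : Type} [MetricSpace M] [MetricSpace Z] {n N : ℕ} {κ κ' P P' : Type}
  {e : κ → OpenPartialHomeomorph M (Cn n)} {e' : κ' → OpenPartialHomeomorph M (Cn n)} {σ : κ' → κ}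
  {U : P → Set Z} {q : P → Z → Cn N} {O : P → Set (Cn N)} {K : P → Cn N → ℝ} {f : M → Z}
  {T : ℝ} {ψ : κ → ℝ × Cn n → ℝ} {Ω : κ → Cn n → ℝ}

theorem isOpen_fdom (hf : Continuous f) {V : Set Z} (hV : IsOpen V) (c : κ') :
    IsOpen {x | x ∈ (e' c).target ∧ f ((e' c).symm x) ∈ V} :=
  (e' c).isOpen_inter_preimage_symm (hV.preimage hf)

/-! ### The flow -/

section Flow

theorem psi_smooth (hT : 0 < T) (hψ : IsKRF e T ψ) (c : κ) :
    ContDiffOn ℝ ∞ (fun z => ψ c (0, z)) (e c).target := by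
  obtain ⟨U, hU, hsub, hs⟩ := hψ.smooth c
  exact hs.comp (contDiff_const.prodMk contDiff_id).contDiffOn fun z hz => hsub ⟨⟨le_rfl, hT⟩, hz⟩

theorem log_smooth (hΩ : IsVolume e ψ Ω) (c : κ) :
    ContDiffOn ℝ ∞ (fun z => Real.log (Ω c z)) (e c).target :=
  (hΩ.smooth c).log fun z hz => (hΩ.pos c z hz).ne'

/-- `Θ` is smooth -/
theorem theta_smooth (hT : 0 < T) (hψ : IsKRF e T ψ) (hΩ : IsVolume e ψ Ω) (c : κ) :
    ContDiffOn ℝ ∞ (fun z => ψ c (0, z) + T * Real.log (Ω c z)) (e c).target :=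
  (psi_smooth hT hψ c).add (contDiffOn_const.mul (log_smooth hΩ c))

theorem theta_eq (hT : 0 < T) (hψ : IsKRF e T ψ) (hΩ : IsVolume e ψ Ω) (c : κ) {z : Cn n}
    (hz : z ∈ (e c).target) (u : Cn n) :
    lev (ψ c) u (0, z) + T * levz (fun z => Real.log (Ω c z)) u z =
      levz (fun z => ψ c (0, z) + T * Real.log (Ω c z)) u z := by
  have hC : ∀ {g : Cn n → ℝ}, ContDiffOn ℝ ∞ g (e c).target → ContDiffAt ℝ 2 g z := fun hg =>
    (hg.contDiffAt ((e c).open_target.mem_nhds hz)).of_le two_le_infty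
  obtain ⟨U, hU, hsub, hs⟩ := hψ.smooth c
  rw [Bd.levz_add (hC (psi_smooth hT hψ c)) (hC (contDiffOn_const.mul (log_smooth hΩ c))),
    Bd.levz_const_mul T (hC (log_smooth hΩ c)), levz_slice hU hs (hsub ⟨⟨le_rfl, hT⟩, hz⟩)]

/-- the limit form is nonnegative -/
theorem limit_nonneg (hq : IsKahlerSpace U q O K) (hf : IsHolConn e U q f)
    (hl : IsSemiampleLimit e U q f T ψ Ω K) (c : κ) {z : Cn n} (hz : z ∈ (e c).target) (u : Cn n) :
    0 ≤ lev (ψ c) u (0, z) + T * levz (fun z => Real.log (Ω c z)) u z := by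
  obtain ⟨j, hj⟩ := hq.cover (f ((e c).symm z))
  rw [hl.eq c j z ⟨hz, hj⟩ u]
  have h1 := levz_comp (hq.isOpen' j) (hq.smooth j) (isOpen_fdom hf.cont (hq.isOpen j) c)
    (hf.holo c j) (z := z) ⟨hz, hj⟩ (hq.mem j _ hj) u
  have h2 : levz (fun z => K j (fmap e q f c j z)) u z = _ := h1
  rw [h2]
  by_cases hu : fderiv ℝ (fmap e q f c j) z u = 0
  · rw [hu, levz_zero]
  · exact (hq.psh j _ (hq.mem j _ hj) _ hu).le

/-- the limit form in the refined charts -/
theorem limit_refine (hT : 0 < T) (hψ : IsKRF e T ψ) (hΩ : IsVolume e ψ Ω)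
    (h : IsRefinement e e' σ) (c : κ') {w : Cn n} (hw : w ∈ (e' c).target) (u : Cn n) :
    lev (newψ e e' σ ψ c) u (0, w) + T * levz (fun w => Real.log (newΩ e e' σ Ω c w)) u w =
      lev (ψ (σ c)) (fderiv ℝ (gmap e e' σ c) w u) (0, gmap e e' σ c w) +
        T * levz (fun z => Real.log (Ω (σ c) z)) (fderiv ℝ (gmap e e' σ c) w u)
          (gmap e e' σ c w) := by
  rw [refine_lev hψ h ⟨le_rfl, hT⟩ hw, refine_log hΩ h hw]

/-- the flow in the refined charts, with `Θ = ψ(0) + T log Ω` -/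
noncomputable def flow (he : IsAtlas e) (hT : 0 < T) (hψ : IsKRF e T ψ)
    (hq : IsKahlerSpace U q O K) (hf : IsHolConn e U q f)
    (hl : IsSemiampleLimit e U q f T ψ Ω K) (h : IsRefinement e e' σ) : Flow n M κ' T where
  e := e'
  ψ := newψ e e' σ ψ
  Ω := newΩ e e' σ Ω
  Θ := fun c z => newψ e e' σ ψ c (0, z) + T * Real.log (newΩ e e' σ Ω c z)
  atlas := refine_atlas he h
  krf := refine_krf he hψ h
  vol := refine_vol he hT hψ hl.volume h
  smooth := theta_smooth hT (refine_krf he hψ h) (refine_vol he hT hψ hl.volume h)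
  psh := by
    intro c z hz u
    rw [← theta_eq hT (refine_krf he hψ h) (refine_vol he hT hψ hl.volume h) c hz u,
      limit_refine hT hψ hl.volume h c hz u]
    exact limit_nonneg hq hf hl (σ c) (gmap_mem h hz) _
  theta := fun c z hz u =>
    theta_eq hT (refine_krf he hψ h) (refine_vol he hT hψ hl.volume h) c hz u

end Flow

/-! ### The map -/

section Map

variable {sig : P' → P} {z₀ : P' → Z} {r : P' → ℝ} {S : P' → Set Z} {q' : P' → Z → Cn N}
  {K' : P' → Cn N → ℝ}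

/-- `q' ∘ f` is holomorphic in the refined charts -/
theorem holo (hf : IsHolConn e U q f) (h : IsRefinement e e' σ) (hSo : ∀ j, IsOpen (S j))
    (hS : ∀ j, S j ⊆ U (sig j))
    (hq' : ∀ j z, q' j z = (r j)⁻¹ • (q (sig j) z - q (sig j) (z₀ j))) (c : κ') (j : P')
    (hU : IsOpen (U (sig j))) :
    HolOn (fun x => q' j (f ((e' c).symm x)))
      {x | x ∈ (e' c).target ∧ f ((e' c).symm x) ∈ S j} := by
  have hop : IsOpen {x | x ∈ (e' c).target ∧ f ((e' c).symm x) ∈ S j} :=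
    isOpen_fdom hf.cont (hSo j) c
  have h1 : HolOn (gmap e e' σ c) {x | x ∈ (e' c).target ∧ f ((e' c).symm x) ∈ S j} :=
    NF.holOn_mono (gmap_holo h c) fun x hx => hx.1
  have h2 : HolOn (fun x => fmap e q f (σ c) (sig j) (gmap e e' σ c x))
      {x | x ∈ (e' c).target ∧ f ((e' c).symm x) ∈ S j} := by
    refine NF.holOn_comp (isOpen_fdom hf.cont hU (σ c)) (hf.holo (σ c) (sig j)) hop h1 ?_
    intro x hx
    refine ⟨gmap_mem h hx.1, ?_⟩
    rw [symm_gmap h hx.1]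
    exact hS j hx.2
  have h3 := NT.hol_add_smul hop h2 (r j)⁻¹ (-((r j)⁻¹ • q (sig j) (z₀ j)))
  refine NF.holOn_congr hop h3 fun x hx => ?_
  simp only [fmap, symm_gmap h hx.1, hq', smul_sub]
  abel

/-- the scaled potentials are smooth -/
theorem smooth (hq : IsKahlerSpace U q O K)
    (hO : ∀ j, {y : Cn N | nsq y < 100} ⊆ {y | q (sig j) (z₀ j) + r j • y ∈ O (sig j)})
    (hK' : ∀ j y, K' j y = K (sig j) (q (sig j) (z₀ j) + r j • y)) (j : P') :
    ContDiffOn ℝ ∞ (K' j) {y | nsq y < 100} := by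
  have h1 : ContDiffOn ℝ ∞ (fun y => K (sig j) (q (sig j) (z₀ j) + r j • y))
      {y | nsq y < 100} := by
    refine (hq.smooth (sig j)).comp ?_ (hO j)
    fun_prop
  exact h1.congr fun y _ => hK' j y

/-- the scaled potentials are strictly plurisubharmonic -/
theorem psh (hq : IsKahlerSpace U q O K) (hr : ∀ j, 0 < r j)
    (hO : ∀ j, {y : Cn N | nsq y < 100} ⊆ {y | q (sig j) (z₀ j) + r j • y ∈ O (sig j)})
    (hK' : ∀ j y, K' j y = K (sig j) (q (sig j) (z₀ j) + r j • y)) (j : P') (y : Cn N)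
    (hy : nsq y < 100) (u : Cn N) (hu : u ≠ 0) : 0 < levz (K' j) u y := by
  have h1 : K' j = fun y => K (sig j) (q (sig j) (z₀ j) + r j • y) := funext (hK' j)
  rw [h1, levz_scale (hq.isOpen' _) (hq.smooth _) _ _ (hO j hy)]
  exact hq.psh _ _ (hO j hy) _ (smul_ne_zero (hr j).ne' hu)

/-- the limit form is the pull-back -/
theorem eq (hT : 0 < T) (hψ : IsKRF e T ψ) (hq : IsKahlerSpace U q O K)
    (hf : IsHolConn e U q f) (hl : IsSemiampleLimit e U q f T ψ Ω K) (h : IsRefinement e e' σ)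
    (hr : ∀ j, 0 < r j) (hS : ∀ j, S j ⊆ U (sig j))
    (hq' : ∀ j z, q' j z = (r j)⁻¹ • (q (sig j) z - q (sig j) (z₀ j)))
    (hK' : ∀ j y, K' j y = K (sig j) (q (sig j) (z₀ j) + r j • y)) (c : κ') (j : P') (x : Cn n)
    (hx : x ∈ (e' c).target) (hfx : f ((e' c).symm x) ∈ S j) (u : Cn n) :
    lev (newψ e e' σ ψ c) u (0, x) + T * levz (fun x => Real.log (newΩ e e' σ Ω c x)) u x =
      levz (fun x => K' j (q' j (f ((e' c).symm x)))) u x := by
  have hm : gmap e e' σ c x ∈ fdom e U f (σ c) (sig j) := by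
    refine ⟨gmap_mem h hx, ?_⟩
    rw [symm_gmap h hx]
    exact hS j hfx
  rw [limit_refine hT hψ hl.volume h c hx u, hl.eq (σ c) (sig j) _ hm]
  have h1 : ∀ z, K' j (q' j z) = K (sig j) (q (sig j) z) := by
    intro z
    rw [hK', hq', smul_inv_smul₀ (hr j).ne']
    congr 1
    abel
  have hop : IsOpen (fdom e U f (σ c) (sig j)) := isOpen_fdom hf.cont (hq.isOpen _) (σ c)
  have hsm : ContDiffOn ℝ ∞ (fun z => K (sig j) (fmap e q f (σ c) (sig j) z))
      (fdom e U f (σ c) (sig j)) :=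
    (hq.smooth (sig j)).comp (hf.holo (σ c) (sig j)).1 fun z hz => hq.mem _ _ hz.2
  rw [← levz_comp hop hsm (e' c).open_target (gmap_holo h c) hx hm u]
  refine levz_congr_ev ?_ u
  filter_upwards [(e' c).open_target.mem_nhds hx] with w hw
  rw [h1, fmap, symm_gmap h hw]

/-- the difference of the potentials -/
theorem compat (hf : IsHolConn e U q f) (h : IsRefinement e e' σ) (hUo : ∀ j, IsOpen (U j))
    (hSo : ∀ j, IsOpen (S j)) (hS : ∀ j, S j ⊆ U (sig j))
    (hq' : ∀ j z, q' j z = (r j)⁻¹ • (q (sig j) z - q (sig j) (z₀ j)))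
    (hc : ∀ i j z, z ∈ S i → z ∈ S j → ∃ (W : Set Z) (A : Set (Cn N)) (G : Cn N → ℂ),
      IsOpen W ∧ z ∈ W ∧ W ⊆ S i ∩ S j ∧ IsOpen A ∧ NF.HolC G A ∧ (∀ z' ∈ W, q' i z' ∈ A) ∧
      ∀ z' ∈ W, K' i (q' i z') - K' j (q' j z') = (G (q' i z')).re) (i j : P') (z : Z)
    (hi : z ∈ S i) (hj : z ∈ S j) :
    ∃ (W : Set Z) (G : Z → ℂ), IsOpen W ∧ z ∈ W ∧ W ⊆ S i ∩ S j ∧
      (∀ c, NF.HolC (fun x => G (f ((e' c).symm x)))
        {x | x ∈ (e' c).target ∧ f ((e' c).symm x) ∈ W}) ∧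
      ∀ z' ∈ W, K' i (q' i z') - K' j (q' j z') = (G z').re := by
  obtain ⟨W, A, G, hW, hz, hsub, hA, hG, hm, hre⟩ := hc i j z hi hj
  refine ⟨W, fun z' => G (q' i z'), hW, hz, hsub, fun c => ?_, hre⟩
  have h1 : HolOn (fun x => q' i (f ((e' c).symm x)))
      {x | x ∈ (e' c).target ∧ f ((e' c).symm x) ∈ W} :=
    NF.holOn_mono (holo hf h hSo hS hq' c i (hUo _)) fun x hx => ⟨hx.1, (hsub hx.2).1⟩
  exact holC_comp hA hG (isOpen_fdom hf.cont hW c) h1 fun x hx => hm _ hx.2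

/-- the embeddings in the refined charts -/
theorem emb (hf : IsHolConn e U q f) (h : IsRefinement e e' σ) (hUo : ∀ j, IsOpen (U j))
    (hSo : ∀ j, IsOpen (S j)) (hS : ∀ j, S j ⊆ U (sig j))
    (hq' : ∀ j z, q' j z = (r j)⁻¹ • (q (sig j) z - q (sig j) (z₀ j)))
    (qcont : ∀ j, ContinuousOn (q' j) (S j)) (inj : ∀ j, InjOn (q' j) (S j))
    (lt : ∀ j, ∀ z ∈ S j, nsq (q' j z) < 100)
    (compact : ∀ j, ∀ R < 100, IsCompact {z | z ∈ S j ∧ nsq (q' j z) ≤ R})
    (cover : ∀ z, ∃ j, z ∈ S j ∧ nsq (q' j z) ≤ 1) : IsEmb e' S q' f where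
  cont := hf.cont
  surj := hf.surj
  isOpen := hSo
  qcont := qcont
  inj := inj
  lt := lt
  compact := compact
  cover := cover
  holo := fun c j => holo hf h hSo hS hq' c j (hUo _)

/-- the limit class in the refined charts -/
theorem pull (hT : 0 < T) (hψ : IsKRF e T ψ) (hq : IsKahlerSpace U q O K)
    (hf : IsHolConn e U q f) (hl : IsSemiampleLimit e U q f T ψ Ω K) (h : IsRefinement e e' σ)
    (hr : ∀ j, 0 < r j) (hSo : ∀ j, IsOpen (S j)) (hS : ∀ j, S j ⊆ U (sig j))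
    (hq' : ∀ j z, q' j z = (r j)⁻¹ • (q (sig j) z - q (sig j) (z₀ j)))
    (hO : ∀ j, {y : Cn N | nsq y < 100} ⊆ {y | q (sig j) (z₀ j) + r j • y ∈ O (sig j)})
    (hK' : ∀ j y, K' j y = K (sig j) (q (sig j) (z₀ j) + r j • y))
    (hc : ∀ i j z, z ∈ S i → z ∈ S j → ∃ (W : Set Z) (A : Set (Cn N)) (G : Cn N → ℂ),
      IsOpen W ∧ z ∈ W ∧ W ⊆ S i ∩ S j ∧ IsOpen A ∧ NF.HolC G A ∧ (∀ z' ∈ W, q' i z' ∈ A) ∧
      ∀ z' ∈ W, K' i (q' i z') - K' j (q' j z') = (G (q' i z')).re) :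
    IsPull e' S q' f T (newψ e e' σ ψ) (newΩ e e' σ Ω) K' where
  smooth := smooth hq hO hK'
  psh := psh hq hr hO hK'
  eq := fun c j x hx hfx u => eq hT hψ hq hf hl h hr hS hq' hK' c j x hx hfx u
  compat := fun i j z hi hj => compat hf h hq.isOpen hSo hS hq' hc i j z hi hj

end Map

end

end NP

end Pool.Agent.KRFZ

end
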