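import Pool.Agent.Work.MP_a2bf38_gt.Fu.I.NatFlow2
import Pool.Agent.Work.MP_a2bf38_gt.Fu.MaxP
import Pool.Agent.Work.MP_a2bf38_gt.Fu.X.LocComp
import Pool.Agent.Work.MP_a2bf38_gt.Fu.Z.Pole

section

/-!
# The isotropic pole `log (|w - a|^2 + ε^2)`
-/

open scoped ContDiff ENNReal ComplexOrder Topology
open Set MeasureTheory Filter Pool.Agent.ToricKRF Pool.Agent.ToricKRF.G Pool.Agent.KRFS
  Pool.Agent.KRFF Pool.Agent.KRFG Pool.Agent.KRFX

namespace Pool.Agent.KRFZ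

namespace Pole

variable {m : ℕ}

theorem nsq_joinC {k l : ℕ} (u : Cn k) (y : Cn l) : nsq (joinC u y) = nsq u + nsq y := by
  simp only [nsq, dotProduct, joinC, Fin.sum_univ_add, Fin.append_left, Fin.append_right]
  ring

/-- the weight with an isotropic pole -/
noncomputable def W0 (a : Cn m) (ε : ℝ) (w : Cn m) : ℝ := Real.log (nsq (w - a) + ε ^ 2)

/-- the linear part of `w ↦ (w - a, ε)` -/
noncomputable def embL (m : ℕ) : Cn m →L[ℝ] Cn (m + 1) :=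
  ((NT.splitE m 1).symm : Cn m × Cn 1 →L[ℝ] Cn (m + 1)).comp
    ((ContinuousLinearMap.id ℝ (Cn m)).prod 0)

/-- the map `w ↦ (w - a, ε)` -/
noncomputable def emb (a : Cn m) (ε : ℝ) (w : Cn m) : Cn (m + 1) :=
  joinC (-a) (ofC fun _ : Fin 1 => (ε : ℂ)) + embL m w

theorem W0_smooth (a : Cn m) {ε : ℝ} (hε : 0 < ε) : ContDiff ℝ ∞ (W0 a ε) := by
  unfold W0
  refine ContDiff.log ?_ fun w => ?_
  · exact (NC.contDiff_nsq.comp (contDiff_id.sub contDiff_const)).add contDiff_const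
  · have := NC.nsq_nonneg (w - a)
    positivity

theorem embL_apply (w : Cn m) : embL m w = joinC w (0 : Cn 1) := rfl

theorem emb_eq (a : Cn m) (ε : ℝ) (w : Cn m) :
    emb a ε w = joinC (w - a) (ofC fun _ : Fin 1 => (ε : ℂ)) := by
  rw [emb, embL_apply, ← NT.joinC_add, add_zero, neg_add_eq_sub]

theorem nsq_emb (a : Cn m) (ε : ℝ) (w : Cn m) : nsq (emb a ε w) = nsq (w - a) + ε ^ 2 := by
  rw [emb_eq, nsq_joinC]
  congr 1
  simp [nsq, dotProduct, ofC]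
  ring

theorem emb_holOn (a : Cn m) (ε : ℝ) (S : Set (Cn m)) : HolOn (emb a ε) S :=
  NT.hol_affine (embL m) (fun u => by
    have h0 : J (0 : Cn 1) = 0 := by
      ext i <;> simp [J]
    rw [embL_apply, embL_apply, ← NT.joinC_J, h0]) _ S

theorem nsq_emb_ne (a : Cn m) {ε : ℝ} (hε : 0 < ε) (w : Cn m) : nsq (emb a ε w) ≠ 0 := by
  rw [nsq_emb]
  have := NC.nsq_nonneg (w - a)
  positivity

/-- the weight with an isotropic pole is psh -/
theorem W0_psh (a : Cn m) {ε : ℝ} (hε : 0 < ε) (w u : Cn m) : 0 ≤ levz (W0 a ε) u w := by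
  have h1 : W0 a ε = fun w => Real.log (nsq (emb a ε w)) := by
    funext w
    rw [nsq_emb]
    rfl
  have hopen : IsOpen {z : Cn (m + 1) | nsq z ≠ 0} :=
    isOpen_ne_fun NC.contDiff_nsq.continuous continuous_const
  rw [h1, levz_comp (f := fun z => Real.log (nsq z)) hopen NC.contDiffOn_log_nsq isOpen_univ
    (emb_holOn a ε univ) (mem_univ w) (nsq_emb_ne a hε w) u, NC.levz_log_nsq (nsq_emb_ne a hε w)]
  exact div_nonneg (NC.fs_nonneg _ _) (sq_nonneg _)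

end Pole

end Pool.Agent.KRFZ

end

section

/-!
# Preparations for the peak functions
-/

open scoped ContDiff ENNReal ComplexOrder Topology
open Set MeasureTheory Filter Pool.Agent.ToricKRF Pool.Agent.ToricKRF.G Pool.Agent.KRFS
  Pool.Agent.KRFF Pool.Agent.KRFG Pool.Agent.KRFE

namespace Pool.Agent.KRFZ

namespace Peak

section

variable {n N : ℕ} {M Z : Type} [MetricSpace M] [MetricSpace Z] {κ P : Type} {T : ℝ}
  (F : Semi n N M Z κ P T)

/-! ### The maximum on the fibre -/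

/-- the values of the regularization on the fibre -/
def vals (t : ℝ) (z : Z) (l : ℝ) : Set ℝ :=
  {r | ∃ c p, p ∈ (F.e c).source ∧ nsq (F.e c p) ≤ 9 ∧ F.f p = z ∧ r = F.U t c l (F.e c p)}

/-- the statement `Semi.U_bound` -/
def UBound : Prop := ∃ C, 0 ≤ C ∧ ∀ t ∈ Ico 0 T, ∀ c x l, nsq x ≤ 16 → 0 ≤ l →
    |F.U t c l x| ≤ C

/-- the statement `Semi.U_anti` -/
def UAnti : Prop := ∀ t ∈ Ico 0 T, ∀ c x, nsq x ≤ 16 → ∀ l l', 0 ≤ l → l ≤ l' →
    F.U t c l' x ≤ F.U t c l x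

variable {F}

theorem vals_bdd (hU : UBound F) {t : ℝ} (ht : t ∈ Ico 0 T) {l : ℝ} (hl : 0 ≤ l) (z : Z) :
    BddAbove (vals F t z l) := by
  obtain ⟨C, hC, h⟩ := hU
  refine ⟨C, ?_⟩
  rintro r ⟨c, p, hp, hx, hz, rfl⟩
  exact (le_abs_self _).trans (h t ht c _ l (by linarith) hl)

theorem le_mm (hU : UBound F) {t : ℝ} (ht : t ∈ Ico 0 T) {l : ℝ} (hl : 0 ≤ l) {c : κ} {p : M}
    (hp : p ∈ (F.e c).source) (hx : nsq (F.e c p) ≤ 9) :
    F.U t c l (F.e c p) ≤ F.mm t (F.f p) l :=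
  le_csSup (vals_bdd hU ht hl _) ⟨c, p, hp, hx, rfl, rfl⟩

theorem vals_nonempty (t : ℝ) (z : Z) (l : ℝ) : (vals F t z l).Nonempty := by
  obtain ⟨p, hp⟩ := F.emb.surj z
  obtain ⟨c, hc, hx⟩ := F.cover p
  exact ⟨_, c, p, hc, by linarith, hp, rfl⟩

theorem mm_anti (hU : UBound F) (hA : UAnti F) {t : ℝ} (ht : t ∈ Ico 0 T) {l l' : ℝ} (hl : 0 ≤ l)
    (h : l ≤ l') (z : Z) : F.mm t z l' ≤ F.mm t z l := by
  refine csSup_le (vals_nonempty t z l') ?_
  rintro r ⟨c, p, hp, hx, hz, rfl⟩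
  refine (hA t ht c _ (by linarith) l l' hl h).trans ?_
  have := le_mm hU ht hl hp hx
  rwa [hz] at this

theorem A_ge (hU : UBound F) (hA : UAnti F) {t : ℝ} (ht : t ∈ Ico 0 T) {l : ℝ} (hl : 0 ≤ l)
    (z : Z) : (T - t) * l + Real.exp (-(l / 2)) ≤ F.A t z l := by
  have := mm_anti hU hA ht (l := l / 2) (l' := l) (by linarith) (by linarith) z
  unfold Semi.A
  linarith

/-- the bounds of `p` which follow from `p A ≤ c₀ l` -/
theorem p_bounds (hU : UBound F) (hA : UAnti F) {t : ℝ} (ht : t ∈ Ico 0 T) {l : ℝ} (hl : 1 ≤ l)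
    {z : Z} {p c₀ : ℝ} (hp : 0 ≤ p) (h : p * F.A t z l ≤ c₀ * l) :
    p * (T - t) ≤ c₀ ∧ p * Real.exp (-l) ≤ c₀ := by
  have h1 := A_ge hU hA ht (l := l) (by linarith) z
  have hT : 0 ≤ T - t := by linarith [ht.2]
  have h2 : p * ((T - t) * l + Real.exp (-(l / 2))) ≤ c₀ * l :=
    (mul_le_mul_of_nonneg_left h1 hp).trans h
  have he := Real.exp_pos (-(l / 2))
  have h3 : p * (T - t) * l ≤ c₀ * l := by nlinarith [mul_nonneg hp he.le]
  have h4 : p * Real.exp (-(l / 2)) ≤ c₀ * l := by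
    nlinarith [mul_nonneg (mul_nonneg hp hT) (by linarith : (0 : ℝ) ≤ l)]
  refine ⟨le_of_mul_le_mul_right h3 (by linarith), ?_⟩
  -- `exp (-l) = exp (-(l/2))^2` and `l exp (-(l/2)) ≤ 1`
  have h5 : Real.exp (-l) = Real.exp (-(l / 2)) * Real.exp (-(l / 2)) := by
    rw [← Real.exp_add]
    ring_nf
  have h6 : l * Real.exp (-(l / 2)) ≤ 1 := by
    have h7 : l ≤ Real.exp (l / 2) := by
      have h8 := Real.quadratic_le_exp_of_nonneg (x := l / 2) (by linarith)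
      nlinarith [sq_nonneg (l / 2 - 1)]
    rw [Real.exp_neg, ← div_eq_mul_inv, div_le_one (Real.exp_pos _)]
    exact h7
  have hc₀ : 0 ≤ c₀ := by
    have : 0 ≤ c₀ * l := (mul_nonneg hp he.le).trans h4
    exact nonneg_of_mul_nonneg_left this (by linarith)
  calc p * Real.exp (-l) = p * Real.exp (-(l / 2)) * Real.exp (-(l / 2)) := by rw [h5]; ring
    _ ≤ c₀ * l * Real.exp (-(l / 2)) := mul_le_mul_of_nonneg_right h4 he.le
    _ = c₀ * (l * Real.exp (-(l / 2))) := by ring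
    _ ≤ c₀ * 1 := mul_le_mul_of_nonneg_left h6 hc₀
    _ = c₀ := mul_one _

/-! ### The potential near the fibre -/

variable (F) in
/-- the statement `Semi.Phi_le_U_near` -/
def PhiNear : Prop := ∃ C a, 0 ≤ C ∧ 0 ≤ a ∧ ∀ t ∈ Ico 0 T, ∀ c p p' l,
    p ∈ (F.e c).source → nsq (F.e c p) ≤ 16 → a ≤ l → dist p p' ≤ Real.exp (-l) →
    F.Phi t p' ≤ F.U t c (l - a) (F.e c p) + C * Real.exp (-l)

variable (F) in
/-- the statement `Semi.slope` -/
def Slope : Prop := ∀ t ∈ Ico 0 T, ∀ z l, 0 < l → ∀ c p, p ∈ (F.e c).source →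
    nsq (F.e c p) ≤ 9 → F.f p = z → 0 < F.A t z l ∧ F.A t z l ≤ F.G t z c l (F.e c p) ∧
    ∀ a, 0 ≤ a → a ≤ l / 2 →
      F.U t c (l - a) (F.e c p) ≤ F.U t c l (F.e c p) + 2 * a / l * F.G t z c l (F.e c p)

variable (F) in
/-- the statement `Semi.harnack` -/
def Harnack : Prop := ∃ C l₀, 0 ≤ C ∧ 1 ≤ l₀ ∧ ∀ t ∈ Ico 0 T, ∀ z l, l₀ ≤ l → ∀ c p,
    p ∈ (F.e c).source → nsq (F.e c p) ≤ 9 → F.f p = z →
    F.G t z c l (F.e c p) ≤ C * F.A t z l

theorem phi_near (hU : UBound F) (hA : UAnti F) (hN : PhiNear F) (hS : Slope F)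
    (hH : Harnack F) : ∃ B l₀, 0 ≤ B ∧ 1 ≤ l₀ ∧ ∀ t ∈ Ico 0 T, ∀ c x l, l₀ ≤ l →
      x ∈ (F.e c).source → nsq (F.e c x) ≤ 9 → ∀ p c₀, 0 ≤ p → p * F.A t (F.f x) l ≤ c₀ * l →
      ∀ x', dist x x' ≤ 2 * Real.exp (-l) →
      p * F.Phi t x' ≤ p * F.U t c l (F.e c x) + B * c₀ := by
  obtain ⟨C, a, hC, ha, hN⟩ := hN
  obtain ⟨CH, l₁, hCH, hl₁, hH⟩ := hH
  have hlog : 0 < Real.log 2 := Real.log_pos (by norm_num)
  set a₁ : ℝ := a + Real.log 2 with ha₁
  refine ⟨2 * a₁ * CH + 2 * C, max l₁ (2 * a₁), by positivity, hl₁.trans (le_max_left _ _), ?_⟩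
  intro t ht c x l hl hc hxc p c₀ hp hpA x' hd
  have hl1 : l₁ ≤ l := (le_max_left _ _).trans hl
  have hl2 : 2 * a₁ ≤ l := (le_max_right _ _).trans hl
  have hl0 : 1 ≤ l := hl₁.trans hl1
  have h1 : F.Phi t x' ≤ F.U t c (l - Real.log 2 - a) (F.e c x) +
      C * Real.exp (-(l - Real.log 2)) := by
    refine hN t ht c x x' (l - Real.log 2) hc (by linarith) (by linarith) ?_
    rw [neg_sub, sub_eq_add_neg, Real.exp_add, Real.exp_log (by norm_num)]
    exact hd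
  have h2 : C * Real.exp (-(l - Real.log 2)) = 2 * C * Real.exp (-l) := by
    rw [neg_sub, sub_eq_add_neg, Real.exp_add, Real.exp_log (by norm_num)]
    ring
  have h3 := (hS t ht (F.f x) l (by linarith) c x hc hxc rfl).2.2 a₁ (by positivity)
    (by linarith)
  have h4 := hH t ht (F.f x) l hl1 c x hc hxc rfl
  have e1 : l - Real.log 2 - a = l - a₁ := by rw [ha₁]; ring
  rw [h2, e1] at h1
  have h6 : 2 * a₁ / l * F.G t (F.f x) c l (F.e c x) ≤ 2 * a₁ / l * (CH * F.A t (F.f x) l) :=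
    mul_le_mul_of_nonneg_left h4 (by positivity)
  have h7 : F.Phi t x' ≤ F.U t c l (F.e c x) + 2 * a₁ / l * (CH * F.A t (F.f x) l) +
      2 * C * Real.exp (-l) := by
    linarith
  have h8 : p * F.Phi t x' ≤ p * F.U t c l (F.e c x) +
      p * (2 * a₁ / l * (CH * F.A t (F.f x) l)) + p * (2 * C * Real.exp (-l)) := by
    have := mul_le_mul_of_nonneg_left h7 hp
    rw [mul_add, mul_add] at this
    exact this
  have h9 : p * (2 * a₁ / l * (CH * F.A t (F.f x) l)) ≤ 2 * a₁ * CH * c₀ := by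
    have e2 : p * (2 * a₁ / l * (CH * F.A t (F.f x) l)) =
        2 * a₁ * CH / l * (p * F.A t (F.f x) l) := by ring
    rw [e2]
    calc 2 * a₁ * CH / l * (p * F.A t (F.f x) l) ≤ 2 * a₁ * CH / l * (c₀ * l) :=
          mul_le_mul_of_nonneg_left hpA (by positivity)
      _ = 2 * a₁ * CH * c₀ := by field_simp
  have h10 := (p_bounds hU hA ht hl0 hp hpA).2
  have h11 : p * (2 * C * Real.exp (-l)) ≤ 2 * C * c₀ := by
    have := mul_le_mul_of_nonneg_left h10 (by positivity : (0 : ℝ) ≤ 2 * C)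
    linarith
  linarith

end

end Peak

end Pool.Agent.KRFZ

end
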