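import Pool.Agent.Work.MP_a2bf38_gt.Fu.I.ModulusCore
import Pool.Agent.Work.MP_a2bf38_gt.Fu.I.FBound
import Pool.Agent.Work.MP_a2bf38_gt.Fu.H.Cut
import Pool.Agent.Work.MP_a2bf38_gt.Fu.I.CircleAvg
import Pool.Agent.Work.MP_a2bf38_gt.Fu.I.Ray
import Pool.Agent.Work.MP_a2bf38_gt.Fu.X.LocComp
import Pool.Agent.Work.MP_a2bf38_gt.T.Defs
import Pool.Agent.Work.MP_a2bf38_gt.Fu.I.NatLin
import Pool.Agent.Work.MP_a2bf38_gt.Fu.I.FibBasic
import Mathlib

section

/-!
# The modulus of continuity of the potentials, up to the time `T`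
-/

open scoped ContDiff ENNReal ComplexOrder Topology
open Set MeasureTheory Filter Pool.Agent.ToricKRF Pool.Agent.ToricKRF.G Pool.Agent.KRFS

namespace Pool.Agent.KRFF

variable {n : ℕ} {M : Type} [TopologicalSpace M] {κ : Type} {T : ℝ} (F : Flow n M κ T)

theorem Flow.modulus [CompactSpace M] [T2Space M] {a : ℝ} (ha : 0 < a) (ha1 : a ≤ 1)
    (hd : F.Drop a) (c : κ) {A : Set (Cn n)}
    (hA : IsCompact A) (hAt : A ⊆ (F.e c).target) :
    ∃ C : ℝ, 0 ≤ C ∧ ∀ t ∈ Ico 0 T, ∀ z v : Cn n, nsq v ≤ 1 →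
      (∀ ζ : ℂ, ‖ζ‖ ≤ 1 / 2 → line z v ζ ∈ A) → ∀ r ∈ Ioc (0 : ℝ) (1 / 4),
      cavg (fun ζ => F.ψ c (t, line z v ζ)) r - F.ψ c (t, z) ≤
        C * Real.log (1 / r) ^ (-a) :=
  F.modulus_aux ha ha1 hd c hA hAt (F.lev_le_exp c hA hAt) (fun _ ht _ hp => F.Phi_eq ht hp)
    F.Phi_mono fun hG h _ hr => cavg_sub_le hG h hr

end Pool.Agent.KRFF

end

section

/-!
# The distance of nearby points is bounded
-/

open scoped ContDiff ENNReal ComplexOrder Topology
open Set MeasureTheory Filter Pool.Agent.ToricKRF Pool.Agent.ToricKRF.G Pool.Agent.KRFS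

namespace Pool.Agent.KRFF

theorem Flow.two_points {n : ℕ} {M : Type} [TopologicalSpace M] {κ : Type} {T : ℝ}
    (F : Flow n M κ T) [CompactSpace M] [T2Space M] {a : ℝ} (ha : 0 < a) (ha1 : a ≤ 1)
    (hd : F.Drop a) (p : M) :
    ∃ C : ℝ, ∀ᶠ q in 𝓝 p, ∀ t ∈ Ico 0 T, rdist F.e F.ψ t p q ≤ ENNReal.ofReal C :=
  F.two_points_of (a := a) (fun c _ hA hAt => F.modulus ha ha1 hd c hA hAt)
    (fun C => radial_bound ha C) p

end Pool.Agent.KRFF

end

section

/-!
# Metrics which are Lipschitz equivalent to given local coordinates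
-/

open scoped ContDiff ENNReal ComplexOrder Topology
open Set Filter Pool.Agent.ToricKRF Pool.Agent.ToricKRF.G Pool.Agent.KRFS Pool.Agent.KRFF

namespace Pool.Agent.KRFZ

/-- Coordinates `a c : V c → ℂ^n` on open sets `V c` of a space, which are embeddings and locally
Lipschitz equivalent to each other. -/
structure IsCoord {X : Type} [TopologicalSpace X] {n : ℕ} {κ : Type} (V : κ → Set X)
    (a : κ → X → Cn n) : Prop where
  isOpen : ∀ c, IsOpen (V c)
  cover : ∀ p, ∃ c, p ∈ V c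
  cont : ∀ c, ContinuousOn (a c) (V c)
  inj : ∀ c, InjOn (a c) (V c)
  nhds : ∀ c, ∀ p ∈ V c, ∀ W ∈ 𝓝 p, ∃ ε > 0, ∀ p' ∈ V c, dist (a c p') (a c p) < ε → p' ∈ W
  lip : ∀ c c', ∀ p ∈ V c, p ∈ V c' → ∃ C, 0 < C ∧ ∀ᶠ x : X × X in 𝓝 (p, p),
    dist (a c' x.1) (a c' x.2) ≤ C * dist (a c x.1) (a c x.2)

namespace Tp

variable {X : Type} {n : ℕ}

/-- a cut-off function -/
noncomputable def bmp (r s : ℝ) : ℝ := max 0 (min 1 (2 - s / r))

theorem bmp_one {r s : ℝ} (hr : 0 < r) (h : s ≤ r) : bmp r s = 1 := by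
  have : s / r ≤ 1 := by rwa [div_le_one hr]
  rw [bmp, min_eq_left (by linarith), max_eq_right zero_le_one]

theorem bmp_zero {r s : ℝ} (hr : 0 < r) (h : 2 * r ≤ s) : bmp r s = 0 := by
  have : 2 ≤ s / r := by rwa [le_div_iff₀ hr]
  rw [bmp, max_eq_left]
  exact (min_le_right _ _).trans (by linarith)

theorem bmp_abs (r s : ℝ) : |bmp r s| ≤ 1 := by
  rw [bmp, abs_of_nonneg (le_max_left _ _)]
  exact max_le zero_le_one (min_le_left _ _)

theorem bmp_lip {r : ℝ} (hr : 0 < r) (s s' : ℝ) : |bmp r s - bmp r s'| ≤ |s - s'| / r := by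
  have h1 : |bmp r s - bmp r s'| ≤ |(2 - s / r) - (2 - s' / r)| := by
    unfold bmp
    refine (abs_max_sub_max_le_max _ _ _ _).trans (max_le (by simp) ?_)
    exact (abs_min_sub_min_le_max _ _ _ _).trans (max_le (by simp) le_rfl)
  refine h1.trans (le_of_eq ?_)
  rw [show (2 - s / r) - (2 - s' / r) = -((s - s') / r) by ring, abs_neg, abs_div, abs_of_pos hr]

open Classical in
/-- `(b, b (a - a p))` with a cut-off function `b` at `p` -/
noncomputable def phi (V : Set X) (a : X → Cn n) (y : Cn n) (r : ℝ) (z : X) : ℝ × Cn n :=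
  if z ∈ V then (bmp r (dist (a z) y), bmp r (dist (a z) y) • (a z - y)) else 0

theorem phi_lip {V : Set X} {a : X → Cn n} {y : Cn n} {r : ℝ} (hr : 0 < r) {z z' : X}
    (hz : z ∈ V) (hz' : z' ∈ V) {R : ℝ} (hR : dist (a z') y ≤ R) :
    dist (phi V a y r z) (phi V a y r z') ≤ (1 + (1 + R) / r) * dist (a z) (a z') := by
  have hR0 : 0 ≤ R := dist_nonneg.trans hR
  have h1 : |bmp r (dist (a z) y) - bmp r (dist (a z') y)| ≤ dist (a z) (a z') / r := by
    refine (bmp_lip hr _ _).trans ?_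
    gcongr
    exact abs_dist_sub_le _ _ _
  have hd : 0 ≤ dist (a z) (a z') := dist_nonneg
  have h0 : dist (a z) (a z') / r ≤ (1 + (1 + R) / r) * dist (a z) (a z') := by
    have : (1 + (1 + R) / r) * dist (a z) (a z') =
        dist (a z) (a z') + dist (a z) (a z') / r + R / r * dist (a z) (a z') := by
      field_simp
      ring
    rw [this]
    have : 0 ≤ R / r * dist (a z) (a z') := by positivity
    linarith
  rw [phi, phi, if_pos hz, if_pos hz', Prod.dist_eq]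
  refine max_le ?_ ?_
  · exact (le_of_eq (Real.dist_eq _ _)).trans (h1.trans h0)
  · rw [dist_eq_norm]
    have h2 : bmp r (dist (a z) y) • (a z - y) - bmp r (dist (a z') y) • (a z' - y) =
        bmp r (dist (a z) y) • (a z - a z') +
          (bmp r (dist (a z) y) - bmp r (dist (a z') y)) • (a z' - y) := by
      module
    rw [h2]
    refine (norm_add_le _ _).trans ?_
    rw [norm_smul, norm_smul, Real.norm_eq_abs, Real.norm_eq_abs, ← dist_eq_norm, ← dist_eq_norm]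
    calc |bmp r (dist (a z) y)| * dist (a z) (a z') +
          |bmp r (dist (a z) y) - bmp r (dist (a z') y)| * dist (a z') y
        ≤ 1 * dist (a z) (a z') + dist (a z) (a z') / r * R := by
          gcongr
          exact bmp_abs _ _
      _ ≤ _ := by
          have : (1 + (1 + R) / r) * dist (a z) (a z') =
              dist (a z) (a z') + dist (a z) (a z') / r + R / r * dist (a z) (a z') := by
            field_simp
            ring
          rw [this, one_mul, div_mul_comm]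
          have : 0 ≤ dist (a z) (a z') / r := by positivity
          linarith

theorem phi_of_le {V : Set X} {a : X → Cn n} {y : Cn n} {r : ℝ} (hr : 0 < r) {z : X} (hz : z ∈ V)
    (h : dist (a z) y ≤ r) : phi V a y r z = (1, a z - y) := by
  rw [phi, if_pos hz, bmp_one hr h, one_smul]

theorem phi_of_ge {V : Set X} {a : X → Cn n} {y : Cn n} {r : ℝ} (hr : 0 < r) {z : X}
    (h : z ∈ V → 2 * r ≤ dist (a z) y) : phi V a y r z = 0 := by
  by_cases hz : z ∈ V
  · rw [phi, if_pos hz, bmp_zero hr (h hz), zero_smul]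
    rfl
  · rw [phi, if_neg hz]

end Tp

open Tp

variable {X : Type} [t : TopologicalSpace X] [CompactSpace X] [T2Space X] {n : ℕ} {κ : Type}
  {V : κ → Set X} {a : κ → X → Cn n}

/-- a small ball in the coordinates around `p` -/
theorem IsCoord.exists_radius (h : IsCoord V a) {c : κ} {p : X} (hp : p ∈ V c) :
    ∃ r > 0, IsClosed {z | z ∈ V c ∧ dist (a c z) (a c p) ≤ 2 * r} := by
  obtain ⟨W, hW, hWV, hWc⟩ := LocallyCompactSpace.local_compact_nhds p (V c)
    ((h.isOpen c).mem_nhds hp)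
  obtain ⟨ε, hε, hεW⟩ := h.nhds c p hp W hW
  refine ⟨ε / 3, by positivity, ?_⟩
  have h1 : {z | z ∈ V c ∧ dist (a c z) (a c p) ≤ 2 * (ε / 3)} =
      W ∩ (a c) ⁻¹' (Metric.closedBall (a c p) (2 * (ε / 3))) := by
    ext z
    constructor
    · rintro ⟨h1, h2⟩
      exact ⟨hεW z h1 (h2.trans_lt (by linarith)), h2⟩
    · rintro ⟨h1, h2⟩
      exact ⟨hWV h1, h2⟩
  rw [h1]
  exact ((h.cont c).mono hWV).preimage_isClosed_of_isClosed hWc.isClosed Metric.isClosed_closedBall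

theorem IsCoord.exists_metric (h : IsCoord V a) : ∃ m : MetricSpace X,
    m.toPseudoMetricSpace.toUniformSpace.toTopologicalSpace = t ∧
      ∀ c, @IsLip X m n (a c) (V c) := by
  have h1 : ∀ p, ∃ c, ∃ r > 0, p ∈ V c ∧
      IsClosed {z | z ∈ V c ∧ dist (a c z) (a c p) ≤ 2 * r} := fun p => by
    obtain ⟨c, hc⟩ := h.cover p
    obtain ⟨r, hr, hcl⟩ := h.exists_radius hc
    exact ⟨c, r, hr, hc, hcl⟩
  choose c r hr hc hcl using h1
  have hN : ∀ p, {z | z ∈ V (c p) ∧ dist (a (c p) z) (a (c p) p) < r p} ∈ 𝓝 p := fun p => by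
    have h2 : ContinuousAt (a (c p)) p :=
      (h.cont (c p)).continuousAt ((h.isOpen _).mem_nhds (hc p))
    filter_upwards [(h.isOpen _).mem_nhds (hc p), h2 (Metric.ball_mem_nhds _ (hr p))] with z hz hz'
    exact ⟨hz, hz'⟩
  obtain ⟨s, -, hs⟩ := isCompact_univ.elim_nhds_subcover _ fun p _ => hN p
  set Φ : X → s → ℝ × Cn n := fun z p => phi (V (c p)) (a (c p)) (a (c p) p) (r p) z with hΦ
  -- the maps are Lipschitz in the coordinates
  have hup : ∀ c' z, z ∈ V c' → ∃ C, 0 < C ∧ ∀ᶠ x : X × X in 𝓝 (z, z),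
      dist (Φ x.1) (Φ x.2) ≤ C * dist (a c' x.1) (a c' x.2) := by
    intro c' z hz
    have h2 : ∀ p : s, ∃ C, 0 < C ∧ ∀ᶠ x : X × X in 𝓝 (z, z),
        dist (Φ x.1 p) (Φ x.2 p) ≤ C * dist (a c' x.1) (a c' x.2) := by
      intro p
      by_cases hzp : z ∈ V (c p)
      · obtain ⟨C, hC, hlip⟩ := h.lip c' (c p) z hz hzp
        set R := dist (a (c p) z) (a (c p) p) + 1 with hR
        have hR0 : 0 < R := by positivity
        refine ⟨(1 + (1 + R) / r p) * C, by have := hr p; positivity, ?_⟩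
        have h3 : ∀ᶠ x : X in 𝓝 z, x ∈ V (c p) ∧ dist (a (c p) x) (a (c p) p) ≤ R := by
          have h4 : ContinuousAt (fun x => dist (a (c p) x) (a (c p) p)) z :=
            ((h.cont (c p)).continuousAt ((h.isOpen _).mem_nhds hzp)).dist continuousAt_const
          filter_upwards [(h.isOpen _).mem_nhds hzp,
            h4.eventually (gt_mem_nhds (show dist (a (c p) z) (a (c p) p) < R by simp [hR]))]
            with x hx hx'
          exact ⟨hx, hx'.le⟩
        rw [nhds_prod_eq] at hlip ⊢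
        filter_upwards [hlip, h3.prod_mk h3] with x hx hx'
        have hd : 0 ≤ 1 + (1 + R) / r p := by have := hr p; positivity
        refine (phi_lip (hr p) hx'.1.1 hx'.2.1 hx'.2.2).trans ?_
        rw [mul_assoc]
        exact mul_le_mul_of_nonneg_left hx hd
      · refine ⟨1, one_pos, ?_⟩
        have h3 : ∀ᶠ x in 𝓝 z, Φ x p = 0 := by
          have h4 : z ∈ {z | z ∈ V (c p) ∧ dist (a (c p) z) (a (c p) p) ≤ 2 * r p}ᶜ :=
            fun h' => hzp h'.1
          filter_upwards [(hcl p).isOpen_compl.mem_nhds h4] with x hx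
          refine phi_of_ge (hr p) fun hxV => ?_
          by_contra h5
          exact hx ⟨hxV, (not_le.1 h5).le⟩
        rw [nhds_prod_eq]
        filter_upwards [h3.prod_mk h3] with x hx
        rw [hx.1, hx.2, dist_self, one_mul]
        exact dist_nonneg
    choose C hC hCe using h2
    refine ⟨1 + ∑ p, C p, by have : 0 ≤ ∑ p, C p := Finset.sum_nonneg fun p _ => (hC p).le
                             linarith, ?_⟩
    filter_upwards [eventually_all.2 hCe] with x hx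
    have h0 : 0 ≤ (1 + ∑ p, C p) * dist (a c' x.1) (a c' x.2) := by
      have : 0 ≤ ∑ p, C p := Finset.sum_nonneg fun p _ => (hC p).le
      positivity
    refine (dist_pi_le_iff h0).2 fun p => (hx p).trans ?_
    gcongr
    have := Finset.single_le_sum (f := C) (fun p _ => (hC p).le) (Finset.mem_univ p)
    linarith
  have hcov : ∀ z, ∃ p : s, z ∈ V (c p) ∧ dist (a (c p) z) (a (c p) p) < r p := by
    intro z
    obtain ⟨p, hp, hz⟩ := mem_iUnion₂.1 (hs (mem_univ z))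
    exact ⟨⟨p, hp⟩, hz⟩
  have hcont : Continuous Φ := by
    rw [continuous_iff_continuousAt]
    intro z
    obtain ⟨c', hc'⟩ := h.cover z
    obtain ⟨C, hC, hlip⟩ := hup c' z hc'
    have h3 : ContinuousAt (a c') z := (h.cont c').continuousAt ((h.isOpen _).mem_nhds hc')
    have h4 : Tendsto (fun x : X => (x, z)) (𝓝 z) (𝓝 (z, z)) :=
      (continuous_id.prodMk continuous_const).tendsto' _ _ rfl
    rw [ContinuousAt, tendsto_iff_dist_tendsto_zero]
    have h5 : Tendsto (fun x => C * dist (a c' x) (a c' z)) (𝓝 z) (𝓝 0) := by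
      have := (tendsto_iff_dist_tendsto_zero.1 h3).const_mul C
      rwa [mul_zero] at this
    exact squeeze_zero' (Eventually.of_forall fun _ => dist_nonneg) (h4.eventually hlip) h5
  have hinj : Function.Injective Φ := by
    intro z z' hzz
    obtain ⟨p, hp, hd⟩ := hcov z
    have h3 : Φ z p = (1, a (c p) z - a (c p) p) := phi_of_le (hr p) hp hd.le
    have h4 : Φ z' p = (1, a (c p) z - a (c p) p) := by rw [← hzz, h3]
    by_cases hz' : z' ∈ V (c p)
    · have h5 : Φ z' p = (bmp (r p) (dist (a (c p) z') (a (c p) p)),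
          bmp (r p) (dist (a (c p) z') (a (c p) p)) • (a (c p) z' - a (c p) p)) := if_pos hz'
      rw [h5, Prod.mk.injEq] at h4
      have h6 := h4.2
      rw [h4.1, one_smul] at h6
      exact (h.inj _ hz' hp (sub_left_injective h6)).symm
    · have h5 : Φ z' p = 0 := if_neg hz'
      rw [h5] at h4
      exact absurd (congrArg Prod.fst h4) zero_ne_one
  have hemb : Topology.IsEmbedding Φ := (hcont.isClosedEmbedding hinj).isEmbedding
  refine ⟨hemb.comapMetricSpace Φ, rfl, fun c' z hz => ?_⟩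
  obtain ⟨C, hC, hlip⟩ := hup c' z hz
  obtain ⟨p, hp, hd⟩ := hcov z
  obtain ⟨C', hC', hlip'⟩ := h.lip (c p) c' z hp hz
  have h3 : ∀ᶠ x : X in 𝓝 z, x ∈ V (c p) ∧ dist (a (c p) x) (a (c p) p) < r p := by
    have h4 : ContinuousAt (fun x => dist (a (c p) x) (a (c p) p)) z :=
      ((h.cont (c p)).continuousAt ((h.isOpen _).mem_nhds hp)).dist continuousAt_const
    filter_upwards [(h.isOpen _).mem_nhds hp, h4.eventually (gt_mem_nhds hd)] with x hx hx'
    exact ⟨hx, hx'⟩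
  have h3' : ∀ᶠ x : X × X in 𝓝 (z, z), (x.1 ∈ V (c p) ∧ dist (a (c p) x.1) (a (c p) p) < r p) ∧
      x.2 ∈ V (c p) ∧ dist (a (c p) x.2) (a (c p) p) < r p := by
    rw [nhds_prod_eq]
    exact h3.prod_mk h3
  refine ⟨max C C', lt_max_of_lt_left hC, ?_⟩
  filter_upwards [hlip, hlip', h3'] with x hx hx' hx3
  refine ⟨hx'.trans ?_, hx.trans ?_⟩
  · have h5 : dist (a (c p) x.1) (a (c p) x.2) ≤ dist (Φ x.1) (Φ x.2) := by
      refine le_trans ?_ (dist_le_pi_dist _ _ p)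
      have h6 : Φ x.1 p = (1, a (c p) x.1 - a (c p) p) := phi_of_le (hr p) hx3.1.1 hx3.1.2.le
      have h7 : Φ x.2 p = (1, a (c p) x.2 - a (c p) p) := phi_of_le (hr p) hx3.2.1 hx3.2.2.le
      rw [h6, h7]
      exact le_trans (le_of_eq (dist_sub_right (a (c p) x.1) (a (c p) x.2) (a (c p) p)).symm)
        (le_max_right (dist (1 : ℝ) 1) _)
    exact mul_le_mul (le_max_right _ _) h5 dist_nonneg (hC'.le.trans (le_max_right _ _))
  · exact mul_le_mul_of_nonneg_right (le_max_left _ _) dist_nonneg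

end Pool.Agent.KRFZ

end

section

/-!
# Metrics on complex manifolds and on complex spaces
-/

open scoped ContDiff ENNReal ComplexOrder Topology
open Set Filter Pool.Agent.ToricKRF Pool.Agent.ToricKRF.G Pool.Agent.KRFS Pool.Agent.KRFF

namespace Pool.Agent.KRFT

/-- a function which is a smooth function of the coordinates is Lipschitz in the coordinates -/
theorem lip_of_eventually {X : Type} [TopologicalSpace X] {n m : ℕ} {a : X → Cn n} {b : X → Cn m}
    {p : X} (ha : ContinuousAt a p) {G : Cn n → Cn m} (hG : ContDiffAt ℝ 1 G (a p))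
    (h : ∀ᶠ x in 𝓝 p, b x = G (a x)) : ∃ C, 0 < C ∧ ∀ᶠ x : X × X in 𝓝 (p, p),
      dist (b x.1) (b x.2) ≤ C * dist (a x.1) (a x.2) := by
  obtain ⟨C, t, ht, hC⟩ := hG.exists_lipschitzOnWith
  have h1 : ∀ᶠ x in 𝓝 p, b x = G (a x) ∧ a x ∈ t := h.and (ha ht)
  refine ⟨C + 1, by positivity, ?_⟩
  rw [nhds_prod_eq]
  filter_upwards [h1.prod_mk h1] with x hx
  rw [hx.1.1, hx.2.1]
  refine (hC.dist_le_mul _ hx.1.2 _ hx.2.2).trans ?_
  gcongr
  linarith

theorem isCoord_charts {M : Type} [TopologicalSpace M] {n : ℕ} {κ : Type}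
    {e : κ → OpenPartialHomeomorph M (Cn n)} (he : IsAtlas e) :
    KRFZ.IsCoord (fun c => (e c).source) (fun c => (e c : M → Cn n)) where
  isOpen c := (e c).open_source
  cover := he.cover
  cont c := (e c).continuousOn
  inj c := (e c).injOn
  nhds c p hp W hW := by
    have h1 : e c '' (W ∩ (e c).source) ∈ 𝓝 (e c p) :=
      (e c).image_mem_nhds hp (inter_mem hW ((e c).open_source.mem_nhds hp))
    obtain ⟨ε, hε, hsub⟩ := Metric.mem_nhds_iff.1 h1
    refine ⟨ε, hε, fun p' hp' hd => ?_⟩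
    obtain ⟨y, ⟨hyW, hys⟩, hy⟩ := hsub hd
    rwa [(e c).injOn hys hp' hy] at hyW
  lip c c' p hp hp' := by
    refine lip_of_eventually ((e c).continuousAt hp) (G := tr e c c') ?_ ?_
    · have hd : e c p ∈ dom e c c' :=
        ⟨(e c).map_source hp, by rwa [(e c).left_inv hp]⟩
      have ho : IsOpen (dom e c c') := (e c).symm.isOpen_inter_preimage (e c').open_source
      exact ((he.holo c c').1.contDiffAt (ho.mem_nhds hd)).of_le (by exact_mod_cast le_top)
    · filter_upwards [(e c).open_source.mem_nhds hp] with x hx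
      simp only [tr, (e c).left_inv hx]

theorem IsKahlerSpace.isCoord {Z : Type} [TopologicalSpace Z] {N : ℕ} {P : Type} {U : P → Set Z}
    {q : P → Z → Cn N} {O : P → Set (Cn N)} {K : P → Cn N → ℝ} (h : IsKahlerSpace U q O K) :
    KRFZ.IsCoord U q where
  isOpen := h.isOpen
  cover := h.cover
  cont j := continuousOn_iff_continuous_domRestrict.2 (h.embedding j).continuous
  inj j := injOn_iff_injective.2 (h.embedding j).injective
  nhds j z hz W hW := by
    have h1 : Subtype.val ⁻¹' W ∈ 𝓝 (⟨z, hz⟩ : U j) := continuous_subtype_val.continuousAt hW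
    rw [(h.embedding j).isInducing.nhds_eq_comap] at h1
    obtain ⟨s, hs, hsub⟩ := mem_comap.1 h1
    obtain ⟨ε, hε, hball⟩ := Metric.mem_nhds_iff.1 hs
    exact ⟨ε, hε, fun z' hz' hd => hsub (a := (⟨z', hz'⟩ : U j)) (hball hd)⟩
  lip i j z hz hz' := by
    obtain ⟨S, G, hS, hzS, hG, he⟩ := h.holo i j z ⟨hz, hz'⟩
    refine lip_of_eventually ?_ ((hG.1.contDiffAt (hS.mem_nhds hzS)).of_le
      (by exact_mod_cast le_top)) he
    exact (continuousOn_iff_continuous_domRestrict.2 (h.embedding i).continuous).continuousAt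
      ((h.isOpen i).mem_nhds hz)

end Pool.Agent.KRFT

end

section

/-!
# Unit charts of a compact complex manifold with a metric
-/

open scoped ContDiff ENNReal ComplexOrder Topology
open Set Filter Pool.Agent.ToricKRF Pool.Agent.ToricKRF.G Pool.Agent.KRFS Pool.Agent.KRFF

namespace Pool.Agent.KRFZ

namespace NM

section Ball

variable {X : Type} [TopologicalSpace X] {n : ℕ}

theorem nsq_smul (r : ℝ) (v : Cn n) : nsq (r • v) = r ^ 2 * nsq v := by
  unfold nsq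
  simp only [Prod.smul_fst, Prod.smul_snd, dotProduct_smul, smul_dotProduct, smul_eq_mul]
  ring

theorem continuous_nsq : Continuous (nsq : Cn n → ℝ) := by
  unfold nsq dotProduct
  fun_prop

theorem nsq_le_norm (z : Cn n) : nsq z ≤ 2 * n * ‖z‖ ^ 2 := by
  have h1 : ∀ v : Fin n → ℝ, ‖v‖ ≤ ‖z‖ → v ⬝ᵥ v ≤ n * ‖z‖ ^ 2 := by
    intro v hv
    unfold dotProduct
    calc ∑ i, v i * v i ≤ ∑ _i : Fin n, ‖z‖ ^ 2 := by
          refine Finset.sum_le_sum fun i _ => ?_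
          have h2 : |v i| ≤ ‖z‖ := (norm_le_pi_norm v i).trans hv
          nlinarith [abs_mul_abs_self (v i), abs_nonneg (v i)]
      _ = n * ‖z‖ ^ 2 := by simp
  have h3 := h1 z.1 (norm_fst_le z)
  have h4 := h1 z.2 (norm_snd_le z)
  unfold nsq
  linarith

/-- the chart `E`, restricted to the ball of radius `10 r` and centre `y`, and scaled to the
radius `10` -/
theorem exists_ball (E : OpenPartialHomeomorph X (Cn n)) (y : Cn n) {r : ℝ} (hr : 0 < r)
    (h : ∀ w, nsq (w - y) < (10 * r) ^ 2 → w ∈ E.target) :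
    ∃ E' : OpenPartialHomeomorph X (Cn n), E'.target = {w | nsq w < 100} ∧
      (∀ p, p ∈ E'.source ↔ p ∈ E.source ∧ nsq (E p - y) < (10 * r) ^ 2) ∧
      (∀ p, E' p = r⁻¹ • (E p - y)) ∧ ∀ w, E'.symm w = E.symm (y + r • w) := by
  have hs : r⁻¹ ≠ 0 := by positivity
  have hopen : IsOpen {w : Cn n | nsq (w - y) < (10 * r) ^ 2} :=
    isOpen_lt (continuous_nsq.comp (by fun_prop)) continuous_const
  have key : ∀ w : Cn n, nsq (y + r • w - y) < (10 * r) ^ 2 ↔ nsq w < 100 := by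
    intro w
    have h2 : y + r • w - y = r • w := by abel
    rw [h2, nsq_smul, mul_pow, mul_comm (10 ^ 2 : ℝ), mul_lt_mul_iff_right₀ (by positivity)]
    norm_num
  refine ⟨((E.trans (OpenPartialHomeomorph.ofSet _ hopen)).transHomeomorph (NT.affH y _ hs)),
    ?_, ?_, ?_, ?_⟩
  · ext w
    simp only [OpenPartialHomeomorph.transHomeomorph_target, mem_preimage,
      OpenPartialHomeomorph.trans_target, OpenPartialHomeomorph.ofSet_target,
      OpenPartialHomeomorph.ofSet_symm, OpenPartialHomeomorph.ofSet_apply, mem_inter_iff,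
      mem_ofPred_eq, id]
    have h1 : (NT.affH y (r⁻¹) hs).symm w = y + (r⁻¹)⁻¹ • w := rfl
    rw [h1, inv_inv]
    constructor
    · exact fun h => (key w).1 h.1
    · intro hw
      exact ⟨(key w).2 hw, h _ ((key w).2 hw)⟩
  · intro p
    simp
  · intro p
    rfl
  · intro w
    have h1 : (NT.affH y (r⁻¹) hs).symm w = y + (r⁻¹)⁻¹ • w := rfl
    simp only [OpenPartialHomeomorph.transHomeomorph_symm_apply,
      OpenPartialHomeomorph.coe_trans_symm, OpenPartialHomeomorph.ofSet_symm, Function.comp_apply,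
      h1]
    rw [inv_inv]
    rfl

end Ball

section

variable {M : Type} [MetricSpace M] {n : ℕ} {κ : Type}

/-- a unit chart with centre `p` -/
structure Data (e : κ → OpenPartialHomeomorph M (Cn n)) (p : M) where
  c : κ
  r : ℝ
  C : ℝ
  E : OpenPartialHomeomorph M (Cn n)
  r_pos : 0 < r
  C_pos : 0 < C
  target : E.target = {w | nsq w < 100}
  mem : p ∈ E.source
  zero : E p = 0
  sub : E.source ⊆ (e c).source
  apply : ∀ q, E q = r⁻¹ • (e c q - e c p)
  symm : ∀ w, E.symm w = (e c).symm (e c p + r • w)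
  maps : ∀ w ∈ E.target, e c p + r • w ∈ (e c).target
  lip : ∀ q ∈ E.source, ∀ q' ∈ E.source,
    dist (E q) (E q') ≤ C * dist q q' ∧ dist q q' ≤ C * dist (E q) (E q')

theorem dist_affine (a b y : Cn n) (s : ℝ) (hs : 0 ≤ s) :
    dist (s • (a - y)) (s • (b - y)) = s * dist a b := by
  rw [dist_eq_norm, dist_eq_norm, ← smul_sub, sub_sub_sub_cancel_right, norm_smul,
    Real.norm_of_nonneg hs]

theorem exists_data {e : κ → OpenPartialHomeomorph M (Cn n)} (he : IsAtlas e)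
    (hl : ∀ c, IsLip (e c) (e c).source) (p : M) : Nonempty (Data e p) := by
  obtain ⟨c, hc⟩ := he.cover p
  obtain ⟨C, hC, hev⟩ := hl c p hc
  rw [nhds_prod_eq, Filter.eventually_prod_self_iff'] at hev
  obtain ⟨U, hU, hUl⟩ := hev
  have h1 : ∀ᶠ w in 𝓝 (e c p), w ∈ (e c).target ∧ (e c).symm w ∈ U := by
    have h2 : ContinuousAt (e c).symm (e c p) :=
      (e c).continuousAt_symm ((e c).map_source hc)
    have h3 : U ∈ 𝓝 ((e c).symm (e c p)) := by rwa [(e c).left_inv hc]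
    exact Filter.Eventually.and ((e c).open_target.mem_nhds ((e c).map_source hc)) (h2 h3)
  obtain ⟨ε, hε, hball⟩ := Metric.eventually_nhds_iff_ball.1 h1
  set r : ℝ := ε / 20 with hr
  have hr0 : 0 < r := by positivity
  have hin : ∀ w, nsq (w - e c p) < (10 * r) ^ 2 → w ∈ (e c).target ∧ (e c).symm w ∈ U := by
    intro w hw
    refine hball w ?_
    rw [Metric.mem_ball, dist_eq_norm]
    have h2 := Pool.Agent.KRFG.norm_le_of_nsq_le (by positivity) hw.le
    rw [hr] at h2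
    linarith
  obtain ⟨E, hEt, hEs, hEa, hEi⟩ := exists_ball (e c) (e c p) hr0 fun w hw => (hin w hw).1
  have hEU : ∀ q ∈ E.source, q ∈ U := by
    intro q hq
    have h2 := (hEs q).1 hq
    have h3 := (hin _ h2.2).2
    rwa [(e c).left_inv h2.1] at h3
  refine ⟨⟨c, r, C * r⁻¹ + C * r, E, hr0, by positivity, hEt, ?_, ?_, ?_, hEa, hEi, ?_, ?_⟩⟩
  · refine (hEs p).2 ⟨hc, ?_⟩
    rw [sub_self]
    have : nsq (0 : Cn n) = 0 := by simp [nsq]
    rw [this]
    positivity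
  · rw [hEa, sub_self, smul_zero]
  · exact fun q hq => ((hEs q).1 hq).1
  · intro w hw
    rw [hEt] at hw
    refine (hin _ ?_).1
    rw [add_sub_cancel_left, nsq_smul, mul_pow, mul_comm (10 ^ 2 : ℝ)]
    have h3 : nsq w < 100 := hw
    nlinarith [pow_pos hr0 2]
  · intro q hq q' hq'
    have h2 := hUl q (hEU q hq) q' (hEU q' hq')
    have hri : 0 < r⁻¹ := by positivity
    rw [hEa, hEa, dist_affine _ _ _ _ hri.le]
    constructor
    · have h3 := mul_le_mul_of_nonneg_left h2.1 hri.le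
      have h4 : 0 ≤ C * r * dist q q' := by positivity
      calc r⁻¹ * dist (e c q) (e c q') ≤ r⁻¹ * (C * dist q q') := h3
        _ ≤ r⁻¹ * (C * dist q q') + C * r * dist q q' := le_add_of_nonneg_right h4
        _ = (C * r⁻¹ + C * r) * dist q q' := by ring
    · have h4 : 0 ≤ C * r⁻¹ * (r⁻¹ * dist (e c q) (e c q')) := by positivity
      have h5 : r * r⁻¹ = 1 := mul_inv_cancel₀ hr0.ne'
      calc dist q q' ≤ C * dist (e c q) (e c q') := h2.2
        _ = C * (r * r⁻¹) * dist (e c q) (e c q') := by rw [h5, mul_one]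
        _ = C * r * (r⁻¹ * dist (e c q) (e c q')) := by ring
        _ ≤ C * r * (r⁻¹ * dist (e c q) (e c q')) + C * r⁻¹ * (r⁻¹ * dist (e c q) (e c q')) :=
          le_add_of_nonneg_right h4
        _ = (C * r⁻¹ + C * r) * (r⁻¹ * dist (e c q) (e c q')) := by ring

end

end NM

open NM

variable {M : Type} [MetricSpace M] [CompactSpace M] {n : ℕ} {κ : Type}
  {e : κ → OpenPartialHomeomorph M (Cn n)}

/-- **Unit charts.** A compact manifold with a metric which is locally Lipschitz equivalent to the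
coordinates has finitely many charts `e' c`, restrictions of the given charts in affine coordinates,
onto the ball of radius `10`, whose unit balls cover, and which are bi-Lipschitz. -/
theorem exists_unit_charts (he : IsAtlas e) (hl : ∀ c, IsLip (e c) (e c).source) :
    ∃ (κ' : Type) (_ : Fintype κ') (e' : κ' → OpenPartialHomeomorph M (Cn n)) (σ : κ' → κ),
      IsRefinement e e' σ ∧ (∀ c, (e' c).target = {w | nsq w < 100}) ∧
      (∀ p, ∃ c, p ∈ (e' c).source ∧ nsq (e' c p) ≤ 1) ∧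
      (∃ C, 0 < C ∧ ∀ c, ∀ x ∈ (e' c).source, ∀ x' ∈ (e' c).source,
        dist (e' c x) (e' c x') ≤ C * dist x x' ∧ dist x x' ≤ C * dist (e' c x) (e' c x')) ∧
      ∃ C, 0 < C ∧ ∀ c x x', nsq x ≤ 81 → nsq x' ≤ 81 →
        dist ((e' c).symm x) ((e' c).symm x') ^ 2 ≤ C * nsq (x - x') ∧
          nsq (x - x') ≤ C * dist ((e' c).symm x) ((e' c).symm x') ^ 2 := by
  classical
  have D : ∀ p : M, Data e p := fun p => (exists_data he hl p).some
  set V : M → Set M := fun p => (D p).E.source ∩ (D p).E ⁻¹' {w | nsq w < 1} with hV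
  have hVo : ∀ p, IsOpen (V p) := fun p => (D p).E.isOpen_inter_preimage
    (isOpen_lt continuous_nsq continuous_const)
  have hpV : ∀ p, p ∈ V p := fun p => ⟨(D p).mem, by
    show nsq ((D p).E p) < 1
    rw [(D p).zero]
    simp [nsq]⟩
  obtain ⟨t, ht⟩ := isCompact_univ.elim_finite_subcover V hVo
    (fun p _ => mem_iUnion.2 ⟨p, hpV p⟩)
  set C : ℝ := (∑ p ∈ t, (D p).C) + 1 with hCdef
  have hC0 : 0 < C := by
    have : 0 ≤ ∑ p ∈ t, (D p).C := Finset.sum_nonneg fun p _ => (D p).C_pos.le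
    rw [hCdef]
    linarith
  have hCle : ∀ p ∈ t, (D p).C ≤ C := by
    intro p hp
    have := Finset.single_le_sum (f := fun p => (D p).C) (fun p _ => (D p).C_pos.le) hp
    rw [hCdef]
    linarith
  have hlip : ∀ c : {p : M // p ∈ t}, ∀ x ∈ (D c.1).E.source, ∀ x' ∈ (D c.1).E.source,
      dist ((D c.1).E x) ((D c.1).E x') ≤ C * dist x x' ∧
        dist x x' ≤ C * dist ((D c.1).E x) ((D c.1).E x') := by
    intro c x hx x' hx'
    have h1 := (D c.1).lip x hx x' hx'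
    have h2 := hCle c.1 c.2
    exact ⟨h1.1.trans (mul_le_mul_of_nonneg_right h2 dist_nonneg),
      h1.2.trans (mul_le_mul_of_nonneg_right h2 dist_nonneg)⟩
  refine ⟨{p : M // p ∈ t}, inferInstance, fun c => (D c.1).E, fun c => (D c.1).c,
    ⟨?_, fun c => (D c.1).sub, ?_, ?_⟩, fun c => (D c.1).target, ?_, ⟨C, hC0, hlip⟩, ?_⟩
  · intro p
    obtain ⟨q, hq, hpq⟩ := mem_iUnion₂.1 (ht (mem_univ p))
    exact ⟨⟨q, hq⟩, hpq.1⟩
  · intro c
    refine NT.hol_congr (D c.1).E.open_target (NT.hol_scale (D c.1).r (e (D c.1).c c.1) _) ?_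
    intro w hw
    show e (D c.1).c ((D c.1).E.symm w) = _
    rw [(D c.1).symm, (e (D c.1).c).right_inv ((D c.1).maps w hw)]
  · intro c
    refine NT.hol_congr ((e (D c.1).c).isOpen_inter_preimage_symm (D c.1).E.open_source)
      (NT.hol_scale (D c.1).r⁻¹ (-((D c.1).r⁻¹ • e (D c.1).c c.1)) _) ?_
    rintro z ⟨hz, -⟩
    show (D c.1).E ((e (D c.1).c).symm z) = _
    rw [(D c.1).apply, (e (D c.1).c).right_inv hz, smul_sub]
    exact sub_eq_neg_add _ _
  · intro p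
    obtain ⟨q, hq, hpq⟩ := mem_iUnion₂.1 (ht (mem_univ p))
    exact ⟨⟨q, hq⟩, hpq.1, (show nsq ((D q).E p) < 1 from hpq.2).le⟩
  · refine ⟨(2 * n + 1) * C ^ 2, by positivity, fun c x x' hx hx' => ?_⟩
    have hxt : x ∈ (D c.1).E.target := by
      rw [(D c.1).target]
      show nsq x < 100
      linarith
    have hxt' : x' ∈ (D c.1).E.target := by
      rw [(D c.1).target]
      show nsq x' < 100
      linarith
    have h1 := hlip c _ ((D c.1).E.map_target hxt) _ ((D c.1).E.map_target hxt')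
    rw [(D c.1).E.right_inv hxt, (D c.1).E.right_inv hxt'] at h1
    have h2 : dist x x' ^ 2 ≤ nsq (x - x') := by
      rw [dist_eq_norm]
      exact Pool.Agent.KRFF.Ex.norm_sq_le n _
    have h3 : nsq (x - x') ≤ 2 * n * dist x x' ^ 2 := by
      rw [dist_eq_norm]
      exact nsq_le_norm _
    have h4 : dist ((D c.1).E.symm x) ((D c.1).E.symm x') ^ 2 ≤ C ^ 2 * dist x x' ^ 2 := by
      rw [← mul_pow]
      exact pow_le_pow_left₀ dist_nonneg h1.2 2
    have h5 : dist x x' ^ 2 ≤ C ^ 2 * dist ((D c.1).E.symm x) ((D c.1).E.symm x') ^ 2 := by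
      rw [← mul_pow]
      exact pow_le_pow_left₀ dist_nonneg h1.1 2
    have hn : (0 : ℝ) ≤ n := Nat.cast_nonneg n
    have h6 : 0 ≤ nsq (x - x') := le_trans (sq_nonneg _) h2
    constructor
    · calc dist ((D c.1).E.symm x) ((D c.1).E.symm x') ^ 2 ≤ C ^ 2 * dist x x' ^ 2 := h4
        _ ≤ C ^ 2 * nsq (x - x') := mul_le_mul_of_nonneg_left h2 (sq_nonneg _)
        _ ≤ (2 * n + 1) * (C ^ 2 * nsq (x - x')) :=
          le_mul_of_one_le_left (by positivity) (by linarith)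
        _ = (2 * n + 1) * C ^ 2 * nsq (x - x') := by ring
    · calc nsq (x - x') ≤ 2 * n * dist x x' ^ 2 := h3
        _ ≤ 2 * n * (C ^ 2 * dist ((D c.1).E.symm x) ((D c.1).E.symm x') ^ 2) :=
          mul_le_mul_of_nonneg_left h5 (by positivity)
        _ ≤ (2 * n + 1) * (C ^ 2 * dist ((D c.1).E.symm x) ((D c.1).E.symm x') ^ 2) := by
          have h7 : 0 ≤ C ^ 2 * dist ((D c.1).E.symm x) ((D c.1).E.symm x') ^ 2 := by positivity
          linarith
        _ = (2 * n + 1) * C ^ 2 * dist ((D c.1).E.symm x) ((D c.1).E.symm x') ^ 2 := by ring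

end Pool.Agent.KRFZ

end

section

/-!
# Unit embeddings of a compact space with a Kähler form
-/

open scoped ContDiff ENNReal ComplexOrder Topology
open Set Filter Pool.Agent.ToricKRF Pool.Agent.ToricKRF.G Pool.Agent.KRFS Pool.Agent.KRFF

namespace Pool.Agent.KRFZ

namespace NZ

section

variable {Z : Type} {N : ℕ} {P : Type}

/-- the scaled coordinates with centre `z₀` and radius `r` -/
noncomputable def sc (q : P → Z → Cn N) (j : P) (r : ℝ) (z₀ z : Z) : Cn N :=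
  r⁻¹ • (q j z - q j z₀)

theorem add_smul_sc (q : P → Z → Cn N) (j : P) {r : ℝ} (hr : r ≠ 0) (z₀ z : Z) :
    q j z₀ + r • sc q j r z₀ z = q j z := by
  rw [sc, smul_smul, mul_inv_cancel₀ hr, one_smul, add_sub_cancel]

theorem sc_sub_sc (q : P → Z → Cn N) (j : P) (r : ℝ) (z₀ z z' : Z) :
    sc q j r z₀ z - sc q j r z₀ z' = r⁻¹ • (q j z - q j z') := by
  rw [sc, sc, ← smul_sub, sub_sub_sub_cancel_right]

end

variable {Z : Type} [MetricSpace Z] {N : ℕ} {P : Type}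

/-- a unit embedding with centre `z₀` -/
structure Data (U : P → Set Z) (q : P → Z → Cn N) (O : P → Set (Cn N)) (z₀ : Z) where
  j : P
  r : ℝ
  C : ℝ
  S : Set Z
  r_pos : 0 < r
  C_pos : 0 < C
  isOpen : IsOpen S
  mem : z₀ ∈ S
  sub : S ⊆ U j
  cont : ContinuousOn (q j) S
  lip : ∀ x ∈ S, ∀ x' ∈ S,
    dist (q j x) (q j x') ≤ C * dist x x' ∧ dist x x' ≤ C * dist (q j x) (q j x')
  lt : ∀ x ∈ S, nsq (sc q j r z₀ x) < 100
  compact : ∀ R < 100, IsCompact {x | x ∈ S ∧ nsq (sc q j r z₀ x) ≤ R}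
  ball : ∀ y, nsq y < 100 → q j z₀ + r • y ∈ O j

theorem exists_data [CompactSpace Z] {U : P → Set Z} {q : P → Z → Cn N} {O : P → Set (Cn N)}
    {K : P → Cn N → ℝ} (h : IsKahlerSpace U q O K) (z₀ : Z) : Nonempty (Data U q O z₀) := by
  obtain ⟨j, hz⟩ := h.cover z₀
  obtain ⟨C, hC, hev⟩ := h.lip j z₀ hz
  rw [nhds_prod_eq, Filter.eventually_prod_self_iff'] at hev
  obtain ⟨V, hV, hVl⟩ := hev
  obtain ⟨ρ, hρ, hball⟩ := Metric.mem_nhds_iff.1
    (Filter.inter_mem hV ((h.isOpen j).mem_nhds hz))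
  obtain ⟨δ, hδ, hO⟩ := Metric.mem_nhds_iff.1 ((h.isOpen' j).mem_nhds (h.mem j z₀ hz))
  set r : ℝ := min (δ / 20) (ρ / (40 * C)) with hr
  have hr0 : 0 < r := lt_min (by positivity) (by positivity)
  have hr1 : 10 * r < δ := by
    have := min_le_left (δ / 20) (ρ / (40 * C))
    rw [← hr] at this
    linarith
  have hr2 : C * (10 * r) ≤ ρ / 4 := by
    have := min_le_right (δ / 20) (ρ / (40 * C))
    rw [← hr] at this
    have h2 : C * (10 * r) ≤ C * (10 * (ρ / (40 * C))) := by gcongr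
    have h3 : C * (10 * (ρ / (40 * C))) = ρ / 4 := by
      field_simp
      norm_num
    linarith
  have hlip : ∀ x ∈ Metric.ball z₀ ρ, ∀ x' ∈ Metric.ball z₀ ρ,
      dist (q j x) (q j x') ≤ C * dist x x' ∧ dist x x' ≤ C * dist (q j x) (q j x') :=
    fun x hx x' hx' => hVl x (hball hx).1 x' (hball hx').1
  have hcont : ContinuousOn (q j) (Metric.ball z₀ ρ) := by
    have h1 : LipschitzOnWith C.toNNReal (q j) (Metric.ball z₀ ρ) :=
      LipschitzOnWith.of_dist_le_mul fun x hx y hy => by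
        rw [Real.coe_toNNReal _ hC.le]
        exact (hlip x hx y hy).1
    exact h1.continuousOn
  have hz0 : z₀ ∈ Metric.ball z₀ ρ := Metric.mem_ball_self hρ
  -- the scaled condition
  have hsc : ∀ x R, nsq (sc q j r z₀ x) ≤ R ↔ nsq (q j x - q j z₀) ≤ R * r ^ 2 := by
    intro x R
    rw [sc, NM.nsq_smul, inv_pow, inv_mul_le_iff₀ (by positivity), mul_comm]
  have hsc' : ∀ x R, nsq (sc q j r z₀ x) < R ↔ nsq (q j x - q j z₀) < R * r ^ 2 := by
    intro x R
    rw [sc, NM.nsq_smul, inv_pow, inv_mul_lt_iff₀ (by positivity), mul_comm]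
  have hnear : ∀ x ∈ Metric.ball z₀ ρ, nsq (q j x - q j z₀) < 100 * r ^ 2 →
      x ∈ Metric.closedBall z₀ (ρ / 2) := by
    intro x hx hx2
    have h1 := (hlip x hx z₀ hz0).2
    have h2 : dist (q j x) (q j z₀) ≤ 10 * r := by
      rw [dist_eq_norm]
      refine Pool.Agent.KRFG.norm_le_of_nsq_le (by positivity) ?_
      calc nsq (q j x - q j z₀) ≤ 100 * r ^ 2 := hx2.le
        _ = (10 * r) ^ 2 := by ring
    rw [Metric.mem_closedBall]
    have h3 : C * dist (q j x) (q j z₀) ≤ C * (10 * r) := by gcongr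
    linarith
  have hsub : Metric.closedBall z₀ (ρ / 2) ⊆ Metric.ball z₀ ρ :=
    Metric.closedBall_subset_ball (by linarith)
  refine ⟨⟨j, r, C, {x | x ∈ Metric.ball z₀ ρ ∧ nsq (sc q j r z₀ x) < 100}, hr0, hC, ?_, ?_, ?_,
    ?_, ?_, fun x hx => hx.2, ?_, ?_⟩⟩
  · have h1 : IsOpen {y : Cn N | nsq (r⁻¹ • (y - q j z₀)) < 100} :=
      isOpen_lt (NM.continuous_nsq.comp (by fun_prop)) continuous_const
    exact hcont.isOpen_inter_preimage Metric.isOpen_ball h1
  · refine ⟨hz0, ?_⟩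
    rw [sc, sub_self, smul_zero]
    simp [nsq]
  · exact fun x hx => (hball hx.1).2
  · exact hcont.mono fun x hx => hx.1
  · exact fun x hx x' hx' => hlip x hx.1 x' hx'.1
  · intro R hR
    have h1 : IsClosed {y : Cn N | nsq (r⁻¹ • (y - q j z₀)) ≤ R} :=
      isClosed_le (NM.continuous_nsq.comp (by fun_prop)) continuous_const
    have h2 : IsClosed (Metric.closedBall z₀ (ρ / 2) ∩
        (q j) ⁻¹' {y : Cn N | nsq (r⁻¹ • (y - q j z₀)) ≤ R}) :=
      (hcont.mono hsub).preimage_isClosed_of_isClosed Metric.isClosed_closedBall h1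
    convert h2.isCompact using 1
    ext x
    constructor
    · rintro ⟨⟨hx1, hx2⟩, hx3⟩
      exact ⟨hnear x hx1 ((hsc' x 100).1 hx2), hx3⟩
    · rintro ⟨hx1, hx3⟩
      have hx3' : nsq (sc q j r z₀ x) ≤ R := hx3
      exact ⟨⟨hsub hx1, hx3'.trans_lt hR⟩, hx3'⟩
  · intro y hy
    refine hO ?_
    rw [Metric.mem_ball, dist_eq_norm, add_sub_cancel_left]
    refine lt_of_le_of_lt (Pool.Agent.KRFG.norm_le_of_nsq_le (r := 10 * r) (by positivity) ?_) hr1
    rw [NM.nsq_smul]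
    nlinarith [pow_pos hr0 2]

theorem levz_affine {K : Cn N → ℝ} {O : Set (Cn N)} (hO : IsOpen O) (hK : ContDiffOn ℝ ∞ K O)
    (y₀ : Cn N) (r : ℝ) {y : Cn N} (hy : y₀ + r • y ∈ O) (u : Cn N) :
    levz (fun y => K (y₀ + r • y)) u y = levz K (r • u) (y₀ + r • y) := by
  have h := levz_comp hO hK isOpen_univ (NT.hol_scale r y₀ univ) (mem_univ y) hy u
  rw [h]
  congr 1
  rw [fderiv_const_add]
  have h2 : fderiv ℝ (fun z : Cn N => r • z) y = r • ContinuousLinearMap.id ℝ (Cn N) :=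
    (r • ContinuousLinearMap.id ℝ (Cn N)).fderiv
  rw [h2]
  simp

theorem holC_affine_neg {G : Cn N → ℂ} {S : Set (Cn N)} (hS : IsOpen S) (hG : NF.HolC G S)
    (y₀ : Cn N) (r : ℝ) :
    IsOpen {y : Cn N | y₀ + r • y ∈ S} ∧
      NF.HolC (fun y => -G (y₀ + r • y)) {y : Cn N | y₀ + r • y ∈ S} := by
  have hc : Continuous fun y : Cn N => y₀ + r • y := by fun_prop
  refine ⟨hS.preimage hc, ?_, ?_⟩
  · have h0 : ContDiffOn ℝ ∞ (fun y : Cn N => y₀ + r • y) {y : Cn N | y₀ + r • y ∈ S} := by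
      fun_prop
    exact (hG.1.comp h0 fun y hy => hy).neg
  · intro y hy u
    have h1 : HasFDerivAt (fun y : Cn N => y₀ + r • y) (r • ContinuousLinearMap.id ℝ (Cn N)) y :=
      (r • ContinuousLinearMap.id ℝ (Cn N)).hasFDerivAt.const_add y₀
    have h2 : HasFDerivAt (fun y : Cn N => -G (y₀ + r • y))
        (-((fderiv ℝ G (y₀ + r • y)).comp (r • ContinuousLinearMap.id ℝ (Cn N)))) y :=
      ((NF.diffAt hS hG.1 hy).hasFDerivAt.comp y h1).neg
    rw [h2.fderiv]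
    simp only [neg_apply, ContinuousLinearMap.comp_apply,
      smul_apply, ContinuousLinearMap.id_apply]
    rw [← NT.J_smul', hG.2 _ hy]
    ring

end NZ

open NM NZ

variable {Z : Type} [MetricSpace Z] [CompactSpace Z] {N : ℕ} {P : Type}
  {U : P → Set Z} {q : P → Z → Cn N} {O : P → Set (Cn N)} {K : P → Cn N → ℝ}

/-- **Unit embeddings.** A compact space with a Kähler form is covered by finitely many open sets
`S j`, embedded in the ball of radius `10` by the scaled coordinates `r⁻¹ (q - q (z₀))`. -/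
theorem exists_unit_embeddings (h : IsKahlerSpace U q O K) :
    ∃ (P' : Type) (_ : Fintype P') (sig : P' → P) (z₀ : P' → Z) (r : P' → ℝ) (S : P' → Set Z)
      (q' : P' → Z → Cn N) (K' : P' → Cn N → ℝ),
      (∀ j, 0 < r j) ∧ (∀ j, IsOpen (S j)) ∧ (∀ j, S j ⊆ U (sig j)) ∧
      (∀ j z, q' j z = (r j)⁻¹ • (q (sig j) z - q (sig j) (z₀ j))) ∧
      (∀ j z, q (sig j) (z₀ j) + r j • q' j z = q (sig j) z) ∧
      (∀ j y, K' j y = K (sig j) (q (sig j) (z₀ j) + r j • y)) ∧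
      (∀ j, ContinuousOn (q' j) (S j)) ∧ (∀ j, InjOn (q' j) (S j)) ∧
      (∀ j, ∀ z ∈ S j, nsq (q' j z) < 100) ∧
      (∀ j, ∀ R < 100, IsCompact {z | z ∈ S j ∧ nsq (q' j z) ≤ R}) ∧
      (∀ z, ∃ j, z ∈ S j ∧ nsq (q' j z) ≤ 1) ∧
      (∃ C, 0 < C ∧ ∀ j, ∀ z ∈ S j, ∀ z' ∈ S j, nsq (q' j z) ≤ 81 → nsq (q' j z') ≤ 81 →
        dist z z' ^ 2 ≤ C * nsq (q' j z - q' j z') ∧
          nsq (q' j z - q' j z') ≤ C * dist z z' ^ 2) ∧
      (∀ j, ∀ y, nsq y < 100 → q (sig j) (z₀ j) + r j • y ∈ O (sig j)) ∧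
      (∀ j, ContDiffOn ℝ ∞ (K' j) {y | nsq y < 100}) ∧
      (∀ j y, nsq y < 100 → ∀ u, u ≠ 0 → 0 < levz (K' j) u y) ∧
      ∀ i j z, z ∈ S i → z ∈ S j → ∃ (W : Set Z) (A : Set (Cn N)) (G : Cn N → ℂ),
        IsOpen W ∧ z ∈ W ∧ W ⊆ S i ∩ S j ∧ IsOpen A ∧ NF.HolC G A ∧ (∀ z' ∈ W, q' i z' ∈ A) ∧
        ∀ z' ∈ W, K' i (q' i z') - K' j (q' j z') = (G (q' i z')).re := by
  classical
  have D : ∀ z : Z, Data U q O z := fun z => (exists_data h z).some
  set V : Z → Set Z := fun z =>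
    (D z).S ∩ (q (D z).j) ⁻¹' {y | nsq ((D z).r⁻¹ • (y - q (D z).j z)) < 1} with hV
  have hVo : ∀ z, IsOpen (V z) := fun z => (D z).cont.isOpen_inter_preimage (D z).isOpen
    (isOpen_lt (NM.continuous_nsq.comp (by fun_prop)) continuous_const)
  have hpV : ∀ z, z ∈ V z := fun z => ⟨(D z).mem, by
    show nsq ((D z).r⁻¹ • (q (D z).j z - q (D z).j z)) < 1
    rw [sub_self, smul_zero]
    simp [nsq]⟩
  obtain ⟨t, ht⟩ := isCompact_univ.elim_finite_subcover V hVo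
    (fun p _ => mem_iUnion.2 ⟨p, hpV p⟩)
  -- one constant
  set B : Z → ℝ := fun z => (2 * N + 1) * (D z).C ^ 2 * ((D z).r ^ 2 + ((D z).r⁻¹) ^ 2) with hB
  have hB0 : ∀ z, 0 ≤ B z := fun z => by
    have := (D z).C_pos
    positivity
  set C : ℝ := (∑ z ∈ t, B z) + 1 with hCdef
  have hC0 : 0 < C := by
    have : 0 ≤ ∑ z ∈ t, B z := Finset.sum_nonneg fun z _ => hB0 z
    rw [hCdef]
    linarith
  have hCle : ∀ z ∈ t, B z ≤ C := by
    intro z hz
    have := Finset.single_le_sum (f := B) (fun z _ => hB0 z) hz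
    rw [hCdef]
    linarith
  refine ⟨{z : Z // z ∈ t}, inferInstance, fun c => (D c.1).j, fun c => c.1, fun c => (D c.1).r,
    fun c => (D c.1).S, fun c => sc q (D c.1).j (D c.1).r c.1,
    fun c y => K (D c.1).j (q (D c.1).j c.1 + (D c.1).r • y), fun c => (D c.1).r_pos,
    fun c => (D c.1).isOpen, fun c => (D c.1).sub, fun c z => rfl,
    fun c z => add_smul_sc q _ (D c.1).r_pos.ne' _ _, fun c y => rfl, ?_, ?_,
    fun c => (D c.1).lt, fun c => (D c.1).compact, ?_, ⟨C, hC0, ?_⟩,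
    fun c => (D c.1).ball, ?_, ?_, ?_⟩
  · intro c
    have h1 : ContinuousOn (fun z => q (D c.1).j z - q (D c.1).j c.1) (D c.1).S :=
      (D c.1).cont.sub continuousOn_const
    exact h1.const_smul ((D c.1).r⁻¹)
  · intro c z hz z' hz' hzz
    have hzz' : sc q (D c.1).j (D c.1).r c.1 z = sc q (D c.1).j (D c.1).r c.1 z' := hzz
    have h1 : q (D c.1).j z = q (D c.1).j z' := by
      rw [← add_smul_sc q (D c.1).j (D c.1).r_pos.ne' c.1 z, hzz',
        add_smul_sc q (D c.1).j (D c.1).r_pos.ne' c.1 z']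
    have h2 := ((D c.1).lip z hz z' hz').2
    rw [h1, dist_self, mul_zero] at h2
    exact dist_le_zero.1 h2
  · intro z
    obtain ⟨c, hc, hz⟩ := mem_iUnion₂.1 (ht (mem_univ z))
    exact ⟨⟨c, hc⟩, hz.1, (show nsq ((D c).r⁻¹ • (q (D c).j z - q (D c).j c)) < 1 from hz.2).le⟩
  · intro c z hz z' hz' _ _
    have h1 := (D c.1).lip z hz z' hz'
    have hr := (D c.1).r_pos
    have hC := (D c.1).C_pos
    have hBc := hCle c.1 c.2
    set v : Cn N := q (D c.1).j z - q (D c.1).j z' with hv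
    have e1 : dist (q (D c.1).j z) (q (D c.1).j z') = ‖v‖ := by rw [dist_eq_norm, hv]
    rw [e1] at h1
    rw [sc_sub_sc, ← hv, NM.nsq_smul]
    have h2 : ‖v‖ ^ 2 ≤ nsq v := Pool.Agent.KRFF.Ex.norm_sq_le N _
    have h3 : nsq v ≤ 2 * N * ‖v‖ ^ 2 := NM.nsq_le_norm _
    have h4 : dist z z' ^ 2 ≤ (D c.1).C ^ 2 * ‖v‖ ^ 2 := by
      rw [← mul_pow]
      exact pow_le_pow_left₀ dist_nonneg h1.2 2
    have h5 : ‖v‖ ^ 2 ≤ (D c.1).C ^ 2 * dist z z' ^ 2 := by
      rw [← mul_pow]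
      exact pow_le_pow_left₀ (norm_nonneg _) h1.1 2
    have hN : (0 : ℝ) ≤ N := Nat.cast_nonneg N
    have h6 : 0 ≤ nsq v := le_trans (sq_nonneg _) h2
    have hrr : (D c.1).r ^ 2 * ((D c.1).r⁻¹) ^ 2 = 1 := by
      rw [← mul_pow, mul_inv_cancel₀ hr.ne', one_pow]
    constructor
    · have h7 : (D c.1).C ^ 2 * (D c.1).r ^ 2 ≤ C := by
        refine le_trans ?_ hBc
        rw [hB]
        have : 0 ≤ (D c.1).C ^ 2 * (D c.1).r ^ 2 := by positivity
        have h8 : 0 ≤ 2 * N * ((D c.1).C ^ 2 * (D c.1).r ^ 2) := by positivity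
        have h9 : 0 ≤ (2 * N + 1) * (D c.1).C ^ 2 * ((D c.1).r⁻¹) ^ 2 := by positivity
        calc (D c.1).C ^ 2 * (D c.1).r ^ 2 ≤ (D c.1).C ^ 2 * (D c.1).r ^ 2 +
              2 * N * ((D c.1).C ^ 2 * (D c.1).r ^ 2) +
              (2 * N + 1) * (D c.1).C ^ 2 * ((D c.1).r⁻¹) ^ 2 := by linarith
          _ = (2 * N + 1) * (D c.1).C ^ 2 * ((D c.1).r ^ 2 + ((D c.1).r⁻¹) ^ 2) := by ring
      have h8 : 0 ≤ ((D c.1).r⁻¹) ^ 2 * nsq v := by positivity
      calc dist z z' ^ 2 ≤ (D c.1).C ^ 2 * ‖v‖ ^ 2 := h4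
        _ ≤ (D c.1).C ^ 2 * nsq v := by gcongr
        _ = (D c.1).C ^ 2 * nsq v * ((D c.1).r ^ 2 * ((D c.1).r⁻¹) ^ 2) := by rw [hrr, mul_one]
        _ = (D c.1).C ^ 2 * (D c.1).r ^ 2 * (((D c.1).r⁻¹) ^ 2 * nsq v) := by ring
        _ ≤ C * (((D c.1).r⁻¹) ^ 2 * nsq v) := mul_le_mul_of_nonneg_right h7 h8
    · have h7 : ((D c.1).r⁻¹) ^ 2 * (2 * N) * (D c.1).C ^ 2 ≤ C := by
        refine le_trans ?_ hBc
        rw [hB]
        have h8 : 0 ≤ ((D c.1).r⁻¹) ^ 2 * (D c.1).C ^ 2 := by positivity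
        have h9 : 0 ≤ (2 * N + 1) * (D c.1).C ^ 2 * (D c.1).r ^ 2 := by positivity
        calc ((D c.1).r⁻¹) ^ 2 * (2 * N) * (D c.1).C ^ 2 ≤
              ((D c.1).r⁻¹) ^ 2 * (2 * N) * (D c.1).C ^ 2 + ((D c.1).r⁻¹) ^ 2 * (D c.1).C ^ 2 +
              (2 * N + 1) * (D c.1).C ^ 2 * (D c.1).r ^ 2 := by linarith
          _ = (2 * N + 1) * (D c.1).C ^ 2 * ((D c.1).r ^ 2 + ((D c.1).r⁻¹) ^ 2) := by ring
      calc ((D c.1).r⁻¹) ^ 2 * nsq v ≤ ((D c.1).r⁻¹) ^ 2 * (2 * N * ‖v‖ ^ 2) := by gcongr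
        _ ≤ ((D c.1).r⁻¹) ^ 2 * (2 * N * ((D c.1).C ^ 2 * dist z z' ^ 2)) := by gcongr
        _ = ((D c.1).r⁻¹) ^ 2 * (2 * N) * (D c.1).C ^ 2 * dist z z' ^ 2 := by ring
        _ ≤ C * dist z z' ^ 2 := mul_le_mul_of_nonneg_right h7 (sq_nonneg _)
  · intro c
    exact (h.smooth (D c.1).j).comp (by fun_prop) fun y hy => (D c.1).ball y hy
  · intro c y hy u hu
    have h1 := (D c.1).ball y hy
    show 0 < levz (fun y => K (D c.1).j (q (D c.1).j c.1 + (D c.1).r • y)) u y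
    rw [levz_affine (h.isOpen' _) (h.smooth _) _ _ h1 u]
    exact h.psh _ _ h1 _ (smul_ne_zero (D c.1).r_pos.ne' hu)
  · intro a b z hza hzb
    obtain ⟨A, G, hA, hqA, hG, hev⟩ := h.compat (D a.1).j (D b.1).j z
      ⟨(D a.1).sub hza, (D b.1).sub hzb⟩
    obtain ⟨hA', hG'⟩ := holC_affine_neg hA hG (q (D a.1).j a.1) (D a.1).r
    have hSab : (D a.1).S ∩ (D b.1).S ∈ 𝓝 z :=
      ((D a.1).isOpen.inter (D b.1).isOpen).mem_nhds ⟨hza, hzb⟩
    have hq : ∀ᶠ z' in 𝓝 z, q (D a.1).j z' ∈ A :=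
      (((D a.1).cont.continuousAt ((D a.1).isOpen.mem_nhds hza)).eventually (hA.mem_nhds hqA))
    obtain ⟨W, hW, hWo, hzW⟩ := mem_nhds_iff.1 ((hev.and hq).and hSab)
    refine ⟨W, {y | q (D a.1).j a.1 + (D a.1).r • y ∈ A},
      fun y => -G (q (D a.1).j a.1 + (D a.1).r • y), hWo, hzW, fun z' hz' => (hW hz').2, hA', hG',
      fun z' hz' => ?_, fun z' hz' => ?_⟩
    · show q (D a.1).j a.1 + (D a.1).r • sc q (D a.1).j (D a.1).r a.1 z' ∈ A
      rw [add_smul_sc q _ (D a.1).r_pos.ne']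
      exact (hW hz').1.2
    · show K (D a.1).j (q (D a.1).j a.1 + (D a.1).r • sc q (D a.1).j (D a.1).r a.1 z') -
        K (D b.1).j (q (D b.1).j b.1 + (D b.1).r • sc q (D b.1).j (D b.1).r b.1 z') =
        (-G (q (D a.1).j a.1 + (D a.1).r • sc q (D a.1).j (D a.1).r a.1 z')).re
      rw [add_smul_sc q _ (D a.1).r_pos.ne', add_smul_sc q _ (D b.1).r_pos.ne', Complex.neg_re,
        ← (hW hz').1.1]
      ring

end Pool.Agent.KRFZ

end

section

/-!
# The iteration of a contraction along a geometric sequence of scales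
-/

open Set Real

namespace Pool.Agent.KRFZ

/-- one iteration of `B ↦ κ B + e` along the scales `L ^ k * l₀` -/
theorem rec_iter {κ L l₀ R B₀ e : ℝ} (hκ : 0 ≤ κ) (hκ1 : κ < 1) (hL : 1 ≤ L) (hl : 0 ≤ l₀)
    (hB : 0 ≤ B₀) (he : 0 ≤ e) {P : ℝ → ℝ → Prop} (h0 : P l₀ B₀)
    (hmono : ∀ l B B', B ≤ B' → P l B → P l B')
    (hstep : ∀ l B, l₀ ≤ l → l ≤ R → 0 ≤ B → P l B → P (L * l) (κ * B + e)) :
    ∀ k : ℕ, (∀ j < k, L ^ j * l₀ ≤ R) → P (L ^ k * l₀) (κ ^ k * B₀ + e / (1 - κ))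
  | 0, _ => by
    simp only [pow_zero, one_mul]
    exact hmono _ _ _ (le_add_of_nonneg_right (div_nonneg he (sub_pos.2 hκ1).le)) h0
  | k + 1, hk => by
    have h1 := rec_iter hκ hκ1 hL hl hB he h0 hmono hstep k (fun j hj => hk j (by omega))
    have hk0 : 0 < 1 - κ := sub_pos.2 hκ1
    have h2 := hstep (L ^ k * l₀) (κ ^ k * B₀ + e / (1 - κ))
      (le_mul_of_one_le_left hl (one_le_pow₀ hL)) (hk k (by omega)) (by positivity) h1
    have e1 : L * (L ^ k * l₀) = L ^ (k + 1) * l₀ := by ring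
    have e2 : κ * (κ ^ k * B₀ + e / (1 - κ)) + e = κ ^ (k + 1) * B₀ + e / (1 - κ) := by
      field_simp
      ring
    rw [e1, e2] at h2
    exact h2

/-- `C log (1/d) ≤ d ^ (-b)` for small `d` -/
theorem log_small (C : ℝ) {b : ℝ} (hb : 0 < b) : ∃ δ > 0, ∀ d : ℝ, 0 < d → d < δ →
    C * log (1 / d) ≤ d ^ (-b) := by
  have h := (isLittleO_log_rpow_atTop hb).bound (show (0 : ℝ) < 1 / (|C| + 1) by positivity)
  obtain ⟨U, hU⟩ := Filter.eventually_atTop.1 h
  refine ⟨1 / (max U 1), by positivity, fun d hd hdδ => ?_⟩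
  have hU1 : max U 1 ≤ 1 / d := by
    rw [le_div_iff₀ hd]
    rw [lt_div_iff₀ (by positivity)] at hdδ
    nlinarith
  have h1 := hU (1 / d) ((le_max_left _ _).trans hU1)
  have h1d : 1 ≤ 1 / d := (le_max_right _ _).trans hU1
  have hlog : 0 ≤ log (1 / d) := log_nonneg h1d
  rw [norm_of_nonneg hlog, norm_of_nonneg (rpow_nonneg (by positivity) _)] at h1
  have e1 : (1 / d) ^ b = d ^ (-b) := by
    rw [one_div, inv_rpow hd.le, rpow_neg hd.le]
  rw [e1] at h1
  have h2 : 0 ≤ d ^ (-b) := rpow_nonneg hd.le _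
  calc C * log (1 / d) ≤ |C| * log (1 / d) := mul_le_mul_of_nonneg_right (le_abs_self C) hlog
    _ ≤ |C| * (1 / (|C| + 1) * d ^ (-b)) := mul_le_mul_of_nonneg_left h1 (abs_nonneg C)
    _ = |C| / (|C| + 1) * d ^ (-b) := by ring
    _ ≤ 1 * d ^ (-b) := by
      refine mul_le_mul_of_nonneg_right ?_ h2
      rw [div_le_one (by positivity)]
      linarith
    _ = d ^ (-b) := one_mul _

/-- **The recursion, numerical part.** -/
theorem rec_num {κ L C₀ C₁ : ℝ} (hκ1 : κ < 1) (hL : 1 < L) (hC₀ : 0 < C₀)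
    (hC₁ : 0 ≤ C₁) : ∃ a C d₀ : ℝ, 0 < a ∧ 0 ≤ C ∧ 0 < d₀ ∧ ∀ d : ℝ, 0 < d → d < d₀ →
      ∀ P : ℝ → ℝ → Prop, (∀ l B B', B ≤ B' → P l B → P l B') → P (C₀ * log (1 / d)) C₁ →
      (∀ l B, C₀ * log (1 / d) ≤ l → l ≤ d ^ (-(1 / 2) : ℝ) → 0 ≤ B → P l B →
        P (L * l) (κ * B + C₁ * √d)) →
      ∃ l, d ^ (-(1 / 4) : ℝ) ≤ l ∧ P l (C * d ^ a) := by
  -- a positive contraction factor
  set q : ℝ := max κ (1 / 2) with hq
  have hq0 : 0 < q := lt_of_lt_of_le (by norm_num) (le_max_right _ _)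
  have hq1 : q < 1 := max_lt hκ1 (by norm_num)
  have hlq : 0 < -log q := neg_pos.2 (log_neg hq0 hq1)
  have hlL : 0 < log L := log_pos hL
  set a' : ℝ := -log q / (4 * log L) with ha'
  have ha0 : 0 < a' := by positivity
  obtain ⟨δ₁, hδ₁, h1⟩ := log_small C₀ (b := 1 / 4) (by norm_num)
  set a : ℝ := min a' (1 / 2) with ha
  have hapos : 0 < a := lt_min ha0 (by norm_num)
  refine ⟨a, C₁ / q + C₁ / (1 - q), min (min δ₁ (1 / 2)) ((1 / L) ^ 4), hapos,
    add_nonneg (by positivity) (div_nonneg hC₁ (sub_pos.2 hq1).le), by positivity,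
    fun d hd hdd P hmono h0 hstep => ?_⟩
  have hdδ : d < δ₁ := hdd.trans_le ((min_le_left _ _).trans (min_le_left _ _))
  have hd1 : d < 1 := (hdd.trans_le ((min_le_left _ _).trans (min_le_right _ _))).trans (by norm_num)
  have hdL : d < (1 / L) ^ 4 := hdd.trans_le (min_le_right _ _)
  have hlog : 0 < log (1 / d) := log_pos ((one_lt_div hd).2 hd1)
  set l₀ : ℝ := C₀ * log (1 / d) with hl₀
  have hl₀pos : 0 < l₀ := by positivity
  have hl₀le : l₀ ≤ d ^ (-(1 / 4) : ℝ) := h1 d hd hdδ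
  set R : ℝ := d ^ (-(1 / 2) : ℝ) with hR
  have hR2 : R = d ^ (-(1 / 4) : ℝ) * d ^ (-(1 / 4) : ℝ) := by
    rw [hR, ← rpow_add hd]
    norm_num
  have hR4 : 0 < d ^ (-(1 / 4) : ℝ) := rpow_pos_of_pos hd _
  have hR41 : 1 ≤ d ^ (-(1 / 4) : ℝ) := by
    rw [rpow_neg hd.le]
    exact (one_le_inv₀ (rpow_pos_of_pos hd _)).2 (rpow_le_one hd.le hd1.le (by norm_num))
  have hL4 : L ≤ d ^ (-(1 / 4) : ℝ) := by
    have h2 : d ^ (1 / 4 : ℝ) ≤ 1 / L := by
      have h3 : d ^ (1 / 4 : ℝ) ≤ ((1 / L) ^ 4) ^ (1 / 4 : ℝ) :=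
        rpow_le_rpow hd.le hdL.le (by norm_num)
      rw [← rpow_natCast, ← rpow_mul (by positivity)] at h3
      have e1 : ((4 : ℕ) : ℝ) * (1 / 4) = 1 := by norm_num
      rwa [e1, rpow_one] at h3
    rw [rpow_neg hd.le, le_inv_comm₀ (by linarith) (rpow_pos_of_pos hd _), ← one_div L]
    exact h2
  -- the number of steps
  have hx : 0 ≤ log (R / l₀) / log L := by
    refine div_nonneg (log_nonneg ?_) hlL.le
    rw [one_le_div hl₀pos]
    refine hl₀le.trans ?_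
    rw [hR2]
    exact le_mul_of_one_le_left hR4.le hR41
  set N : ℕ := ⌊log (R / l₀) / log L⌋₊ with hN
  have hN1 : (N : ℝ) * log L ≤ log (R / l₀) := by
    rw [← le_div_iff₀ hlL]
    exact Nat.floor_le hx
  have hN2 : log (R / l₀) < (N + 1) * log L := by
    rw [← div_lt_iff₀ hlL]
    exact Nat.lt_floor_add_one _
  have hRpos : 0 < R := rpow_pos_of_pos hd _
  have hj : ∀ j < N, L ^ j * l₀ ≤ R := fun j hj => by
    have h2 : log (L ^ j) ≤ log (R / l₀) := by
      rw [log_pow]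
      refine le_trans ?_ hN1
      exact mul_le_mul_of_nonneg_right (by exact_mod_cast hj.le) hlL.le
    have h3 := (log_le_log_iff (by positivity) (by positivity)).1 h2
    rwa [le_div_iff₀ hl₀pos] at h3
  have hstep' : ∀ l B, l₀ ≤ l → l ≤ R → 0 ≤ B → P l B → P (L * l) (q * B + C₁ * √d) :=
    fun l B hl hlR hB hP => hmono _ _ _ (by
      gcongr
      exact le_max_left _ _) (hstep l B hl hlR hB hP)
  have hP := rec_iter hq0.le hq1 hL.le hl₀pos.le hC₁ (by positivity) h0 hmono hstep' N hj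
  refine ⟨L ^ N * l₀, ?_, hmono _ _ _ ?_ hP⟩
  · -- the last scale
    have h2 : log (R / l₀) < log (L ^ (N + 1)) := by
      rw [log_pow]
      push_cast
      exact hN2
    have h3 := (log_lt_log_iff (by positivity) (by positivity)).1 h2
    rw [div_lt_iff₀ hl₀pos, pow_succ] at h3
    rw [hR2] at h3
    have h4 : d ^ (-(1 / 4) : ℝ) * d ^ (-(1 / 4) : ℝ) < (L ^ N * l₀) * d ^ (-(1 / 4) : ℝ) := by
      refine h3.trans_le ?_
      calc L ^ N * L * l₀ = (L ^ N * l₀) * L := by ring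
        _ ≤ _ := mul_le_mul_of_nonneg_left hL4 (by positivity)
    exact (lt_of_mul_lt_mul_right h4 hR4.le).le
  · -- the bound
    have hda : d ^ a' ≤ d ^ a := rpow_le_rpow_of_exponent_ge hd hd1.le (min_le_left _ _)
    have hdh : √d ≤ d ^ a := by
      rw [sqrt_eq_rpow]
      exact rpow_le_rpow_of_exponent_ge hd hd1.le (min_le_right _ _)
    have hqN : q ^ N ≤ d ^ a' / q := by
      rw [le_div_iff₀ hq0, ← pow_succ]
      refine (log_le_log_iff (by positivity) (rpow_pos_of_pos hd _)).1 ?_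
      rw [log_pow, log_rpow hd]
      push_cast
      -- (N + 1) log q ≤ a' log d
      have h5 : 1 / 4 * log (1 / d) ≤ log (R / l₀) := by
        have h6 : d ^ (-(1 / 4) : ℝ) ≤ R / l₀ := by
          rw [le_div_iff₀ hl₀pos, hR2]
          exact mul_le_mul_of_nonneg_left hl₀le hR4.le
        have h7 := log_le_log hR4 h6
        rw [log_rpow hd] at h7
        have h8 : log (1 / d) = -log d := by rw [one_div, log_inv]
        rw [h8]
        linarith
      have h6 : 1 / 4 * log (1 / d) < (N + 1) * log L := h5.trans_lt hN2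
      have h7 : log (1 / d) = -log d := by rw [one_div, log_inv]
      rw [h7] at h6
      have h8 : (N + 1 : ℝ) * log q = -((N + 1) * (-log q)) := by ring
      rw [h8]
      have h9 : a' * log d = -(-log d * (-log q) / (4 * log L)) := by
        rw [ha']
        ring
      rw [h9, neg_le_neg_iff, div_le_iff₀ (by positivity)]
      nlinarith
    calc q ^ N * C₁ + C₁ * √d / (1 - q) ≤ (d ^ a / q) * C₁ + C₁ * d ^ a / (1 - q) := by
          have h10 : 0 < 1 - q := sub_pos.2 hq1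
          have h11 : q ^ N ≤ d ^ a / q := hqN.trans (by gcongr)
          gcongr
      _ = (C₁ / q + C₁ / (1 - q)) * d ^ a := by ring

end Pool.Agent.KRFZ

end

section

/-!
# The recursion and the drop estimate (semi-ample limit classes)
-/

open scoped ContDiff ENNReal ComplexOrder Topology
open Set MeasureTheory Filter Pool.Agent.ToricKRF Pool.Agent.ToricKRF.G Pool.Agent.KRFS
  Pool.Agent.KRFF Pool.Agent.KRFG Pool.Agent.KRFE

namespace Pool.Agent.KRFZ

section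

variable {n N : ℕ} {M Z : Type} [MetricSpace M] [MetricSpace Z] {κ P : Type} {T : ℝ}
  (F : Semi n N M Z κ P T)

/-- the values of the regularization at the points over `z` -/
def Rec.vals (t : ℝ) (z : Z) (l : ℝ) : Set ℝ :=
  {r | ∃ c p, p ∈ (F.e c).source ∧ nsq (F.e c p) ≤ 9 ∧ F.f p = z ∧ r = F.U t c l (F.e c p)}

theorem Rec.vals_nonempty (t : ℝ) (z : Z) (l : ℝ) : (Rec.vals F t z l).Nonempty := by
  obtain ⟨p, hp⟩ := F.emb.surj z
  obtain ⟨c, hc, hc1⟩ := F.cover p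
  exact ⟨_, c, p, hc, hc1.trans (by norm_num), hp, rfl⟩

section

variable {F} {Cu : ℝ} (hU : ∀ t ∈ Ico 0 T, ∀ c x l, nsq x ≤ 16 → 0 ≤ l → |F.U t c l x| ≤ Cu)
  {t : ℝ} (ht : t ∈ Ico 0 T)

include hU ht

theorem Rec.vals_le {z : Z} {l : ℝ} (hl : 0 ≤ l) : ∀ r ∈ Rec.vals F t z l, |r| ≤ Cu := by
  rintro r ⟨c, p, -, hp, -, rfl⟩
  exact hU t ht c _ l (hp.trans (by norm_num)) hl

theorem Rec.bdd {z : Z} {l : ℝ} (hl : 0 ≤ l) : BddAbove (Rec.vals F t z l) :=
  ⟨Cu, fun r hr => (abs_le.1 (Rec.vals_le hU ht hl r hr)).2⟩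

theorem Rec.le_mm {c : κ} {p : M} {l : ℝ} (hp : p ∈ (F.e c).source) (hp' : nsq (F.e c p) ≤ 9)
    (hl : 0 ≤ l) : F.U t c l (F.e c p) ≤ F.mm t (F.f p) l :=
  le_csSup (Rec.bdd hU ht hl) ⟨c, p, hp, hp', rfl, rfl⟩

theorem Rec.mm_abs {z : Z} {l : ℝ} (hl : 0 ≤ l) : |F.mm t z l| ≤ Cu := by
  obtain ⟨r, hr⟩ := Rec.vals_nonempty F t z l
  have h1 := Rec.vals_le hU ht (z := z) hl
  refine abs_le.2 ⟨(abs_le.1 (h1 r hr)).1.trans (le_csSup (Rec.bdd hU ht hl) hr),
    csSup_le ⟨r, hr⟩ fun r' hr' => (abs_le.1 (h1 r' hr')).2⟩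

end

variable {F}

theorem Rec.mm_le {t : ℝ} {z : Z} {l B : ℝ} (h : ∀ c p, p ∈ (F.e c).source →
    nsq (F.e c p) ≤ 9 → F.f p = z → F.U t c l (F.e c p) ≤ B) : F.mm t z l ≤ B := by
  refine csSup_le (Rec.vals_nonempty F t z l) ?_
  rintro r ⟨c, p, h1, h2, h3, rfl⟩
  exact h c p h1 h2 h3

theorem Rec.mm_anti {Cu : ℝ}
    (hU : ∀ t ∈ Ico 0 T, ∀ c x l, nsq x ≤ 16 → 0 ≤ l → |F.U t c l x| ≤ Cu)
    (hUa : ∀ t ∈ Ico 0 T, ∀ c x, nsq x ≤ 16 → ∀ l l', 0 ≤ l → l ≤ l' →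
      F.U t c l' x ≤ F.U t c l x) {t : ℝ} (ht : t ∈ Ico 0 T) (z : Z) {l l' : ℝ} (hl : 0 ≤ l)
    (h : l ≤ l') : F.mm t z l' ≤ F.mm t z l := by
  refine Rec.mm_le fun c p h1 h2 h3 => ?_
  subst h3
  exact (hUa t ht c _ (h2.trans (by norm_num)) l l' hl h).trans (Rec.le_mm hU ht h1 h2 hl)

end

section

variable {n N : ℕ} {M Z : Type} [MetricSpace M] [CompactSpace M] [MeasurableSpace M]
  [MetricSpace Z] {κ P : Type} {T : ℝ} (F : Semi n N M Z κ P T) {μ : Measure M}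

/-- `mm (f x'') l ≤ φ(s) x' + B` if `x'` and `x''` are at distance at most `exp (-l - 2)` -/
def Rec.Bd (t s l B : ℝ) : Prop := ∀ x' x'', dist x' x'' ≤ Real.exp (-(l + 2)) →
  F.mm t (F.f x'') l ≤ F.Phi s x' + B

/-- **One step of the recursion.** -/
theorem Rec.step
    (hUb : ∃ C, 0 ≤ C ∧ ∀ t ∈ Ico 0 T, ∀ c x l, nsq x ≤ 16 → 0 ≤ l → |F.U t c l x| ≤ C)
    (hUa : ∀ t ∈ Ico 0 T, ∀ c x, nsq x ≤ 16 → ∀ l l', 0 ≤ l → l ≤ l' →
      F.U t c l' x ≤ F.U t c l x)
    (hUU : ∃ C a, 0 ≤ C ∧ 0 ≤ a ∧ ∀ t ∈ Ico 0 T, ∀ c c' p p' l,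
      p ∈ (F.e c).source → p' ∈ (F.e c').source → nsq (F.e c p) ≤ 16 → nsq (F.e c' p') ≤ 16 →
      a ≤ l → dist p p' ≤ Real.exp (-l) →
      F.U t c l (F.e c p) ≤ F.U t c' (l - a) (F.e c' p') + C * Real.exp (-l))
    (hsl : ∀ t ∈ Ico 0 T, ∀ z l, 0 < l → ∀ c p, p ∈ (F.e c).source → nsq (F.e c p) ≤ 9 →
      F.f p = z → ∀ a, 0 ≤ a → a ≤ l / 2 →
      F.U t c (l - a) (F.e c p) ≤ F.U t c l (F.e c p) + 2 * a / l * F.G t z c l (F.e c p))
    (hharn : ∃ C l₀, 0 ≤ C ∧ 1 ≤ l₀ ∧ ∀ t ∈ Ico 0 T, ∀ z l, l₀ ≤ l → ∀ c p,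
      p ∈ (F.e c).source → nsq (F.e c p) ≤ 9 → F.f p = z →
      F.G t z c l (F.e c p) ≤ C * F.A t z l)
    (hpeak : ∃ C c₀ l₀, 0 ≤ C ∧ 0 < c₀ ∧ 1 ≤ l₀ ∧
      ∀ t ∈ Ico 0 T, ∀ c x l, l₀ ≤ l → x ∈ (F.e c).source → nsq (F.e c x) ≤ 9 →
      ∀ p, 0 < p → (∀ x₁, dist x x₁ ≤ Real.exp (-l) → p * F.A t (F.f x₁) l ≤ c₀ * l) →
      ∀ j, F.f x ∈ F.S j → nsq (F.y j x) ≤ 4 →
      ∃ h, F.Adm μ t p j h ∧ h x ≠ 0 ∧ F.U t c l (F.e c x) - C * l / p ≤ F.val p j h x)
    (hdom : ∃ C c₀ d₀, 0 ≤ C ∧ 0 < c₀ ∧ 0 < d₀ ∧ ∀ t ∈ Ico 0 T, T - t ≤ d₀ → ∀ p,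
      C * (1 + |Real.log (T - t)|) ≤ p → p * (T - t) ≤ c₀ → ∀ j h x, F.Adm μ t p j h →
      F.f x ∈ F.S j → nsq (F.y j x) ≤ 9 → h x ≠ 0 → ∀ s ∈ Ico t T,
      F.val p j h x ≤ F.Phi s x + C * (1 + |Real.log (T - t)|) / p) (S₀ : ℝ) :
    ∃ κ C₀ d₀ : ℝ, 0 ≤ κ ∧ κ < 1 ∧ 1 ≤ C₀ ∧ 0 < d₀ ∧ ∀ t ∈ Ico 0 T, T - t ≤ d₀ →
      ∀ s ∈ Ico t T, ∀ l, C₀ * (1 + |Real.log (T - t)|) ≤ l → (T - t) * l ≤ 1 → ∀ B, 0 ≤ B →
      B ≤ S₀ → Rec.Bd F t s (l / 2) B →
      Rec.Bd F t s l (κ * B + ((T - t) * l + Real.exp (-(l / 2)))) := by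
  obtain ⟨Cu, hCu, hU⟩ := hUb
  obtain ⟨C₁, a₀, hC₁, ha₀, hUU⟩ := hUU
  obtain ⟨Ch, lh, hCh, hlh, hharn⟩ := hharn
  obtain ⟨Cb, hCb, hΦ⟩ := F.toFlow.Phi_bound
  obtain ⟨Cp, cp, lp, hCp, hcp, hlp, hpeak⟩ := hpeak
  obtain ⟨Cd, cd, dd, hCd, hcd, hdd, hdom⟩ := hdom
  -- the constants
  set c : ℝ := min cp cd with hc
  have hc0 : 0 < c := lt_min hcp hcd
  set C₂ : ℝ := 2 * (1 + Ch + C₁) with hC₂
  have hC₂2 : 2 ≤ C₂ := by rw [hC₂]; linarith
  have hC₂0 : 0 < C₂ := by linarith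
  set D₀ : ℝ := |S₀| + Cu + Cb + 2 with hD₀
  have hD₀0 : 0 < D₀ := by positivity
  set C₃ : ℝ := Ch + Ch * C₂ + C₁ + (Cp + Cd) * C₂ / c with hC₃
  have hC₃0 : 0 ≤ C₃ := by positivity
  have hK1 : 0 ≤ C₂ * D₀ * Cd / c := by positivity
  have hK2 : 0 ≤ 4 * (a₀ + 1) * Ch := by positivity
  refine ⟨C₃ / (1 + C₃), C₂ * D₀ * Cd / c + 4 * (a₀ + 1) * Ch + 2 * (a₀ + 1) + lh + lp + 4, dd,
    by positivity, by rw [div_lt_one (by positivity)]; linarith, by linarith, hdd,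
    fun t ht htd s hs l hl hdl B hB hBS hBd => ?_⟩
  have hs' : s ∈ Ico 0 T := ⟨ht.1.trans hs.1, hs.2⟩
  set d : ℝ := T - t with hd
  have hd0 : 0 < d := sub_pos.2 ht.2
  set lg : ℝ := 1 + |Real.log d| with hlg
  have hlg1 : 1 ≤ lg := by rw [hlg]; linarith [abs_nonneg (Real.log d)]
  have hl1 : C₂ * D₀ * Cd / c * lg ≤ l := by
    refine le_trans ?_ hl
    refine mul_le_mul_of_nonneg_right ?_ (by linarith)
    linarith
  have hl2 : C₂ * D₀ * Cd / c + 4 * (a₀ + 1) * Ch + 2 * (a₀ + 1) + lh + lp + 4 ≤ l :=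
    (le_mul_of_one_le_right (by linarith) hlg1).trans hl
  have hl4 : 4 ≤ l := by linarith
  have hl0 : 0 < l := by linarith
  have hlgl : lg ≤ l := by
    refine le_trans ?_ hl
    exact le_mul_of_one_le_left (by linarith) (by linarith)
  have hlh' : lh ≤ l := by linarith
  have hlp' : lp ≤ l := by linarith
  have ha₀1 : a₀ + 1 ≤ l / 2 := by linarith
  have haCh : 4 * (a₀ + 1) * Ch ≤ l := by linarith
  intro x' x'' hxx
  -- the quantities
  set z : Z := F.f x'' with hz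
  set X : ℝ := F.mm t z l - F.Phi s x' with hX
  set er : ℝ := d * l + Real.exp (-(l / 2)) with her
  set D : ℝ := B - X + er with hD
  have hexp : 0 < Real.exp (-(l / 2)) := Real.exp_pos _
  have hdl0 : 0 < d * l := by positivity
  have hmanti : ∀ z', F.mm t z' l ≤ F.mm t z' (l / 2) := fun z' =>
    Rec.mm_anti hU hUa ht z' (by positivity) (by linarith)
  have hAdef : ∀ z', F.A t z' l = F.mm t z' (l / 2) - F.mm t z' l + er := fun z' => by
    rw [her, ← add_assoc]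
    rfl
  have hA_ge : ∀ z', er ≤ F.A t z' l := fun z' => by
    rw [hAdef]
    linarith [hmanti z']
  have hA_pos : ∀ z', 0 ≤ F.A t z' l := fun z' =>
    le_trans (by rw [her]; positivity) (hA_ge z')
  -- (1)
  have hAz : F.A t z l ≤ D := by
    have h1 : F.mm t z (l / 2) ≤ F.Phi s x' + B :=
      hBd x' x'' (hxx.trans (Real.exp_le_exp.2 (by linarith)))
    rw [hAdef, hD, hX]
    linarith
  have herD : er ≤ D := (hA_ge z).trans hAz
  have hexpD : Real.exp (-(l / 2)) ≤ D := le_trans (by rw [her]; linarith) herD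
  have hdlD : d * l ≤ D := le_trans (by rw [her]; linarith) herD
  have hD0 : 0 < D := hexp.trans_le hexpD
  have hDD₀ : D ≤ D₀ := by
    have h1 := (abs_le.1 (Rec.mm_abs hU ht (z := z) hl0.le)).1
    have h2 := (abs_le.1 (hΦ s hs' x')).2
    have h3 : Real.exp (-(l / 2)) ≤ 1 := Real.exp_le_one_iff.2 (by linarith)
    have h4 : B ≤ |S₀| := hBS.trans (le_abs_self _)
    rw [hD, hX, her, hD₀]
    linarith
  have he1 : Real.exp (-(l - 1)) ≤ D := le_trans (Real.exp_le_exp.2 (by linarith)) hexpD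
  have he2 : Real.exp (-l) ≤ D := le_trans (Real.exp_le_exp.2 (by linarith)) hexpD
  -- the chart at `x''`
  obtain ⟨c₂, hc₂, hc₂1⟩ := F.cover x''
  have hmz : F.mm t z l ≤ F.U t c₂ l (F.e c₂ x'') + Ch * D := by
    have h1 := hharn t ht z l hlh' c₂ x'' hc₂ (hc₂1.trans (by norm_num)) rfl
    have h2 : F.G t z c₂ l (F.e c₂ x'') = F.A t z l + F.mm t z l - F.U t c₂ l (F.e c₂ x'') := rfl
    have h3 : Ch * F.A t z l ≤ Ch * D := mul_le_mul_of_nonneg_left hAz hCh
    have h4 := hA_pos z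
    linarith
  -- (2)
  have hA₁ : ∀ x₁, dist x' x₁ ≤ Real.exp (-l) → F.A t (F.f x₁) l ≤ C₂ * D := fun x₁ hx₁ => by
    obtain ⟨c₁, hc₁, hc₁1⟩ := F.cover x₁
    have h1 : F.mm t (F.f x₁) (l / 2) ≤ F.Phi s x' + B :=
      hBd x' x₁ (hx₁.trans (Real.exp_le_exp.2 (by linarith)))
    have h2 : dist x'' x₁ ≤ Real.exp (-(l - 1)) := by
      have h3 : dist x'' x₁ ≤ Real.exp (-l) + Real.exp (-l) := by
        refine (dist_triangle x'' x' x₁).trans (add_le_add ?_ hx₁)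
        rw [dist_comm]
        exact hxx.trans (Real.exp_le_exp.2 (by linarith))
      have h4 : Real.exp (-(l - 1)) = Real.exp (-l) * Real.exp 1 := by
        rw [← Real.exp_add]
        congr 1
        ring
      have h5 : (2 : ℝ) ≤ Real.exp 1 := by
        have := Real.add_one_le_exp (1 : ℝ)
        linarith
      have h6 : 0 < Real.exp (-l) := Real.exp_pos _
      rw [h4]
      have h7 := mul_le_mul_of_nonneg_left h5 h6.le
      linarith
    have h3 : F.U t c₂ l (F.e c₂ x'') ≤ F.U t c₂ (l - 1) (F.e c₂ x'') :=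
      hUa t ht c₂ _ (hc₂1.trans (by norm_num)) (l - 1) l (by linarith) (by linarith)
    have h4 := hUU t ht c₂ c₁ x'' x₁ (l - 1) hc₂ hc₁ (hc₂1.trans (by norm_num))
      (hc₁1.trans (by norm_num)) (by linarith) h2
    have h5 := hsl t ht (F.f x₁) l hl0 c₁ x₁ hc₁ (hc₁1.trans (by norm_num)) rfl (a₀ + 1)
      (by linarith) ha₀1
    have h6 : l - 1 - a₀ = l - (a₀ + 1) := by ring
    rw [h6] at h4
    have h7 := hharn t ht (F.f x₁) l hlh' c₁ x₁ hc₁ (hc₁1.trans (by norm_num)) rfl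
    have h8 : 2 * (a₀ + 1) / l * F.G t (F.f x₁) c₁ l (F.e c₁ x₁) ≤ F.A t (F.f x₁) l / 2 := by
      calc 2 * (a₀ + 1) / l * F.G t (F.f x₁) c₁ l (F.e c₁ x₁)
          ≤ 2 * (a₀ + 1) / l * (Ch * F.A t (F.f x₁) l) :=
            mul_le_mul_of_nonneg_left h7 (by positivity)
        _ = (4 * (a₀ + 1) * Ch) / l * (F.A t (F.f x₁) l / 2) := by ring
        _ ≤ 1 * (F.A t (F.f x₁) l / 2) := by
          refine mul_le_mul_of_nonneg_right ?_ (by linarith [hA_pos (F.f x₁)])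
          rw [div_le_one hl0]
          exact haCh
        _ = F.A t (F.f x₁) l / 2 := one_mul _
    have h9 : F.U t c₁ l (F.e c₁ x₁) ≤ F.mm t (F.f x₁) l :=
      Rec.le_mm hU ht hc₁ (hc₁1.trans (by norm_num)) hl0.le
    have h10 : C₁ * Real.exp (-(l - 1)) ≤ C₁ * D := mul_le_mul_of_nonneg_left he1 hC₁
    have h11 := hAdef (F.f x₁)
    have h12 : D = B - F.mm t z l + F.Phi s x' + er := by
      rw [hD, hX]
      ring
    have h13 : C₂ * D = 2 * (D + Ch * D + C₁ * D) := by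
      rw [hC₂]
      ring
    rw [h13]
    linarith
  -- (3)
  clear_value D X er
  set p : ℝ := c * l / (C₂ * D) with hp
  have hp0 : 0 < p := by positivity
  have hpD : p * (C₂ * D) = c * l := by
    rw [hp]
    field_simp
  have hpd : p * d ≤ cd := by
    rw [hp, div_mul_eq_mul_div, div_le_iff₀ (by positivity)]
    calc c * l * d = c * (d * l) := by ring
      _ ≤ cd * (C₂ * D) := by
        refine mul_le_mul (min_le_right _ _) ?_ (by positivity) hcd.le
        exact hdlD.trans (le_mul_of_one_le_left hD0.le (by linarith))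
  have hpC : Cd * lg ≤ p := by
    rw [hp, le_div_iff₀ (by positivity)]
    have h4 := mul_le_mul_of_nonneg_left hl1 hc0.le
    calc Cd * lg * (C₂ * D) ≤ Cd * lg * (C₂ * D₀) := by gcongr
      _ = c * (C₂ * D₀ * Cd / c * lg) := by field_simp
      _ ≤ c * l := h4
  clear_value p C₃ C₂ D₀
  obtain ⟨c₃, hc₃, hc₃1⟩ := F.cover x'
  obtain ⟨j, hj, hj1⟩ := F.emb.cover (F.f x')
  obtain ⟨h, hh, hhx, hval⟩ := hpeak t ht c₃ x' l hlp' hc₃ (hc₃1.trans (by norm_num)) p hp0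
    (fun x₁ hx₁ => by
      calc p * F.A t (F.f x₁) l ≤ p * (C₂ * D) := mul_le_mul_of_nonneg_left (hA₁ x₁ hx₁) hp0.le
        _ = c * l := hpD
        _ ≤ cp * l := mul_le_mul_of_nonneg_right (min_le_left _ _) hl0.le)
    j hj (hj1.trans (by norm_num))
  have hdom' := hdom t ht htd p hpC hpd j h x' hh hj (hj1.trans (by norm_num)) hhx s hs
  rw [← hlg] at hdom'
  clear_value lg
  have hlp1 : l / p = C₂ * D / c := by
    rw [div_eq_div_iff hp0.ne' hc0.ne']
    linarith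
  have hUx' : F.U t c₃ l (F.e c₃ x') ≤ F.Phi s x' + (Cp + Cd) * C₂ / c * D := by
    have e1 : Cp * l / p = Cp * (C₂ * D / c) := by rw [mul_div_assoc, hlp1]
    have e2 : Cd * lg / p ≤ Cd * (C₂ * D / c) := by
      calc Cd * lg / p ≤ Cd * l / p := by gcongr
        _ = Cd * (C₂ * D / c) := by rw [mul_div_assoc, hlp1]
    have e3 : (Cp + Cd) * C₂ / c * D = Cp * (C₂ * D / c) + Cd * (C₂ * D / c) := by ring
    rw [e3]
    rw [e1] at hval
    linarith
  -- (4)
  have hUx'' : F.U t c₂ l (F.e c₂ x'') ≤ F.U t c₃ l (F.e c₃ x') + Ch * C₂ * D + C₁ * D := by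
    have h2 : dist x'' x' ≤ Real.exp (-l) := by
      rw [dist_comm]
      exact hxx.trans (Real.exp_le_exp.2 (by linarith))
    have h4 := hUU t ht c₂ c₃ x'' x' l hc₂ hc₃ (hc₂1.trans (by norm_num))
      (hc₃1.trans (by norm_num)) (by linarith) h2
    have h5 := hsl t ht (F.f x') l hl0 c₃ x' hc₃ (hc₃1.trans (by norm_num)) rfl a₀ ha₀
      (by linarith)
    have h7 := hharn t ht (F.f x') l hlh' c₃ x' hc₃ (hc₃1.trans (by norm_num)) rfl
    have h6 : F.A t (F.f x') l ≤ C₂ * D := hA₁ x' (by simp [Real.exp_nonneg])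
    have h8 : 2 * a₀ / l * F.G t (F.f x') c₃ l (F.e c₃ x') ≤ Ch * C₂ * D := by
      have h9 : F.G t (F.f x') c₃ l (F.e c₃ x') ≤ Ch * (C₂ * D) :=
        h7.trans (mul_le_mul_of_nonneg_left h6 hCh)
      calc 2 * a₀ / l * F.G t (F.f x') c₃ l (F.e c₃ x') ≤ 2 * a₀ / l * (Ch * (C₂ * D)) :=
            mul_le_mul_of_nonneg_left h9 (by positivity)
        _ ≤ 1 * (Ch * (C₂ * D)) := by
          refine mul_le_mul_of_nonneg_right ?_ (by positivity)
          rw [div_le_one hl0]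
          linarith
        _ = Ch * C₂ * D := by ring
    have h10 : C₁ * Real.exp (-l) ≤ C₁ * D := mul_le_mul_of_nonneg_left he2 hC₁
    linarith
  have hXD : X ≤ C₃ * D := by
    have h1 : C₃ * D = Ch * D + Ch * C₂ * D + C₁ * D + (Cp + Cd) * C₂ / c * D := by
      rw [hC₃]
      ring
    rw [h1, hX]
    linarith
  -- the conclusion
  have h1 : X ≤ C₃ / (1 + C₃) * (B + er) := by
    rw [div_mul_eq_mul_div, le_div_iff₀ (by positivity)]
    have h2 : C₃ * D = C₃ * (B + er) - C₃ * X := by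
      rw [hD]
      ring
    linarith
  have h2 : C₃ / (1 + C₃) * er ≤ er := by
    refine mul_le_of_le_one_left (by rw [her]; positivity) ?_
    rw [div_le_one (by positivity)]
    linarith
  have h3 : F.mm t z l = X + F.Phi s x' := by
    rw [hX]
    ring
  rw [h3]
  have h4 : C₃ / (1 + C₃) * (B + er) = C₃ / (1 + C₃) * B + C₃ / (1 + C₃) * er := by ring
  linarith

/-- **The drop estimate.** -/
theorem Semi.drop_of
    (hUb : ∃ C, 0 ≤ C ∧ ∀ t ∈ Ico 0 T, ∀ c x l, nsq x ≤ 16 → 0 ≤ l → |F.U t c l x| ≤ C)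
    (hUa : ∀ t ∈ Ico 0 T, ∀ c x, nsq x ≤ 16 → ∀ l l', 0 ≤ l → l ≤ l' →
      F.U t c l' x ≤ F.U t c l x)
    (hPU : ∀ t ∈ Ico 0 T, ∀ c p, p ∈ (F.e c).source → nsq (F.e c p) ≤ 16 → ∀ l, 0 ≤ l →
      F.Phi t p ≤ F.U t c l (F.e c p))
    (hUU : ∃ C a, 0 ≤ C ∧ 0 ≤ a ∧ ∀ t ∈ Ico 0 T, ∀ c c' p p' l,
      p ∈ (F.e c).source → p' ∈ (F.e c').source → nsq (F.e c p) ≤ 16 → nsq (F.e c' p') ≤ 16 →
      a ≤ l → dist p p' ≤ Real.exp (-l) →
      F.U t c l (F.e c p) ≤ F.U t c' (l - a) (F.e c' p') + C * Real.exp (-l))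
    (hsl : ∀ t ∈ Ico 0 T, ∀ z l, 0 < l → ∀ c p, p ∈ (F.e c).source → nsq (F.e c p) ≤ 9 →
      F.f p = z → ∀ a, 0 ≤ a → a ≤ l / 2 →
      F.U t c (l - a) (F.e c p) ≤ F.U t c l (F.e c p) + 2 * a / l * F.G t z c l (F.e c p))
    (hharn : ∃ C l₀, 0 ≤ C ∧ 1 ≤ l₀ ∧ ∀ t ∈ Ico 0 T, ∀ z l, l₀ ≤ l → ∀ c p,
      p ∈ (F.e c).source → nsq (F.e c p) ≤ 9 → F.f p = z →
      F.G t z c l (F.e c p) ≤ C * F.A t z l)
    (hpeak : ∃ C c₀ l₀, 0 ≤ C ∧ 0 < c₀ ∧ 1 ≤ l₀ ∧
      ∀ t ∈ Ico 0 T, ∀ c x l, l₀ ≤ l → x ∈ (F.e c).source → nsq (F.e c x) ≤ 9 →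
      ∀ p, 0 < p → (∀ x₁, dist x x₁ ≤ Real.exp (-l) → p * F.A t (F.f x₁) l ≤ c₀ * l) →
      ∀ j, F.f x ∈ F.S j → nsq (F.y j x) ≤ 4 →
      ∃ h, F.Adm μ t p j h ∧ h x ≠ 0 ∧ F.U t c l (F.e c x) - C * l / p ≤ F.val p j h x)
    (hdom : ∃ C c₀ d₀, 0 ≤ C ∧ 0 < c₀ ∧ 0 < d₀ ∧ ∀ t ∈ Ico 0 T, T - t ≤ d₀ → ∀ p,
      C * (1 + |Real.log (T - t)|) ≤ p → p * (T - t) ≤ c₀ → ∀ j h x, F.Adm μ t p j h →
      F.f x ∈ F.S j → nsq (F.y j x) ≤ 9 → h x ≠ 0 → ∀ s ∈ Ico t T,
      F.val p j h x ≤ F.Phi s x + C * (1 + |Real.log (T - t)|) / p) :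
    ∃ a, 0 < a ∧ a ≤ 1 ∧ F.toFlow.Drop a := by
  obtain ⟨Cu, hCu, hU⟩ := id hUb
  obtain ⟨Cb, hCb, hΦ⟩ := F.toFlow.Phi_bound
  obtain ⟨κ', C₀, d₀, hκ0, hκ1, hC₀, hd₀, hstep⟩ := Rec.step F hUb hUa hUU hsl hharn hpeak hdom
    (Cu + Cb)
  obtain ⟨α, C', d₁, hα, hC', hd₁, hrec⟩ := rec_num (κ := κ') (L := 2) (C₀ := 2 * C₀)
    (C₁ := Cu + Cb + 3) hκ1 (by norm_num) (by linarith) (by positivity)
  set d₂ : ℝ := min (min d₀ d₁) (min (Real.exp (-1)) (1 / 4)) with hd₂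
  have hd₂0 : 0 < d₂ := by positivity
  -- the estimate for `t` near `T`
  have hmain : ∀ t ∈ Ico 0 T, T - t < d₂ → ∀ s ∈ Ico t T, ∀ p,
      F.Phi t p - F.Phi s p ≤ C' * (T - t) ^ α := by
    intro t ht htd s hs
    have hs' : s ∈ Ico 0 T := ⟨ht.1.trans hs.1, hs.2⟩
    set d : ℝ := T - t with hd
    have hd0 : 0 < d := sub_pos.2 ht.2
    have hdd₀ : d ≤ d₀ := htd.le.trans ((min_le_left _ _).trans (min_le_left _ _))
    have hdd₁ : d < d₁ := htd.trans_le ((min_le_left _ _).trans (min_le_right _ _))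
    have hde : d < Real.exp (-1) := htd.trans_le ((min_le_right _ _).trans (min_le_left _ _))
    have hd4 : d < 1 / 4 := htd.trans_le ((min_le_right _ _).trans (min_le_right _ _))
    have hlogd : Real.log d < -1 := by
      rw [← Real.log_exp (-1)]
      exact Real.log_lt_log hd0 hde
    have hlogd' : Real.log (1 / d) = -Real.log d := by rw [one_div, Real.log_inv]
    have hlog1 : 1 < Real.log (1 / d) := by rw [hlogd']; linarith
    have habs : |Real.log d| = Real.log (1 / d) := by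
      rw [hlogd', abs_of_neg (by linarith)]
    have hsq : √d * √d = d := Real.mul_self_sqrt hd0.le
    have hsq0 : 0 < √d := Real.sqrt_pos.2 hd0
    have hsqinv : d ^ (-(1 / 2) : ℝ) = (√d)⁻¹ := by
      rw [Real.rpow_neg hd0.le, Real.sqrt_eq_rpow]
    have hsq2 : √d ≤ 1 / 2 := by
      rw [show (1 / 2 : ℝ) = √(1 / 4) by
        rw [show (1 / 4 : ℝ) = (1 / 2) ^ 2 by norm_num, Real.sqrt_sq (by norm_num)]]
      exact Real.sqrt_le_sqrt hd4.le
    -- the trivial bound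
    have htriv : ∀ l, 0 ≤ l → Rec.Bd F t s l (Cu + Cb) := fun l hl x' x'' _ => by
      have h1 := (abs_le.1 (Rec.mm_abs hU ht (z := F.f x'') hl)).2
      have h2 := (abs_le.1 (hΦ s hs' x')).1
      linarith
    have hl0pos : 0 ≤ 2 * C₀ * Real.log (1 / d) := by positivity
    obtain ⟨l, hl, hXl⟩ := hrec d hd0 hdd₁ (fun l B => Rec.Bd F t s l B)
      (fun l B B' hB h x' x'' hx => (h x' x'' hx).trans (by linarith))
      (fun x' x'' hx => (htriv _ hl0pos x' x'' hx).trans (by linarith))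
      (fun l B hl hlR hB hP => by
        rw [hsqinv] at hlR
        have hlpos : 0 < l := lt_of_lt_of_le (by positivity) hl
        have hls : l * √d ≤ 1 := by rwa [← le_div_iff₀ hsq0, one_div]
        have e1 : d * (2 * l) ≤ 2 * √d := by
          calc d * (2 * l) = 2 * (l * √d) * √d := by linear_combination (-(2 * l)) * hsq
            _ ≤ 2 * 1 * √d := by gcongr
            _ = 2 * √d := by ring
        have e2 : Real.exp (-(2 * l / 2)) ≤ √d := by
          have h4 : Real.log (1 / d) ≤ l := by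
            refine le_trans ?_ hl
            exact le_mul_of_one_le_left (by linarith) (by linarith)
          have h5 : 2 * l / 2 = l := by ring
          rw [h5]
          calc Real.exp (-l) ≤ Real.exp (-Real.log (1 / d)) := Real.exp_le_exp.2 (neg_le_neg h4)
            _ = d := by rw [hlogd', neg_neg, Real.exp_log hd0]
            _ = √d * √d := hsq.symm
            _ ≤ 1 * √d := by gcongr; linarith
            _ = √d := one_mul _
        have h1 : C₀ * (1 + |Real.log d|) ≤ 2 * l := by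
          rw [habs]
          have h2 : C₀ * (1 + Real.log (1 / d)) ≤ C₀ * (2 * Real.log (1 / d)) := by
            gcongr
            linarith
          linarith
        have h2 : 2 * l / 2 = l := by ring
        have h3 := hstep t ht hdd₀ s hs (2 * l) h1 (e1.trans (by linarith)) (min B (Cu + Cb))
          (le_min hB (by positivity)) (min_le_right _ _) (by
            rw [h2]
            rcases le_total B (Cu + Cb) with h | h
            · rwa [min_eq_left h]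
            · rw [min_eq_right h]
              exact htriv l hlpos.le)
        intro x' x'' hx
        refine (h3 x' x'' hx).trans ?_
        have h4 : κ' * min B (Cu + Cb) ≤ κ' * B :=
          mul_le_mul_of_nonneg_left (min_le_left _ _) hκ0
        have h5 : 3 * √d ≤ (Cu + Cb + 3) * √d := by
          gcongr
          linarith
        linarith)
    intro p
    obtain ⟨c₁, hc₁, hc₁1⟩ := F.cover p
    have hl0 : 0 ≤ l := le_trans (Real.rpow_nonneg hd0.le _) hl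
    have h1 := hPU t ht c₁ p hc₁ (hc₁1.trans (by norm_num)) l hl0
    have h2 := Rec.le_mm hU ht hc₁ (hc₁1.trans (by norm_num)) hl0
    have h3 := hXl p p (by simp [Real.exp_nonneg])
    linarith
  -- all times
  set β : ℝ := min α 1 with hβ
  have hβ0 : 0 < β := lt_min hα one_pos
  have hd₂1 : d₂ < 1 := ((min_le_right _ _).trans (min_le_right _ _)).trans_lt (by norm_num)
  have hpow : 0 < d₂ ^ β := Real.rpow_pos_of_pos hd₂0 _
  refine ⟨β, hβ0, min_le_right _ _, C' + 2 * Cb / d₂ ^ β, by positivity,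
    fun t ht s hs p => ?_⟩
  have hd0 : 0 < T - t := sub_pos.2 ht.2
  have hdβ : 0 < (T - t) ^ β := Real.rpow_pos_of_pos hd0 _
  rcases lt_or_ge (T - t) d₂ with h | h
  · refine (hmain t ht h s hs p).trans ?_
    have h1 : (T - t) ^ α ≤ (T - t) ^ β :=
      Real.rpow_le_rpow_of_exponent_ge hd0 (h.le.trans hd₂1.le) (min_le_left _ _)
    have h2 : C' ≤ C' + 2 * Cb / d₂ ^ β := le_add_of_nonneg_right (by positivity)
    exact mul_le_mul h2 h1 (Real.rpow_nonneg hd0.le _) (by positivity)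
  · have h1 := (abs_le.1 (hΦ t ht p)).2
    have h2 := (abs_le.1 (hΦ s ⟨ht.1.trans hs.1, hs.2⟩ p)).1
    have h3 : d₂ ^ β ≤ (T - t) ^ β := Real.rpow_le_rpow hd₂0.le h hβ0.le
    have h4 : 2 * Cb ≤ 2 * Cb / d₂ ^ β * (T - t) ^ β := by
      rw [div_mul_eq_mul_div, le_div_iff₀ hpow]
      gcongr
    have h5 : 0 ≤ C' * (T - t) ^ β := by positivity
    calc F.Phi t p - F.Phi s p ≤ 2 * Cb := by linarith
      _ ≤ (C' + 2 * Cb / d₂ ^ β) * (T - t) ^ β := by
        rw [add_mul]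
        linarith

end

end Pool.Agent.KRFZ

end
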