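import Pool.Agent.Work.MP_a2bf38_gt.Fu.X.LocComp
import Pool.Agent.Work.MP_a2bf38_gt.Fu.I.PshGood
import Pool.Agent.Work.MP_a2bf38_gt.Fu.I.AbpLin
import Pool.Agent.Work.MP_a2bf38_gt.Fu.Z.Pole

section

/-!
# Constants which exist by compactness, II
-/

open scoped ContDiff ENNReal ComplexOrder Topology
open Set MeasureTheory Filter Pool.Agent.ToricKRF Pool.Agent.ToricKRF.G Pool.Agent.KRFS
  Pool.Agent.KRFF Pool.Agent.KRFG Pool.Agent.KRFE

namespace Pool.Agent.KRFZ

namespace C2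

variable {m : ℕ}

theorem nsq_nonneg (v : Cn m) : 0 ≤ nsq v := Fb.nsq_nonneg v

theorem norm_le_sqrt (v : Cn m) : ‖v‖ ≤ √(nsq v) :=
  norm_le_of_nsq_le (Real.sqrt_nonneg _) (Real.sq_sqrt (nsq_nonneg v)).ge

theorem isCompact_le (r : ℝ) : IsCompact {x : Cn m | nsq x ≤ r} := by
  refine Metric.isCompact_of_isClosed_isBounded
    (isClosed_le KRFH.BallM.continuous_nsq continuous_const)
    ((Metric.isBounded_closedBall (x := (0 : Cn m)) (r := √r)).subset fun w hw => ?_)
  rw [mem_closedBall_zero_iff]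
  exact (norm_le_sqrt w).trans (Real.sqrt_le_sqrt hw)

theorem isOpen_nsq_lt (r : ℝ) : IsOpen {x : Cn m | nsq x < r} :=
  isOpen_lt KRFH.BallM.continuous_nsq continuous_const

theorem convex_le (r : ℝ) : Convex ℝ {x : Cn m | nsq x ≤ r} := by
  intro x hx y hy a b ha hb hab
  have hx' : nsq x ≤ r := hx
  have hy' : nsq y ≤ r := hy
  change nsq (a • x + b • y) ≤ r
  have h : nsq (a • x + b • y) ≤ a * nsq x + b * nsq y := by
    rw [KRFH.BallM.nsq_eq_sum, KRFH.BallM.nsq_eq_sum, KRFH.BallM.nsq_eq_sum, Finset.mul_sum,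
      Finset.mul_sum, ← Finset.sum_add_distrib]
    refine Finset.sum_le_sum fun j _ => ?_
    have key : ∀ s t : ℝ, (a * s + b * t) ^ 2 ≤ a * s ^ 2 + b * t ^ 2 := by
      intro s t
      have hb' : b = 1 - a := by linarith
      have h1 : a * s ^ 2 + b * t ^ 2 - (a * s + b * t) ^ 2 = a * b * (s - t) ^ 2 := by
        rw [hb']
        ring
      have h2 : 0 ≤ a * b * (s - t) ^ 2 := by positivity
      linarith
    have e1 := key (x.1 j) (y.1 j)
    have e2 := key (x.2 j) (y.2 j)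
    simp only [Prod.fst_add, Prod.smul_fst, Pi.add_apply, Pi.smul_apply, smul_eq_mul,
      Prod.snd_add, Prod.smul_snd]
    linarith
  have h1 : a * nsq x ≤ a * r := mul_le_mul_of_nonneg_left hx' ha
  have h2 : b * nsq y ≤ b * r := mul_le_mul_of_nonneg_left hy' hb
  have h3 : a * r + b * r = r := by
    rw [← add_mul, hab, one_mul]
  linarith

theorem nsq_smul (s : ℝ) (w : Cn m) : nsq (s • w) = s ^ 2 * nsq w := by
  simp only [nsq, Prod.smul_fst, Prod.smul_snd, smul_dotProduct, dotProduct_smul, smul_eq_mul]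
  ring

/-- finitely many constants -/
theorem fin_const {P : Type*} [Finite P] {Q : P → ℝ → Prop}
    (mono : ∀ j C C', 0 < C → C ≤ C' → Q j C → Q j C') (h : ∀ j, ∃ C, 0 < C ∧ Q j C) :
    ∃ C, 0 < C ∧ ∀ j, Q j C := by
  choose C hC hQ using h
  obtain ⟨B, hB⟩ := (finite_range C).bddAbove
  refine ⟨max B 1, lt_of_lt_of_le one_pos (le_max_right _ _), fun j => ?_⟩
  exact mono j (C j) _ (hC j) ((hB ⟨j, rfl⟩).trans (le_max_left _ _)) (hQ j)

/-- constants of a smooth function with positive Levi form on a compact ball -/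
theorem psh_const {K : Cn m → ℝ} {R r : ℝ} (hr : r < R) (hK : ContDiffOn ℝ ∞ K {y | nsq y < R})
    (hp : ∀ y, nsq y < R → ∀ u, u ≠ 0 → 0 < levz K u y) : ∃ C, 0 < C ∧ ∀ y, nsq y ≤ r →
      |K y| ≤ C ∧ (∀ y', nsq y' ≤ r → |K y - K y'| ≤ C * √(nsq (y - y'))) ∧
      ∀ u, nsq u ≤ C * levz K u y ∧ levz K u y ≤ C * nsq u := by
  have hS : IsOpen {y : Cn m | nsq y < R} := isOpen_nsq_lt R
  have hA : IsCompact {y : Cn m | nsq y ≤ r} := isCompact_le r
  have hAS : {y : Cn m | nsq y ≤ r} ⊆ {y | nsq y < R} := fun y hy => lt_of_le_of_lt hy hr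
  obtain ⟨C₁, hC₁⟩ := hA.exists_bound_of_continuousOn (hK.continuousOn.mono hAS)
  have hfd : ContDiffOn ℝ ∞ (fderiv ℝ K) {y | nsq y < R} :=
    ((contDiffOn_infty_iff_fderiv_of_isOpen hS).1 hK).2
  obtain ⟨C₂, hC₂⟩ := hA.exists_bound_of_continuousOn (hfd.continuousOn.mono hAS)
  have hl : ContinuousOn (fun q : Cn m × Cn m => levz K q.2 q.1) ({y | nsq y ≤ r} ×ˢ univ) :=
    (levz_continuousOn hS hK).mono (prod_mono hAS le_rfl)
  have hn : ContinuousOn (fun q : Cn m × Cn m => nsq q.2) ({y | nsq y ≤ r} ×ˢ univ) :=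
    (KRFH.BallM.continuous_nsq.comp continuous_snd).continuousOn
  have hl2 : ∀ x ∈ {y : Cn m | nsq y ≤ r}, ∀ (s : ℝ) (v : Cn m),
      levz K (s • v) x = s ^ 2 * levz K v x := fun x hx s v => Bd.levz_smul hS hK (hAS hx) s v
  have hn2 : ∀ x ∈ {y : Cn m | nsq y ≤ r}, ∀ (s : ℝ) (v : Cn m),
      nsq (s • v) = s ^ 2 * nsq v := fun _ _ s v => nsq_smul s v
  obtain ⟨C₃, hC₃0, hC₃⟩ := quad_le hA (fun x v => levz K v x) (fun _ v => nsq v) hl hn hl2 hn2
    fun _ _ v hv => Fb.nsq_pos hv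
  obtain ⟨C₄, hC₄0, hC₄⟩ := quad_le hA (fun _ v => nsq v) (fun x v => levz K v x) hn hl hn2 hl2
    fun x hx v hv => hp x (hAS hx) v hv
  have hlev : ∀ y, nsq y ≤ r → ∀ u, 0 ≤ levz K u y := by
    intro y hy u
    by_cases hu : u = 0
    · have := hl2 y hy 0 0
      rw [hu]
      simp only [smul_zero] at this
      rw [this]
      norm_num
    · exact (hp y (hAS hy) u hu).le
  refine ⟨max 1 (max (max C₁ C₂) (max C₃ C₄)), lt_of_lt_of_le one_pos (le_max_left _ _),
    fun y hy => ⟨?_, fun y' hy' => ?_, fun u => ⟨?_, ?_⟩⟩⟩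
  · exact (hC₁ y hy).trans ((le_max_left _ _).trans ((le_max_left _ _).trans (le_max_right _ _)))
  · have h1 : ‖K y - K y'‖ ≤ C₂ * ‖y - y'‖ :=
      (convex_le r).norm_image_sub_le_of_norm_fderiv_le (𝕜 := ℝ)
        (fun x hx => ((hK.differentiableOn (by simp)).differentiableAt (hS.mem_nhds (hAS hx))))
        (fun x hx => hC₂ x hx) hy' hy
    rw [Real.norm_eq_abs] at h1
    refine h1.trans ?_
    have h2 : C₂ ≤ max 1 (max (max C₁ C₂) (max C₃ C₄)) :=
      (le_max_right _ _).trans ((le_max_left _ _).trans (le_max_right _ _))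
    exact mul_le_mul h2 (norm_le_sqrt _) (norm_nonneg _)
      ((zero_le_one).trans (le_max_left _ _))
  · refine (hC₄ y hy u).trans (mul_le_mul_of_nonneg_right ?_ (hlev y hy u))
    exact (le_max_right _ _).trans ((le_max_right _ _).trans (le_max_right _ _))
  · refine (hC₃ y hy u).trans (mul_le_mul_of_nonneg_right ?_ (nsq_nonneg u))
    exact (le_max_left _ _).trans ((le_max_right _ _).trans (le_max_right _ _))

end C2

open C2

section

variable {n N : ℕ} {M Z : Type} [MetricSpace M] [MetricSpace Z] {κ P : Type} {T : ℝ}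
  (F : Semi n N M Z κ P T)

theorem Semi.K_bound [Finite P] : ∃ C, 0 < C ∧ ∀ j y, nsq y ≤ 81 → |F.K j y| ≤ C ∧
    (∀ y', nsq y' ≤ 81 → |F.K j y - F.K j y'| ≤ C * √(nsq (y - y'))) ∧
    ∀ u, nsq u ≤ C * levz (F.K j) u y ∧ levz (F.K j) u y ≤ C * nsq u := by
  refine fin_const (Q := fun j C => ∀ y, nsq y ≤ 81 → |F.K j y| ≤ C ∧
    (∀ y', nsq y' ≤ 81 → |F.K j y - F.K j y'| ≤ C * √(nsq (y - y'))) ∧
    ∀ u, nsq u ≤ C * levz (F.K j) u y ∧ levz (F.K j) u y ≤ C * nsq u) ?_ fun j => ?_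
  · intro j C C' hC hCC h y hy
    obtain ⟨h1, h2, h3⟩ := h y hy
    refine ⟨h1.trans hCC, fun y' hy' => (h2 y' hy').trans
      (mul_le_mul_of_nonneg_right hCC (Real.sqrt_nonneg _)), fun u => ⟨?_, ?_⟩⟩
    · have h4 : 0 ≤ levz (F.K j) u y := by
        by_contra h5
        push Not at h5
        have h6 := (h3 u).1
        have h7 := nsq_nonneg u
        nlinarith
      exact (h3 u).1.trans (mul_le_mul_of_nonneg_right hCC h4)
    · exact (h3 u).2.trans (mul_le_mul_of_nonneg_right hCC (nsq_nonneg u))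
  · exact psh_const (by norm_num) (F.pull.smooth j) (F.pull.psh j)

theorem Semi.Ω_bound [Finite κ] :
    ∃ C, 0 < C ∧ ∀ c x, nsq x ≤ 81 → F.Ω c x ≤ C ∧ 1 ≤ C * F.Ω c x := by
  have ht : ∀ c, {x : Cn n | nsq x ≤ 81} ⊆ (F.e c).target := fun c x hx =>
    F.target c (lt_of_le_of_lt (show nsq x ≤ 81 from hx) (by norm_num))
  refine fin_const (Q := fun c C => ∀ x, nsq x ≤ 81 → F.Ω c x ≤ C ∧ 1 ≤ C * F.Ω c x) ?_ fun c => ?_
  · intro c C C' hC hCC h x hx
    exact ⟨(h x hx).1.trans hCC, (h x hx).2.trans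
      (mul_le_mul_of_nonneg_right hCC (F.vol.pos c x (ht c hx)).le)⟩
  · have hA : IsCompact {x : Cn n | nsq x ≤ 81} := isCompact_le 81
    have hc : ContinuousOn (F.Ω c) {x : Cn n | nsq x ≤ 81} :=
      (F.vol.smooth c).continuousOn.mono (ht c)
    obtain ⟨C₁, hC₁⟩ := hA.exists_bound_of_continuousOn hc
    obtain ⟨C₂, hC₂⟩ := hA.exists_bound_of_continuousOn
      (hc.inv₀ fun x hx => (F.vol.pos c x (ht c hx)).ne')
    refine ⟨max 1 (max C₁ C₂), lt_of_lt_of_le one_pos (le_max_left _ _), fun x hx => ⟨?_, ?_⟩⟩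
    · exact (le_abs_self _).trans ((hC₁ x hx).trans ((le_max_left _ _).trans (le_max_right _ _)))
    · have h1 : (F.Ω c x)⁻¹ ≤ max 1 (max C₁ C₂) := (le_abs_self _).trans
        ((hC₂ x hx).trans ((le_max_right _ _).trans (le_max_right _ _)))
      have h2 := F.vol.pos c x (ht c hx)
      calc (1 : ℝ) = (F.Ω c x)⁻¹ * F.Ω c x := (inv_mul_cancel₀ h2.ne').symm
        _ ≤ _ := mul_le_mul_of_nonneg_right h1 h2.le

/-- `i ∂ ∂bar K_j ∘ F_j = θ` -/
theorem Semi.levz_K {c : κ} {j : P} {x : Cn n} (hx : x ∈ (F.e c).target)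
    (hj : F.f ((F.e c).symm x) ∈ F.S j) (u : Cn n) :
    levz (fun x => F.K j (F.y j ((F.e c).symm x))) u x = levz (F.Θ c) u x :=
  (F.pull.eq c j x hx hj u).symm.trans (F.theta c x hx u)

/-- the domain of `F_j` in the chart `c` -/
def Semi.domF (c : κ) (j : P) : Set (Cn n) :=
  {x | x ∈ (F.e c).target ∧ F.f ((F.e c).symm x) ∈ F.S j}

theorem Semi.isOpen_domF (c : κ) (j : P) : IsOpen (F.domF c j) :=
  (F.e c).symm.isOpen_inter_preimage ((F.emb.isOpen j).preimage F.emb.cont)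

theorem Semi.hol_y (c : κ) (j : P) : HolOn (fun x => F.y j ((F.e c).symm x)) (F.domF c j) :=
  F.emb.holo c j

theorem Semi.levz_nsq_eq {c : κ} {j : P} {x : Cn n} (hx : x ∈ F.domF c j) (u : Cn n) :
    levz (fun x => nsq (F.y j ((F.e c).symm x))) u x =
      nsq (fderiv ℝ (fun x => F.y j ((F.e c).symm x)) x u) := by
  rw [levz_comp (f := nsq) isOpen_univ Fb.contDiff_nsq.contDiffOn (F.isOpen_domF c j)
    (F.hol_y c j) hx (mem_univ _) u, Gap.levz_nsq']

/-- `i ∂ ∂bar |F_j|^2 ≤ C θ` -/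
theorem Semi.levz_nsq [Finite P] : ∃ C, 0 < C ∧ ∀ c j x, x ∈ (F.e c).target →
    (F.e c).symm x ∈ F.V j → ∀ u,
    levz (fun x => nsq (F.y j ((F.e c).symm x))) u x ≤ C * levz (F.Θ c) u x := by
  obtain ⟨C, hC, h⟩ := F.K_bound
  refine ⟨C, hC, fun c j x hx hV u => ?_⟩
  have hd : x ∈ F.domF c j := ⟨hx, hV.1⟩
  rw [F.levz_nsq_eq hd, ← F.levz_K hx hV.1 u,
    levz_comp (isOpen_nsq_lt 100) (F.pull.smooth j) (F.isOpen_domF c j) (F.hol_y c j) hd
      (F.emb.lt j _ hV.1) u]
  exact ((h j _ hV.2.le).2.2 _).1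

theorem Semi.y_lip' [CompactSpace M] [Finite κ] [Finite P] (hT : 0 < T) : ∃ C, 0 < C ∧
    ∀ c j x, x ∈ (F.e c).target → (F.e c).symm x ∈ F.V j → ∀ u,
    nsq (fderiv ℝ (fun x => F.y j ((F.e c).symm x)) x u) ≤ C * lev (F.ψ c) u (0, x) := by
  have h0 : (0 : ℝ) ∈ Ico 0 T := ⟨le_rfl, hT⟩
  have hsm : ∀ c, ContDiffOn ℝ ∞ (fun x => F.ψ c (0, x)) (F.e c).target := by
    intro c
    obtain ⟨U, hU, hsub, hs⟩ := F.krf.smooth c
    exact hs.comp (contDiff_const.prodMk contDiff_id).contDiffOn fun z hz => hsub ⟨h0, hz⟩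
  have hlz : ∀ c, ∀ x ∈ (F.e c).target, ∀ u,
      levz (fun x => F.ψ c (0, x)) u x = lev (F.ψ c) u (0, x) := by
    intro c x hx u
    obtain ⟨U, hU, hsub, hs⟩ := F.krf.smooth c
    exact levz_slice hU hs (hsub ⟨h0, hx⟩) u
  have hpos : ∀ c, ∀ x ∈ (F.e c).target, ∀ u, u ≠ 0 → 0 < lev (F.ψ c) u (0, x) := by
    intro c x hx u hu
    obtain ⟨U, hU, hsub, hs⟩ := F.krf.smooth c
    exact lev_pos hU hs (hsub ⟨h0, hx⟩) (F.krf.pos c 0 h0 x hx) hu
  have hnn : ∀ c, ∀ x ∈ (F.e c).target, ∀ u, 0 ≤ lev (F.ψ c) u (0, x) := by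
    intro c x hx u
    by_cases hu : u = 0
    · have := Bd.levz_smul (F.e c).open_target (hsm c) hx 0 0
      rw [hu, ← hlz c x hx]
      simp only [smul_zero] at this
      rw [this]
      norm_num
    · exact (hpos c x hx u hu).le
  -- the constants in the small balls
  obtain ⟨C, hC, h⟩ : ∃ C, 0 < C ∧ ∀ q : κ × P, ∀ x, nsq x ≤ 1 → (F.e q.1).symm x ∈ F.V q.2 →
      ∀ u, nsq (fderiv ℝ (fun x => F.y q.2 ((F.e q.1).symm x)) x u) ≤
        C * lev (F.ψ q.1) u (0, x) := by
    refine fin_const (Q := fun (q : κ × P) C => ∀ x, nsq x ≤ 1 → (F.e q.1).symm x ∈ F.V q.2 →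
      ∀ u, nsq (fderiv ℝ (fun x => F.y q.2 ((F.e q.1).symm x)) x u) ≤
        C * lev (F.ψ q.1) u (0, x)) ?_ ?_
    · intro q C C' _ hCC h x hx hV u
      exact (h x hx hV u).trans (mul_le_mul_of_nonneg_right hCC
        (hnn q.1 x (F.target q.1 (lt_of_le_of_lt hx (by norm_num))) u))
    · rintro ⟨c, j⟩
      set Kj : Set Z := {z | z ∈ F.S j ∧ nsq (F.q j z) ≤ 81} with hKj
      have hKc : IsClosed Kj := (F.emb.compact j 81 (by norm_num)).isClosed
      set A : Set (Cn n) := {x | nsq x ≤ 1} ∩ (fun x => F.f ((F.e c).symm x)) ⁻¹' Kj with hAdef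
      have hB : IsCompact {x : Cn n | nsq x ≤ 1} := isCompact_le 1
      have hBt : {x : Cn n | nsq x ≤ 1} ⊆ (F.e c).target := fun x hx =>
        F.target c (lt_of_le_of_lt (show nsq x ≤ 1 from hx) (by norm_num))
      have hfc : ContinuousOn (fun x => F.f ((F.e c).symm x)) {x : Cn n | nsq x ≤ 1} :=
        F.emb.cont.comp_continuousOn ((F.e c).continuousOn_symm.mono hBt)
      have hA : IsCompact A :=
        hB.of_isClosed_subset (hfc.preimage_isClosed_of_isClosed hB.isClosed hKc) inter_subset_left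
      have hAd : A ⊆ F.domF c j := fun x hx => ⟨hBt hx.1, hx.2.1⟩
      have hfd : ContDiffOn ℝ ∞ (fderiv ℝ (fun x => F.y j ((F.e c).symm x))) (F.domF c j) :=
        ((contDiffOn_infty_iff_fderiv_of_isOpen (F.isOpen_domF c j)).1 (F.hol_y c j).1).2
      obtain ⟨C, hC0, hC⟩ := quad_le hA
        (fun x v => nsq (fderiv ℝ (fun x => F.y j ((F.e c).symm x)) x v))
        (fun x v => levz (fun x => F.ψ c (0, x)) v x)
        (by
          refine KRFH.BallM.continuous_nsq.comp_continuousOn ?_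
          have h1 : ContinuousOn (fun q : Cn n × Cn n =>
              fderiv ℝ (fun x => F.y j ((F.e c).symm x)) q.1) (A ×ˢ univ) :=
            (hfd.continuousOn.mono hAd).comp continuousOn_fst fun q hq => hq.1
          exact h1.clm_apply continuousOn_snd)
        ((levz_continuousOn (F.e c).open_target (hsm c)).mono
          (prod_mono (fun x hx => hBt hx.1) le_rfl))
        (fun x _ s v => by
          rw [map_smul, nsq_smul])
        (fun x hx s v => Bd.levz_smul (F.e c).open_target (hsm c) (hBt hx.1) s v)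
        (fun x hx v hv => by
          rw [hlz c x (hBt hx.1)]
          exact hpos c x (hBt hx.1) v hv)
      refine ⟨C + 1, by linarith, fun x hx hV u => ?_⟩
      have hxA : x ∈ A := ⟨hx, hV.1, hV.2.le⟩
      have h1 := hC x hxA u
      rw [hlz c x (hBt hx)] at h1
      refine h1.trans (mul_le_mul_of_nonneg_right (by linarith) (hnn c x (hBt hx) u))
  refine ⟨C, hC, fun c j x hx hV u => ?_⟩
  obtain ⟨c', hp, hp1⟩ := F.cover ((F.e c).symm x)
  have hd : x ∈ dom F.e c c' := ⟨hx, hp⟩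
  have hx' : nsq (tr F.e c c' x) ≤ 1 := hp1
  have hsymm : (F.e c').symm (tr F.e c c' x) = (F.e c).symm x := (F.e c').left_inv hp
  have hV' : (F.e c').symm (tr F.e c c' x) ∈ F.V j := by rwa [hsymm]
  have h1 := h (c', j) (tr F.e c c' x) hx' hV' (fderiv ℝ (tr F.e c c') x u)
  have hdo : IsOpen (dom F.e c c') := isOpen_dom c c'
  have hev : (fun x => F.y j ((F.e c).symm x)) =ᶠ[𝓝 x]
      (fun x => F.y j ((F.e c').symm x)) ∘ tr F.e c c' := by
    filter_upwards [hdo.mem_nhds hd] with y hy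
    simp only [Function.comp, tr, (F.e c').left_inv hy.2]
  have hx'd : tr F.e c c' x ∈ F.domF c' j := ⟨(F.e c').map_source hp, by
    rw [hsymm]
    exact hV.1⟩
  have hdiff : DifferentiableAt ℝ (fun x => F.y j ((F.e c').symm x)) (tr F.e c c' x) :=
    ((F.hol_y c' j).1.differentiableOn (by simp)).differentiableAt
      ((F.isOpen_domF c' j).mem_nhds hx'd)
  have htd : DifferentiableAt ℝ (tr F.e c c') x :=
    ((F.atlas.holo c c').1.differentiableOn (by simp)).differentiableAt (hdo.mem_nhds hd)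
  rw [hev.fderiv_eq, fderiv_comp x hdiff htd, ContinuousLinearMap.comp_apply,
    F.krf.compat c c' 0 h0 x hd u]
  exact h1

/-- `F_j` is Lipschitz for the metric `ω(0)` -/
theorem Semi.y_lip [CompactSpace M] [Finite κ] [Finite P] : ∃ C, 0 < C ∧
    ∀ c j x, 0 < T → x ∈ (F.e c).target → (F.e c).symm x ∈ F.V j → ∀ u,
    nsq (fderiv ℝ (fun x => F.y j ((F.e c).symm x)) x u) ≤ C * lev (F.ψ c) u (0, x) := by
  by_cases hT : 0 < T
  · obtain ⟨C, hC, h⟩ := F.y_lip' hT
    exact ⟨C, hC, fun c j x _ => h c j x⟩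
  · exact ⟨1, one_pos, fun _ _ _ h => absurd h hT⟩

end

end Pool.Agent.KRFZ

end

section

/-!
# The measure of the volume form, and the mean value inequality
-/

open scoped ContDiff ENNReal ComplexOrder Topology
open Set MeasureTheory Filter Pool.Agent.ToricKRF Pool.Agent.ToricKRF.G Pool.Agent.KRFS
  Pool.Agent.KRFF Pool.Agent.KRFG Pool.Agent.KRFE

namespace Pool.Agent.KRFZ

open C2

section

variable {n : ℕ} {M : Type} [TopologicalSpace M] [MeasurableSpace M] [BorelSpace M] {κ : Type}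
  {e : κ → OpenPartialHomeomorph M (Cn n)} {w : κ → Cn n → ℝ} {μ : Measure M}

/-- the chart as an embedding of its target -/
def CM.emb (e : κ → OpenPartialHomeomorph M (Cn n)) (c : κ) : (e c).target → M :=
  fun x => (e c).symm x.1

theorem CM.measurableEmbedding (c : κ) : MeasurableEmbedding (CM.emb e c) := by
  refine Topology.IsOpenEmbedding.measurableEmbedding ?_
  have h1 : CM.emb e c = ((↑) : (e c).source → M) ∘ (e c).toHomeomorphSourceTarget.symm := by
    funext x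
    rfl
  rw [h1]
  exact (e c).open_source.isOpenEmbedding_subtypeVal.comp
    (e c).toHomeomorphSourceTarget.symm.isOpenEmbedding

/-- The integral over a part of a chart, for all functions `g`. -/
theorem CM.lintegral_chart (hμ : HasDens e w μ) (hw : ∀ c, ContinuousOn (w c) (e c).target)
    {c : κ} {B : Set (Cn n)} (hB : MeasurableSet B) (hBt : B ⊆ (e c).target) (g : M → ℝ≥0∞) :
    ∫⁻ p in (e c).symm '' B, g p ∂μ =
      ∫⁻ x in B, g ((e c).symm x) * ENNReal.ofReal (w c x) := by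
  have hφ := CM.measurableEmbedding (e := e) c
  have hval : MeasurableEmbedding ((↑) : (e c).target → Cn n) :=
    MeasurableEmbedding.subtype_coe (e c).open_target.measurableSet
  set W : Cn n → ℝ≥0∞ := fun x => ENNReal.ofReal (w c x) with hW
  have hWm : AEMeasurable W (volume.restrict (e c).target) :=
    ((hw c).aemeasurable (e c).open_target.measurableSet).ennreal_ofReal
  have hWm' : Measurable fun x : (e c).target => W x.1 := by
    refine ENNReal.measurable_ofReal.comp ?_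
    exact (continuousOn_iff_continuous_domRestrict.1 (hw c)).measurable
  set m₀ : Measure (e c).target := Measure.comap ((↑) : (e c).target → Cn n) volume with hm₀
  have hmap : Measure.map ((↑) : (e c).target → Cn n) m₀ = volume.restrict (e c).target :=
    map_comap_subtype_coe (e c).open_target.measurableSet volume
  -- the measure on the chart
  have h1 : (volume.restrict (e c).target).withDensity W =
      Measure.map ((↑) : (e c).target → Cn n) (m₀.withDensity fun x => W x.1) := by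
    refine Measure.ext fun A hA => ?_
    rw [withDensity_apply W hA, Measure.map_apply hval.measurable hA,
      withDensity_apply _ (hval.measurable hA), ← hmap, hval.restrict_map, hval.lintegral_map]
  have h2 : μ.restrict (e c).source = Measure.map (CM.emb e c) (m₀.withDensity fun x => W x.1) := by
    rw [hμ c, h1]
    have h3 : AEMeasurable (e c).symm
        (Measure.map ((↑) : (e c).target → Cn n) (m₀.withDensity fun x => W x.1)) := by
      rw [← h1]
      exact ((e c).continuousOn_symm.aemeasurable (e c).open_target.measurableSet).mono_ac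
        (withDensity_absolutelyContinuous _ _)
    rw [AEMeasurable.map_map_of_aemeasurable h3 hval.measurable.aemeasurable]
    rfl
  have h3 : (e c).symm '' B = CM.emb e c '' (((↑) : (e c).target → Cn n) ⁻¹' B) := by
    ext p
    constructor
    · rintro ⟨x, hx, rfl⟩
      exact ⟨⟨x, hBt hx⟩, hx, rfl⟩
    · rintro ⟨x, hx, rfl⟩
      exact ⟨x.1, hx, rfl⟩
  have h4 : (e c).symm '' B ⊆ (e c).source := by
    rintro _ ⟨x, hx, rfl⟩
    exact (e c).map_target (hBt hx)
  have hB' : MeasurableSet (((↑) : (e c).target → Cn n) ⁻¹' B) := hval.measurable hB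
  have h5 : CM.emb e c ⁻¹' ((e c).symm '' B) = ((↑) : (e c).target → Cn n) ⁻¹' B := by
    rw [h3, preimage_image_eq _ hφ.injective]
  calc ∫⁻ p in (e c).symm '' B, g p ∂μ
      = ∫⁻ p in (e c).symm '' B, g p ∂(μ.restrict (e c).source) := by
        rw [Measure.restrict_restrict_of_subset h4]
    _ = ∫⁻ x in ((↑) : (e c).target → Cn n) ⁻¹' B, g (CM.emb e c x)
          ∂(m₀.withDensity fun x => W x.1) := by
        rw [h2, hφ.restrict_map, hφ.lintegral_map, h5]
    _ = ∫⁻ x in ((↑) : (e c).target → Cn n) ⁻¹' B, W x.1 * g (CM.emb e c x) ∂m₀ := by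
        rw [restrict_withDensity hB', lintegral_withDensity_eq_lintegral_mul_non_measurable _ hWm'
          (Eventually.of_forall fun x => ENNReal.ofReal_lt_top)]
        rfl
    _ = ∫⁻ x in B, g ((e c).symm x) * W x := by
        have h6 : volume.restrict B = Measure.map ((↑) : (e c).target → Cn n)
            (m₀.restrict (((↑) : (e c).target → Cn n) ⁻¹' B)) := by
          rw [← hval.restrict_map, hmap, Measure.restrict_restrict_of_subset hBt]
        rw [h6, hval.lintegral_map]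
        refine lintegral_congr fun x => ?_
        rw [mul_comm]
        rfl

end

section

variable {n N : ℕ} {M Z : Type} [MetricSpace M] [CompactSpace M] [MeasurableSpace M] [BorelSpace M]
  [MetricSpace Z] {κ P : Type} {T : ℝ} (F : Semi n N M Z κ P T)
  {μ : Measure M} (hμ : HasDens F.e F.Ω μ)

omit [CompactSpace M] in
include hμ in
/-- The integral over a part of a chart, for all functions `g`. -/
theorem Semi.lintegral_chart' {c : κ} {B : Set (Cn n)} (hB : MeasurableSet B)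
    (hBt : B ⊆ (F.e c).target) (g : M → ℝ≥0∞) :
    ∫⁻ p in (F.e c).symm '' B, g p ∂μ =
      ∫⁻ x in B, g ((F.e c).symm x) * ENNReal.ofReal (F.Ω c x) :=
  CM.lintegral_chart hμ (fun c => (F.vol.smooth c).continuousOn) hB hBt g

omit [CompactSpace M] in
include hμ in
theorem Semi.lintegral_chart {c : κ} {B : Set (Cn n)} (hB : MeasurableSet B)
    (hBt : B ⊆ (F.e c).target) {g : M → ℝ≥0∞} (_hg : Measurable g) :
    ∫⁻ p in (F.e c).symm '' B, g p ∂μ =
      ∫⁻ x in B, g ((F.e c).symm x) * ENNReal.ofReal (F.Ω c x) :=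
  F.lintegral_chart' hμ hB hBt g

omit [CompactSpace M] in
include hμ in
theorem Semi.measure_univ_lt_top [Finite κ] : μ univ < ⊤ := by
  obtain ⟨C, hC, h⟩ := F.Ω_bound
  have hB : IsCompact {x : Cn n | nsq x ≤ 1} := isCompact_le 1
  have hBt : ∀ c, {x : Cn n | nsq x ≤ 1} ⊆ (F.e c).target := fun c x hx =>
    F.target c (lt_of_le_of_lt (show nsq x ≤ 1 from hx) (by norm_num))
  have hcov : (univ : Set M) ⊆ ⋃ c, (F.e c).symm '' {x | nsq x ≤ 1} := by
    intro p _
    obtain ⟨c, hc, h1⟩ := F.cover p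
    exact mem_iUnion.2 ⟨c, F.e c p, h1, (F.e c).left_inv hc⟩
  refine (measure_mono hcov).trans_lt ?_
  have := Fintype.ofFinite κ
  refine (measure_iUnion_fintype_le μ _).trans_lt ?_
  refine ENNReal.sum_lt_top.2 fun c _ => ?_
  have h1 := F.lintegral_chart' hμ (c := c) hB.measurableSet (hBt c) fun _ => 1
  rw [setLIntegral_one] at h1
  rw [h1]
  calc ∫⁻ x in {x : Cn n | nsq x ≤ 1}, 1 * ENNReal.ofReal (F.Ω c x)
      ≤ ∫⁻ x in {x : Cn n | nsq x ≤ 1}, ENNReal.ofReal C := by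
        refine setLIntegral_mono' hB.measurableSet fun x hx => ?_
        rw [one_mul]
        exact ENNReal.ofReal_le_ofReal (h c x (le_trans (show nsq x ≤ 1 from hx) (by norm_num))).1
    _ < ⊤ := by
        rw [setLIntegral_const]
        exact ENNReal.mul_lt_top ENNReal.ofReal_lt_top hB.measure_lt_top

omit [CompactSpace M] in
include hμ in
theorem Semi.finite [Finite κ] : IsFiniteMeasure μ := ⟨F.measure_univ_lt_top hμ⟩

omit [CompactSpace M] in
theorem Semi.exists_measure [Finite κ] (hT : 0 < T) : ∃ μ : Measure M, HasDens F.e F.Ω μ :=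
  exists_hasDens F.toFlow hT

omit [CompactSpace M] in
include hμ in
/-- mean value inequality for holomorphic functions -/
theorem Semi.mean_value [Finite κ] : ∃ C, 0 < C ∧ ∀ (c : κ) (x₀ : Cn n) (r : ℝ) (h : M → ℂ),
    0 < r → r ≤ 1 → nsq x₀ ≤ 16 →
    NF.HolC (fun x => h ((F.e c).symm x)) {x | nsq (x - x₀) < (2 * r) ^ 2} →
    ENNReal.ofReal (‖h ((F.e c).symm x₀)‖ ^ 2) ≤ ENNReal.ofReal (C / r ^ (2 * n)) *
      ∫⁻ p in (F.e c).symm '' {x | nsq (x - x₀) ≤ r ^ 2}, ENNReal.ofReal (‖h p‖ ^ 2) ∂μ := by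
  obtain ⟨C, hC, hΩ⟩ := F.Ω_bound
  set v : ℝ := (volume {w : Cn n | nsq w ≤ 1}).toReal with hv
  have hvp : 0 < v := Pole.volume_unit_pos
  refine ⟨C / v, by positivity, fun c x₀ r h hr hr1 hx₀ hh => ?_⟩
  set B : Set (Cn n) := {x | nsq (x - x₀) ≤ r ^ 2} with hBdef
  have hB : IsCompact B := by
    have h1 : B = (fun x => x - x₀) ⁻¹' {x | nsq x ≤ r ^ 2} := rfl
    rw [h1]
    exact (Homeomorph.subRight x₀).isCompact_preimage.2 (isCompact_le _)
  have hB81 : ∀ x ∈ B, nsq x ≤ 81 := by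
    intro x hx
    have hx' : nsq (x - x₀) ≤ 1 := (show nsq (x - x₀) ≤ r ^ 2 from hx).trans (by nlinarith)
    have h2 : nsq x ≤ 2 * nsq (x - x₀) + 2 * nsq x₀ := by
      rw [KRFH.BallM.nsq_eq_sum, KRFH.BallM.nsq_eq_sum, KRFH.BallM.nsq_eq_sum, Finset.mul_sum,
        Finset.mul_sum, ← Finset.sum_add_distrib]
      refine Finset.sum_le_sum fun j _ => ?_
      simp only [Prod.fst_sub, Prod.snd_sub, Pi.sub_apply]
      nlinarith [sq_nonneg (x.1 j - 2 * x₀.1 j), sq_nonneg (x.2 j - 2 * x₀.2 j)]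
    linarith
  have hBt : B ⊆ (F.e c).target := fun x hx =>
    F.target c (lt_of_le_of_lt (hB81 x hx) (by norm_num))
  have hV : IsOpen {x : Cn n | nsq (x - x₀) < (2 * r) ^ 2} :=
    (isOpen_nsq_lt ((2 * r) ^ 2)).preimage (by fun_prop : Continuous fun x : Cn n => x - x₀)
  have hsub : {w : Cn n | nsq (w - x₀) ≤ r ^ 2} ⊆ {x | nsq (x - x₀) < (2 * r) ^ 2} := by
    intro x hx
    have hx' : nsq (x - x₀) ≤ r ^ 2 := hx
    change nsq (x - x₀) < (2 * r) ^ 2
    nlinarith
  have h1 := Pole.mean_sq hV hh hr.le hsub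
  rw [Pole.volume_ball x₀ hr] at h1
  have hcont : ContinuousOn (fun x => ‖h ((F.e c).symm x)‖ ^ 2) B :=
    (hh.1.continuousOn.mono hsub).norm.pow 2
  have hint : ∫ x in B, ‖h ((F.e c).symm x)‖ ^ 2 =
      (∫⁻ x in B, ENNReal.ofReal (‖h ((F.e c).symm x)‖ ^ 2)).toReal :=
    integral_eq_lintegral_of_nonneg_ae (Eventually.of_forall fun w => by positivity)
      (hcont.aestronglyMeasurable hB.measurableSet)
  have hrn : 0 < r ^ (2 * n) := by positivity
  -- the lower integral over the ball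
  have h2 : ENNReal.ofReal (‖h ((F.e c).symm x₀)‖ ^ 2) ≤ ENNReal.ofReal (1 / (r ^ (2 * n) * v)) *
      ∫⁻ x in B, ENNReal.ofReal (‖h ((F.e c).symm x)‖ ^ 2) := by
    have h3 : ‖h ((F.e c).symm x₀)‖ ^ 2 ≤ 1 / (r ^ (2 * n) * v) *
        ∫ x in B, ‖h ((F.e c).symm x)‖ ^ 2 := by
      rw [one_div, inv_mul_eq_div, le_div_iff₀ (by positivity), mul_comm]
      exact h1
    refine (ENNReal.ofReal_le_ofReal h3).trans ?_
    rw [ENNReal.ofReal_mul (by positivity), hint]
    exact mul_le_mul_right ENNReal.ofReal_toReal_le _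
  refine h2.trans ?_
  rw [F.lintegral_chart' hμ hB.measurableSet hBt]
  have h4 : ∫⁻ x in B, ENNReal.ofReal (‖h ((F.e c).symm x)‖ ^ 2) ≤ ENNReal.ofReal C *
      ∫⁻ x in B, ENNReal.ofReal (‖h ((F.e c).symm x)‖ ^ 2) * ENNReal.ofReal (F.Ω c x) := by
    rw [← lintegral_const_mul' _ _ ENNReal.ofReal_ne_top]
    refine setLIntegral_mono' hB.measurableSet fun x hx => ?_
    have h5 := (hΩ c x (hB81 x hx)).2
    rw [← ENNReal.ofReal_mul (by positivity), ← ENNReal.ofReal_mul hC.le]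
    refine ENNReal.ofReal_le_ofReal ?_
    have h6 : 0 ≤ ‖h ((F.e c).symm x)‖ ^ 2 := by positivity
    nlinarith
  refine (mul_le_mul_right h4 _).trans ?_
  rw [← mul_assoc, ← ENNReal.ofReal_mul (by positivity)]
  have h7 : 1 / (r ^ (2 * n) * v) * C = C / v / r ^ (2 * n) := by
    field_simp
  rw [h7]

end

end Pool.Agent.KRFZ

end
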