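import Pool.Agent.Work.MP_a2bf38_gt.Fu.I.PshGood
import Pool.Agent.Work.MP_a2bf38_gt.Fu.Q.Wirt
import Pool.Agent.Work.MP_a2bf38_gt.Fu.X.LocComp
import Pool.Agent.Work.MP_a2bf38_gt.Fu.Q.Exh
import Pool.Agent.Work.MP_a2bf38_gt.Fu.I.AbpLin
import Pool.Agent.Work.MP_a2bf38_gt.Fu.I.ABP2
import Pool.Agent.Work.MP_a2bf38_gt.Fu.Q.Rep
import Pool.Agent.Work.MP_a2bf38_gt.Fu.Q.Weyl
import Pool.Agent.Work.MP_a2bf38_gt.Fu.Z.Pole
import Pool.Agent.Work.MP_a2bf38_gt.Fu.Z.Const2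

section

/-!
# The curvature of the weight `p (φ + K ∘ F) + K ∘ F / T + W₀ ∘ F`
-/

open scoped ContDiff ENNReal ComplexOrder Topology
open Set Pool.Agent.ToricKRF Pool.Agent.ToricKRF.G Pool.Agent.KRFS Pool.Agent.KRFF
  Pool.Agent.KRFG Pool.Agent.KRFH

namespace Pool.Agent.KRFZ

variable {n : ℕ} {M : Type} [TopologicalSpace M] {κ : Type} {T : ℝ} (F : Flow n M κ T)

/-- The weight in a chart: `k` is the representative of `K ∘ F`, `w₀` that of `W₀ ∘ F`. -/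
noncomputable def wgt (c : κ) (t p : ℝ) (k w₀ : Cn n → ℝ) (x : Cn n) : ℝ :=
  p * (F.phi c (t, x) + k x) + T⁻¹ * k x + w₀ x

theorem contDiffOn_wgt {c : κ} {t p : ℝ} (ht : t ∈ Ico 0 T) {S : Set (Cn n)}
    (hSt : S ⊆ (F.e c).target) {k w₀ : Cn n → ℝ} (hk : ContDiffOn ℝ ∞ k S)
    (hw : ContDiffOn ℝ ∞ w₀ S) : ContDiffOn ℝ ∞ (wgt F c t p k w₀) S := by
  have h1 : ContDiffOn ℝ ∞ (fun z => F.phi c (t, z)) S := (BallM.phi_slice F c ht).mono hSt
  exact ((contDiffOn_const.mul (h1.add hk)).add (contDiffOn_const.mul hk)).add hw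

/-- The curvature of the weight is at least `ω(0) / (2 T)`. -/
theorem curv (hT : 0 < T) {c : κ} {t p : ℝ} (ht : t ∈ Ico 0 T) (hp : 0 ≤ p)
    (hpd : p * (T - t) ≤ 1 / 2) {S : Set (Cn n)} (hS : IsOpen S) (hSt : S ⊆ (F.e c).target)
    {k w₀ : Cn n → ℝ} (hk : ContDiffOn ℝ ∞ k S) (hw : ContDiffOn ℝ ∞ w₀ S)
    (hkΘ : ∀ z ∈ S, ∀ u, levz k u z = levz (F.Θ c) u z)
    (hw0 : ∀ z ∈ S, ∀ u, 0 ≤ levz w₀ u z) {z : Cn n} (hz : z ∈ S) (u : Cn n) :
    (2 * T)⁻¹ * lev (F.ψ c) u (0, z) ≤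
      levz (fun x => -Real.log (F.Ω c x * Real.exp (-wgt F c t p k w₀ x))) u z := by
  have hzt := hSt hz
  have h0 : (0 : ℝ) ∈ Ico 0 T := ⟨le_rfl, hT⟩
  have hΩ : ContDiffOn ℝ ∞ (fun x => Real.log (F.Ω c x)) S :=
    ((F.vol.smooth c).mono hSt).log fun x hx => (F.vol.pos c x (hSt hx)).ne'
  have hφ : ContDiffOn ℝ ∞ (fun z => F.phi c (t, z)) S := (BallM.phi_slice F c ht).mono hSt
  have at2 : ∀ {g : Cn n → ℝ}, ContDiffOn ℝ ∞ g S → ContDiffAt ℝ 2 g z := fun hg =>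
    (hg.contDiffAt (hS.mem_nhds hz)).of_le two_le_infty
  have e1 : (fun x => -Real.log (F.Ω c x * Real.exp (-wgt F c t p k w₀ x))) =ᶠ[𝓝 z]
      fun x => (p * (F.phi c (t, x) + k x) + T⁻¹ * k x + w₀ x) - Real.log (F.Ω c x) := by
    filter_upwards [hS.mem_nhds hz] with x hx
    rw [Real.log_mul (F.vol.pos c x (hSt hx)).ne' (Real.exp_pos _).ne', Real.log_exp, wgt]
    ring
  have e2 : levz (fun z => F.phi c (t, z)) u z = lev (F.phi c) u (t, z) := by
    obtain ⟨U', hU', hsub', hs'⟩ := F.phi_isFun.smooth c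
    exact levz_slice hU' hs' (hsub' ⟨ht, hzt⟩) u
  rw [Bd.levz_congr e1, Bd.levz_sub (at2 (((contDiffOn_const.mul (hφ.add hk)).add
    (contDiffOn_const.mul hk)).add hw)) (at2 hΩ),
    Bd.levz_add (at2 ((contDiffOn_const.mul (hφ.add hk)).add (contDiffOn_const.mul hk))) (at2 hw),
    Bd.levz_add (at2 (contDiffOn_const.mul (hφ.add hk))) (at2 (contDiffOn_const.mul hk)),
    Bd.levz_const_mul p (at2 (hφ.add hk)), Bd.levz_add (at2 hφ) (at2 hk),
    Bd.levz_const_mul T⁻¹ (at2 hk), e2, F.lev_phi ht hzt, hkΘ z hz u]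
  have h1 := F.theta c z hzt u
  have h2 : 0 ≤ lev (F.ψ c) u (t, z) := Fb.lev_nonneg F ht hzt u
  have h3 : 0 ≤ lev (F.ψ c) u (0, z) := Fb.lev_nonneg F h0 hzt u
  have h4 : 0 ≤ levz (F.Θ c) u z := F.psh c z hzt u
  have h5 := hw0 z hz u
  set A := lev (F.ψ c) u (0, z)
  set B := levz (F.Θ c) u z
  set L := levz (fun z => Real.log (F.Ω c z)) u z
  have hL : L = (B - A) / T := by
    rw [eq_div_iff hT.ne']
    linarith
  have h6 : 0 ≤ 1 - t / T := by
    have := (div_le_one hT).2 ht.2.le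
    linarith
  have h7 : p * (1 - t / T) ≤ (2 * T)⁻¹ := by
    have : p * (1 - t / T) = (p * (T - t)) / T := by field_simp
    rw [this, div_le_iff₀ hT]
    have : (2 * T)⁻¹ * T = 1 / 2 := by field_simp
    rw [this]
    exact hpd
  have h8 : T⁻¹ * A = (2 * T)⁻¹ * A + (2 * T)⁻¹ * A := by
    field_simp
    ring
  have h9 : p * (1 - t / T) * A ≤ (2 * T)⁻¹ * A := mul_le_mul_of_nonneg_right h7 h3
  have h10 : 0 ≤ p * (1 - t / T) * B := mul_nonneg (mul_nonneg hp h6) h4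
  have h11 : 0 ≤ p * lev (F.ψ c) u (t, z) := mul_nonneg hp h2
  rw [hL]
  have e3 : p * (lev (F.ψ c) u (t, z) - (1 - t / T) * A - t / T * B + B) + T⁻¹ * B +
      levz w₀ u z - (B - A) / T = p * lev (F.ψ c) u (t, z) - p * (1 - t / T) * A +
      p * (1 - t / T) * B + T⁻¹ * A + levz w₀ u z := by
    field_simp
    ring
  rw [e3]
  linarith

end Pool.Agent.KRFZ

end

section

/-!
# Theorem G on the open sets `V j`
-/

open scoped ContDiff ENNReal ComplexOrder Topology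
open Set MeasureTheory Filter Pool.Agent.ToricKRF Pool.Agent.ToricKRF.G Pool.Agent.KRFS
  Pool.Agent.KRFF Pool.Agent.KRFG Pool.Agent.KRFE

namespace Pool.Agent.KRFZ

section

variable {n N : ℕ} {M Z : Type} [MetricSpace M] [MetricSpace Z] {κ P : Type} {T : ℝ}
  (F : Semi n N M Z κ P T)

theorem Semi.continuousOn_yH (j : P) : ContinuousOn (F.y j) (F.f ⁻¹' (F.S j)) :=
  (F.emb.qcont j).comp F.emb.cont.continuousOn fun _ hp => hp

theorem Semi.isOpen_VH (j : P) : IsOpen (F.V j) := by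
  have h1 : IsOpen (F.f ⁻¹' (F.S j)) := (F.emb.isOpen j).preimage F.emb.cont
  have h3 : ContinuousOn (fun p => nsq (F.y j p)) (F.f ⁻¹' (F.S j)) :=
    Pool.Agent.KRFX.NC.contDiff_nsq.continuous.comp_continuousOn (F.continuousOn_yH j)
  exact h3.isOpen_inter_preimage h1 (isOpen_Iio (a := (81 : ℝ)))

theorem Semi.isCompact_VH [CompactSpace M] (j : P) {R : ℝ} (hR : R < 81) :
    IsCompact {p | p ∈ F.V j ∧ nsq (F.y j p) ≤ R} := by
  have h1 : IsCompact {z | z ∈ F.S j ∧ nsq (F.q j z) ≤ R} := F.emb.compact j R (by linarith)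
  have h2 : IsClosed (F.f ⁻¹' {z | z ∈ F.S j ∧ nsq (F.q j z) ≤ R}) :=
    h1.isClosed.preimage F.emb.cont
  have h3 : {p | p ∈ F.V j ∧ nsq (F.y j p) ≤ R} =
      F.f ⁻¹' {z | z ∈ F.S j ∧ nsq (F.q j z) ≤ R} := by
    ext p
    constructor
    · rintro ⟨⟨h, -⟩, h'⟩
      exact ⟨h, h'⟩
    · rintro ⟨h, h'⟩
      exact ⟨⟨h, lt_of_le_of_lt h' hR⟩, h'⟩
  rw [h3]
  exact h2.isCompact

theorem Semi.Phi_contH {t : ℝ} (ht : t ∈ Ico 0 T) : Continuous (F.Phi t) := by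
  rw [← continuousOn_univ]
  exact ContinuousOn.comp (f := fun p : M => (t, p)) F.toFlow.Phi_continuousOn
    (Continuous.prodMk_right t).continuousOn fun p _ => ⟨ht, mem_univ _⟩

theorem Semi.Phi_symmH {c : κ} {t : ℝ} (ht : t ∈ Ico 0 T) {z : Cn n} (hz : z ∈ (F.e c).target) :
    F.Phi t ((F.e c).symm z) = F.phi c (t, z) := by
  rw [F.toFlow.Phi_eq ht ((F.e c).map_target hz), (F.e c).right_inv hz]

/-- the coordinates are holomorphic -/
theorem Semi.holOn_yH (j : P) (c : κ) : HolOn (fun x => F.y j ((F.e c).symm x))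
    (KRFQ.rs F.e (F.isOpen_VH j) c).target := by
  have hsub : (KRFQ.rs F.e (F.isOpen_VH j) c).target ⊆
      {x | x ∈ (F.e c).target ∧ F.f ((F.e c).symm x) ∈ F.S j} := fun x hx => by
    have := (KRFQ.mem_rs_target (F.isOpen_VH j) c).1 hx
    exact ⟨this.1, this.2.1⟩
  exact ⟨(F.emb.holo c j).1.mono hsub, fun z hz u => (F.emb.holo c j).2 z (hsub hz) u⟩

theorem Semi.nsq_y_ltH {j : P} {c : κ} {z : Cn n} (hz : z ∈ (KRFQ.rs F.e (F.isOpen_VH j) c).target) :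
    nsq (F.y j ((F.e c).symm z)) < 81 :=
  ((KRFQ.mem_rs_target (F.isOpen_VH j) c).1 hz).2.2

/-- the weight -/
noncomputable def Semi.rhoH (t p : ℝ) (j : P) (W : Cn N → ℝ) (x : M) : ℝ :=
  p * F.pK t j x + T⁻¹ * F.K j (F.y j x) + W (F.y j x)

theorem Semi.pb_rhoH {t : ℝ} (ht : t ∈ Ico 0 T) (p : ℝ) (j : P) (W : Cn N → ℝ) (c : κ) {z : Cn n}
    (hz : z ∈ (F.e c).target) : KRFQ.pb F.e c (F.rhoH t p j W) z =
      wgt F.toFlow c t p (fun x => F.K j (F.y j ((F.e c).symm x)))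
        (fun x => W (F.y j ((F.e c).symm x))) z := by
  simp only [KRFQ.pb, Semi.rhoH, wgt, Semi.pK]
  rw [F.Phi_symmH ht hz]

theorem smooth_comp_yH (j : P) (c : κ) {G : Cn N → ℝ} (hG : ContDiffOn ℝ ∞ G {y | nsq y < 100}) :
    ContDiffOn ℝ ∞ (fun x => G (F.y j ((F.e c).symm x)))
      (KRFQ.rs F.e (F.isOpen_VH j) c).target :=
  hG.comp (F.holOn_yH j c).1 fun z hz => by
    have := F.nsq_y_ltH hz
    change nsq _ < 100
    linarith

theorem levz_comp_yH (j : P) (c : κ) {G : Cn N → ℝ} (hG : ContDiffOn ℝ ∞ G {y | nsq y < 100})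
    {z : Cn n} (hz : z ∈ (KRFQ.rs F.e (F.isOpen_VH j) c).target) (u : Cn n) :
    levz (fun x => G (F.y j ((F.e c).symm x))) u z =
      levz G (fderiv ℝ (fun x => F.y j ((F.e c).symm x)) z u) (F.y j ((F.e c).symm z)) := by
  have hO : IsOpen {y : Cn N | nsq y < 100} :=
    isOpen_lt Pool.Agent.KRFX.NC.contDiff_nsq.continuous continuous_const
  refine levz_comp hO hG (KRFQ.rs F.e (F.isOpen_VH j) c).open_target (F.holOn_yH j c) hz ?_ u
  have := F.nsq_y_ltH hz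
  change nsq _ < 100
  linarith

theorem levz_K_yH (hT : 0 < T) (j : P) (c : κ) {z : Cn n}
    (hz : z ∈ (KRFQ.rs F.e (F.isOpen_VH j) c).target) (u : Cn n) :
    levz (fun x => F.K j (F.y j ((F.e c).symm x))) u z = levz (F.Θ c) u z := by
  obtain ⟨hzt, hzV⟩ := (KRFQ.mem_rs_target (F.isOpen_VH j) c).1 hz
  have h1 := F.pull.eq c j z hzt hzV.1 u
  have hΩ : ContDiffAt ℝ 2 (fun x => Real.log (F.Ω c x)) z :=
    (((F.vol.smooth c).contDiffAt ((F.e c).open_target.mem_nhds hzt)).log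
      (F.vol.pos c z hzt).ne').of_le two_le_infty
  have hψ : ContDiffAt ℝ 2 (fun x => F.ψ c (0, x)) z :=
    ((Bd.smooth_psi0 F.toFlow hT c).contDiffAt ((F.e c).open_target.mem_nhds hzt)).of_le
      two_le_infty
  have h2 : F.Θ c = fun x => F.ψ c (0, x) + T * Real.log (F.Ω c x) :=
    funext fun x => F.Θ_eq c x
  rw [h2, Bd.levz_add hψ (contDiffAt_const.mul hΩ), Bd.levz_const_mul T hΩ,
    Bd.levz_psi0 F.toFlow hT hzt]
  exact h1.symm

/-- the data of Theorem G on `V j` -/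
theorem Semi.l2d_VH (hT : 0 < T) {t : ℝ} (ht : t ∈ Ico 0 T) (p : ℝ) (j : P) {W : Cn N → ℝ}
    (hW : ContDiffOn ℝ ∞ W {y | nsq y < 100}) :
    KRFQ.L2D (KRFQ.rs F.e (F.isOpen_VH j)) (F.V j)
      (fun c z => F.Ω c z * Real.exp (-KRFQ.pb F.e c (F.rhoH t p j W) z))
      (fun c z => F.ψ c (0, z)) := by
  have h1 := (l2d_flow F.toFlow hT).restr (F.isOpen_VH j)
  rw [univ_inter] at h1
  refine h1.mul_exp (ρ := F.rhoH t p j W) fun c => ?_
  refine (contDiffOn_wgt F.toFlow (c := c) (t := t) (p := p) ht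
    (KRFQ.rs_target_sub (F.isOpen_VH j) c) (smooth_comp_yH F j c (F.pull.smooth j))
    (smooth_comp_yH F j c hW)).congr fun z hz => ?_
  exact F.pb_rhoH ht p j W c (KRFQ.rs_target_sub (F.isOpen_VH j) c hz)

/-- the exhaustion function of `V j` -/
theorem Semi.exh_VH [CompactSpace M] (j : P) {w g : κ → Cn n → ℝ}
    (h : KRFQ.L2D (KRFQ.rs F.e (F.isOpen_VH j)) (F.V j) w g) :
    ∃ (g' : κ → Cn n → ℝ) (ψ : M → ℝ), KRFQ.L2D (KRFQ.rs F.e (F.isOpen_VH j)) (F.V j) w g' ∧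
      KRFQ.IsExh (KRFQ.rs F.e (F.isOpen_VH j)) (F.V j) g' ψ := by
  have hns : ∀ y : Cn N, nsq ((9 : ℝ)⁻¹ • y) = nsq y / 81 := by
    intro y
    simp only [nsq, dotProduct, Prod.smul_fst, Prod.smul_snd, Pi.smul_apply, smul_eq_mul]
    rw [add_div, Finset.sum_div, Finset.sum_div]
    congr 1 <;> refine Finset.sum_congr rfl fun i _ => ?_ <;> ring
  have h1 := h.exh (F := fun p => (9 : ℝ)⁻¹ • F.y j p) ?_ ?_ ?_
  · exact ⟨_, _, h1.1, h1.2⟩
  · intro c
    refine ⟨(F.holOn_yH j c).1.const_smul _, fun z hz u => ?_⟩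
    have hd := KRFQ.HolOn.differentiableAt (KRFQ.rs F.e (F.isOpen_VH j) c).open_target
      (F.holOn_yH j c) hz
    have h2 : fderiv ℝ (KRFQ.pb (KRFQ.rs F.e (F.isOpen_VH j)) c fun p => (9 : ℝ)⁻¹ • F.y j p) z =
        (9 : ℝ)⁻¹ • fderiv ℝ (fun x => F.y j ((F.e c).symm x)) z :=
      (hd.hasFDerivAt.const_smul (9 : ℝ)⁻¹).fderiv
    rw [h2, smul_apply, smul_apply, (F.holOn_yH j c).2 z hz u]
    ext i <;> simp [J]
  · intro p hp
    rw [hns, div_lt_one (by norm_num)]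
    exact hp.2
  · intro r hr
    have h3 : {p | p ∈ F.V j ∧ nsq ((9 : ℝ)⁻¹ • F.y j p) ≤ r} =
        {p | p ∈ F.V j ∧ nsq (F.y j p) ≤ 81 * r} := by
      ext p
      simp only [mem_ofPred_eq, hns]
      rw [div_le_iff₀ (by norm_num), mul_comm]
    rw [h3]
    exact F.isCompact_VH j (by linarith)

/-- `K` is bounded -/
theorem Semi.K_bddH [Finite P] : ∃ B, 0 ≤ B ∧ ∀ j y, nsq y ≤ 81 → |F.K j y| ≤ B := by
  have hc : IsCompact {y : Cn N | nsq y ≤ 81} := by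
    have h1 := isCompact_nsq_sub (0 : Cn N) (r := 9) (by norm_num)
    simp only [sub_zero] at h1
    norm_num at h1
    exact h1
  have h1 : ∀ j, ∃ B, ∀ y, nsq y ≤ 81 → |F.K j y| ≤ B := by
    intro j
    obtain ⟨B, hB⟩ := hc.exists_bound_of_continuousOn
      ((F.pull.smooth j).continuousOn.mono fun y (hy : nsq y ≤ 81) => by
        change nsq y < 100
        linarith)
    exact ⟨B, fun y hy => hB y hy⟩
  choose B hB using h1
  obtain ⟨C, hC⟩ := (Set.finite_range B).bddAbove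
  exact ⟨max C 0, le_max_right _ _, fun j y hy =>
    ((hB j y hy).trans (hC ⟨j, rfl⟩)).trans (le_max_left _ _)⟩

end

section

variable {n N : ℕ} {M Z : Type} [MetricSpace M] [CompactSpace M] [MeasurableSpace M] [BorelSpace M]
  [MetricSpace Z] {κ P : Type} [Finite κ] [Finite P] {T : ℝ} (F : Semi n N M Z κ P T)
  {μ : Measure M} (hμ : HasDens F.e F.Ω μ)

include hμ in
theorem Semi.horm : ∃ C c₀, 0 ≤ C ∧ 0 < c₀ ∧ ∀ t ∈ Ico 0 T, ∀ p, 0 ≤ p → p * (T - t) ≤ c₀ →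
    ∀ (j : P) (W : Cn N → ℝ) (χ : M → ℂ) (Q : M → ℝ), ContDiffOn ℝ ∞ W {y | nsq y < 100} →
    (∀ y, nsq y < 100 → ∀ u, 0 ≤ levz W u y) →
    (∀ c, ContDiffOn ℝ ∞ (fun x => χ ((F.e c).symm x)) (F.e c).target) →
    (∃ R < 81, ∀ x, χ x ≠ 0 → F.f x ∈ F.S j ∧ nsq (F.y j x) ≤ R) →
    Continuous Q → (∀ x, 0 ≤ Q x) →
    (∀ c, ∀ x ∈ (F.e c).target, ∀ u, ‖dbv (fun x => χ ((F.e c).symm x)) u x‖ ^ 2 ≤
      Q ((F.e c).symm x) * lev (F.ψ c) u (0, x)) →
    ∃ h, F.Hol j h ∧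
      ∫⁻ x in F.V j, ENNReal.ofReal (‖χ x - h x‖ ^ 2 *
        Real.exp (-(p * F.pK t j x + W (F.y j x)))) ∂μ ≤
      ENNReal.ofReal C * ∫⁻ x in F.V j, ENNReal.ofReal (Q x *
        Real.exp (-(p * F.pK t j x + W (F.y j x)))) ∂μ := by
  have hT := F.hT
  rcases isEmpty_or_nonempty κ with hκ | hκ
  · have hM : IsEmpty M := ⟨fun p => by
      obtain ⟨c, -⟩ := F.atlas.cover p
      exact hκ.false c⟩
    refine ⟨0, 1, le_rfl, one_pos, fun t _ p _ _ j W χ Q _ _ _ _ _ _ _ =>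
      ⟨fun _ => 0, fun c => (hκ.false c).elim, ?_⟩⟩
    rw [Measure.eq_zero_of_isEmpty μ]
    simp
  obtain ⟨B₁, hB₁, hK⟩ := F.K_bddH
  obtain ⟨s, hs⟩ := exists_surjective_nat κ
  set b : ℝ := T⁻¹ * B₁ with hb
  refine ⟨Real.exp b * (2 * T) * Real.exp b, 1 / 2, by positivity, by norm_num, ?_⟩
  intro t ht p hp hpt j W χ Q hW hW0 hχ hR hQ hQ0 hdb
  obtain ⟨R, hR81, hR⟩ := hR
  have hV := F.isOpen_VH j
  set ρ := F.rhoH t p j W with hρ
  have hL := F.l2d_VH hT ht p j hW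
  obtain ⟨g', ψ', hL', hψ'⟩ := F.exh_VH j hL
  -- the measure
  have hρc : ContinuousOn ρ (F.V j) := by
    have h1 : ContinuousOn (F.y j) (F.V j) := (F.continuousOn_yH j).mono fun x hx => hx.1
    have hm : MapsTo (F.y j) (F.V j) {y | nsq y < 100} := fun x hx => by
      have h2 : nsq (F.y j x) < 81 := hx.2
      change nsq (F.y j x) < 100
      linarith
    have hK1 := (F.pull.smooth j).continuousOn.comp h1 hm
    exact ((continuousOn_const.mul ((F.Phi_contH ht).continuousOn.add hK1)).add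
      (continuousOn_const.mul hK1)).add (hW.continuousOn.comp h1 hm)
  set μ' : Measure M := (μ.restrict (F.V j)).withDensity fun x => ENNReal.ofReal (Real.exp (-ρ x))
    with hμ'
  have hD : KRFQ.IsDens (KRFQ.rs F.e hV)
      (fun c z => F.Ω c z * Real.exp (-KRFQ.pb F.e c ρ z)) μ' :=
    (isDens_of_hasDens F.toFlow hμ).weight (fun c => (F.vol.smooth c).continuousOn)
      (fun c z hz => (F.vol.pos c z hz).le) hV hρc
  have hμV : μ' (F.V j)ᶜ = 0 := by
    refine withDensity_absolutelyContinuous _ _ ?_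
    rw [Measure.restrict_apply hV.measurableSet.compl]
    simp
  -- the set where `χ` may be nonzero
  set K₁ : Set M := {x | x ∈ F.V j ∧ nsq (F.y j x) ≤ R} with hK₁
  have hK₁c : IsCompact K₁ := F.isCompact_VH j hR81
  have hK₁V : K₁ ⊆ F.V j := fun x hx => hx.1
  have hχ0 : ∀ x ∉ K₁, χ x = 0 := by
    intro x hx
    by_contra h
    obtain ⟨h1, h2⟩ := hR x h
    exact hx ⟨⟨h1, h2.trans_lt hR81⟩, h2⟩
  have hχS : KRFQ.Sm (KRFQ.rs F.e hV) χ := fun c => (hχ c).mono (KRFQ.rs_target_sub hV c)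
  have hχ2 : MemLp χ 2 μ' := hD.memLp_test hL ⟨hχS, K₁, hK₁c, hK₁V, hχ0⟩
  set B : M → ℝ := K₁.indicator Q with hB
  have hB0 : ∀ x, 0 ≤ B x := fun x => indicator_nonneg (fun x _ => hQ0 x) x
  have hBi : Integrable B μ' := by
    obtain ⟨C, hC⟩ := hK₁c.exists_bound_of_continuousOn hQ.continuousOn
    rw [hB, integrable_indicator_iff hK₁c.isClosed.measurableSet]
    exact Measure.integrableOn_of_bounded (M := C) (hD.measure_lt_top hL hK₁c hK₁V).ne
      hQ.aestronglyMeasurable (ae_restrict_of_forall_mem hK₁c.isClosed.measurableSet hC)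
  have hdbB : ∀ c, ∀ z ∈ (KRFQ.rs F.e hV c).target, ∀ u : Cn n,
      ‖∑ k, KRFQ.dzb k (KRFQ.pb (KRFQ.rs F.e hV) c χ) z * (starRingEnd ℂ) (cc u k)‖ ^ 2 ≤
        B ((KRFQ.rs F.e hV c).symm z) * levz (fun z => F.ψ c (0, z)) u z := by
    intro c z hz u
    obtain ⟨hzt, hzV⟩ := (KRFQ.mem_rs_target hV c).1 hz
    rw [← KRFQ.dbar_apply, Bd.levz_psi0 F.toFlow hT hzt]
    by_cases hzK : (F.e c).symm z ∈ K₁
    · have h1 : B ((KRFQ.rs F.e hV c).symm z) = Q ((F.e c).symm z) := indicator_of_mem hzK _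
      rw [h1]
      exact hdb c z hzt u
    · have h1 : B ((KRFQ.rs F.e hV c).symm z) = 0 := indicator_of_notMem hzK _
      have h2 : KRFQ.pb (KRFQ.rs F.e hV) c χ =ᶠ[𝓝 z] fun _ => 0 := by
        have h3 : ∀ᶠ z' in 𝓝 z, (F.e c).symm z' ∈ K₁ᶜ :=
          ((F.e c).symm.continuousAt hzt).eventually (hK₁c.isClosed.isOpen_compl.mem_nhds hzK)
        filter_upwards [h3] with z' hz'
        exact hχ0 _ hz'
      rw [h1, h2.fderiv_eq]
      simp
  obtain ⟨h, hh, hh2, hle⟩ := hD.hormander hL' hψ' s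
    (fun x hx => by
      obtain ⟨c, hc⟩ := hL.cover x hx
      obtain ⟨i, rfl⟩ := hs c
      exact mem_iUnion.2 ⟨i, hc⟩) hμV (k := fun c z => F.ψ c (0, z)) (c₀ := (2 * T)⁻¹)
    (by positivity)
    (fun c z hz u => by
      have hzt := KRFQ.rs_target_sub hV c hz
      rw [Bd.levz_psi0 F.toFlow hT hzt]
      exact Fb.lev_nonneg F.toFlow ⟨le_rfl, hT⟩ hzt u)
    (fun c z hz u => by
      have hzt := KRFQ.rs_target_sub hV c hz
      have h1 : (fun x => -Real.log (F.Ω c x * Real.exp (-KRFQ.pb F.e c ρ x))) =ᶠ[𝓝 z]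
          fun x => -Real.log (F.Ω c x * Real.exp (-wgt F.toFlow c t p
            (fun x => F.K j (F.y j ((F.e c).symm x)))
            (fun x => W (F.y j ((F.e c).symm x))) x)) := by
        filter_upwards [(F.e c).open_target.mem_nhds hzt] with x hx
        rw [hρ, F.pb_rhoH ht p j W c hx]
      rw [Bd.levz_congr h1, Bd.levz_psi0 F.toFlow hT hzt]
      exact Pool.Agent.KRFZ.curv F.toFlow hT ht hp hpt (KRFQ.rs F.e hV c).open_target (KRFQ.rs_target_sub hV c)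
        (smooth_comp_yH F j c (F.pull.smooth j)) (smooth_comp_yH F j c hW)
        (fun z hz u => levz_K_yH F hT j c hz u)
        (fun z hz u => by
          rw [levz_comp_yH F j c hW hz u]
          refine hW0 _ ?_ _
          have := F.nsq_y_ltH hz
          linarith) hz u)
    hχS hχ2 hB0 hBi hdbB
  refine ⟨h, fun c => ?_, ?_⟩
  · have h1 : {x | x ∈ (F.e c).target ∧ (F.e c).symm x ∈ F.V j} = (KRFQ.rs F.e hV c).target := by
      ext x
      exact (KRFQ.mem_rs_target hV c).symm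
    rw [h1]
    exact ⟨(hh c).1, fun z hz u => KRFQ.fderiv_J_of_dzb (fun k => (hh c).2 k z hz) u⟩
  · have key : ∀ x ∈ F.V j,
        Real.exp (-(p * F.pK t j x + W (F.y j x))) ≤ Real.exp b * Real.exp (-ρ x) ∧
        Real.exp (-ρ x) ≤ Real.exp b * Real.exp (-(p * F.pK t j x + W (F.y j x))) := by
      intro x hx
      have h1 := abs_le.1 (hK j (F.y j x) (le_of_lt hx.2))
      have h2 : T⁻¹ * F.K j (F.y j x) ≤ b := mul_le_mul_of_nonneg_left h1.2 (by positivity)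
      have h3 : -b ≤ T⁻¹ * F.K j (F.y j x) := by
        have := mul_le_mul_of_nonneg_left h1.1 (inv_nonneg.2 hT.le)
        rw [hb]
        linarith
      have h4 : ρ x = p * F.pK t j x + T⁻¹ * F.K j (F.y j x) + W (F.y j x) := rfl
      rw [← Real.exp_add, ← Real.exp_add, Real.exp_le_exp, Real.exp_le_exp, h4]
      constructor <;> linarith
    have hm : AEMeasurable (fun x => ENNReal.ofReal (Real.exp (-ρ x))) (μ.restrict (F.V j)) :=
      ((hρc.neg.rexp).aemeasurable hV.measurableSet).ennreal_ofReal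
    have hsub2 : MemLp (fun x => χ x - h x) 2 μ' := hχ2.sub hh2
    have hi : Integrable (fun x => ‖χ x - h x‖ ^ 2) μ' := by
      have := hsub2.integrable_norm_pow two_ne_zero
      exact this
    have e1 : ∫⁻ x in F.V j, ENNReal.ofReal (‖χ x - h x‖ ^ 2 *
        Real.exp (-(p * F.pK t j x + W (F.y j x)))) ∂μ ≤
        ENNReal.ofReal (Real.exp b) * ∫⁻ x, ENNReal.ofReal (‖χ x - h x‖ ^ 2) ∂μ' := by
      rw [hμ', lintegral_withDensity_eq_lintegral_mul₀' hm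
        hi.aestronglyMeasurable.aemeasurable.ennreal_ofReal,
        ← lintegral_const_mul' _ _ ENNReal.ofReal_ne_top]
      refine setLIntegral_mono' hV.measurableSet fun x hx => ?_
      rw [Pi.mul_apply, ← ENNReal.ofReal_mul (Real.exp_pos _).le,
        ← ENNReal.ofReal_mul (Real.exp_pos _).le]
      refine ENNReal.ofReal_le_ofReal ?_
      have := mul_le_mul_of_nonneg_left (key x hx).1 (sq_nonneg ‖χ x - h x‖)
      refine this.trans (le_of_eq (by ring))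
    have e2 : ∫⁻ x, ENNReal.ofReal (‖χ x - h x‖ ^ 2) ∂μ' ≤
        ENNReal.ofReal (2 * T) * ∫⁻ x, ENNReal.ofReal (B x) ∂μ' := by
      rw [← ofReal_integral_eq_lintegral_ofReal hi (Eventually.of_forall fun x => sq_nonneg _),
        ← ofReal_integral_eq_lintegral_ofReal hBi (Eventually.of_forall hB0),
        ← ENNReal.ofReal_mul (by positivity)]
      refine ENNReal.ofReal_le_ofReal (hle.trans (le_of_eq ?_))
      rw [inv_inv]
    have e3 : ∫⁻ x, ENNReal.ofReal (B x) ∂μ' ≤ ENNReal.ofReal (Real.exp b) *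
        ∫⁻ x in F.V j, ENNReal.ofReal (Q x *
          Real.exp (-(p * F.pK t j x + W (F.y j x)))) ∂μ := by
      rw [hμ', lintegral_withDensity_eq_lintegral_mul₀' hm
        hBi.aestronglyMeasurable.aemeasurable.ennreal_ofReal,
        ← lintegral_const_mul' _ _ ENNReal.ofReal_ne_top]
      refine setLIntegral_mono' hV.measurableSet fun x hx => ?_
      rw [Pi.mul_apply, ← ENNReal.ofReal_mul (Real.exp_pos _).le,
        ← ENNReal.ofReal_mul (Real.exp_pos _).le]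
      refine ENNReal.ofReal_le_ofReal ?_
      have h1 : B x ≤ Q x := indicator_le_self' (fun _ _ => hQ0 x) x
      have h2 := mul_le_mul (key x hx).2 h1 (hB0 x) (by positivity)
      refine h2.trans (le_of_eq (by ring))
    refine e1.trans ?_
    refine (mul_le_mul_right (e2.trans (mul_le_mul_right e3 _)) _).trans (le_of_eq ?_)
    rw [← mul_assoc, ← mul_assoc, ← ENNReal.ofReal_mul (by positivity),
      ← ENNReal.ofReal_mul (by positivity)]

end

end Pool.Agent.KRFZ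

end

section

/-!
# Cut-off functions in the base and Theorem G
-/

open scoped ContDiff ENNReal ComplexOrder Topology
open Set MeasureTheory Filter Pool.Agent.ToricKRF Pool.Agent.ToricKRF.G Pool.Agent.KRFS
  Pool.Agent.KRFF Pool.Agent.KRFG Pool.Agent.KRFE

namespace Pool.Agent.KRFZ

namespace HC

open Pool.Agent.KRFX.NC (D_nsq fs fs_nonneg contDiff_nsq)
open Pool.Agent.KRFS.ABP (ip)

/-! ### The cut-off function on the line -/

/-- `1` for `s ≤ 1/4` and `0` for `s ≥ 1/2` -/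
noncomputable def rho (s : ℝ) : ℝ := Real.smoothTransition (2 - 4 * s)

theorem rho_smooth : ContDiff ℝ ∞ rho :=
  Real.smoothTransition.contDiff.comp (contDiff_const.sub (contDiff_const.mul contDiff_id))

theorem rho_nonneg (s : ℝ) : 0 ≤ rho s := Real.smoothTransition.nonneg _

theorem rho_le_one (s : ℝ) : rho s ≤ 1 := Real.smoothTransition.le_one _

theorem rho_one {s : ℝ} (h : s ≤ 1 / 4) : rho s = 1 :=
  Real.smoothTransition.one_of_one_le (by linarith)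

theorem rho_zero {s : ℝ} (h : 1 / 2 ≤ s) : rho s = 0 :=
  Real.smoothTransition.zero_of_nonpos (by linarith)

theorem deriv_rho_zero {s : ℝ} (h : s < 1 / 4 ∨ 1 / 2 < s) : deriv rho s = 0 := by
  rcases h with h | h
  · have h1 : rho =ᶠ[𝓝 s] fun _ => (1 : ℝ) := by
      filter_upwards [Iio_mem_nhds h] with x hx
      exact rho_one (le_of_lt hx)
    rw [h1.deriv_eq, deriv_const]
  · have h1 : rho =ᶠ[𝓝 s] fun _ => (0 : ℝ) := by
      filter_upwards [Ioi_mem_nhds h] with x hx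
      exact rho_zero (le_of_lt hx)
    rw [h1.deriv_eq, deriv_const]

theorem continuous_deriv_rho : Continuous (deriv rho) :=
  rho_smooth.continuous_deriv (by simp)

theorem deriv_rho_bound : ∃ B, 0 ≤ B ∧ ∀ s ∈ Icc (0 : ℝ) 1, deriv rho s ^ 2 * s ≤ B := by
  have hc : ContinuousOn (fun s => deriv rho s ^ 2 * s) (Icc (0 : ℝ) 1) :=
    ((continuous_deriv_rho.pow 2).mul continuous_id).continuousOn
  obtain ⟨B, hB⟩ := (isCompact_Icc.image_of_continuousOn hc).bddAbove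
  refine ⟨max B 0, le_max_right _ _, fun s hs => le_max_of_le_left (hB ⟨s, hs, rfl⟩)⟩

theorem nsq_le_two {N : ℕ} (y a : Cn N) : nsq y ≤ 2 * nsq (y - a) + 2 * nsq a := by
  have h1 := Fb.nsq_nonneg (y - a - a)
  simp only [nsq, dotProduct, Prod.fst_sub, Prod.snd_sub, Pi.sub_apply, ← Finset.sum_add_distrib,
    Finset.mul_sum] at h1 ⊢
  refine Finset.sum_le_sum fun i _ => ?_
  nlinarith [sq_nonneg (y.1 i - a.1 i - a.1 i), sq_nonneg (y.2 i - a.2 i - a.2 i)]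

/-! ### The derivative of the cut-off -/

/-- The dbar derivative of `ρ(|Y - a|^2 / r^2) H`. -/
theorem dbv_cut {n N : ℕ} {S : Set (Cn n)} (hS : IsOpen S) {Y : Cn n → Cn N} (hY : HolOn Y S)
    {H : Cn n → ℂ} (hH : NF.HolC H S) {a : Cn N} {r : ℝ} (hr : 0 < r) {x : Cn n} (hx : x ∈ S)
    (u : Cn n) :
    ‖dbv (fun x => (rho (nsq (Y x - a) / r ^ 2) : ℂ) * H x) u x‖ ^ 2 ≤
      deriv rho (nsq (Y x - a) / r ^ 2) ^ 2 * (nsq (Y x - a) / r ^ 2) * ‖H x‖ ^ 2 *
        (nsq (fderiv ℝ Y x u) / r ^ 2) := by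
  have hYd : HasFDerivAt Y (fderiv ℝ Y x) x := (NF.diffAt hS hY.1 hx).hasFDerivAt
  have hHd : HasFDerivAt H (fderiv ℝ H x) x := (NF.diffAt hS hH.1 hx).hasFDerivAt
  set v : Cn N := Y x - a with hv
  set s : ℝ := nsq v / r ^ 2 with hs
  have h1 : HasFDerivAt (fun x => nsq (Y x - a)) ((fderiv ℝ nsq v).comp (fderiv ℝ Y x)) x := by
    have h0 : HasFDerivAt (nsq : Cn N → ℝ) (fderiv ℝ nsq v) v :=
      (contDiff_nsq.differentiable (by simp) v).hasFDerivAt
    exact h0.comp x (hYd.sub_const a)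
  have h2 : HasFDerivAt (fun x => nsq (Y x - a) / r ^ 2)
      ((r ^ 2)⁻¹ • (fderiv ℝ nsq v).comp (fderiv ℝ Y x)) x := by
    have := h1.const_mul (r ^ 2)⁻¹
    refine this.congr_of_eventuallyEq (Eventually.of_forall fun x => ?_)
    simp only [div_eq_inv_mul]
  have h3 : HasDerivAt rho (deriv rho s) s :=
    (rho_smooth.differentiable (by simp) s).hasDerivAt
  have h4 : HasFDerivAt (fun x => rho (nsq (Y x - a) / r ^ 2))
      (deriv rho s • (r ^ 2)⁻¹ • (fderiv ℝ nsq v).comp (fderiv ℝ Y x)) x := by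
    have := HasDerivAt.comp_hasFDerivAt (h₂ := rho) x h3 h2
    exact this
  have h5 : HasFDerivAt (fun x => (rho (nsq (Y x - a) / r ^ 2) : ℂ))
      (Complex.ofRealCLM.comp (deriv rho s • (r ^ 2)⁻¹ • (fderiv ℝ nsq v).comp (fderiv ℝ Y x))) x :=
    Complex.ofRealCLM.hasFDerivAt.comp x h4
  have h6 := (h5.fun_mul hHd).fderiv
  have hJ : fderiv ℝ Y x (J u) = J (fderiv ℝ Y x u) := hY.2 x hx u
  have hD : ∀ w, fderiv ℝ nsq v w = 2 * ip v w := fun w => D_nsq v w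
  have hdb : dbv (fun x => (rho (nsq (Y x - a) / r ^ 2) : ℂ) * H x) u x =
      H x * (deriv rho s * (r ^ 2)⁻¹ : ℝ) *
        ((ip v (fderiv ℝ Y x u) : ℂ) + Complex.I * (ip v (J (fderiv ℝ Y x u)) : ℂ)) := by
    unfold dbv
    rw [h6]
    simp only [add_apply, smul_apply, smul_eq_mul, ContinuousLinearMap.comp_apply,
      Complex.ofRealCLM_apply, hD, hJ, hH.2 x hx u]
    push_cast
    have hI : Complex.I ^ 2 = -1 := Complex.I_sq
    linear_combination (rho s : ℂ) * fderiv ℝ H x u / 2 * hI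
  rw [hdb, norm_mul, norm_mul, mul_pow, mul_pow, Complex.norm_real, Real.norm_eq_abs, sq_abs]
  have h7 : ‖((ip v (fderiv ℝ Y x u) : ℂ) + Complex.I * (ip v (J (fderiv ℝ Y x u)) : ℂ))‖ ^ 2 =
      ip v (fderiv ℝ Y x u) ^ 2 + ip v (J (fderiv ℝ Y x u)) ^ 2 := by
    rw [← Complex.normSq_eq_norm_sq, mul_comm Complex.I, Complex.normSq_add_mul_I]
  rw [h7]
  have h8 := fs_nonneg v (fderiv ℝ Y x u)
  unfold fs at h8
  have h9 : ‖H x‖ ^ 2 * (deriv rho s * (r ^ 2)⁻¹) ^ 2 *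
      (ip v (fderiv ℝ Y x u) ^ 2 + ip v (J (fderiv ℝ Y x u)) ^ 2) ≤
      ‖H x‖ ^ 2 * (deriv rho s * (r ^ 2)⁻¹) ^ 2 * (nsq (fderiv ℝ Y x u) * nsq v) :=
    mul_le_mul_of_nonneg_left (by linarith) (by positivity)
  refine h9.trans (le_of_eq ?_)
  rw [hs]
  field_simp

/-! ### The balls in the base -/

section

variable {n N : ℕ} {M Z : Type} [MetricSpace M] [MetricSpace Z] {κ P : Type} {T : ℝ}
  (F : Semi n N M Z κ P T)

theorem isOpen_fS (j : P) : IsOpen {x | F.f x ∈ F.S j} := (F.emb.isOpen j).preimage F.emb.cont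

theorem contOn_y (j : P) : ContinuousOn (F.y j) {x | F.f x ∈ F.S j} :=
  (F.emb.qcont j).comp F.emb.cont.continuousOn fun _ hx => hx

theorem contOn_nsq (j : P) (a : Cn N) :
    ContinuousOn (fun x => nsq (F.y j x - a)) {x | F.f x ∈ F.S j} :=
  contDiff_nsq.continuous.comp_continuousOn ((contOn_y F j).sub continuousOn_const)

/-- the part of `M` over the open ball -/
def Od (j : P) (a : Cn N) (s : ℝ) : Set M := {x | F.f x ∈ F.S j ∧ nsq (F.y j x - a) < s}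

theorem isOpen_Od (j : P) (a : Cn N) (s : ℝ) : IsOpen (Od F j a s) :=
  (contOn_nsq F j a).isOpen_inter_preimage (isOpen_fS F j) isOpen_Iio

theorem V_eq (j : P) : F.V j = Od F j 0 81 := by
  simp only [Semi.V, Od, sub_zero]

theorem isOpen_V (j : P) : IsOpen (F.V j) := by
  rw [V_eq]
  exact isOpen_Od F j 0 81

theorem isClosed_Dd (j : P) {a : Cn N} {s : ℝ} (h : 2 * s + 2 * nsq a < 100) :
    IsClosed {x | F.f x ∈ F.S j ∧ nsq (F.y j x - a) ≤ s} := by
  have h1 : IsClosed {z | z ∈ F.S j ∧ nsq (F.q j z - a) ≤ s} := by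
    have hK := (F.emb.compact j _ h).isClosed
    have hc : ContinuousOn (fun z => nsq (F.q j z - a))
        {z | z ∈ F.S j ∧ nsq (F.q j z) ≤ 2 * s + 2 * nsq a} :=
      contDiff_nsq.continuous.comp_continuousOn
        (((F.emb.qcont j).mono fun z hz => hz.1).sub continuousOn_const)
    have h2 := hc.preimage_isClosed_of_isClosed hK (isClosed_Iic (a := s))
    convert h2 using 1
    ext z
    exact ⟨fun hz => ⟨⟨hz.1, by linarith [nsq_le_two (F.q j z) a, hz.2]⟩, hz.2⟩,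
      fun hz => ⟨hz.1.1, hz.2⟩⟩
  exact h1.preimage F.emb.cont

theorem Od_subset_V (j : P) {a : Cn N} {s : ℝ} (h : 2 * s + 2 * nsq a ≤ 81) :
    Od F j a s ⊆ F.V j := fun x hx =>
  ⟨hx.1, by linarith [nsq_le_two (F.y j x) a, hx.2]⟩

/-- the preimage in a chart -/
theorem isOpen_chart (c : κ) {O : Set M} (hO : IsOpen O) :
    IsOpen {x | x ∈ (F.e c).target ∧ (F.e c).symm x ∈ O} :=
  (F.e c).isOpen_inter_preimage_symm hO

theorem holOn_y (c : κ) (j : P) {O : Set M} (hO : O ⊆ {x | F.f x ∈ F.S j}) :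
    HolOn (fun x => F.y j ((F.e c).symm x)) {x | x ∈ (F.e c).target ∧ (F.e c).symm x ∈ O} :=
  NF.holOn_mono (F.emb.holo c j) fun _ hx => ⟨hx.1, hO hx.2⟩

/-- a function with holomorphic local expressions is continuous -/
theorem continuousOn_of_hol {O : Set M} (hO : IsOpen O) {H : M → ℂ}
    (hH : ∀ c, NF.HolC (fun x => H ((F.e c).symm x))
      {x | x ∈ (F.e c).target ∧ (F.e c).symm x ∈ O}) : ContinuousOn H O := by
  intro x hx
  obtain ⟨c, hc⟩ := F.atlas.cover x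
  have hmem : F.e c x ∈ {x | x ∈ (F.e c).target ∧ (F.e c).symm x ∈ O} :=
    ⟨(F.e c).map_source hc, by rwa [(F.e c).left_inv hc]⟩
  have h1 : ContinuousAt (fun x => H ((F.e c).symm x)) (F.e c x) :=
    (hH c).1.continuousOn.continuousAt ((isOpen_chart F c hO).mem_nhds hmem)
  have h2 : ContinuousAt (fun y => H ((F.e c).symm (F.e c y))) x :=
    ContinuousAt.comp (f := F.e c) (g := fun x => H ((F.e c).symm x)) h1
      ((F.e c).continuousAt hc)
  refine (h2.congr ?_).continuousWithinAt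
  filter_upwards [(F.e c).open_source.mem_nhds hc] with y hy
  rw [(F.e c).left_inv hy]

/-! ### The cut-off function on `M` -/

open Classical in
/-- the cut-off function on `M` -/
noncomputable def chi (j : P) (a : Cn N) (r : ℝ) (x : M) : ℝ :=
  if F.f x ∈ F.S j then rho (nsq (F.y j x - a) / r ^ 2) else 0

open Classical in
/-- the bound for the dbar derivative of the cut-off function times `H` -/
noncomputable def Qf (j : P) (a : Cn N) (r C : ℝ) (H : M → ℂ) (x : M) : ℝ :=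
  if x ∈ Od F j a (r ^ 2) then C / r ^ 2 * (deriv rho (nsq (F.y j x - a) / r ^ 2) ^ 2 *
    (nsq (F.y j x - a) / r ^ 2) * ‖H x‖ ^ 2) else 0

theorem chi_mem (j : P) (a : Cn N) (r : ℝ) (x : M) : 0 ≤ chi F j a r x ∧ chi F j a r x ≤ 1 := by
  unfold chi
  split_ifs
  · exact ⟨rho_nonneg _, rho_le_one _⟩
  · exact ⟨le_rfl, zero_le_one⟩

theorem chi_one {j : P} {a : Cn N} {r : ℝ} (hr : 0 < r) {x : M} (hx : F.f x ∈ F.S j)
    (h : nsq (F.y j x - a) ≤ r ^ 2 / 4) : chi F j a r x = 1 := by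
  unfold chi
  rw [if_pos hx]
  refine rho_one ?_
  rw [div_le_iff₀ (by positivity)]
  linarith

theorem chi_ne {j : P} {a : Cn N} {r : ℝ} (hr : 0 < r) {x : M} (hx : chi F j a r x ≠ 0) :
    F.f x ∈ F.S j ∧ nsq (F.y j x - a) < r ^ 2 / 2 := by
  unfold chi at hx
  split_ifs at hx with h
  · refine ⟨h, ?_⟩
    by_contra h1
    push Not at h1
    refine hx (rho_zero ?_)
    rw [le_div_iff₀ (by positivity)]
    linarith
  · exact absurd rfl hx

variable {F} {j : P} {a : Cn N} {r : ℝ} {H : M → ℂ}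

theorem chi_eventually (hr : 0 < r) (hr1 : r ≤ 1) (ha : nsq a ≤ 9) {x : M}
    (hx : x ∉ Od F j a (r ^ 2)) : ∀ᶠ x' in 𝓝 x, x' ∉ {x | F.f x ∈ F.S j ∧
      nsq (F.y j x - a) ≤ r ^ 2 / 2} := by
  have h1 : IsClosed {x | F.f x ∈ F.S j ∧ nsq (F.y j x - a) ≤ r ^ 2 / 2} := by
    refine isClosed_Dd F j ?_
    nlinarith
  refine h1.isOpen_compl.mem_nhds fun h => hx ⟨h.1, ?_⟩
  have : 0 < r ^ 2 := by positivity
  linarith [h.2]

theorem chi_zero (hr : 0 < r) {x : M} (hx : x ∉ {x | F.f x ∈ F.S j ∧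
      nsq (F.y j x - a) ≤ r ^ 2 / 2}) : chi F j a r x = 0 := by
  by_contra h
  exact hx ⟨(chi_ne F hr h).1, (chi_ne F hr h).2.le⟩

theorem smooth_chi (hr : 0 < r) (hr1 : r ≤ 1) (ha : nsq a ≤ 9)
    (hH : ∀ c, NF.HolC (fun x => H ((F.e c).symm x))
      {x | x ∈ (F.e c).target ∧ (F.e c).symm x ∈ Od F j a (r ^ 2)}) (c : κ) :
    ContDiffOn ℝ ∞ (fun x => (chi F j a r ((F.e c).symm x) : ℂ) * H ((F.e c).symm x))
      (F.e c).target := by
  intro x hx
  refine ContDiffAt.contDiffWithinAt ?_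
  by_cases hO : (F.e c).symm x ∈ Od F j a (r ^ 2)
  · have hS := isOpen_chart F c (isOpen_Od F j a (r ^ 2))
    have hmem : {x | x ∈ (F.e c).target ∧ (F.e c).symm x ∈ Od F j a (r ^ 2)} ∈ 𝓝 x :=
      hS.mem_nhds ⟨hx, hO⟩
    have hY := (holOn_y F c j (O := Od F j a (r ^ 2)) fun x hx => hx.1).1.contDiffAt hmem
    have h1 : ContDiffAt ℝ ∞ (fun x => (rho (nsq (F.y j ((F.e c).symm x) - a) / r ^ 2) : ℂ) *
        H ((F.e c).symm x)) x := by
      refine ContDiffAt.mul ?_ ((hH c).1.contDiffAt hmem)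
      refine Complex.ofRealCLM.contDiff.contDiffAt.comp x ?_
      refine rho_smooth.contDiffAt.comp x ?_
      exact (contDiff_nsq.contDiffAt.comp x (hY.sub contDiffAt_const)).div_const _
    refine h1.congr_of_eventuallyEq ?_
    filter_upwards [hmem] with x' hx'
    rw [chi, if_pos hx'.2.1]
  · have h1 : ContDiffAt ℝ ∞ (fun _ : Cn n => (0 : ℂ)) x := contDiffAt_const
    refine h1.congr_of_eventuallyEq ?_
    have h2 := ((F.e c).continuousAt_symm hx).eventually (chi_eventually hr hr1 ha hO)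
    filter_upwards [h2] with x' hx'
    rw [chi_zero hr hx', Complex.ofReal_zero, zero_mul]

theorem Qf_nonneg {C : ℝ} (hC : 0 ≤ C) (x : M) : 0 ≤ Qf F j a r C H x := by
  unfold Qf
  split_ifs
  · have := Fb.nsq_nonneg (F.y j x - a)
    positivity
  · exact le_rfl

theorem Qf_zero (hr : 0 < r) {C : ℝ} {x : M} (hx : ¬ (F.f x ∈ F.S j ∧
    r ^ 2 / 4 ≤ nsq (F.y j x - a) ∧ nsq (F.y j x - a) ≤ r ^ 2 / 2)) : Qf F j a r C H x = 0 := by
  unfold Qf
  split_ifs with h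
  · have h1 : nsq (F.y j x - a) / r ^ 2 < 1 / 4 ∨ 1 / 2 < nsq (F.y j x - a) / r ^ 2 := by
      rw [div_lt_iff₀ (by positivity), lt_div_iff₀ (by positivity)]
      by_contra h2
      push Not at h2
      exact hx ⟨h.1, by linarith [h2.1], by linarith [h2.2]⟩
    rw [deriv_rho_zero h1]
    ring
  · rfl

theorem continuous_Qf (hr : 0 < r) (hr1 : r ≤ 1) (ha : nsq a ≤ 9) (C : ℝ)
    (hH : ∀ c, NF.HolC (fun x => H ((F.e c).symm x))
      {x | x ∈ (F.e c).target ∧ (F.e c).symm x ∈ Od F j a (r ^ 2)}) :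
    Continuous (Qf F j a r C H) := by
  rw [continuous_iff_continuousAt]
  intro x
  by_cases hO : x ∈ Od F j a (r ^ 2)
  · have hmem := (isOpen_Od F j a (r ^ 2)).mem_nhds hO
    have h1 : ContinuousOn (fun x => C / r ^ 2 * (deriv rho (nsq (F.y j x - a) / r ^ 2) ^ 2 *
        (nsq (F.y j x - a) / r ^ 2) * ‖H x‖ ^ 2)) (Od F j a (r ^ 2)) := by
      have h2 : ContinuousOn (fun x => nsq (F.y j x - a) / r ^ 2) (Od F j a (r ^ 2)) :=
        ((contOn_nsq F j a).mono fun x hx => hx.1).div_const _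
      exact continuousOn_const.mul ((((continuous_deriv_rho.comp_continuousOn h2).pow 2).mul
        h2).mul ((continuousOn_of_hol F (isOpen_Od F j a _) hH).norm.pow 2))
    refine (h1.continuousAt hmem).congr ?_
    filter_upwards [hmem] with x' hx'
    rw [Qf, if_pos hx']
  · have h1 : ContinuousAt (fun _ : M => (0 : ℝ)) x := continuousAt_const
    refine h1.congr ?_
    filter_upwards [chi_eventually hr hr1 ha hO] with x' hx'
    exact (Qf_zero hr fun h => hx' ⟨h.1, h.2.2⟩).symm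

theorem dbv_chi (hr : 0 < r) (hr1 : r ≤ 1) (ha : nsq a ≤ 9) {C : ℝ} (hC : 0 ≤ C)
    (hy : ∀ c x, x ∈ (F.e c).target → (F.e c).symm x ∈ F.V j → ∀ u,
      nsq (fderiv ℝ (fun x => F.y j ((F.e c).symm x)) x u) ≤ C * lev (F.ψ c) u (0, x))
    (hH : ∀ c, NF.HolC (fun x => H ((F.e c).symm x))
      {x | x ∈ (F.e c).target ∧ (F.e c).symm x ∈ Od F j a (r ^ 2)}) (c : κ) {x : Cn n}
    (hx : x ∈ (F.e c).target) (hlev : ∀ u, 0 ≤ lev (F.ψ c) u (0, x)) (u : Cn n) :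
    ‖dbv (fun x => (chi F j a r ((F.e c).symm x) : ℂ) * H ((F.e c).symm x)) u x‖ ^ 2 ≤
      Qf F j a r C H ((F.e c).symm x) * lev (F.ψ c) u (0, x) := by
  by_cases hO : (F.e c).symm x ∈ Od F j a (r ^ 2)
  · have hS := isOpen_chart F c (isOpen_Od F j a (r ^ 2))
    have hmem : {x | x ∈ (F.e c).target ∧ (F.e c).symm x ∈ Od F j a (r ^ 2)} ∈ 𝓝 x :=
      hS.mem_nhds ⟨hx, hO⟩
    have h1 := dbv_cut hS (holOn_y F c j (O := Od F j a (r ^ 2)) fun x hx => hx.1) (hH c)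
      (a := a) hr ⟨hx, hO⟩ u
    have h2 : (fun x => (chi F j a r ((F.e c).symm x) : ℂ) * H ((F.e c).symm x)) =ᶠ[𝓝 x]
        fun x => (rho (nsq (F.y j ((F.e c).symm x) - a) / r ^ 2) : ℂ) * H ((F.e c).symm x) := by
      filter_upwards [hmem] with x' hx'
      rw [chi, if_pos hx'.2.1]
    have h3 : dbv (fun x => (chi F j a r ((F.e c).symm x) : ℂ) * H ((F.e c).symm x)) u x =
        dbv (fun x => (rho (nsq (F.y j ((F.e c).symm x) - a) / r ^ 2) : ℂ) *
          H ((F.e c).symm x)) u x := by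
      unfold dbv
      rw [h2.fderiv_eq]
    rw [h3]
    refine h1.trans ?_
    rw [Qf, if_pos hO]
    have hV : (F.e c).symm x ∈ F.V j := Od_subset_V F j (by nlinarith) hO
    have h4 := hy c x hx hV u
    have h5 : nsq (fderiv ℝ (fun x => F.y j ((F.e c).symm x)) x u) / r ^ 2 ≤
        C * lev (F.ψ c) u (0, x) / r ^ 2 := by gcongr
    have h6 := Fb.nsq_nonneg (F.y j ((F.e c).symm x) - a)
    refine (mul_le_mul_of_nonneg_left h5 (by positivity)).trans (le_of_eq ?_)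
    ring
  · have h2 : (fun x => (chi F j a r ((F.e c).symm x) : ℂ) * H ((F.e c).symm x)) =ᶠ[𝓝 x]
        fun _ => (0 : ℂ) := by
      filter_upwards [((F.e c).continuousAt_symm hx).eventually (chi_eventually hr hr1 ha hO)]
        with x' hx'
      rw [chi_zero hr hx', Complex.ofReal_zero, zero_mul]
    have h3 : dbv (fun x => (chi F j a r ((F.e c).symm x) : ℂ) * H ((F.e c).symm x)) u x = 0 := by
      unfold dbv
      rw [h2.fderiv_eq]
      simp
    rw [h3]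
    have h4 := mul_nonneg
      (Qf_nonneg (F := F) (j := j) (a := a) (r := r) (H := H) hC ((F.e c).symm x)) (hlev u)
    rw [norm_zero]
    simpa using h4

theorem Qf_le (hr : 0 < r) {B C : ℝ} (hB : ∀ s ∈ Icc (0 : ℝ) 1, deriv rho s ^ 2 * s ≤ B)
    (hC : 0 ≤ C) (x : M) : Qf F j a r C H x ≤ C * B / r ^ 2 * ‖H x‖ ^ 2 := by
  have h0 := Fb.nsq_nonneg (F.y j x - a)
  have hr2 : 0 < r ^ 2 := by positivity
  have hB0 : 0 ≤ B := by simpa using hB 0 ⟨le_rfl, zero_le_one⟩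
  unfold Qf
  split_ifs with h
  · have h1 : deriv rho (nsq (F.y j x - a) / r ^ 2) ^ 2 * (nsq (F.y j x - a) / r ^ 2) ≤ B :=
      hB _ ⟨by positivity, by rw [div_le_one hr2]; exact h.2.le⟩
    calc _ ≤ C / r ^ 2 * (B * ‖H x‖ ^ 2) := by gcongr
      _ = _ := by ring
  · positivity

end

section

variable {n N : ℕ} {M Z : Type} [MetricSpace M] [MeasurableSpace M] [BorelSpace M]
  [MetricSpace Z] {κ P : Type} {T : ℝ} (F : Semi n N M Z κ P T)

theorem measurableSet_shell (j : P) (a : Cn N) (s s' : ℝ) :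
    MeasurableSet {x | x ∈ F.V j ∧ s ≤ nsq (F.y j x - a) ∧ nsq (F.y j x - a) ≤ s'} := by
  have hV := isOpen_V F j
  have hc : ContinuousOn (fun x => nsq (F.y j x - a)) (F.V j) :=
    (contOn_nsq F j a).mono fun x hx => hx.1
  have h1 : MeasurableSet (F.V j ∩ (fun x => nsq (F.y j x - a)) ⁻¹' Iio s) :=
    (hc.isOpen_inter_preimage hV isOpen_Iio).measurableSet
  have h2 : MeasurableSet (F.V j ∩ (fun x => nsq (F.y j x - a)) ⁻¹' Ioi s') :=
    (hc.isOpen_inter_preimage hV isOpen_Ioi).measurableSet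
  convert (hV.measurableSet.diff h1).diff h2 using 1
  ext x
  constructor
  · rintro ⟨hx, h3, h4⟩
    exact ⟨⟨hx, fun h => absurd h.2 (not_lt.2 h3)⟩, fun h => absurd h.2 (not_lt.2 h4)⟩
  · rintro ⟨⟨hx, h3⟩, h4⟩
    exact ⟨hx, not_lt.1 fun h => h3 ⟨hx, h⟩, not_lt.1 fun h => h4 ⟨hx, h⟩⟩

end

end HC

section

variable {n N : ℕ} {M Z : Type} [MetricSpace M] [CompactSpace M] [MeasurableSpace M] [BorelSpace M]
  [MetricSpace Z] {κ P : Type} [Finite κ] [Finite P] {T : ℝ} (F : Semi n N M Z κ P T)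
  {μ : Measure M} (hμ : HasDens F.e F.Ω μ)

include hμ in
/-- Theorem G for `χ H` with a cut-off function `χ` of the base: the function `H` is holomorphic on
the part of `M` over the ball of radius `r` around `a`. -/
theorem Semi.horm_cut : ∃ C c₀, 0 ≤ C ∧ 0 < c₀ ∧ ∀ t ∈ Ico 0 T, ∀ p, 0 ≤ p → p * (T - t) ≤ c₀ →
    ∀ (j : P) (a : Cn N) (r : ℝ) (W : Cn N → ℝ) (H : M → ℂ), nsq a ≤ 9 → 0 < r → r ≤ 1 →
    ContDiffOn ℝ ∞ W {y | nsq y < 100} → (∀ y, nsq y < 100 → ∀ u, 0 ≤ levz W u y) →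
    (∀ c, NF.HolC (fun x => H ((F.e c).symm x)) {x | x ∈ (F.e c).target ∧
      F.f ((F.e c).symm x) ∈ F.S j ∧ nsq (F.y j ((F.e c).symm x) - a) < r ^ 2}) →
    ∃ (χ : M → ℝ) (h : M → ℂ), F.Hol j h ∧ (∀ x, 0 ≤ χ x ∧ χ x ≤ 1) ∧
      (∀ x, F.f x ∈ F.S j → nsq (F.y j x - a) ≤ r ^ 2 / 4 → χ x = 1) ∧
      (∀ x, χ x ≠ 0 → F.f x ∈ F.S j ∧ nsq (F.y j x - a) < r ^ 2) ∧
      ∫⁻ x in F.V j, ENNReal.ofReal (‖χ x * H x - h x‖ ^ 2 *
        Real.exp (-(p * F.pK t j x + W (F.y j x)))) ∂μ ≤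
      ENNReal.ofReal (C / r ^ 2) * ∫⁻ x in {x | x ∈ F.V j ∧ r ^ 2 / 4 ≤ nsq (F.y j x - a) ∧
        nsq (F.y j x - a) ≤ r ^ 2}, ENNReal.ofReal (‖H x‖ ^ 2 *
        Real.exp (-(p * F.pK t j x + W (F.y j x)))) ∂μ := by
  obtain ⟨C₁, c₀, hC₁, hc₀, hG⟩ := F.horm hμ
  obtain ⟨C₂, hC₂, hy⟩ := F.y_lip
  obtain ⟨B, hB0, hB⟩ := HC.deriv_rho_bound
  refine ⟨C₁ * (C₂ * B), c₀, by positivity, hc₀, fun t ht p hp hpt j a r W H ha hr hr1 hWs hW
    hH => ?_⟩
  have h0 : (0 : ℝ) ∈ Ico 0 T := ⟨le_rfl, ht.1.trans_lt ht.2⟩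
  have hr2 : 0 < r ^ 2 := by positivity
  obtain ⟨h, hh, hint⟩ := hG t ht p hp hpt j W (fun x => (HC.chi F j a r x : ℂ) * H x)
    (HC.Qf F j a r C₂ H) hWs hW (HC.smooth_chi hr hr1 ha hH)
    ⟨20, by norm_num, fun x hx => by
      have h1 : HC.chi F j a r x ≠ 0 := fun h => hx (by simp [h])
      obtain ⟨h2, h3⟩ := HC.chi_ne F hr h1
      refine ⟨h2, ?_⟩
      have h4 := HC.nsq_le_two (F.y j x) a
      nlinarith⟩
    (HC.continuous_Qf hr hr1 ha C₂ hH) (HC.Qf_nonneg hC₂.le)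
    (fun c x hx u => HC.dbv_chi hr hr1 ha hC₂.le (fun c x hx hV u => hy c j x h0.2 hx hV u) hH c hx
      (fun u => Fb.lev_nonneg F.toFlow h0 hx u) u)
  refine ⟨HC.chi F j a r, h, hh, HC.chi_mem F j a r, fun x hx hx1 => HC.chi_one F hr hx hx1,
    fun x hx => ⟨(HC.chi_ne F hr hx).1, by linarith [(HC.chi_ne F hr hx).2]⟩, hint.trans ?_⟩
  set S : Set M := {x | x ∈ F.V j ∧ r ^ 2 / 4 ≤ nsq (F.y j x - a) ∧
        nsq (F.y j x - a) ≤ r ^ 2} with hS
  have hSm : MeasurableSet S := HC.measurableSet_shell F j a _ _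
  set g : M → ℝ≥0∞ := fun x => ENNReal.ofReal (‖H x‖ ^ 2 *
        Real.exp (-(p * F.pK t j x + W (F.y j x)))) with hg
  have h1 : ∫⁻ x in F.V j, ENNReal.ofReal (HC.Qf F j a r C₂ H x *
      Real.exp (-(p * F.pK t j x + W (F.y j x)))) ∂μ ≤
      ENNReal.ofReal (C₂ * B / r ^ 2) * ∫⁻ x in S, g x ∂μ := by
    calc _ ≤ ∫⁻ x in F.V j, ENNReal.ofReal (C₂ * B / r ^ 2) * S.indicator g x ∂μ := by
          refine setLIntegral_mono' (HC.isOpen_V F j).measurableSet fun x hx => ?_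
          by_cases hxS : x ∈ S
          · rw [indicator_of_mem hxS, hg, ← ENNReal.ofReal_mul (by positivity)]
            refine ENNReal.ofReal_le_ofReal ?_
            rw [← mul_assoc]
            exact mul_le_mul_of_nonneg_right (HC.Qf_le hr hB hC₂.le x) (Real.exp_pos _).le
          · rw [HC.Qf_zero hr fun h => hxS ⟨hx, h.2.1, by linarith [h.2.2]⟩]
            simp
      _ = ENNReal.ofReal (C₂ * B / r ^ 2) * ∫⁻ x in F.V j, S.indicator g x ∂μ :=
          lintegral_const_mul' _ _ ENNReal.ofReal_ne_top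
      _ = _ := by
          rw [lintegral_indicator hSm, Measure.restrict_restrict hSm]
          congr 3
          exact inter_eq_left.2 fun x hx => hx.1
  calc _ ≤ ENNReal.ofReal C₁ * (ENNReal.ofReal (C₂ * B / r ^ 2) * ∫⁻ x in S, g x ∂μ) := by
        gcongr
    _ = _ := by
        rw [← mul_assoc, ← ENNReal.ofReal_mul hC₁]
        congr 2
        ring

end

end Pool.Agent.KRFZ

end
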