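import Pool.Agent.Work.MP_a2bf38_gt.Fu.Z.TransferA
import Pool.Agent.Work.MP_a2bf38_gt.Fu.Z.HormCurv

/-!
# Transfer of a holomorphic function of bounded norm to the middle of a chart of `Z`
-/

open scoped ContDiff ENNReal ComplexOrder Topology
open Set MeasureTheory Filter Pool.Agent.ToricKRF Pool.Agent.ToricKRF.G Pool.Agent.KRFS
  Pool.Agent.KRFF Pool.Agent.KRFG Pool.Agent.KRFE

namespace Pool.Agent.KRFZ

open ZC

section

variable {n N : ℕ} {M Z : Type} [MetricSpace M] [CompactSpace M] [MeasurableSpace M] [BorelSpace M]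
  [MetricSpace Z] {κ P : Type} [Finite κ] [Finite P] {T : ℝ} (F : Semi n N M Z κ P T)
  {μ : Measure M} (hμ : HasDens F.e F.Ω μ)

include hμ in
theorem Semi.transfer : ∃ C c₀, 0 ≤ C ∧ 0 < c₀ ∧ ∀ t ∈ Ico 0 T, ∀ p, 1 ≤ p → p * (T - t) ≤ c₀ →
    ∀ j h x, F.Adm μ t p j h → F.f x ∈ F.S j → nsq (F.y j x) ≤ 9 → h x ≠ 0 →
    ∃ i h', F.Adm μ t p i h' ∧ F.f x ∈ F.S i ∧ nsq (F.y i x) ≤ 1 ∧ h' x ≠ 0 ∧
      F.val p j h x - C / p ≤ F.val p i h' x := by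
  obtain ⟨r, hr, hr1, hGall⟩ := F.exists_G
  obtain ⟨C₀, c₀, hC₀, hc₀, hcut⟩ := F.horm_cut hμ
  set I₀ : ℝ := C₀ / r ^ 2 * (4 / r ^ 2) ^ (n + 1) with hI₀d
  have hI₀ : 0 ≤ I₀ := by positivity
  set C₁ : ℝ := 2 * 101 ^ (n + 1) * I₀ + 2 with hC₁d
  have hC₁ : 2 ≤ C₁ := by
    have : 0 ≤ 2 * 101 ^ (n + 1) * I₀ := by positivity
    linarith
  have hC₁0 : 0 < C₁ := by linarith
  refine ⟨Real.log (4 * C₁), c₀, Real.log_nonneg (by linarith), hc₀, ?_⟩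
  intro t ht p hp hpd j h x hadm hxj hyj hhx
  have hp0 : 0 < p := by linarith
  obtain ⟨i, hxi, hyi⟩ := F.emb.cover (F.f x)
  obtain ⟨G, hG, hGh⟩ := hGall i j (F.f x) hxi hyi hxj hyj
  set a : Cn N := F.y i x with ha
  have ha1 : nsq a ≤ 1 := hyi
  have hG' : ∀ p', F.f p' ∈ F.S i → nsq (F.y i p' - a) ≤ r ^ 2 → p' ∈ F.V j ∧
      F.K i (F.y i p') - F.K j (F.y j p') = (G (F.f p')).re := by
    intro p' h1 h2
    obtain ⟨h3, h4, h5⟩ := hG (F.f p') h1 h2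
    exact ⟨⟨h3, h4⟩, h5⟩
  have hGB : ∀ p', p' ∈ F.B i a r → p' ∈ F.V j ∧
      F.K i (F.y i p') - F.K j (F.y j p') = (G (F.f p')).re := fun p' hp' =>
    hG' p' hp'.1 hp'.2.le
  have hBV : F.B i a r ⊆ F.V j := fun p' hp' => (hGB p' hp').1
  set H : M → ℂ := fun x' => h x' * Complex.exp ((p : ℂ) * G (F.f x') / 2) with hH
  have hHx : H x ≠ 0 := mul_ne_zero hhx (Complex.exp_ne_zero _)
  have hHx0 : 0 < ‖H x‖ := norm_pos_iff.2 hHx
  obtain ⟨C, ε₀, hC, hε₀, hval⟩ := F.value_const (p := p) ht hadm.1 hxi hyi hr hBV hGh hμ hI₀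
  -- the choice of `ε`
  set ε : ℝ := min 1 (min ε₀ (‖H x‖ / (2 * √(C + 1)))) with hε
  have hsq : 0 < √(C + 1) := Real.sqrt_pos.2 (by linarith)
  have hε0 : 0 < ε := lt_min one_pos (lt_min hε₀ (by positivity))
  have hε1 : ε ≤ 1 := min_le_left _ _
  have hε2 : ε ≤ ε₀ := (min_le_right _ _).trans (min_le_left _ _)
  have hε3 : C * ε ^ 2 ≤ (‖H x‖ / 2) ^ 2 := by
    have h1 : ε ≤ ‖H x‖ / (2 * √(C + 1)) := (min_le_right _ _).trans (min_le_right _ _)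
    have h2 : ε ^ 2 ≤ (‖H x‖ / 2) ^ 2 / (C + 1) := by
      calc ε ^ 2 ≤ (‖H x‖ / (2 * √(C + 1))) ^ 2 := by gcongr
        _ = (‖H x‖ / 2) ^ 2 / (C + 1) := by
          rw [div_pow, mul_pow, Real.sq_sqrt (by linarith), div_pow]
          field_simp
    calc C * ε ^ 2 ≤ C * ((‖H x‖ / 2) ^ 2 / (C + 1)) := by gcongr
      _ = (‖H x‖ / 2) ^ 2 * (C / (C + 1)) := by ring
      _ ≤ (‖H x‖ / 2) ^ 2 * 1 := by
          refine mul_le_mul_of_nonneg_left ?_ (by positivity)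
          rw [div_le_one (by linarith)]
          linarith
      _ = _ := mul_one _
  have hHhol : ∀ c, NF.HolC (fun x => H ((F.e c).symm x)) {x | x ∈ (F.e c).target ∧
      F.f ((F.e c).symm x) ∈ F.S i ∧ nsq (F.y i ((F.e c).symm x) - a) < r ^ 2} := by
    intro c
    have hS : IsOpen {x | x ∈ (F.e c).target ∧
      F.f ((F.e c).symm x) ∈ F.S i ∧ nsq (F.y i ((F.e c).symm x) - a) < r ^ 2} :=
      F.isOpen_domG c i a r
    have e1 := HolC_mono (hadm.1 c) (S' := {x | x ∈ (F.e c).target ∧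
      F.f ((F.e c).symm x) ∈ F.S i ∧ nsq (F.y i ((F.e c).symm x) - a) < r ^ 2}) fun w hw =>
      ⟨hw.1, hBV ⟨hw.2.1, hw.2.2⟩⟩
    have e3 := (NF.HolC.const ((p / 2 : ℝ) : ℂ) _).mul hS (hGh c)
    have e4 := e1.mul hS (Fb.holC_exp hS e3)
    have e5 : (fun w => H ((F.e c).symm w)) = fun w => h ((F.e c).symm w) *
        Complex.exp (((p / 2 : ℝ) : ℂ) * G (F.f ((F.e c).symm w))) := by
      funext w
      simp only [hH]
      rw [show (p : ℂ) * G (F.f ((F.e c).symm w)) / 2 =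
        ((p / 2 : ℝ) : ℂ) * G (F.f ((F.e c).symm w)) by push_cast; ring]
    rw [e5]
    exact e4
  obtain ⟨χ, h₁, hh₁, hχ, hχ1, hχ0, hint⟩ := hcut t ht p hp0.le hpd i a r
    (fun y => (n + 1) * Pole.W0 a ε y) H (ha1.trans (by norm_num)) hr hr1
    ((contDiff_const.mul (Pole.W0_smooth a hε0)).contDiffOn)
    (fun y _ u => by
      rw [KRFS.Bd.levz_const_mul _ (((Pole.W0_smooth a hε0).contDiffAt).of_le
        two_le_infty) u]
      exact mul_nonneg (by positivity) (Pole.W0_psh a hε0 y u)) hHhol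
  have hint2 : ∫⁻ x in F.V i, ENNReal.ofReal (‖(χ x : ℂ) * H x - h₁ x‖ ^ 2 *
      Real.exp (-(p * F.pK t i x + (n + 1) * Pole.W0 a ε (F.y i x)))) ∂μ ≤
      ENNReal.ofReal I₀ := by
    refine hint.trans ?_
    rw [hI₀d, ENNReal.ofReal_mul (by positivity)]
    exact mul_le_mul_right (F.shell_bound hadm hr hε0 hG') _
  have hnorm := F.norm_sol ht hadm ha1 hε0 hε1 hGB hχ (fun x hx => hχ0 x hx) hI₀ hint2
  have hvx := hval ε hε0 hε2 χ h₁ hh₁ hχ1 hint2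
  -- the value at `x`
  have hge : ‖H x‖ / 2 ≤ ‖h₁ x‖ := by
    have h1 : ‖H x - h₁ x‖ ^ 2 ≤ (‖H x‖ / 2) ^ 2 := hvx.trans hε3
    have h2 : ‖H x - h₁ x‖ ≤ ‖H x‖ / 2 := by
      exact (abs_le_of_sq_le_sq' h1 (by positivity)).2
    have h3 := norm_sub_norm_le (H x) (h₁ x)
    linarith
  have hh₁x : 0 < ‖h₁ x‖ := lt_of_lt_of_le (by positivity) hge
  -- the function `h'`
  refine ⟨i, fun x' => (((√C₁)⁻¹ : ℝ) : ℂ) * h₁ x', ⟨fun c => ?_, ?_⟩, hxi, hyi, ?_, ?_⟩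
  · exact (NF.HolC.const _ _).mul ((F.e c).symm.isOpen_inter_preimage (F.isOpen_V i)) (hh₁ c)
  · have hsC : ((√C₁)⁻¹) ^ 2 = C₁⁻¹ := by rw [inv_pow, Real.sq_sqrt hC₁0.le]
    calc ∫⁻ x in F.V i, ENNReal.ofReal (‖(((√C₁)⁻¹ : ℝ) : ℂ) * h₁ x‖ ^ 2 *
          Real.exp (-(p * F.pK t i x))) ∂μ
        = ∫⁻ x in F.V i, ENNReal.ofReal C₁⁻¹ * ENNReal.ofReal (‖h₁ x‖ ^ 2 *
          Real.exp (-(p * F.pK t i x))) ∂μ := by
          refine lintegral_congr fun x => ?_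
          rw [← ENNReal.ofReal_mul (by positivity), norm_mul, mul_pow, Complex.norm_real,
            Real.norm_eq_abs, sq_abs, hsC, mul_assoc]
      _ = ENNReal.ofReal C₁⁻¹ * ∫⁻ x in F.V i, ENNReal.ofReal (‖h₁ x‖ ^ 2 *
          Real.exp (-(p * F.pK t i x))) ∂μ := lintegral_const_mul' _ _ ENNReal.ofReal_ne_top
      _ ≤ ENNReal.ofReal C₁⁻¹ * ENNReal.ofReal C₁ := mul_le_mul_right hnorm _
      _ = 1 := by
          rw [← ENNReal.ofReal_mul (by positivity), inv_mul_cancel₀ hC₁0.ne', ENNReal.ofReal_one]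
  · refine mul_ne_zero ?_ (norm_pos_iff.1 hh₁x)
    have : (√C₁)⁻¹ ≠ 0 := inv_ne_zero (Real.sqrt_pos.2 hC₁0).ne'
    exact_mod_cast this
  · have hsC : ((√C₁)⁻¹) ^ 2 = C₁⁻¹ := by rw [inv_pow, Real.sq_sqrt hC₁0.le]
    have h0 : ‖(((√C₁)⁻¹ : ℝ) : ℂ) * h₁ x‖ ^ 2 = C₁⁻¹ * ‖h₁ x‖ ^ 2 := by
      rw [norm_mul, mul_pow, Complex.norm_real, Real.norm_eq_abs, sq_abs, hsC]
    have h1 : ‖H x‖ ^ 2 / (4 * C₁) ≤ ‖(((√C₁)⁻¹ : ℝ) : ℂ) * h₁ x‖ ^ 2 := by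
      rw [h0]
      calc ‖H x‖ ^ 2 / (4 * C₁) = C₁⁻¹ * (‖H x‖ / 2) ^ 2 := by
            field_simp
            norm_num
        _ ≤ C₁⁻¹ * ‖h₁ x‖ ^ 2 := by gcongr
    have h2 : Real.log (‖H x‖ ^ 2) - Real.log (4 * C₁) ≤
        Real.log (‖(((√C₁)⁻¹ : ℝ) : ℂ) * h₁ x‖ ^ 2) := by
      rw [← Real.log_div (by positivity) (by positivity)]
      exact Real.log_le_log (by positivity) h1
    have h3 : Real.log (‖H x‖ ^ 2) = Real.log (‖h x‖ ^ 2) + p * (G (F.f x)).re := by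
      have h4 : ‖H x‖ ^ 2 = ‖h x‖ ^ 2 * Real.exp (p * (G (F.f x)).re) := by
        simp only [hH]
        rw [norm_mul, mul_pow, Complex.norm_exp, ← Real.exp_nat_mul]
        congr 2
        rw [show (p : ℂ) * G (F.f x) / 2 = ((p / 2 : ℝ) : ℂ) * G (F.f x) by push_cast; ring,
          Complex.re_ofReal_mul]
        push_cast
        ring
      have h5 : 0 < ‖h x‖ ^ 2 := by
        have := norm_pos_iff.2 hhx
        positivity
      rw [h4, Real.log_mul h5.ne' (Real.exp_pos _).ne', Real.log_exp]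
    have h4 : F.K i (F.y i x) - F.K j (F.y j x) = (G (F.f x)).re :=
      (hG' x hxi (by
        rw [← ha, sub_self, nsq_zero]
        positivity)).2
    simp only [Semi.val]
    have h5 : 1 / p * (Real.log (‖H x‖ ^ 2) - Real.log (4 * C₁)) ≤
        1 / p * Real.log (‖(((√C₁)⁻¹ : ℝ) : ℂ) * h₁ x‖ ^ 2) :=
      mul_le_mul_of_nonneg_left h2 (by positivity)
    rw [h3, ← h4] at h5
    have h6 : 1 / p * (Real.log (‖h x‖ ^ 2) + p * (F.K i (F.y i x) - F.K j (F.y j x)) -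
        Real.log (4 * C₁)) = 1 / p * Real.log (‖h x‖ ^ 2) + (F.K i (F.y i x) - F.K j (F.y j x)) -
        Real.log (4 * C₁) / p := by
      field_simp
    rw [h6] at h5
    linarith

end

end Pool.Agent.KRFZ
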