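import Pool.Agent.Work.MP_a2bf38_gt.Fu.Z.Fam
import Pool.Agent.Work.MP_a2bf38_gt.Fu.Z.Const2
import Pool.Agent.Work.MP_a2bf38_gt.Fu.I.FibBasic
import Pool.Agent.Work.MP_a2bf38_gt.Fu.K.EmReach
import Pool.Agent.Work.MP_a2bf38_gt.Fu.Z.Transfer

section

/-!
# The minimum principle for a family of holomorphic functions (KRF VI, step 5c)
-/

open scoped ContDiff ENNReal ComplexOrder Topology
open Set MeasureTheory Filter Pool.Agent.ToricKRF Pool.Agent.ToricKRF.G Pool.Agent.KRFS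
  Pool.Agent.KRFF Pool.Agent.KRFG Pool.Agent.KRFE

namespace Pool.Agent.KRFZ

namespace DomB

/-! ### The barrier -/

section barrier

theorem barr_nonneg (n : ℕ) {T C t s : ℝ} (hT : 0 < T) (hC : 0 ≤ C) (ht : 0 ≤ t) (hts : t ≤ s)
    (hs : s < T) : 0 ≤ barr n T C t s := by
  have hd : 0 < 1 - s / T := by
    rw [sub_pos, div_lt_one hT]
    exact hs
  have hd0 : 0 < 1 - t / T := by
    rw [sub_pos, div_lt_one hT]
    linarith
  have hdd : 1 - s / T ≤ 1 - t / T := by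
    have := div_le_div_of_nonneg_right hts hT.le
    linarith
  have hd1 : 1 - t / T ≤ 1 := by
    have : 0 ≤ t / T := div_nonneg ht hT.le
    linarith
  unfold barr
  set d := 1 - s / T
  set d₀ := 1 - t / T
  have h1 : Real.log (d₀ / d) ≤ d₀ / d - 1 := Real.log_le_sub_one_of_pos (by positivity)
  rw [Real.log_div hd0.ne' hd.ne'] at h1
  have h2 : d * (Real.log d₀ - Real.log d) ≤ d₀ - d := by
    have := mul_le_mul_of_nonneg_left h1 hd.le
    have e : d * (d₀ / d - 1) = d₀ - d := by field_simp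
    linarith
  have h3 : 0 ≤ (d - d₀) * Real.log d₀ :=
    mul_nonneg_of_nonpos_of_nonpos (by linarith) (Real.log_nonpos hd0.le hd1)
  have h4 : 0 ≤ (d * Real.log d - d) - (d₀ * Real.log d₀ - d₀) := by nlinarith
  have h5 : 0 ≤ n * T * ((d * Real.log d - d) - (d₀ * Real.log d₀ - d₀)) := by positivity
  have h6 : 0 ≤ (C + 1) * (s - t) := mul_nonneg (by linarith) (by linarith)
  linarith

theorem barr_le_log (n : ℕ) {T C t s : ℝ} (hT : 0 < T) (hC : 0 ≤ C) (ht : 0 ≤ t) (hts : t ≤ s)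
    (hs : s < T) : barr n T C t s ≤
      (C + 1 + n * (1 + |Real.log T|)) * ((T - t) * (1 + |Real.log (T - t)|)) := by
  have hd : 0 < 1 - s / T := by
    rw [sub_pos, div_lt_one hT]
    exact hs
  have hd0 : 0 < 1 - t / T := by
    rw [sub_pos, div_lt_one hT]
    linarith
  have hd1 : 1 - s / T ≤ 1 := by
    have : 0 ≤ s / T := div_nonneg (ht.trans hts) hT.le
    linarith
  have e0 : T * (1 - t / T) = T - t := by field_simp
  have hTt : 0 < T - t := by linarith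
  have e1 : Real.log (1 - t / T) = Real.log (T - t) - Real.log T := by
    rw [← Real.log_div hTt.ne' hT.ne']
    congr 1
    field_simp
  unfold barr
  set d := 1 - s / T with hdd
  set d₀ := 1 - t / T with hdd0
  have h1 : d * Real.log d ≤ 0 := mul_nonpos_of_nonneg_of_nonpos hd.le (Real.log_nonpos hd.le hd1)
  have h2 : -Real.log d₀ ≤ |Real.log (T - t)| + |Real.log T| := by
    rw [e1]
    linarith [neg_abs_le (Real.log (T - t)), le_abs_self (Real.log T)]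
  have h3 : (d * Real.log d - d) - (d₀ * Real.log d₀ - d₀) ≤
      d₀ * (1 + |Real.log (T - t)| + |Real.log T|) := by
    have := mul_le_mul_of_nonneg_left h2 hd0.le
    nlinarith
  have hn : (0 : ℝ) ≤ n := n.cast_nonneg
  have h4 : n * T * ((d * Real.log d - d) - (d₀ * Real.log d₀ - d₀)) ≤
      n * ((T - t) * (1 + |Real.log (T - t)| + |Real.log T|)) := by
    calc n * T * ((d * Real.log d - d) - (d₀ * Real.log d₀ - d₀))
        ≤ n * T * (d₀ * (1 + |Real.log (T - t)| + |Real.log T|)) :=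
          mul_le_mul_of_nonneg_left h3 (by positivity)
      _ = n * ((T * d₀) * (1 + |Real.log (T - t)| + |Real.log T|)) := by ring
      _ = _ := by rw [e0]
  have hL : 0 ≤ |Real.log (T - t)| := abs_nonneg _
  have hLT : 0 ≤ |Real.log T| := abs_nonneg _
  have h5 : (C + 1) * (s - t) ≤ (C + 1) * ((T - t) * (1 + |Real.log (T - t)|)) := by
    refine mul_le_mul_of_nonneg_left ?_ (by linarith)
    nlinarith
  have h6 : (T - t) * (1 + |Real.log (T - t)| + |Real.log T|) ≤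
      (1 + |Real.log T|) * ((T - t) * (1 + |Real.log (T - t)|)) := by
    have : 0 ≤ (T - t) * (|Real.log T| * |Real.log (T - t)|) := by positivity
    nlinarith
  have h7 := mul_le_mul_of_nonneg_left h6 hn
  nlinarith

end barrier

section

variable {n N : ℕ} {M Z : Type} [MetricSpace M] [MetricSpace Z] {κ P : Type} {T : ℝ}
  (F : Semi n N M Z κ P T)

theorem continuousOn_y (j : P) : ContinuousOn (F.y j) (F.f ⁻¹' F.S j) :=
  (F.emb.qcont j).comp F.emb.cont.continuousOn fun _ hx => hx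

theorem isOpen_V (j : P) : IsOpen (F.V j) := by
  have h1 : ContinuousOn (fun p => nsq (F.y j p)) (F.f ⁻¹' F.S j) :=
    Gap.contDiff_nsq'.continuous.comp_continuousOn (continuousOn_y F j)
  exact h1.isOpen_inter_preimage ((F.emb.isOpen j).preimage F.emb.cont) isOpen_Iio

/-- the part of `M` over the ball of radius `3` -/
def core (j : P) : Set M := {x | F.f x ∈ F.S j ∧ nsq (F.y j x) ≤ 9}

theorem core_subset_V (j : P) : core F j ⊆ F.V j := fun _ hx => ⟨hx.1, hx.2.trans_lt (by norm_num)⟩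

theorem isCompact_core [CompactSpace M] (j : P) : IsCompact (core F j) := by
  have h1 : IsClosed {z | z ∈ F.S j ∧ nsq (F.q j z) ≤ 9} :=
    (F.emb.compact j 9 (by norm_num)).isClosed
  exact (h1.preimage F.emb.cont).isCompact

/-- the chart domain of `V j` -/
theorem isOpen_chart (c : κ) (j : P) :
    IsOpen {x | x ∈ (F.e c).target ∧ (F.e c).symm x ∈ F.V j} :=
  (F.e c).continuousOn_symm.isOpen_inter_preimage (F.e c).open_target (isOpen_V F j)

theorem continuousOn_hol {j : P} {h : M → ℂ} (hh : F.Hol j h) : ContinuousOn h (F.V j) := by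
  intro x hx
  obtain ⟨c, hc⟩ := F.atlas.cover x
  have hz : F.e c x ∈ {x | x ∈ (F.e c).target ∧ (F.e c).symm x ∈ F.V j} :=
    ⟨(F.e c).map_source hc, by rw [(F.e c).left_inv hc]; exact hx⟩
  have h1 : ContinuousAt (fun x => h ((F.e c).symm x)) (F.e c x) :=
    (hh c).1.continuousOn.continuousAt ((isOpen_chart F c j).mem_nhds hz)
  have h2 : ContinuousAt ((fun x => h ((F.e c).symm x)) ∘ F.e c) x :=
    ContinuousAt.comp h1 ((F.e c).continuousAt hc)
  refine (h2.congr ?_).continuousWithinAt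
  filter_upwards [(F.e c).open_source.mem_nhds hc] with y hy
  simp only [Function.comp_apply, (F.e c).left_inv hy]

theorem holOn_y (c : κ) (j : P) : HolOn (fun x => F.y j ((F.e c).symm x))
    {x | x ∈ (F.e c).target ∧ F.f ((F.e c).symm x) ∈ F.S j} := F.emb.holo c j

variable [CompactSpace M] [Finite κ] [Finite P]

/-- the minimum principle at an interior point -/
theorem local_min {C₁ Cq : ℝ}
    (h1 : ∀ c, ∀ t ∈ Ico 0 T, ∀ z ∈ (F.e c).target,
      (∀ u, 1 / 2 * (1 - t / T) * lev (F.ψ c) u (0, z) ≤ lev (F.ψ c) u (t, z)) →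
      n * Real.log (1 - t / T) - C₁ ≤ F.dphi c (t, z))
    (hCq : ∀ c j x, x ∈ (F.e c).target → (F.e c).symm x ∈ F.V j → ∀ u,
      levz (fun x => nsq (F.y j ((F.e c).symm x))) u x ≤ Cq * levz (F.Θ c) u x)
    {t s₁ τ b p : ℝ} (ht : t ∈ Ico 0 T) (hs : s₁ ∈ Ioo t T) (hb : 0 ≤ b)
    (hτ : τ ≤ t / T - Cq * b) {j : P} {h : M → ℂ} (hh : F.Hol j h) {x₁ : M} (hx : x₁ ∈ F.V j)
    (hne : h x₁ ≠ 0)
    (hmin : ∀ᶠ x in 𝓝 x₁, F.Phi s₁ x₁ - (τ * F.val p j h x₁ - b * nsq (F.y j x₁)) ≤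
      F.Phi s₁ x - (τ * F.val p j h x - b * nsq (F.y j x)))
    (hmin2 : ∀ s' ∈ Icc t s₁, F.Phi s₁ x₁ + barr n T C₁ t s₁ ≤
      F.Phi s' x₁ + barr n T C₁ t s') : False := by
  have hT : 0 < T := ht.1.trans_lt ht.2
  have h0T : (0 : ℝ) ∈ Ico 0 T := ⟨le_rfl, hT⟩
  have hs₁T : s₁ ∈ Ico 0 T := ⟨ht.1.trans hs.1.le, hs.2⟩
  have hd₁ : 0 ≤ 1 - s₁ / T := by
    rw [sub_nonneg, div_le_one hT]
    exact hs.2.le
  obtain ⟨c, hc⟩ := F.atlas.cover x₁
  set z₁ := F.e c x₁ with hz₁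
  have hz₁t : z₁ ∈ (F.e c).target := (F.e c).map_source hc
  have hsz₁ : (F.e c).symm z₁ = x₁ := (F.e c).left_inv hc
  set S₀ : Set (Cn n) := {x | x ∈ (F.e c).target ∧ (F.e c).symm x ∈ F.V j} with hS₀
  have hS₀o : IsOpen S₀ := isOpen_chart F c j
  have hhc : NF.HolC (fun x => h ((F.e c).symm x)) S₀ := hh c
  set S₁ : Set (Cn n) := S₀ ∩ (fun x => h ((F.e c).symm x)) ⁻¹' {0}ᶜ with hS₁
  have hS₁o : IsOpen S₁ := hhc.1.continuousOn.isOpen_inter_preimage hS₀o isOpen_compl_singleton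
  have hz₁S : z₁ ∈ S₁ := by
    refine ⟨⟨hz₁t, by rw [hsz₁]; exact hx⟩, ?_⟩
    show h ((F.e c).symm z₁) ≠ 0
    rw [hsz₁]
    exact hne
  have hn : S₁ ∈ 𝓝 z₁ := hS₁o.mem_nhds hz₁S
  -- the functions
  set y : Cn n → Cn N := fun z => F.y j ((F.e c).symm z) with hydef
  have hyS : ContDiffOn ℝ ∞ y S₁ := (holOn_y F c j).1.mono fun z hz => ⟨hz.1.1, hz.1.2.1⟩
  have hKs : ContDiffOn ℝ ∞ (fun z => F.K j (y z)) S₁ :=
    (F.pull.smooth j).comp hyS fun z hz =>
      show nsq (y z) < 100 from lt_trans hz.1.2.2 (by norm_num)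
  have hns : ContDiffOn ℝ ∞ (fun z => nsq (y z)) S₁ := Gap.contDiff_nsq'.comp_contDiffOn hyS
  have hls : ContDiffOn ℝ ∞ (fun z => Real.log (Complex.normSq (h ((F.e c).symm z)))) S₁ := by
    have h2 : ContDiffOn ℝ ∞ (fun z => Complex.normSq (h ((F.e c).symm z))) S₁ := by
      have h3 : (fun z => Complex.normSq (h ((F.e c).symm z))) = fun z =>
          (h ((F.e c).symm z)).re * (h ((F.e c).symm z)).re +
            (h ((F.e c).symm z)).im * (h ((F.e c).symm z)).im := by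
        funext z
        rw [Complex.normSq_apply]
      have h4 := hhc.1.mono (inter_subset_left : S₁ ⊆ S₀)
      have h5 : ContDiffOn ℝ ∞ (fun z => (h ((F.e c).symm z)).re) S₁ :=
        Complex.reCLM.contDiff.comp_contDiffOn h4
      have h6 : ContDiffOn ℝ ∞ (fun z => (h ((F.e c).symm z)).im) S₁ :=
        Complex.imCLM.contDiff.comp_contDiffOn h4
      rw [h3]
      exact (h5.mul h5).add (h6.mul h6)
    exact h2.log fun z hz => (Complex.normSq_pos.2 hz.2).ne'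
  obtain ⟨Uφ, hUφ, hUφs, hφ⟩ := F.phi_isFun.smooth c
  have hφs : ContDiffOn ℝ ∞ (fun z => F.phi c (s₁, z)) S₁ :=
    hφ.comp (contDiff_const.prodMk contDiff_id).contDiffOn fun z hz => hUφs ⟨hs₁T, hz.1.1⟩
  set W : Cn n → ℝ := fun z => F.phi c (s₁, z) -
    τ * (1 / p) * Real.log (Complex.normSq (h ((F.e c).symm z))) + τ * F.K j (y z) +
      b * nsq (y z) with hW
  have hWs : ContDiffOn ℝ ∞ W S₁ :=
    ((hφs.sub (contDiffOn_const.mul hls)).add (contDiffOn_const.mul hKs)).add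
      (contDiffOn_const.mul hns)
  have hPhi : ∀ s ∈ Ico 0 T, ∀ z ∈ S₁, F.Phi s ((F.e c).symm z) = F.phi c (s, z) :=
    fun s hs z hz => by
      rw [F.Phi_eq hs ((F.e c).map_target hz.1.1), (F.e c).right_inv hz.1.1]
  have hWeq : ∀ z ∈ S₁, W z = F.Phi s₁ ((F.e c).symm z) -
      (τ * F.val p j h ((F.e c).symm z) - b * nsq (F.y j ((F.e c).symm z))) := fun z hz => by
    rw [hPhi s₁ hs₁T z hz]
    simp only [hW, Semi.val, Complex.normSq_eq_norm_sq]
    ring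
  have hminz : ∀ᶠ z in 𝓝 z₁, W z₁ ≤ W z := by
    have hcs : Tendsto (F.e c).symm (𝓝 z₁) (𝓝 x₁) := by
      have := (F.e c).continuousAt_symm hz₁t
      rw [ContinuousAt, hsz₁] at this
      exact this
    filter_upwards [hcs.eventually hmin, hn] with z hz hzS
    rw [hWeq z hzS, hWeq z₁ hz₁S, hsz₁]
    exact hz
  -- the Levi form
  have hlev : ∀ u, 1 / 2 * (1 - s₁ / T) * lev (F.ψ c) u (0, z₁) ≤ lev (F.ψ c) u (s₁, z₁) := by
    intro u
    have h2 := levz_nonneg_of_min hS₁o hWs hz₁S hminz u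
    have a1 : ContDiffAt ℝ 2 (fun z => F.phi c (s₁, z)) z₁ :=
      (hφs.contDiffAt hn).of_le two_le_infty
    have a2 : ContDiffAt ℝ 2 (fun z => Real.log (Complex.normSq (h ((F.e c).symm z)))) z₁ :=
      (hls.contDiffAt hn).of_le two_le_infty
    have a3 : ContDiffAt ℝ 2 (fun z => F.K j (y z)) z₁ := (hKs.contDiffAt hn).of_le two_le_infty
    have a4 : ContDiffAt ℝ 2 (fun z => nsq (y z)) z₁ := (hns.contDiffAt hn).of_le two_le_infty
    have a2' : ContDiffAt ℝ 2 (fun z => τ * (1 / p) *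
      Real.log (Complex.normSq (h ((F.e c).symm z)))) z₁ := contDiffAt_const.mul a2
    have a3' : ContDiffAt ℝ 2 (fun z => τ * F.K j (y z)) z₁ := contDiffAt_const.mul a3
    have a4' : ContDiffAt ℝ 2 (fun z => b * nsq (y z)) z₁ := contDiffAt_const.mul a4
    have e0 : levz (fun z => F.phi c (s₁, z)) u z₁ = lev (F.phi c) u (s₁, z₁) :=
      levz_slice hUφ hφ (hUφs ⟨hs₁T, hz₁t⟩) u
    have e00 : levz (fun z => Real.log (Complex.normSq (h ((F.e c).symm z)))) u z₁ = 0 :=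
      NF.levz_log_normSq hS₀o hhc hz₁S.1 hz₁S.2 u
    rw [hW, Bd.levz_add ((a1.sub a2').add a3') a4', Bd.levz_add (a1.sub a2') a3',
      Bd.levz_sub a1 a2', Bd.levz_const_mul _ a2, Bd.levz_const_mul _ a3, Bd.levz_const_mul _ a4,
      e0, e00, F.lev_phi hs₁T hz₁t] at h2
    have e1 : levz (fun z => F.K j (y z)) u z₁ = levz (F.Θ c) u z₁ :=
      F.levz_K hz₁t hz₁S.1.2.1 u
    have e2 : levz (fun z => nsq (y z)) u z₁ ≤ Cq * levz (F.Θ c) u z₁ :=
      hCq c j z₁ hz₁t hz₁S.1.2 u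
    have e3 : 0 ≤ levz (F.Θ c) u z₁ := F.psh c z₁ hz₁t u
    have e5 : 0 ≤ lev (F.ψ c) u (0, z₁) := Fb.lev_nonneg F.toFlow h0T hz₁t u
    have e6 : b * levz (fun z => nsq (y z)) u z₁ ≤ b * (Cq * levz (F.Θ c) u z₁) :=
      mul_le_mul_of_nonneg_left e2 hb
    have e7 : t / T ≤ s₁ / T := div_le_div_of_nonneg_right hs.1.le hT.le
    have e8 : (τ + Cq * b) * levz (F.Θ c) u z₁ ≤ s₁ / T * levz (F.Θ c) u z₁ :=
      mul_le_mul_of_nonneg_right (by linarith) e3
    have e9 : 0 ≤ (1 - s₁ / T) * lev (F.ψ c) u (0, z₁) := mul_nonneg hd₁ e5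
    rw [e1] at h2
    linarith
  have h11 := h1 c s₁ hs₁T z₁ hz₁t hlev
  have hspos : s₁ ∈ Ioo 0 T := ⟨ht.1.trans_lt hs.1, hs.2⟩
  have h12 : HasDerivAt (fun r => F.phi c (r, z₁)) (F.dphi c (s₁, z₁)) s₁ := by
    rw [← F.dt_phi hspos hz₁t]
    exact Bd.hasDerivAt_time ((F.phi_isFun.contDiffAt hs₁T hz₁t).differentiableAt (by simp))
  have h13 := nonpos_of_left_min (h12.add (hasDerivAt_barr n (C := C₁) (t₀ := t) hT hs.2))
    hs.1 (by
      intro r hr
      have h14 := hmin2 r hr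
      have hrT : r ∈ Ico 0 T := ⟨ht.1.trans hr.1, hr.2.trans_lt hs.2⟩
      have e1 := hPhi r hrT z₁ hz₁S
      have e2 := hPhi s₁ hs₁T z₁ hz₁S
      rw [hsz₁] at e1 e2
      rw [e1, e2] at h14
      simp only [Pi.add_apply]
      linarith)
  linarith

end

end DomB

section

open DomB

variable {n N : ℕ} {M Z : Type} [MetricSpace M] [CompactSpace M] [MetricSpace Z] {κ P : Type}
  [Finite κ] [Finite P] {T : ℝ} (F : Semi n N M Z κ P T)

/-- the minimum principle -/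
theorem Semi.domB : ∃ C, 0 < C ∧ ∀ t ∈ Ico 0 T, ∀ τ b p 𝓕 B, 0 < p → 0 < τ →
    τ ≤ t / T - C * b → C * ((T - t) * (1 + |Real.log (T - t)|)) ≤ b → F.IsFam τ b p 𝓕 →
    F.Below τ b p 𝓕 t B → ∀ s ∈ Ico t T,
    F.Below τ b p 𝓕 s (B + C * ((T - t) * (1 + |Real.log (T - t)|))) := by
  by_cases hT : 0 < T
  swap
  · exact ⟨1, one_pos, fun t ht => absurd (lt_of_le_of_lt ht.1 ht.2) hT⟩
  obtain ⟨C₁, hC₁, h1⟩ := Flow.dphi_ge_half F.toFlow
  obtain ⟨Cq, hCq0, hCq⟩ := F.levz_nsq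
  obtain ⟨Cm, hCm0, hCm⟩ := F.toFlow.Phi_mono
  obtain ⟨S, hS0, hS⟩ := F.toFlow.Phi_bound
  set Cb : ℝ := C₁ + 1 + n * (1 + |Real.log T|) with hCb
  have hCb0 : 0 < Cb := by positivity
  refine ⟨Cq + Cm + Cb, by positivity, ?_⟩
  intro t ht τ b p 𝓕 B hp hτ0 hτ hb hfam hbel s hs j₀ h₀ x₀ hj₀ hfx₀ hyx₀ hne₀
  set Dd : ℝ := (T - t) * (1 + |Real.log (T - t)|) with hDd
  have hd0 : 0 < T - t := by linarith [ht.2]
  have hL0 : 0 ≤ |Real.log (T - t)| := abs_nonneg _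
  have hDd0 : 0 < Dd := by positivity
  have hdD : T - t ≤ Dd := by
    rw [hDd]
    nlinarith
  have hb0 : 0 < b := lt_of_lt_of_le (by positivity) hb
  have hsT : s ∈ Ico 0 T := ⟨ht.1.trans hs.1, hs.2⟩
  by_contra hcon
  push Not at hcon
  -- the supremum at the time `s`
  set Q : Set ℝ := {r | ∃ j h x, (j, h) ∈ 𝓕 ∧ F.f x ∈ F.S j ∧ nsq (F.y j x) ≤ 9 ∧ h x ≠ 0 ∧
    r = τ * F.val p j h x - b * nsq (F.y j x) - F.Phi s x} with hQ
  have hQb : BddAbove Q := by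
    refine ⟨B + 2 * S, ?_⟩
    rintro _ ⟨j, h, x, hj, hfx, hyx, hne, rfl⟩
    have e1 := hbel j h x hj hfx hyx hne
    have e2 := (abs_le.1 (hS t ht x)).2
    have e3 := (abs_le.1 (hS s hsT x)).1
    linarith
  have hQ0 : (τ * F.val p j₀ h₀ x₀ - b * nsq (F.y j₀ x₀) - F.Phi s x₀) ∈ Q :=
    ⟨j₀, h₀, x₀, hj₀, hfx₀, hyx₀, hne₀, rfl⟩
  set E : ℝ := sSup Q with hE
  have hEge : B + (Cq + Cm + Cb) * Dd < E := by
    have := le_csSup hQb hQ0
    linarith
  have hCqD : 0 ≤ Cq * Dd := by positivity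
  have hCmD : 0 ≤ Cm * Dd := by positivity
  have hgap : 0 < E - (B + Cb * Dd) := by nlinarith
  set η : ℝ := min (b / 2) ((E - (B + Cb * Dd)) / 2) with hη
  have hη0 : 0 < η := lt_min (by linarith) (by linarith)
  have hη1 : η ≤ b / 2 := min_le_left _ _
  have hη2 : η ≤ (E - (B + Cb * Dd)) / 2 := min_le_right _ _
  obtain ⟨_, ⟨j, h, x, hj, hfx, hyx, hne, rfl⟩, hr⟩ := exists_lt_of_lt_csSup ⟨_, hQ0⟩
    (show E - η < sSup Q by linarith)
  have hhol : F.Hol j h := hfam.1 j h hj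
  have hbarr : ∀ s' ∈ Icc t s, 0 ≤ barr n T C₁ t s' ∧ barr n T C₁ t s' ≤ Cb * Dd :=
    fun s' hs' => ⟨barr_nonneg n hT hC₁ ht.1 hs'.1 (hs'.2.trans_lt hs.2),
      barr_le_log n hT hC₁ ht.1 hs'.1 (hs'.2.trans_lt hs.2)⟩
  -- the function
  set g : ℝ × M → ℝ := fun q => τ * F.val p j h q.2 - b * nsq (F.y j q.2) - F.Phi q.1 q.2 -
    barr n T C₁ t q.1 with hg
  set G : ℝ × M → ℝ := fun q => ‖h q.2‖ ^ 2 * Real.exp (p / τ * (-(τ * F.K j (F.y j q.2)) -
    b * nsq (F.y j q.2) - F.Phi q.1 q.2 - barr n T C₁ t q.1)) with hG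
  have hGg : ∀ q : ℝ × M, h q.2 ≠ 0 → G q = Real.exp (p / τ * g q) := by
    intro q hq
    have h2 : 0 < ‖h q.2‖ ^ 2 := by positivity
    simp only [hG, hg, Semi.val]
    conv_lhs => rw [← Real.exp_log h2]
    rw [← Real.exp_add]
    congr 1
    field_simp
    ring
  have hsub : ∀ s' ∈ Icc t s, s' ∈ Ico 0 T := fun s' hs' =>
    ⟨ht.1.trans hs'.1, hs'.2.trans_lt hs.2⟩
  have hGc : ContinuousOn G (Icc t s ×ˢ core F j) := by
    have hV : MapsTo (fun q : ℝ × M => q.2) (Icc t s ×ˢ core F j) (F.V j) := fun q hq =>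
      core_subset_V F j hq.2
    have e0 : ContinuousOn (fun q : ℝ × M => h q.2) (Icc t s ×ˢ core F j) :=
      (continuousOn_hol F hhol).comp continuousOn_snd hV
    have e1 : ContinuousOn (fun q : ℝ × M => F.Phi q.1 q.2) (Icc t s ×ˢ core F j) :=
      F.toFlow.Phi_continuousOn.mono fun q hq => ⟨hsub _ hq.1, mem_univ _⟩
    have e2 : ContinuousOn (fun q : ℝ × M => F.y j q.2) (Icc t s ×ˢ core F j) :=
      (continuousOn_y F j).comp continuousOn_snd fun q hq => hq.2.1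
    have e3 : ContinuousOn (fun q : ℝ × M => F.K j (F.y j q.2)) (Icc t s ×ˢ core F j) :=
      (F.pull.smooth j).continuousOn.comp e2 fun q hq =>
        show nsq (F.y j q.2) < 100 from lt_of_le_of_lt hq.2.2 (by norm_num)
    have e4 : ContinuousOn (fun q : ℝ × M => nsq (F.y j q.2)) (Icc t s ×ˢ core F j) :=
      Gap.contDiff_nsq'.continuous.comp_continuousOn e2
    have e5 : ContinuousOn (fun q : ℝ × M => barr n T C₁ t q.1) (Icc t s ×ˢ core F j) := by
      have e6 : ContinuousOn (barr n T C₁ t) (Icc t s) := fun s' hs' =>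
        (hasDerivAt_barr n hT (hsub s' hs').2).continuousAt.continuousWithinAt
      exact e6.comp continuousOn_fst fun q hq => hq.1
    exact (e0.norm.pow 2).mul (Real.continuous_exp.comp_continuousOn (continuousOn_const.mul
      ((((continuousOn_const.mul e3).neg.sub (continuousOn_const.mul e4)).sub e1).sub e5)))
  obtain ⟨⟨s₁, x₁⟩, ⟨hs₁, hx₁⟩, hmax⟩ := (isCompact_Icc.prod (isCompact_core F j)).exists_isMaxOn
    ⟨(s, x), ⟨hs.1, le_rfl⟩, hfx, hyx⟩ hGc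
  have hs₁' : s₁ ∈ Icc t s := hs₁
  have hx₁' : x₁ ∈ core F j := hx₁
  have hmax' : ∀ s' ∈ Icc t s, ∀ x' ∈ core F j, G (s', x') ≤ G (s₁, x₁) := fun s' h2 x' h3 =>
    hmax (show (s', x') ∈ Icc t s ×ˢ core F j from ⟨h2, h3⟩)
  have hsx : G (s, x) ≤ G (s₁, x₁) := hmax' s ⟨hs.1, le_rfl⟩ x ⟨hfx, hyx⟩
  have hne₁ : h x₁ ≠ 0 := by
    intro h0
    have h2 : G (s₁, x₁) = 0 := by simp [hG, h0]
    rw [h2, hGg (s, x) hne] at hsx
    exact absurd (Real.exp_pos _) (not_lt.2 hsx)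
  have hpτ : 0 < p / τ := by positivity
  have hgmax : ∀ s' ∈ Icc t s, ∀ x' ∈ core F j, h x' ≠ 0 → g (s', x') ≤ g (s₁, x₁) := by
    intro s' h2 x' h3 h4
    have h5 := hmax' s' h2 x' h3
    rw [hGg _ h4, hGg _ hne₁, Real.exp_le_exp] at h5
    exact le_of_mul_le_mul_left h5 hpτ
  have hgs : E - η - Cb * Dd < g (s₁, x₁) := by
    have h2 := hgmax s ⟨hs.1, le_rfl⟩ x ⟨hfx, hyx⟩ hne
    have h3 := (hbarr s ⟨hs.1, le_rfl⟩).2
    have h4 : g (s, x) = τ * F.val p j h x - b * nsq (F.y j x) - F.Phi s x -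
      barr n T C₁ t s := rfl
    linarith
  have hgval : g (s₁, x₁) = τ * F.val p j h x₁ - b * nsq (F.y j x₁) - F.Phi s₁ x₁ -
      barr n T C₁ t s₁ := rfl
  have hbs₁ := hbarr s₁ hs₁'
  -- the time is not `t`
  have hts : t < s₁ := by
    refine lt_of_le_of_ne hs₁'.1 fun he => ?_
    have h2 := hbel j h x₁ hj hx₁'.1 hx₁'.2 hne₁
    rw [← he] at hgval hgs hbs₁
    linarith
  -- the point is over the interior
  have hy4 : nsq (F.y j x₁) < 4 := by
    by_contra h4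
    push Not at h4
    obtain ⟨i, h', hi, hfi, hyi, hne', hle⟩ := hfam.2 j h x₁ hj hx₁'.1 h4 hx₁'.2 hne₁
    have h2 : τ * F.val p i h' x₁ - b * nsq (F.y i x₁) - F.Phi s x₁ ≤ E :=
      le_csSup hQb ⟨i, h', x₁, hi, hfi, hyi.trans (by norm_num), hne', rfl⟩
    have h3 := hCm s₁ (hsub s₁ hs₁') s ⟨hs₁'.2, hs.2⟩ x₁
    have h5 : Cm * (s - s₁) ≤ Cm * Dd := by
      refine mul_le_mul_of_nonneg_left ?_ hCm0
      linarith [hs.2]
    have h6 : (Cq + Cm + Cb) * Dd = Cq * Dd + Cm * Dd + Cb * Dd := by ring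
    linarith
  -- the contradiction
  refine local_min F h1 hCq ht ⟨hts, hs₁'.2.trans_lt hs.2⟩ hb0.le ?_ hhol
    (core_subset_V F j hx₁') hne₁ (p := p) (τ := τ) (b := b) ?_ ?_
  · have : (Cq + Cm + Cb) * b = Cq * b + (Cm + Cb) * b := by ring
    have h2 : 0 ≤ (Cm + Cb) * b := by positivity
    linarith
  · have ho : IsOpen (F.V j ∩ h ⁻¹' {0}ᶜ) :=
      (continuousOn_hol F hhol).isOpen_inter_preimage (isOpen_V F j) isOpen_compl_singleton
    have hn4 : ∀ᶠ x' in 𝓝 x₁, nsq (F.y j x') < 4 := by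
      have h2 : ContinuousAt (fun p => nsq (F.y j p)) x₁ :=
        Gap.contDiff_nsq'.continuous.continuousAt.comp ((continuousOn_y F j).continuousAt
          (((F.emb.isOpen j).preimage F.emb.cont).mem_nhds hx₁'.1))
      exact h2.eventually_lt_const hy4
    filter_upwards [ho.mem_nhds ⟨core_subset_V F j hx₁', hne₁⟩, hn4] with x' h2 h3
    have h4 := hgmax s₁ hs₁' x' ⟨h2.1.1, h3.le.trans (by norm_num)⟩ h2.2
    have h5 : g (s₁, x') = τ * F.val p j h x' - b * nsq (F.y j x') - F.Phi s₁ x' -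
      barr n T C₁ t s₁ := rfl
    linarith
  · intro s' hs'
    have h4 := hgmax s' ⟨hs'.1, hs'.2.trans hs₁'.2⟩ x₁ hx₁' hne₁
    have h5 : g (s', x₁) = τ * F.val p j h x₁ - b * nsq (F.y j x₁) - F.Phi s' x₁ -
      barr n T C₁ t s' := rfl
    linarith

end

end Pool.Agent.KRFZ

end

section

/-!
# The domination: `(1/p) log |h|^2 - K_j ∘ F_j` is at most `φ(s)` up to `C (1 + |log (T - t)|) / p`
(KRF VI, step 5)
-/

open scoped ContDiff ENNReal ComplexOrder Topology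
open Set MeasureTheory Filter Pool.Agent.ToricKRF Pool.Agent.ToricKRF.G Pool.Agent.KRFS
  Pool.Agent.KRFF Pool.Agent.KRFG Pool.Agent.KRFE

namespace Pool.Agent.KRFZ

section

variable {n N : ℕ} {M Z : Type} [MetricSpace M] [CompactSpace M] [MeasurableSpace M] [BorelSpace M]
  [MetricSpace Z] {κ P : Type} [Finite κ] [Finite P] {T : ℝ} (F : Semi n N M Z κ P T)
  {μ : Measure M} (hμ : HasDens F.e F.Ω μ)

include hμ in
theorem Semi.dom : ∃ C c₀ d₀, 0 ≤ C ∧ 0 < c₀ ∧ 0 < d₀ ∧ ∀ t ∈ Ico 0 T, T - t ≤ d₀ → ∀ p,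
    C * (1 + |Real.log (T - t)|) ≤ p → p * (T - t) ≤ c₀ → ∀ j h x, F.Adm μ t p j h →
    F.f x ∈ F.S j → nsq (F.y j x) ≤ 9 → h x ≠ 0 → ∀ s ∈ Ico t T,
    F.val p j h x ≤ F.Phi s x + C * (1 + |Real.log (T - t)|) / p :=
  F.dom_of (F.transfer hμ) (F.adm_bound hμ) (F.domA hμ) F.domB

end

end Pool.Agent.KRFZ

end
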