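import Pool.Agent.Work.MP_a2bf38_gt.Fu.Hk.Top
import Pool.Agent.Work.MP_a2bf38_gt.Fu.X.RegHad
import Pool.Agent.Work.MP_a2bf38_gt.Fu.Z.Const
import Pool.Agent.Work.MP_a2bf38_gt.Fu.I.GapA

section

/-!
# The Harnack inequality on the fibres, from the logarithm of `G`
-/

open scoped ContDiff ENNReal ComplexOrder Topology
open Set MeasureTheory Filter Pool.Agent.ToricKRF Pool.Agent.ToricKRF.G Pool.Agent.KRFS
  Pool.Agent.KRFF Pool.Agent.KRFG Pool.Agent.KRFE

namespace Pool.Agent.KRFZ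

variable {n N : ℕ} {M Z : Type} [MetricSpace M] [CompactSpace M] [MetricSpace Z] {κ P : Type}
  [Finite κ] [Finite P] {T : ℝ} (F : Semi n N M Z κ P T)

/-- the fibres are compact -/
theorem Semi.isCompact_fibre (z : Z) : IsCompact (F.f ⁻¹' {z}) :=
  (isClosed_singleton.preimage F.emb.cont).isCompact

theorem Semi.harnack_of
    (slope : ∀ {t : ℝ}, t ∈ Ico 0 T → ∀ {z : Z} {l : ℝ}, 0 < l → ∀ {c : κ} {p : M},
      p ∈ (F.e c).source → nsq (F.e c p) ≤ 9 → F.f p = z →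
      0 < F.A t z l ∧ F.A t z l ≤ F.G t z c l (F.e c p))
    (log_trick : ∃ C l₀, 0 < C ∧ 1 ≤ l₀ ∧ ∀ t ∈ Ico 0 T, ∀ z l, l₀ ≤ l → ∃ v : M → ℝ,
      ContinuousOn v (F.f ⁻¹' {z}) ∧
      (∀ c p, p ∈ (F.e c).source → nsq (F.e c p) ≤ 9 → F.f p = z →
        |v p + Real.log (F.G t z c l (F.e c p))| ≤ C / l) ∧
      (∀ p p', F.f p = z → F.f p' = z → dist p p' ≤ Real.exp (-l) → |v p - v p'| ≤ C / l) ∧
      ∀ (c : κ) (g : ℂ → Cn n) (s : ℂ) (r₀ : ℝ), 0 < r₀ → HolD g (Metric.ball s r₀) →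
        (∀ s' ∈ Metric.ball s r₀, g s' ∈ (F.e c).target ∧ F.f ((F.e c).symm (g s')) = z) →
        ∀ ε > 0, ∀ᶠ r in 𝓝[>] (0 : ℝ), v ((F.e c).symm (g s)) ≤
          cavg (fun ζ => v ((F.e c).symm (g (s + ζ)))) r +
            (C / l * lev (F.ψ c) (fderiv ℝ g s 1) (0, g s) + ε) * r ^ 2) :
    ∃ C l₀, 0 ≤ C ∧ 1 ≤ l₀ ∧ ∀ t ∈ Ico 0 T, ∀ z l, l₀ ≤ l → ∀ c p,
      p ∈ (F.e c).source → nsq (F.e c p) ≤ 9 → F.f p = z →
      F.G t z c l (F.e c p) ≤ C * F.A t z l := by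
  obtain ⟨C₁, l₀, hC₁, hl₀, hlog⟩ := log_trick
  obtain ⟨D₀, C, α, hC, hα, hcurv⟩ := F.curv
  obtain ⟨C₃, hC₃, hgap⟩ := curve_gap F.e F.ψ hC hα zero_le_one D₀
  set B : ℝ := 2 * D₀ * (C₃ * C₁) with hB
  have hB0 : 0 ≤ B := by positivity
  refine ⟨2 * Real.exp (2 * C₁ + B), l₀, by positivity, hl₀, ?_⟩
  intro t ht z l hl c p hp hx hz
  have hl1 : 1 ≤ l := hl₀.trans hl
  have hl0 : 0 < l := by linarith
  have hC₁l : C₁ / l ≤ C₁ := div_le_self hC₁.le hl1
  obtain ⟨v, hvc, hvG, hvflat, hvdisc⟩ := hlog t ht z l hl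
  -- the oscillation of `v`
  have hosc : ∀ x x', F.f x = z → F.f x' = z → |v x - v x'| ≤ B := by
    intro x x' hx hx'
    obtain ⟨A, hAcard, hAz, hA⟩ := hcurv z l hl1
    set w : M → ℝ := fun p => l / C₁ * v p with hw
    have hwc : ContinuousOn w (F.f ⁻¹' {z}) := continuousOn_const.mul hvc
    have hlC : 0 < l / C₁ := by positivity
    have key : ∀ x ∈ F.f ⁻¹' {z}, ∃ p' ∈ A, |v x - v p'| ≤ C₃ * C₁ := by
      intro x hx
      obtain ⟨D, γ, ρ, s₀, s₁, hD, hs₀, hs₁, h0, ⟨i, hi⟩, hγ⟩ := hA x hx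
      obtain ⟨j, hj⟩ := hgap (F.f ⁻¹' {z}) w l D γ ρ s₀ s₁ (F.isCompact_fibre z) hwc hl1 hD hs₀
        hs₁ (fun p hp p' hp' hpp => by
          have h1 := hvflat p p' hp hp' hpp
          simp only [hw]
          rw [← mul_sub, abs_mul, abs_of_pos hlC]
          calc l / C₁ * |v p - v p'| ≤ l / C₁ * (C₁ / l) := mul_le_mul_of_nonneg_left h1 hlC.le
            _ = 1 := by field_simp)
        (fun c g s r₀ hr₀ hg hgt ε hε => by
          filter_upwards [hvdisc c g s r₀ hr₀ hg hgt (C₁ / l * ε) (by positivity)] with r hr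
          simp only [hw]
          rw [KRFHk.cavg_mul_left]
          have h1 := mul_le_mul_of_nonneg_left hr hlC.le
          refine h1.trans (le_of_eq ?_)
          field_simp)
        hγ i
      refine ⟨γ s₀ j, h0 j, ?_⟩
      rw [hi] at hj
      simp only [hw] at hj
      rw [← mul_sub, abs_mul, abs_of_pos hlC] at hj
      have h1 : |v x - v (γ s₀ j)| = C₁ / l * (l / C₁ * |v x - v (γ s₀ j)|) := by
        field_simp
      rw [h1]
      calc C₁ / l * (l / C₁ * |v x - v (γ s₀ j)|) ≤ C₁ / l * (C₃ * l) :=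
            mul_le_mul_of_nonneg_left hj (by positivity)
        _ = C₃ * C₁ := by field_simp
    have h1 := osc_le (F.conn z) hvc key (p := x) (p' := x') hx hx'
    refine h1.trans ?_
    have h2 : (A.card : ℝ) ≤ D₀ := by exact_mod_cast hAcard
    rw [hB]
    calc 2 * (C₃ * C₁) * (A.card : ℝ) ≤ 2 * (C₃ * C₁) * D₀ :=
          mul_le_mul_of_nonneg_left h2 (by positivity)
      _ = 2 * D₀ * (C₃ * C₁) := by ring
  -- a near-maximum of `U`
  obtain ⟨hA0, hAG⟩ := slope ht hl0 hp hx hz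
  have hne : {r | ∃ c p, p ∈ (F.e c).source ∧ nsq (F.e c p) ≤ 9 ∧ F.f p = z ∧
      r = F.U t c l (F.e c p)}.Nonempty := ⟨_, c, p, hp, hx, hz, rfl⟩
  obtain ⟨r, ⟨c₀, p₀, hp₀, hx₀, hz₀, rfl⟩, hr⟩ := exists_lt_of_lt_csSup hne
    (show F.mm t z l - F.A t z l < F.mm t z l by linarith)
  obtain ⟨-, hAG₀⟩ := slope ht hl0 hp₀ hx₀ hz₀
  have hG₀ : F.G t z c₀ l (F.e c₀ p₀) ≤ 2 * F.A t z l := by
    simp only [Semi.G]
    linarith
  have hG₀pos : 0 < F.G t z c₀ l (F.e c₀ p₀) := hA0.trans_le hAG₀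
  have hGpos : 0 < F.G t z c l (F.e c p) := hA0.trans_le hAG
  have e1 := abs_le.1 (hvG c₀ p₀ hp₀ hx₀ hz₀)
  have e2 := abs_le.1 (hvG c p hp hx hz)
  have e3 := abs_le.1 (hosc p p₀ hz hz₀)
  have e4 := Real.log_le_log hG₀pos hG₀
  have h5 : Real.log (F.G t z c l (F.e c p)) ≤ Real.log (2 * F.A t z l) + (2 * C₁ + B) := by
    linarith [e1.1, e2.2, e3.1]
  have h6 := Real.exp_le_exp.2 h5
  rw [Real.exp_log hGpos, Real.exp_add, Real.exp_log (by positivity)] at h6
  linarith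

end Pool.Agent.KRFZ

end

section

/-!
# The logarithm of the gap (KRF VI, module 2)

`G = A + mm - U ≥ A` on the fibre over `z`; `v = - log G` up to `C / l` is continuous and has small
loss along holomorphic discs in the fibre.
-/

open scoped ContDiff ENNReal ComplexOrder Topology
open Set MeasureTheory Filter Pool.Agent.ToricKRF Pool.Agent.ToricKRF.G Pool.Agent.KRFS
  Pool.Agent.KRFF Pool.Agent.KRFG Pool.Agent.KRFE

namespace Pool.Agent.KRFZ

section

variable {n N : ℕ} {M Z : Type} [MetricSpace M] [CompactSpace M] [MetricSpace Z] {κ P : Type}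
  [Finite κ] [Finite P] {T : ℝ} (F : Semi n N M Z κ P T)

namespace Log

theorem le_mm {t : ℝ} (ht : t ∈ Ico 0 T) {z : Z} {l : ℝ} (hl : 0 ≤ l) {c : κ} {p : M}
    (hp : p ∈ (F.e c).source) (hx : nsq (F.e c p) ≤ 9) (hz : F.f p = z) :
    F.U t c l (F.e c p) ≤ F.mm t z l := by
  obtain ⟨C, hC, h⟩ := F.U_bound
  refine le_csSup ⟨C, ?_⟩ ⟨c, p, hp, hx, hz, rfl⟩
  rintro r ⟨c', p', _, hx', _, rfl⟩
  exact (abs_le.1 (h t ht c' (F.e c' p') l (by linarith) hl)).2

omit [CompactSpace M] [Finite κ] [Finite P] in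
theorem mm_le {t : ℝ} {z : Z} {l C : ℝ} {c : κ} {p : M}
    (hp : p ∈ (F.e c).source) (hx : nsq (F.e c p) ≤ 9) (hz : F.f p = z)
    (h : ∀ c' p', p' ∈ (F.e c').source → nsq (F.e c' p') ≤ 9 → F.f p' = z →
      F.U t c' l (F.e c' p') ≤ C) : F.mm t z l ≤ C := by
  refine csSup_le ⟨_, c, p, hp, hx, hz, rfl⟩ ?_
  rintro r ⟨c', p', hp', hx', hz', rfl⟩
  exact h c' p' hp' hx' hz'

theorem mm_anti {t : ℝ} (ht : t ∈ Ico 0 T) {z : Z} {l l' : ℝ} (hl : 0 ≤ l) (h : l ≤ l') {c : κ}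
    {p : M} (hp : p ∈ (F.e c).source) (hx : nsq (F.e c p) ≤ 9) (hz : F.f p = z) :
    F.mm t z l' ≤ F.mm t z l :=
  mm_le F hp hx hz fun c' p' hp' hx' hz' =>
    (F.U_anti ht (by linarith) hl h).trans (le_mm F ht hl hp' hx' hz')

end Log

theorem Semi.slope {t : ℝ} (ht : t ∈ Ico 0 T) {z : Z} {l : ℝ} (hl : 0 < l) {c : κ} {p : M}
    (hp : p ∈ (F.e c).source) (hx : nsq (F.e c p) ≤ 9) (hz : F.f p = z) :
    0 < F.A t z l ∧ F.A t z l ≤ F.G t z c l (F.e c p) ∧ ∀ a, 0 ≤ a → a ≤ l / 2 →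
      F.U t c (l - a) (F.e c p) ≤ F.U t c l (F.e c p) + 2 * a / l * F.G t z c l (F.e c p) := by
  have h1 := Log.mm_anti F ht (l := l / 2) (l' := l) (by linarith) (by linarith) hp hx hz
  have h2 := Log.le_mm F ht hl.le hp hx hz
  have h3 : 0 ≤ (T - t) * l := mul_nonneg (by linarith [ht.2]) hl.le
  have h4 := Real.exp_pos (-(l / 2))
  refine ⟨by unfold Semi.A; linarith, by unfold Semi.G; linarith, fun a ha hal => ?_⟩
  have h5 : 2 * a / l ≤ 1 := by rw [div_le_one hl]; linarith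
  have h5' : 0 ≤ 2 * a / l := by positivity
  have h6 := F.U_convex ht (c := c) (x := F.e c p) (by linarith) (l₁ := l / 2) (l₂ := l)
    (lam := 1 - 2 * a / l) (by linarith) (by linarith) ⟨by linarith, by linarith⟩
  have h7 : (1 - (1 - 2 * a / l)) * (l / 2) + (1 - 2 * a / l) * l = l - a := by
    field_simp
    ring
  rw [h7] at h6
  have h8 := Log.le_mm F ht (l := l / 2) (by linarith) hp hx hz
  have h9 : F.mm t z (l / 2) - F.U t c l (F.e c p) ≤ F.G t z c l (F.e c p) := by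
    unfold Semi.G Semi.A
    linarith
  have h10 : F.U t c (l / 2) (F.e c p) - F.U t c l (F.e c p) ≤ F.G t z c l (F.e c p) := by linarith
  have h11 := mul_le_mul_of_nonneg_left h10 h5'
  linarith

theorem Semi.G_le_G : ∃ C l₀, 0 ≤ C ∧ 1 ≤ l₀ ∧ ∀ t ∈ Ico 0 T, ∀ z l, l₀ ≤ l → ∀ c c' p p',
    p ∈ (F.e c).source → p' ∈ (F.e c').source → nsq (F.e c p) ≤ 9 → nsq (F.e c' p') ≤ 9 →
    F.f p = z → F.f p' = z → dist p p' ≤ Real.exp (-l) →
    F.G t z c' l (F.e c' p') ≤ (1 + C / l) * F.G t z c l (F.e c p) := by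
  obtain ⟨C, a, hC, ha, h⟩ := F.U_le_U
  refine ⟨4 * a + 2 * C + 8 * a * C, 4 * a + 1, by positivity, by linarith, ?_⟩
  intro t ht z l hl c c' p p' hp hp' hx hx' hz hz' hd
  have hl0 : 0 < l := by linarith
  obtain ⟨hA, hAG, -⟩ := F.slope ht hl0 hp hx hz
  obtain ⟨-, hAG', hs'⟩ := F.slope ht hl0 hp' hx' hz'
  have h1 := h t ht c c' p p' l hp hp' (by linarith) (by linarith) (by linarith) hd
  have h2 := hs' a ha (by linarith)
  have hexp : Real.exp (-l) ≤ 2 / l * F.A t z l := by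
    have e1 : Real.exp (-(l / 2)) ≤ F.A t z l := by
      have := Log.mm_anti F ht (l := l / 2) (l' := l) (by linarith) (by linarith) hp hx hz
      have h3 : 0 ≤ (T - t) * l := mul_nonneg (by linarith [ht.2]) hl0.le
      unfold Semi.A
      linarith
    have e2 : Real.exp (-(l / 2)) ≤ 2 / l := by
      rw [Real.exp_neg, inv_le_comm₀ (Real.exp_pos _) (by positivity), inv_div]
      linarith [Real.add_one_le_exp (l / 2)]
    have e3 : Real.exp (-l) = Real.exp (-(l / 2)) * Real.exp (-(l / 2)) := by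
      rw [← Real.exp_add]
      congr 1
      ring
    rw [e3]
    exact mul_le_mul e2 e1 (Real.exp_pos _).le (by positivity)
  set g := F.G t z c l (F.e c p) with hg
  set g' := F.G t z c' l (F.e c' p') with hg'
  have hg0 : 0 < g := by linarith
  have hg0' : 0 < g' := by linarith
  have h3 : g' ≤ g + 2 * a / l * g' + C * (2 / l * g) := by
    have e4 : g' = g + (F.U t c l (F.e c p) - F.U t c' l (F.e c' p')) := by
      rw [hg, hg']
      unfold Semi.G
      ring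
    have e5 : C * Real.exp (-l) ≤ C * (2 / l * g) := by
      refine mul_le_mul_of_nonneg_left (hexp.trans ?_) hC
      exact mul_le_mul_of_nonneg_left hAG (by positivity)
    linarith
  have h4 : (l - 2 * a) * g' ≤ (l + 2 * C) * g := by
    have := mul_le_mul_of_nonneg_left h3 hl0.le
    have e6 : l * (g + 2 * a / l * g' + C * (2 / l * g)) = l * g + 2 * a * g' + 2 * C * g := by
      field_simp
    rw [e6] at this
    linarith
  have h5 : (l - 2 * a) * g' ≤ (l - 2 * a) * ((1 + (4 * a + 2 * C + 8 * a * C) / l) * g) := by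
    refine h4.trans ?_
    rw [← mul_assoc]
    refine mul_le_mul_of_nonneg_right ?_ hg0.le
    have e7 : (l - 2 * a) * (1 + (4 * a + 2 * C + 8 * a * C) / l) - (l + 2 * C) =
        (2 * a * (l - 4 * a) + 4 * a * C * (2 * l - 1 - 4 * a)) / l := by
      field_simp
      ring
    have e8 : 0 ≤ (2 * a * (l - 4 * a) + 4 * a * C * (2 * l - 1 - 4 * a)) / l := by
      refine div_nonneg (add_nonneg (mul_nonneg (by positivity) (by linarith))
        (mul_nonneg (by positivity) (by linarith))) hl0.le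
    linarith
  exact le_of_mul_le_mul_left h5 (by linarith)

/-! ### the function `v` -/

namespace Log

omit [CompactSpace M] [Finite κ] [Finite P] in
theorem isClosed_core (c : κ) : IsClosed {p : M | p ∈ (F.e c).source ∧ nsq (F.e c p) ≤ 4} := by
  have h1 : {x : Cn n | nsq x ≤ 4} ⊆ (F.e c).target := fun x hx => F.target c (by
    have : nsq x ≤ 4 := hx
    show nsq x < 100
    linarith)
  have h2 : IsCompact {x : Cn n | nsq x ≤ 4} := by
    have := (SupReg.isCompact_ball (m := n)).image (f := fun w : Cn n => (2 : ℝ) • w) (by fun_prop)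
    refine this.of_isClosed_subset (isClosed_le SupReg.continuous_nsq continuous_const) ?_
    intro x hx
    have hx' : nsq x ≤ 4 := hx
    refine ⟨(1 / 2 : ℝ) • x, ?_, by simp [smul_smul]⟩
    show nsq ((1 / 2 : ℝ) • x) ≤ 1
    rw [SupReg.nsq_smul]
    linarith
  have h3 := h2.image_of_continuousOn ((F.e c).continuousOn_symm.mono h1)
  convert h3.isClosed using 1
  ext p
  constructor
  · rintro ⟨hp, hx⟩
    exact ⟨F.e c p, hx, (F.e c).left_inv hp⟩
  · rintro ⟨x, hx, rfl⟩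
    refine ⟨(F.e c).map_target (h1 hx), ?_⟩
    rw [(F.e c).right_inv (h1 hx)]
    exact hx

/-- the charts around `p` -/
def Sc (p : M) : Set κ := {c | p ∈ (F.e c).source ∧ nsq (F.e c p) < 9}

/-- `- log G - (B / l) |x|^2` -/
noncomputable def wl (t : ℝ) (z : Z) (l B : ℝ) (c : κ) (p : M) : ℝ :=
  -Real.log (F.G t z c l (F.e c p)) - B / l * nsq (F.e c p)

/-- the maximum over the charts around `p` -/
noncomputable def vl (t : ℝ) (z : Z) (l B : ℝ) (p : M) : ℝ :=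
  sSup ((fun c => wl F t z l B c p) '' Sc F p)

variable {F}

omit [CompactSpace M] [Finite P] in
theorem le_vl {t : ℝ} {z : Z} {l B : ℝ} {c : κ} {p : M} (hc : c ∈ Sc F p) :
    wl F t z l B c p ≤ vl F t z l B p :=
  le_csSup ((Set.toFinite _).bddAbove) ⟨c, hc, rfl⟩

omit [CompactSpace M] [Finite P] in
theorem exists_vl (F : Semi n N M Z κ P T) (t : ℝ) (z : Z) (l B : ℝ) (p : M) :
    ∃ c ∈ Sc F p, vl F t z l B p = wl F t z l B c p := by
  obtain ⟨c₀, h1, h2⟩ := F.cover p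
  have hne : ((fun c => wl F t z l B c p) '' Sc F p).Nonempty :=
    ⟨_, c₀, ⟨h1, by linarith⟩, rfl⟩
  obtain ⟨c, hc, h⟩ := hne.csSup_mem (Set.toFinite _)
  exact ⟨c, hc, h.symm⟩

/-- the comparison of the charts, from `G_le_G` -/
structure Cmp (F : Semi n N M Z κ P T) (t : ℝ) (z : Z) (l C : ℝ) : Prop where
  ht : t ∈ Ico 0 T
  hl : 1 ≤ l
  hC : 0 ≤ C
  le : ∀ c c' p p', p ∈ (F.e c).source → p' ∈ (F.e c').source → nsq (F.e c p) ≤ 9 →
    nsq (F.e c' p') ≤ 9 → F.f p = z → F.f p' = z → dist p p' ≤ Real.exp (-l) →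
    F.G t z c' l (F.e c' p') ≤ (1 + C / l) * F.G t z c l (F.e c p)

variable {t : ℝ} {z : Z} {l C : ℝ}

theorem Cmp.pos (h : Cmp F t z l C) {c : κ} {p : M} (hp : p ∈ (F.e c).source)
    (hx : nsq (F.e c p) ≤ 9) (hz : F.f p = z) : 0 < F.G t z c l (F.e c p) := by
  have hl0 : 0 < l := by linarith [h.hl]
  obtain ⟨h1, h2, -⟩ := F.slope h.ht hl0 hp hx hz
  linarith

theorem Cmp.log_le (h : Cmp F t z l C) {c c' : κ} {p p' : M} (hp : p ∈ (F.e c).source)
    (hp' : p' ∈ (F.e c').source) (hx : nsq (F.e c p) ≤ 9) (hx' : nsq (F.e c' p') ≤ 9)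
    (hz : F.f p = z) (hz' : F.f p' = z) (hd : dist p p' ≤ Real.exp (-l)) :
    Real.log (F.G t z c' l (F.e c' p')) ≤ Real.log (F.G t z c l (F.e c p)) + C / l := by
  have hl0 : 0 < l := by linarith [h.hl]
  have h1 := h.le c c' p p' hp hp' hx hx' hz hz' hd
  have h2 := h.pos hp hx hz
  have h3 := h.pos hp' hx' hz'
  have hCl : 0 ≤ C / l := div_nonneg h.hC hl0.le
  have h4 := Real.log_le_log h3 h1
  rw [Real.log_mul (by linarith) h2.ne'] at h4
  have h5 := Real.log_le_sub_one_of_pos (x := 1 + C / l) (by linarith)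
  linarith

/-- the maximum is attained in the middle of a chart -/
theorem Cmp.lt_four (h : Cmp F t z l C) {B : ℝ} (hB : C < 3 * B) {c : κ} {p : M}
    (hc : c ∈ Sc F p) (hz : F.f p = z) (hv : vl F t z l B p = wl F t z l B c p) :
    nsq (F.e c p) < 4 := by
  by_contra hcon
  rw [not_lt] at hcon
  have hl0 : 0 < l := by linarith [h.hl]
  obtain ⟨c₀, h1, h2⟩ := F.cover p
  have h3 := le_vl (F := F) (t := t) (z := z) (l := l) (B := B) (c := c₀) (p := p)
    ⟨h1, by linarith⟩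
  have h4 := h.log_le hc.1 h1 hc.2.le (by linarith) hz hz (by
    rw [dist_self]
    exact (Real.exp_pos _).le)
  rw [hv] at h3
  unfold wl at h3
  have hB0 : 0 < B := by linarith [h.hC]
  have h5 : B / l * 4 ≤ B / l * nsq (F.e c p) :=
    mul_le_mul_of_nonneg_left hcon (div_nonneg hB0.le hl0.le)
  have h6 : B / l * nsq (F.e c₀ p) ≤ B / l * 1 :=
    mul_le_mul_of_nonneg_left h2 (div_nonneg hB0.le hl0.le)
  have h7 : C / l < 3 * (B / l) := by
    rw [mul_div_assoc', div_lt_div_iff_of_pos_right hl0]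
    exact hB
  linarith

theorem Cmp.bound (h : Cmp F t z l C) {B : ℝ} (hB : 0 ≤ B) {c : κ} {p : M}
    (hp : p ∈ (F.e c).source) (hx : nsq (F.e c p) ≤ 9) (hz : F.f p = z) :
    |vl F t z l B p + Real.log (F.G t z c l (F.e c p))| ≤ (C + 9 * B) / l := by
  have hl0 : 0 < l := by linarith [h.hl]
  obtain ⟨c₁, hc₁, hv⟩ := exists_vl F t z l B p
  have hd : dist p p ≤ Real.exp (-l) := by
    rw [dist_self]
    exact (Real.exp_pos _).le
  have h1 := h.log_le hc₁.1 hp hc₁.2.le hx hz hz hd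
  have h2 := h.log_le hp hc₁.1 hx hc₁.2.le hz hz hd
  have h3 : B / l * nsq (F.e c₁ p) ≤ B / l * 9 :=
    mul_le_mul_of_nonneg_left hc₁.2.le (div_nonneg hB hl0.le)
  have h4 : 0 ≤ B / l * nsq (F.e c₁ p) :=
    mul_nonneg (div_nonneg hB hl0.le) (SupReg.nsq_nonneg _)
  have h5 : (C + 9 * B) / l = C / l + B / l * 9 := by ring
  have h6 : 0 ≤ B / l * 9 := by positivity
  have h7 : 0 ≤ C / l := div_nonneg h.hC hl0.le
  rw [hv, h5]
  unfold wl
  rw [abs_le]
  constructor <;> linarith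

theorem Cmp.near (h : Cmp F t z l C) {B : ℝ} (hB : 0 ≤ B) {p p' : M}
    (hz : F.f p = z) (hz' : F.f p' = z) (hd : dist p p' ≤ Real.exp (-l)) :
    |vl F t z l B p - vl F t z l B p'| ≤ (3 * C + 18 * B) / l := by
  obtain ⟨c, hp, hx⟩ := F.cover p
  obtain ⟨c', hp', hx'⟩ := F.cover p'
  have h1 := abs_le.1 (h.bound hB hp (by linarith) hz)
  have h2 := abs_le.1 (h.bound hB hp' (by linarith) hz')
  have h3 := h.log_le hp hp' (by linarith) (by linarith) hz hz' hd
  have h4 := h.log_le hp' hp (by linarith) (by linarith) hz' hz (by rwa [dist_comm])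
  have h5 : (3 * C + 18 * B) / l = 2 * ((C + 9 * B) / l) + C / l := by ring
  rw [h5, abs_le]
  constructor <;> linarith [h1.1, h1.2, h2.1, h2.2]

/-- each of the functions is continuous at the points of its chart -/
theorem Cmp.continuousAt (h : Cmp F t z l C) {B : ℝ} {c : κ} {p : M} (hc : c ∈ Sc F p)
    (hz : F.f p = z) : ContinuousAt (wl F t z l B c) p := by
  have h1 : ContinuousAt (F.e c) p := (F.e c).continuousAt hc.1
  have h2 : ContinuousAt (F.U t c l) (F.e c p) := by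
    refine (F.U_cont h.ht c (by linarith [h.hl])).continuousAt ?_
    have ho : IsOpen {x : Cn n | nsq x < 16} := isOpen_lt SupReg.continuous_nsq continuous_const
    refine mem_of_superset (ho.mem_nhds (show nsq (F.e c p) < 16 by linarith [hc.2])) ?_
    intro x hx
    exact le_of_lt (show nsq x < 16 from hx)
  have h3 : ContinuousAt (fun p => F.G t z c l (F.e c p)) p := by
    unfold Semi.G
    exact continuousAt_const.sub (ContinuousAt.comp' h2 h1)
  have h4 : ContinuousAt (fun p => nsq (F.e c p)) p :=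
    ContinuousAt.comp' (SupReg.continuous_nsq.continuousAt) h1
  unfold wl
  exact ((h3.log (h.pos hc.1 hc.2.le hz).ne').neg).sub (continuousAt_const.mul h4)

omit [CompactSpace M] [Finite κ] [Finite P] in
theorem Sc_open {c : κ} {p : M} (hc : c ∈ Sc F p) : ∀ᶠ p' in 𝓝 p, c ∈ Sc F p' := by
  have h1 : ContinuousAt (F.e c) p := (F.e c).continuousAt hc.1
  have h4 : ContinuousAt (fun p => nsq (F.e c p)) p :=
    ContinuousAt.comp' (SupReg.continuous_nsq.continuousAt) h1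
  have h5 : ∀ᶠ p' in 𝓝 p, p' ∈ (F.e c).source := (F.e c).open_source.mem_nhds hc.1
  exact h5.and (h4.eventually_lt_const hc.2)

omit [CompactSpace M] [Finite κ] [Finite P] in
theorem Sc_closed {c : κ} {p : M} (hc : c ∉ Sc F p) :
    ∀ᶠ p' in 𝓝 p, ¬ (p' ∈ (F.e c).source ∧ nsq (F.e c p') ≤ 4) := by
  refine (isClosed_core F c).isOpen_compl.mem_nhds ?_
  intro h
  exact hc ⟨h.1, by linarith [h.2]⟩

theorem Cmp.continuousOn (h : Cmp F t z l C) {B : ℝ} (hB : C < 3 * B) :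
    ContinuousOn (vl F t z l B) (F.f ⁻¹' {z}) := by
  intro p hp
  have hz : F.f p = z := hp
  rw [ContinuousWithinAt, Metric.tendsto_nhds]
  intro ε hε
  have h1 : ∀ᶠ p' in 𝓝 p, ∀ c, (c ∈ Sc F p → |wl F t z l B c p' - wl F t z l B c p| < ε ∧
      c ∈ Sc F p') ∧ (c ∉ Sc F p → ¬ (p' ∈ (F.e c).source ∧ nsq (F.e c p') ≤ 4)) := by
    rw [Filter.eventually_all]
    intro c
    by_cases hc : c ∈ Sc F p
    · have h2 := Metric.tendsto_nhds.1 (h.continuousAt (B := B) hc hz).tendsto ε hε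
      filter_upwards [h2, Sc_open hc] with p' h3 h4
      exact ⟨fun _ => ⟨h3, h4⟩, fun h5 => absurd hc h5⟩
    · filter_upwards [Sc_closed hc] with p' h3
      exact ⟨fun h5 => absurd h5 hc, fun _ => h3⟩
  filter_upwards [h1.filter_mono nhdsWithin_le_nhds, self_mem_nhdsWithin] with p' h2 h3
  have hz' : F.f p' = z := h3
  rw [Real.dist_eq, abs_lt]
  constructor
  · obtain ⟨c, hc, hv⟩ := exists_vl F t z l B p
    obtain ⟨h4, h5⟩ := (h2 c).1 hc
    have h6 := le_vl (F := F) (t := t) (z := z) (l := l) (B := B) h5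
    rw [hv]
    linarith [(abs_lt.1 h4).1]
  · obtain ⟨c, hc, hv⟩ := exists_vl F t z l B p'
    have h4 := h.lt_four hB hc hz' hv
    have h5 : c ∈ Sc F p := by
      by_contra hcon
      exact (h2 c).2 hcon ⟨hc.1, h4.le⟩
    obtain ⟨h6, -⟩ := (h2 c).1 h5
    have h7 := le_vl (F := F) (t := t) (z := z) (l := l) (B := B) h5
    rw [hv]
    linarith [(abs_lt.1 h6).2]

end Log

end

/-! ### holomorphic discs -/

namespace Log

variable {n : ℕ}

theorem HolD.second {g : ℂ → Cn n} {S : Set ℂ} (hS : IsOpen S) (hg : HolD g S) {s : ℂ}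
    (hs : s ∈ S) : fderiv ℝ (fun q => fderiv ℝ g q Complex.I) s Complex.I =
      -fderiv ℝ (fun q => fderiv ℝ g q 1) s 1 := by
  have hgz : ContDiffAt ℝ 2 g s := (hg.smooth.contDiffAt (hS.mem_nhds hs)).of_le two_le_infty
  have hd : DifferentiableAt ℝ (fderiv ℝ g) s :=
    (hgz.fderiv_right (m := 1) (by norm_num)).differentiableAt (by norm_num)
  have key : ∀ a b : ℂ, fderiv ℝ (fun q => fderiv ℝ g q b) s a =
      fderiv ℝ (fderiv ℝ g) s a b := by
    intro a b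
    rw [fderiv_clm_apply hd (differentiableAt_const b)]
    simp
  have hsy : IsSymmSndFDerivAt ℝ g s := by
    apply hgz.isSymmSndFDerivAt
    rw [minSmoothness_of_isRCLikeNormedField]
  have hJ : ∀ a : ℂ, fderiv ℝ (fun q => fderiv ℝ g q Complex.I) s a =
      J (fderiv ℝ (fun q => fderiv ℝ g q 1) s a) := by
    intro a
    have h1 : (fun q => fderiv ℝ g q Complex.I) =ᶠ[𝓝 s] fun q => Jl n (fderiv ℝ g q 1) := by
      filter_upwards [hS.mem_nhds hs] with q hq
      exact hg.holo q hq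
    have h2 : DifferentiableAt ℝ (fun q => fderiv ℝ g q 1) s :=
      hd.clm_apply (differentiableAt_const (1 : ℂ))
    have h3 := ((Jl n).hasFDerivAt.comp s h2.hasFDerivAt).fderiv
    rw [h1.fderiv_eq]
    change fderiv ℝ ((Jl n) ∘ fun q => fderiv ℝ g q 1) s a = _
    rw [h3]
    rfl
  rw [hJ, key Complex.I 1, hsy Complex.I 1, ← key 1 Complex.I, hJ, J_J]

theorem lapC_nsq_comp {g : ℂ → Cn n} {S : Set ℂ} (hS : IsOpen S) (hg : HolD g S) {s : ℂ}
    (hs : s ∈ S) : lapC (fun z => nsq (g z)) s = 4 * nsq (fderiv ℝ g s 1) := by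
  have hgz : ContDiffAt ℝ 2 g s := (hg.smooth.contDiffAt (hS.mem_nhds hs)).of_le two_le_infty
  have hn : ContDiffAt ℝ 2 (nsq : Cn n → ℝ) (g s) :=
    (Gap.contDiff_nsq'.contDiffAt).of_le two_le_infty
  have h2 := HolD.second hS hg hs
  have h3 := hg.holo s hs
  have h4 := Gap.levz_nsq' (fderiv ℝ g s 1) (g s)
  unfold levz at h4
  rw [D_D_eq hn, D_D_eq hn] at h4
  unfold lapC
  rw [D_D_comp hn hgz, D_D_comp hn hgz, h2, h3, map_neg, ← h4]
  ring

/-- the mean values of `|g|^2` -/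
theorem cavg_nsq {g : ℂ → Cn n} {s : ℂ} {r₀ : ℝ} (hr₀ : 0 < r₀)
    (hg : HolD g (Metric.ball s r₀)) {ε : ℝ} (hε : 0 < ε) :
    ∀ᶠ r in 𝓝[>] (0 : ℝ), cavg (fun ζ => nsq (g (s + ζ))) r ≤
      nsq (g s) + (nsq (fderiv ℝ g s 1) + ε) * r ^ 2 := by
  have hs : s ∈ Metric.ball s r₀ := Metric.mem_ball_self hr₀
  have hgz : ContDiffAt ℝ 2 g s :=
    (hg.smooth.contDiffAt (Metric.isOpen_ball.mem_nhds hs)).of_le two_le_infty
  have hn : ContDiffAt ℝ 2 (fun z => nsq (g z)) s := by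
    have h1 : ContDiffAt ℝ 2 (nsq : Cn n → ℝ) (g s) :=
      (Gap.contDiff_nsq'.contDiffAt).of_le two_le_infty
    exact h1.comp s hgz
  have h1 := Curve.cavg_taylor (h := fun z => (-1) * nsq (g z)) (contDiffAt_const.mul hn) hε
  rw [HB.lapC_const_mul _ hn, lapC_nsq_comp Metric.isOpen_ball hg hs] at h1
  filter_upwards [h1] with r hr
  have h2 : cavg (fun ζ => (-1) * nsq (g (s + ζ))) r = (-1) * cavg (fun ζ => nsq (g (s + ζ))) r :=
    KRFHk.cavg_mul_left _ _ _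
  rw [h2] at hr
  linarith

theorem HolD.mono {g : ℂ → Cn n} {S S' : Set ℂ} (hg : HolD g S) (h : S' ⊆ S) : HolD g S' :=
  ⟨hg.smooth.mono h, fun s hs => hg.holo s (h hs)⟩

theorem HolD.comp {m : ℕ} {g : ℂ → Cn n} {S : Set ℂ} (hS : IsOpen S) (hg : HolD g S)
    {H : Cn n → Cn m} {S' : Set (Cn n)} (hS' : IsOpen S') (hH : HolOn H S')
    (h : ∀ s ∈ S, g s ∈ S') : HolD (fun s => H (g s)) S ∧
      ∀ s ∈ S, fderiv ℝ (fun s => H (g s)) s 1 = fderiv ℝ H (g s) (fderiv ℝ g s 1) := by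
  have h1 : ∀ s ∈ S, ∀ w, fderiv ℝ (fun s => H (g s)) s w = fderiv ℝ H (g s) (fderiv ℝ g s w) := by
    intro s hs w
    have h2 : DifferentiableAt ℝ g s := (hg.smooth.contDiffAt (hS.mem_nhds hs)).differentiableAt
      (by simp)
    have h3 : DifferentiableAt ℝ H (g s) :=
      (hH.1.contDiffAt (hS'.mem_nhds (h s hs))).differentiableAt (by simp)
    have h4 := (h3.hasFDerivAt.comp s h2.hasFDerivAt).fderiv
    change fderiv ℝ (H ∘ g) s w = _
    rw [h4]
    rfl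
  refine ⟨⟨hH.1.comp hg.smooth h, fun s hs => ?_⟩, fun s hs => h1 s hs 1⟩
  rw [h1 s hs, h1 s hs, hg.holo s hs, hH.2 _ (h s hs)]

section

variable {N : ℕ} {M Z : Type} [MetricSpace M] [CompactSpace M] [MetricSpace Z] {κ P : Type}
  [Finite κ] [Finite P] {T : ℝ} {F : Semi n N M Z κ P T} {t : ℝ} {z : Z} {l C : ℝ}

omit [CompactSpace M] [Finite κ] [Finite P] in
theorem isOpen_dom (c c' : κ) : IsOpen (dom F.e c c') :=
  (F.e c).isOpen_inter_preimage_symm (F.e c').open_source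

theorem Cmp.disc (h : Cmp F t z l C) {B C₁ C₂ : ℝ} (hB : C < 3 * B) (hC₁ : 0 < C₁)
    (hlev : ∀ c x u, nsq x ≤ 81 → nsq u ≤ C₁ * lev (F.ψ c) u (0, x))
    (hC₂ : 1 / T + B * C₁ ≤ C₂) (c : κ) {g : ℂ → Cn n}
    {s : ℂ} {r₀ : ℝ} (hr₀ : 0 < r₀) (hg : HolD g (Metric.ball s r₀))
    (hgz : ∀ s' ∈ Metric.ball s r₀, g s' ∈ (F.e c).target ∧ F.f ((F.e c).symm (g s')) = z)
    {ε : ℝ} (hε : 0 < ε) : ∀ᶠ r in 𝓝[>] (0 : ℝ), vl F t z l B ((F.e c).symm (g s)) ≤
      cavg (fun ζ => vl F t z l B ((F.e c).symm (g (s + ζ)))) r +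
        (C₂ / l * lev (F.ψ c) (fderiv ℝ g s 1) (0, g s) + ε) * r ^ 2 := by
  have hl0 : 0 < l := by linarith [h.hl]
  have hT : 0 < T := lt_of_le_of_lt h.ht.1 h.ht.2
  have hB0 : 0 < B := by linarith [h.hC]
  set p : ℂ → M := fun s' => (F.e c).symm (g s') with hp
  have hs : s ∈ Metric.ball s r₀ := Metric.mem_ball_self hr₀
  have hpc : ContinuousOn p (Metric.ball s r₀) :=
    (F.e c).continuousOn_symm.comp hg.smooth.continuousOn fun s' hs' => (hgz s' hs').1
  obtain ⟨c', hc', hv⟩ := exists_vl F t z l B (p s)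
  have hpa : ContinuousAt p s := hpc.continuousAt (Metric.isOpen_ball.mem_nhds hs)
  have h1 : ∀ᶠ s' in 𝓝 s, c' ∈ Sc F (p s') := hpa.eventually (Sc_open hc')
  obtain ⟨r₁, hr₁, hr₁'⟩ := Metric.eventually_nhds_iff_ball.1
    (h1.and (Metric.isOpen_ball.mem_nhds hs : ∀ᶠ s' in 𝓝 s, s' ∈ Metric.ball s r₀))
  have hsub : Metric.ball s r₁ ⊆ Metric.ball s r₀ := fun s' hs' => (hr₁' s' hs').2
  have hs1 : s ∈ Metric.ball s r₁ := Metric.mem_ball_self hr₁
  -- the disc in the chart `c'`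
  have hdom : ∀ s' ∈ Metric.ball s r₁, g s' ∈ dom F.e c c' := fun s' hs' =>
    ⟨(hgz s' (hsub hs')).1, (hr₁' s' hs').1.1⟩
  obtain ⟨hG, hG1⟩ := HolD.comp Metric.isOpen_ball (HolD.mono hg hsub) (isOpen_dom c c')
    (F.atlas.holo c c') hdom
  set g' : ℂ → Cn n := fun s' => tr F.e c c' (g s') with hg'
  have hg'p : ∀ s', g' s' = F.e c' (p s') := fun s' => rfl
  have hsymm : ∀ s' ∈ Metric.ball s r₁, (F.e c').symm (g' s') = p s' := fun s' hs' => by
    rw [hg'p]
    exact (F.e c').left_inv (hr₁' s' hs').1.1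
  have hg'z : ∀ s' ∈ Metric.ball s r₁, nsq (g' s') < 16 ∧ F.f ((F.e c').symm (g' s')) = z :=
    fun s' hs' => by
      rw [hsymm s' hs']
      refine ⟨?_, (hgz s' (hsub hs')).2⟩
      have := (hr₁' s' hs').1.2
      rw [← hg'p] at this
      linarith
  set L := lev (F.ψ c) (fderiv ℝ g s 1) (0, g s) with hL
  have hLeq : lev (F.ψ c') (fderiv ℝ g' s 1) (0, g' s) = L := by
    rw [hG1 s hs1, hL]
    exact (F.krf.compat c c' 0 ⟨le_rfl, hT⟩ (g s) (hdom s hs1) _).symm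
  have hnL : nsq (fderiv ℝ g' s 1) ≤ C₁ * L := by
    rw [← hLeq]
    exact hlev c' _ _ (by linarith [(hg'z s hs1).1])
  have hL0 : 0 ≤ L := nonneg_of_mul_nonneg_right ((SupReg.nsq_nonneg _).trans hnL) hC₁
  -- the constants
  have hzs : F.f (p s) = z := (hgz s hs).2
  obtain ⟨hA, hAG, -⟩ := F.slope h.ht hl0 hc'.1 hc'.2.le hzs
  set A := F.A t z l with hAdef
  set a := F.G t z c' l (g' s) with ha
  rw [← hg'p, ← ha] at hAG
  have ha0 : 0 < a := by linarith
  have hTl : (T - t) * l ≤ a := by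
    have h2 := mm_anti F h.ht (l := l / 2) (l' := l) (by linarith) (by linarith) hc'.1 hc'.2.le hzs
    have h3 := Real.exp_pos (-(l / 2))
    have h4 : (T - t) * l ≤ A := by
      rw [hAdef]
      unfold Semi.A
      linarith
    linarith
  have hU := F.U_disc h.ht (c := c') hl0.le hr₁ hG hg'z (ε := ε * A / 2) (by positivity)
  have hN := cavg_nsq hr₁ hG (ε := ε * l / (2 * B)) (by positivity)
  have hr : ∀ᶠ r in 𝓝[>] (0 : ℝ), r < r₁ :=
    (eventually_lt_nhds hr₁).filter_mono nhdsWithin_le_nhds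
  filter_upwards [hU, hN, hr, self_mem_nhdsWithin] with r hU hN hr hr0
  have hr0' : 0 < r := hr0
  have hball : ∀ θ : ℝ, s + (r : ℂ) * Complex.exp (θ * Complex.I) ∈ Metric.ball s r₁ := by
    intro θ
    rw [mem_ball_iff_norm, add_sub_cancel_left, KRFHk.norm_circle hr0'.le]
    exact hr
  have hcc : Continuous fun θ : ℝ => s + (r : ℂ) * Complex.exp (θ * Complex.I) := by fun_prop
  have hgc : Continuous fun θ : ℝ => g' (s + (r : ℂ) * Complex.exp (θ * Complex.I)) :=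
    hG.smooth.continuousOn.comp_continuous hcc hball
  have hUc : Continuous fun θ : ℝ =>
      F.U t c' l (g' (s + (r : ℂ) * Complex.exp (θ * Complex.I))) :=
    (F.U_cont h.ht c' hl0.le).comp_continuous hgc fun θ => (hg'z _ (hball θ)).1.le
  have hnc : Continuous fun θ : ℝ => nsq (g' (s + (r : ℂ) * Complex.exp (θ * Complex.I))) :=
    SupReg.continuous_nsq.comp hgc
  have hvc : Continuous fun θ : ℝ =>
      vl F t z l B (p (s + (r : ℂ) * Complex.exp (θ * Complex.I))) :=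
    (h.continuousOn hB).comp_continuous
      (hpc.comp_continuous hcc fun θ => hsub (hball θ)) fun θ => (hgz _ (hsub (hball θ))).2
  set K := -Real.log a + 1 - (A + F.mm t z l) / a with hK
  have hpt : ∀ ζ : ℂ, s + ζ ∈ Metric.ball s r₁ →
      K + (1 / a * F.U t c' l (g' (s + ζ)) + -(B / l) * nsq (g' (s + ζ))) ≤
        vl F t z l B (p (s + ζ)) := by
    intro ζ hζ
    have e1 := le_vl (F := F) (t := t) (z := z) (l := l) (B := B) (hr₁' _ hζ).1
    refine le_trans ?_ e1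
    unfold wl
    rw [← hg'p]
    have hz' : F.f (p (s + ζ)) = z := (hgz _ (hsub hζ)).2
    have e2 := h.pos (hr₁' _ hζ).1.1 (hr₁' _ hζ).1.2.le hz'
    rw [← hg'p] at e2
    set b := F.G t z c' l (g' (s + ζ)) with hb
    have e3 := Real.log_le_sub_one_of_pos (x := b / a) (by positivity)
    rw [Real.log_div e2.ne' ha0.ne'] at e3
    have e4 : b / a = (A + F.mm t z l) / a - 1 / a * F.U t c' l (g' (s + ζ)) := by
      rw [hb]
      unfold Semi.G
      ring
    rw [hK]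
    linarith
  have hm := KRFHk.cavg_mono'
    (F := fun ζ => K + (1 / a * F.U t c' l (g' (s + ζ)) + -(B / l) * nsq (g' (s + ζ))))
    (G := fun ζ => vl F t z l B (p (s + ζ)))
    (continuous_const.add ((continuous_const.mul hUc).add (continuous_const.mul hnc))) hvc
    fun θ => hpt _ (hball θ)
  rw [KRFHk.cavg_add (F := fun _ => K)
    (G := fun ζ => 1 / a * F.U t c' l (g' (s + ζ)) + -(B / l) * nsq (g' (s + ζ)))
    continuous_const ((continuous_const.mul hUc).add (continuous_const.mul hnc)),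
    KRFHk.cavg_add (F := fun ζ => 1 / a * F.U t c' l (g' (s + ζ)))
    (G := fun ζ => -(B / l) * nsq (g' (s + ζ))) (continuous_const.mul hUc)
    (continuous_const.mul hnc), KRFHk.cavg_mul_left, KRFHk.cavg_mul_left, KRFHk.cavg_const'] at hm
  rw [hLeq] at hU
  have f1 : vl F t z l B (p s) = K + 1 / a * F.U t c' l (g' s) - B / l * nsq (g' s) := by
    rw [hv]
    unfold wl
    rw [← hg'p, ← ha, hK]
    have e5 : (A + F.mm t z l) / a - 1 / a * F.U t c' l (g' s) = 1 := by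
      rw [div_mul_eq_mul_div, one_mul, ← sub_div, div_eq_one_iff_eq ha0.ne', ha]
      rfl
    linarith
  have f2 : 1 / a * F.U t c' l (g' s) ≤ 1 / a * cavg (fun ζ => F.U t c' l (g' (s + ζ))) r +
      (1 / T / l * L + ε / 2) * r ^ 2 := by
    have e6 := mul_le_mul_of_nonneg_left hU (one_div_nonneg.2 ha0.le)
    refine e6.trans ?_
    rw [mul_add, ← mul_assoc (_ / _) _ (r ^ 2)]
    refine add_le_add le_rfl (mul_le_mul_of_nonneg_right ?_ (sq_nonneg r))
    rw [one_div_mul_eq_div, div_le_iff₀ ha0]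
    have e7 : (1 - t / T) * L ≤ 1 / T / l * L * a := by
      have e8 : (1 - t / T) = 1 / T / l * ((T - t) * l) := by
        field_simp
      rw [e8]
      have e10 : 0 ≤ 1 / T / l * L := by positivity
      calc 1 / T / l * ((T - t) * l) * L = 1 / T / l * L * ((T - t) * l) := by ring
        _ ≤ 1 / T / l * L * a := mul_le_mul_of_nonneg_left hTl e10
    have e9 : ε * A / 2 ≤ ε / 2 * a := by
      rw [mul_div_right_comm]
      exact mul_le_mul_of_nonneg_left hAG (by positivity)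
    linarith
  have f3 : B / l * cavg (fun ζ => nsq (g' (s + ζ))) r ≤ B / l * nsq (g' s) +
      (B * C₁ / l * L + ε / 2) * r ^ 2 := by
    have e6 := mul_le_mul_of_nonneg_left hN (by positivity : 0 ≤ B / l)
    refine e6.trans ?_
    rw [mul_add, ← mul_assoc (_ / _) _ (r ^ 2)]
    refine add_le_add le_rfl (mul_le_mul_of_nonneg_right ?_ (sq_nonneg r))
    have e7 : B / l * (nsq (fderiv ℝ g' s 1) + ε * l / (2 * B)) =
        B / l * nsq (fderiv ℝ g' s 1) + ε / 2 := by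
      field_simp
    rw [e7]
    have e8 := mul_le_mul_of_nonneg_left hnL (by positivity : 0 ≤ B / l)
    have e9 : B / l * (C₁ * L) = B * C₁ / l * L := by ring
    linarith
  rw [f1]
  have f4 : ((1 / T + B * C₁) / l * L + ε) * r ^ 2 =
      (1 / T / l * L + ε / 2) * r ^ 2 + (B * C₁ / l * L + ε / 2) * r ^ 2 := by ring
  have f5 : ((1 / T + B * C₁) / l * L + ε) * r ^ 2 ≤ (C₂ / l * L + ε) * r ^ 2 := by gcongr
  linarith

end

end Log

section

variable {n N : ℕ} {M Z : Type} [MetricSpace M] [CompactSpace M] [MetricSpace Z] {κ P : Type}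
  [Finite κ] [Finite P] {T : ℝ} (F : Semi n N M Z κ P T)

/-- `v = - log G` up to `C / l` -/
theorem Semi.log_trick : ∃ C l₀, 0 < C ∧ 1 ≤ l₀ ∧ ∀ t ∈ Ico 0 T, ∀ z l, l₀ ≤ l → ∃ v : M → ℝ,
    ContinuousOn v (F.f ⁻¹' {z}) ∧
    (∀ c p, p ∈ (F.e c).source → nsq (F.e c p) ≤ 9 → F.f p = z →
      |v p + Real.log (F.G t z c l (F.e c p))| ≤ C / l) ∧
    (∀ p p', F.f p = z → F.f p' = z → dist p p' ≤ Real.exp (-l) → |v p - v p'| ≤ C / l) ∧
    ∀ (c : κ) (g : ℂ → Cn n) (s : ℂ) (r₀ : ℝ), 0 < r₀ → HolD g (Metric.ball s r₀) →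
      (∀ s' ∈ Metric.ball s r₀, g s' ∈ (F.e c).target ∧ F.f ((F.e c).symm (g s')) = z) →
      ∀ ε > 0, ∀ᶠ r in 𝓝[>] (0 : ℝ), v ((F.e c).symm (g s)) ≤
        cavg (fun ζ => v ((F.e c).symm (g (s + ζ)))) r +
          (C / l * lev (F.ψ c) (fderiv ℝ g s 1) (0, g s) + ε) * r ^ 2 := by
  obtain ⟨C₀, l₀, hC₀, hl₀, hG⟩ := F.G_le_G
  obtain ⟨C₁, hC₁, hlev⟩ := F.lev_zero
  have hT : 0 ≤ |1 / T| := abs_nonneg _
  have hBC : 0 ≤ (C₀ + 1) * C₁ := by positivity
  refine ⟨3 * C₀ + 18 * (C₀ + 1) + |1 / T| + (C₀ + 1) * C₁, l₀, by positivity, hl₀,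
    fun t ht z l hl => ?_⟩
  have hl0 : 0 < l := by linarith
  have h : Log.Cmp F t z l C₀ := ⟨ht, hl₀.trans hl, hC₀, hG t ht z l hl⟩
  refine ⟨Log.vl F t z l (C₀ + 1), h.continuousOn (by linarith), fun c p hp hx hz => ?_,
    fun p p' hz hz' hd => ?_, fun c g s r₀ hr₀ hg hgz ε hε => ?_⟩
  · refine (h.bound (by linarith) hp hx hz).trans (div_le_div_of_nonneg_right ?_ hl0.le)
    linarith
  · refine (h.near (by linarith) hz hz' hd).trans (div_le_div_of_nonneg_right ?_ hl0.le)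
    linarith
  · refine h.disc (B := C₀ + 1) (by linarith) hC₁ (fun c x u hx => (hlev c x u F.hT hx).1) ?_ c
      hr₀ hg hgz hε
    have := le_abs_self (1 / T)
    linarith

end

end Pool.Agent.KRFZ

end

section

/-!
# The Harnack inequality on the fibres
-/

open scoped ContDiff ENNReal ComplexOrder Topology
open Set MeasureTheory Filter Pool.Agent.ToricKRF Pool.Agent.ToricKRF.G Pool.Agent.KRFS
  Pool.Agent.KRFF Pool.Agent.KRFG Pool.Agent.KRFE

namespace Pool.Agent.KRFZ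

section

variable {n N : ℕ} {M Z : Type} [MetricSpace M] [CompactSpace M] [MetricSpace Z] {κ P : Type}
  [Finite κ] [Finite P] {T : ℝ} (F : Semi n N M Z κ P T)

theorem Semi.harnack : ∃ C l₀, 0 ≤ C ∧ 1 ≤ l₀ ∧ ∀ t ∈ Ico 0 T, ∀ z l, l₀ ≤ l → ∀ c p,
    p ∈ (F.e c).source → nsq (F.e c p) ≤ 9 → F.f p = z →
    F.G t z c l (F.e c p) ≤ C * F.A t z l :=
  F.harnack_of (fun ht _ _ hl _ _ hp hx hz =>
    ⟨(F.slope ht hl hp hx hz).1, (F.slope ht hl hp hx hz).2.1⟩) F.log_trick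

end

end Pool.Agent.KRFZ

end
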