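import Pool.Agent.Work.MP_a2bf38_gt.Fu.I.Psh
import Pool.Agent.Work.MP_a2bf38_gt.Fu.Z.Log
import Pool.Agent.Work.MP_a2bf38_gt.Fu.Z.Const2
import Pool.Agent.Work.MP_a2bf38_gt.Fu.I.Sect
import Pool.Agent.Work.MP_a2bf38_gt.Fu.I.Ray

/-!
# The integral over a neighbourhood of a fibre (helper52)
-/

open scoped ContDiff ENNReal ComplexOrder Topology
open Set MeasureTheory Filter Pool.Agent.ToricKRF Pool.Agent.ToricKRF.G Pool.Agent.KRFS
  Pool.Agent.KRFF Pool.Agent.KRFG Pool.Agent.KRFE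

namespace Pool.Agent.KRFZ

namespace Tb

section

variable {n N : ℕ} {M Z : Type} [MetricSpace M] [CompactSpace M] [MetricSpace Z] {κ P : Type}
  [Finite κ] [Finite P] {T : ℝ} (F : Semi n N M Z κ P T)

/-- the set of the values of `U` on the fibre -/
def vals (t : ℝ) (z : Z) (l : ℝ) : Set ℝ :=
  {r | ∃ c p, p ∈ (F.e c).source ∧ nsq (F.e c p) ≤ 9 ∧ F.f p = z ∧ r = F.U t c l (F.e c p)}

theorem vals_bdd {t : ℝ} (ht : t ∈ Ico 0 T) (z : Z) {l : ℝ} (hl : 0 ≤ l) :
    BddAbove (vals F t z l) := by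
  obtain ⟨C, -, h⟩ := F.U_bound
  refine ⟨C, ?_⟩
  rintro _ ⟨c, p, -, hp, -, rfl⟩
  exact (le_abs_self _).trans (h t ht c _ l (hp.trans (by norm_num)) hl)

omit [CompactSpace M] [Finite κ] [Finite P] in
theorem vals_nonempty (t : ℝ) (z : Z) (l : ℝ) : (vals F t z l).Nonempty := by
  obtain ⟨p, hp⟩ := F.emb.surj z
  obtain ⟨c, hc, h1⟩ := F.cover p
  exact ⟨_, c, p, hc, h1.trans (by norm_num), hp, rfl⟩

theorem mm_anti {t : ℝ} (ht : t ∈ Ico 0 T) (z : Z) {l l' : ℝ} (hl : 0 ≤ l) (h : l ≤ l') :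
    F.mm t z l' ≤ F.mm t z l := by
  refine csSup_le (vals_nonempty F t z l') ?_
  rintro _ ⟨c, p, hc, hp, hz, rfl⟩
  refine (F.U_anti ht (hp.trans (by norm_num)) hl h).trans ?_
  exact le_csSup (vals_bdd F ht z hl) ⟨c, p, hc, hp, hz, rfl⟩

theorem exp_le_A {t : ℝ} (ht : t ∈ Ico 0 T) (z : Z) {l : ℝ} (hl : 0 ≤ l) :
    Real.exp (-(l / 2)) ≤ F.A t z l := by
  have h1 := mm_anti F ht z (l := l / 2) (l' := l) (by linarith) (by linarith)
  have h2 : 0 ≤ (T - t) * l := mul_nonneg (by linarith [ht.2]) hl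
  unfold Semi.A
  linarith

omit [CompactSpace M] [Finite κ] [Finite P] in
theorem psi_split (t : ℝ) (c : κ) (x : Cn n) : F.phi c (t, x) + F.th t c x = F.ψ c (t, x) := by
  unfold Flow.phi Semi.th
  ring

omit [CompactSpace M] [Finite κ] [Finite P] in
theorem Phi_continuous {t : ℝ} (ht : t ∈ Ico 0 T) : Continuous (F.Phi t) :=
  F.Phi_continuousOn.comp_continuous (Continuous.prodMk_right t) fun p => ⟨ht, mem_univ p⟩

/-- the fibres over the points `f x₁` in the unit ball of a chart, `x₁` near `x` -/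
def fibC (c : κ) (x : M) (l : ℝ) : Set (Cn n) :=
  {q | nsq q ≤ 1 ∧ ∃ x₁, dist x x₁ ≤ Real.exp (-l) ∧ F.f ((F.e c).symm q) = F.f x₁}

/-- a bound for `A` on the fibres through the points near `x` -/
theorem exists_A {t : ℝ} (ht : t ∈ Ico 0 T) {x : M} {l p c₀ : ℝ} (hl : 0 < l) (hc₀ : 0 < c₀)
    (hp : 0 ≤ p) (h : ∀ x₁, dist x x₁ ≤ Real.exp (-l) → p * F.A t (F.f x₁) l ≤ c₀ * l) :
    ∃ A, 0 < A ∧ p * A ≤ c₀ * l ∧ ∀ x₁, dist x x₁ ≤ Real.exp (-l) → F.A t (F.f x₁) l ≤ A := by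
  rcases hp.eq_or_lt with hp0 | hp0
  · obtain ⟨C, hC, hU⟩ := F.U_bound
    have hmm : ∀ z l, 0 ≤ l → |F.mm t z l| ≤ C := by
      intro z l hl
      rw [abs_le]
      constructor
      · obtain ⟨_, c, p, hc, hp, hz, rfl⟩ := vals_nonempty F t z l
        refine le_trans ?_ (le_csSup (vals_bdd F ht z hl) ⟨c, p, hc, hp, hz, rfl⟩)
        exact (abs_le.1 (hU t ht c _ l (hp.trans (by norm_num)) hl)).1
      · refine csSup_le (vals_nonempty F t z l) ?_
        rintro _ ⟨c, p, hc, hp, hz, rfl⟩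
        exact (abs_le.1 (hU t ht c _ l (hp.trans (by norm_num)) hl)).2
    have hTt : 0 ≤ T - t := by linarith [ht.2]
    refine ⟨2 * C + (T - t) * l + 1, by positivity, by rw [← hp0, zero_mul]; positivity, fun x₁ _ => ?_⟩
    unfold Semi.A
    have h1 := (abs_le.1 (hmm (F.f x₁) (l / 2) (by positivity))).2
    have h2 := (abs_le.1 (hmm (F.f x₁) l hl.le)).1
    have h3 : Real.exp (-(l / 2)) ≤ 1 := by
      rw [Real.exp_le_one_iff]
      linarith
    linarith
  · refine ⟨c₀ * l / p, by positivity, by rw [mul_div_cancel₀ _ hp0.ne'], fun x₁ hx₁ => ?_⟩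
    rw [le_div_iff₀ hp0, mul_comm]
    exact h x₁ hx₁

/-- one chart -/
theorem chart_part {C₁ : ℝ} (hC₁ : 1 ≤ C₁) : ∃ (C c₀ l₀ : ℝ) (K : ℝ≥0∞), 0 ≤ C ∧ 0 < c₀ ∧ 1 ≤ l₀ ∧
    K ≠ ⊤ ∧ ∀ t ∈ Ico 0 T, ∀ c₂ x₂ l, l₀ ≤ l → x₂ ∈ (F.e c₂).source → nsq (F.e c₂ x₂) ≤ 9 →
    ∀ p, 0 ≤ p → (∀ x₁, dist x₂ x₁ ≤ Real.exp (-l) → p * F.A t (F.f x₁) l ≤ c₀ * l) → ∀ c,
    ∫⁻ x in JN.Nb (fibC F c x₂ l) (C₁ * Real.exp (-l)),
      ENNReal.ofReal (Real.exp (-p * (F.phi c (t, x) - F.U t c₂ l (F.e c₂ x₂)))) ≤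
        K * ENNReal.ofReal (Real.exp (C * l)) := by
  obtain ⟨ct, Kt, hct, hKt, htube⟩ := JN.tube n 1 zero_le_one
  obtain ⟨Ch, lh, hCh, hlh, hharn⟩ := F.harnack
  obtain ⟨Ct, hCt, hth⟩ := F.th_lip
  obtain ⟨Cu, au, hCu, hau, hUU⟩ := F.U_le_U
  -- the constants
  set a : ℝ := Real.log (30 * C₁) with ha
  have ha0 : 0 < a := Real.log_pos (by linarith)
  have hea : Real.exp a = 30 * C₁ := Real.exp_log (by linarith)
  set Ch' : ℝ := Ch + 1 with hCh'
  have hCh'0 : 0 < Ch' := by positivity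
  set c₀ : ℝ := ct / (2 * a * Ch') with hc₀
  have hc₀0 : 0 < c₀ := by positivity
  set l₀ : ℝ := max (max lh (2 * a)) (max (Real.log (30 * C₁)) (2 * au)) with hl₀
  refine ⟨(2 * Ch + Cu + 2 * Ct * C₁) * c₀, c₀, l₀, Kt, by positivity, hc₀0,
    hlh.trans ((le_max_left _ _).trans (le_max_left _ _)), hKt, ?_⟩
  intro t ht c₂ x₂ l hl hx₂ hx₂9 p hp hpA c
  have hlh' : lh ≤ l := ((le_max_left _ _).trans (le_max_left _ _)).trans hl
  have hla : 2 * a ≤ l := ((le_max_right _ _).trans (le_max_left _ _)).trans hl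
  have hl30 : Real.log (30 * C₁) ≤ l := ((le_max_left _ _).trans (le_max_right _ _)).trans hl
  have hlau : 2 * au ≤ l := ((le_max_right _ _).trans (le_max_right _ _)).trans hl
  have hl0 : 0 < l := by linarith
  have hT : 0 ≤ T := ht.1.trans ht.2.le
  have ht' : t ∈ Icc 0 T := ⟨ht.1, ht.2.le⟩
  set ρ : ℝ := C₁ * Real.exp (-l) with hρ
  have hρ0 : 0 < ρ := by positivity
  have hρ30 : 30 * ρ ≤ 1 := by
    have h1 : Real.exp (-l) ≤ (30 * C₁)⁻¹ := by
      rw [← Real.exp_log (show (0 : ℝ) < 30 * C₁ by positivity), ← Real.exp_neg]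
      exact Real.exp_le_exp.2 (by linarith)
    calc 30 * ρ = 30 * C₁ * Real.exp (-l) := by rw [hρ]; ring
      _ ≤ 30 * C₁ * (30 * C₁)⁻¹ := mul_le_mul_of_nonneg_left h1 (by positivity)
      _ = 1 := mul_inv_cancel₀ (by positivity)
  have hexp : Real.exp (-(l - a)) = 30 * ρ := by
    have h1 : -(l - a) = a + -l := by ring
    rw [h1, Real.exp_add, hea, hρ]
    ring
  obtain ⟨A, hA0, hpA', hAle⟩ := exists_A F ht hl0 hc₀0 hp hpA
  have hexpA : Real.exp (-(l / 2)) ≤ A := (exp_le_A F ht (F.f x₂) hl0.le).trans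
    (hAle x₂ (by rw [dist_self]; exact (Real.exp_pos _).le))
  set A' : ℝ := 2 * a / l * (Ch' * A) with hA'
  have hA'0 : 0 < A' := by positivity
  set E : ℝ := 2 * Ch * A + Cu * Real.exp (-l) + Ct * (2 * ρ) with hE
  have hpA'' : p ≤ ct / A' := by
    rw [le_div_iff₀ hA'0]
    calc p * A' = 2 * a * Ch' / l * (p * A) := by rw [hA']; ring
      _ ≤ 2 * a * Ch' / l * (c₀ * l) := mul_le_mul_of_nonneg_left hpA' (by positivity)
      _ = ct := by
        rw [hc₀]
        field_simp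
  have hsub : ∀ q ∈ fibC F c x₂ l, ∀ x, nsq (x - q) ≤ (30 * ρ) ^ 2 → nsq x ≤ 4 := by
    intro q hq x hx
    have h1 := JN.nsq_tri (x := x - q) (y := q) (a := 30 * ρ) (b := 1) (by positivity) zero_le_one hx
      (by rw [one_pow]; exact hq.1)
    rw [sub_add_cancel] at h1
    refine h1.trans ((pow_le_pow_left₀ (by positivity)
      (show 30 * ρ + 1 ≤ 2 by linarith) 2).trans (by norm_num))
  have hmem : ∀ q ∈ fibC F c x₂ l, ∀ x, nsq (x - q) ≤ (30 * ρ) ^ 2 → x ∈ (F.e c).target := by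
    intro q hq x hx
    refine F.target c ?_
    show nsq x < 100
    linarith [hsub q hq x hx]
  have h2930 : ∀ x q : Cn n, nsq (x - q) < (29 * ρ) ^ 2 → nsq (x - q) ≤ (30 * ρ) ^ 2 := by
    intro x q hx
    exact hx.le.trans (pow_le_pow_left₀ (by positivity) (by linarith) 2)
  have hψ : ContinuousOn (fun x => F.ψ c (t, x)) (F.e c).target :=
    (Touch.psi_slice F.toFlow c ht).continuousOn
  have hmain := htube (fun x => F.phi c (t, x)) (F.th t c) (fibC F c x₂ l) ρ (F.U t c₂ l (F.e c₂ x₂)) A' E p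
    hρ0 (by linarith) hA'0 hp hpA'' (fun q hq => by rw [one_pow]; exact hq.1) ?_
  · refine hmain.trans (mul_le_mul' le_rfl (ENNReal.ofReal_le_ofReal (Real.exp_le_exp.2 ?_)))
    have h1 : p * Real.exp (-l) ≤ c₀ * l := by
      have h2 : Real.exp (-l) ≤ A := (Real.exp_le_exp.2 (by linarith)).trans hexpA
      exact (mul_le_mul_of_nonneg_left h2 hp).trans hpA'
    calc p * E = 2 * Ch * (p * A) + (Cu + 2 * Ct * C₁) * (p * Real.exp (-l)) := by
          rw [hE, hρ]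
          ring
      _ ≤ 2 * Ch * (c₀ * l) + (Cu + 2 * Ct * C₁) * (c₀ * l) := by gcongr
      _ = (2 * Ch + Cu + 2 * Ct * C₁) * c₀ * l := by ring
  · intro q hq
    have hqt : q ∈ (F.e c).target := hmem q hq q (by
      rw [sub_self]
      have : nsq (0 : Cn n) = 0 := by simp [nsq]
      rw [this]
      positivity)
    have hps : (F.e c).symm q ∈ (F.e c).source := (F.e c).map_target hqt
    have hpe : F.e c ((F.e c).symm q) = q := (F.e c).right_inv hqt
    have hq9 : nsq (F.e c ((F.e c).symm q)) ≤ 9 := by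
      rw [hpe]
      exact hq.1.trans (by norm_num)
    obtain ⟨hq1, x₁, hx₁, hfx₁⟩ := hq
    have hq : q ∈ fibC F c x₂ l := ⟨hq1, x₁, hx₁, hfx₁⟩
    have hAx₁ := hAle x₁ hx₁
    obtain ⟨-, -, hsl⟩ := F.slope ht hl0 hps hq9 hfx₁
    have hsl' := hsl a ha0.le (by linarith)
    have hG := hharn t ht (F.f x₁) l hlh' c _ hps hq9 hfx₁
    rw [hpe] at hsl' hG
    have hball : cball q (30 * ρ) ⊆ (F.e c).target := fun x hx => hmem q hq x hx
    have hexpρ : Real.exp (-l) ≤ ρ := by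
      rw [hρ]
      exact le_mul_of_one_le_left (Real.exp_pos _).le hC₁
    have hball' : cball q (Real.exp (-l)) ⊆ (F.e c).target :=
      (SupReg.cball_mono (Real.exp_pos _).le (by linarith)).trans hball
    refine ⟨(Touch.phi_slice F.toFlow c ht).mono fun x hx => hmem q hq x (h2930 x q hx), ?_, ?_,
      supB (fun x => F.ψ c (t, x)) q (30 * ρ), ?_, ?_, ?_⟩
    · simp only [psi_split]
      exact (Touch.psi_slice F.toFlow c ht).mono fun x hx => hmem q hq x (h2930 x q hx)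
    · intro x hx v
      have hxt := hmem q hq x (h2930 x q hx)
      have h1 : levz (fun x => F.phi c (t, x) + F.th t c x) v x = lev (F.ψ c) v (t, x) := by
        simp only [psi_split]
        obtain ⟨U, hU, hsubU, hs⟩ := F.krf.smooth c
        exact levz_slice hU hs (hsubU ⟨ht, hxt⟩) v
      rw [h1]
      exact F.toFlow.lev_nonneg ht hxt v
    · intro x hx
      rw [psi_split]
      exact SupReg.le_supB_of_mem hψ (by positivity) hball (h2930 x q hx)
    · obtain ⟨w, hw, hw'⟩ := SupReg.exists_supB hψ hball'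
      refine ⟨q + Real.exp (-l) • w, ?_, ?_⟩
      · rw [add_sub_cancel_left, JN.nsq_smul]
        have h1 : Real.exp (-l) ^ 2 ≤ ρ ^ 2 := pow_le_pow_left₀ (Real.exp_pos _).le hexpρ 2
        exact (mul_le_of_le_one_right (sq_nonneg _) hw).trans h1
      · rw [psi_split]
        rw [hw']
        unfold Semi.U at hsl'
        rw [hexp] at hsl'
        have h1 : 2 * a / l * F.G t (F.f x₁) c l q ≤ A' := by
          rw [hA']
          refine mul_le_mul_of_nonneg_left (hG.trans ?_) (by positivity)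
          rw [hCh']
          have h2 := mul_le_mul_of_nonneg_left hAx₁ hCh
          linarith
        linarith
    · intro x hx
      have hx30 : nsq (x - q) ≤ (30 * ρ) ^ 2 := hx.trans (pow_le_pow_left₀ (by positivity)
        (by linarith) 2)
      have h1 : F.th t c x - F.th t c q ≤ Ct * (2 * ρ) := by
        have h2 := ((hth t ht' F.hT c x ((hsub q hq x hx30).trans (by norm_num))).2 q
          (hq.1.trans (by norm_num)))
        refine (le_abs_self _).trans (h2.trans (mul_le_mul_of_nonneg_left ?_ hCt.le))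
        rw [Real.sqrt_le_left (by positivity)]
        exact hx
      have hA1 : 0 < F.A t (F.f x₁) l := (Real.exp_pos _).trans_le (exp_le_A F ht _ hl0.le)
      have h2 : F.mm t (F.f x₁) l - Ch * A ≤ F.U t c l q := by
        have h3 : F.G t (F.f x₁) c l q =
          F.A t (F.f x₁) l + F.mm t (F.f x₁) l - F.U t c l q := rfl
        have h4 := mul_le_mul_of_nonneg_left hAx₁ hCh
        linarith
      have h5 : F.U t c₂ l (F.e c₂ x₂) ≤ F.mm t (F.f x₁) l + Ch * A + Cu * Real.exp (-l) := by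
        obtain ⟨c₃, hc₃, hc₃1⟩ := F.cover x₁
        have h6 := hUU t ht c₂ c₃ x₂ x₁ l hx₂ hc₃ (hx₂9.trans (by norm_num))
          (hc₃1.trans (by norm_num)) (by linarith) hx₁
        obtain ⟨-, -, h7⟩ := F.slope ht hl0 hc₃ (hc₃1.trans (by norm_num)) rfl
        have h8 := h7 au hau (by linarith)
        have h9 := hharn t ht (F.f x₁) l hlh' c₃ x₁ hc₃ (hc₃1.trans (by norm_num)) rfl
        have h10 : F.U t c₃ l (F.e c₃ x₁) ≤ F.mm t (F.f x₁) l :=
          le_csSup (vals_bdd F ht _ hl0.le) ⟨c₃, x₁, hc₃, hc₃1.trans (by norm_num), rfl, rfl⟩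
        have h11 : 2 * au / l * F.G t (F.f x₁) c₃ l (F.e c₃ x₁) ≤ Ch * A := by
          have h12 : 2 * au / l ≤ 1 := (div_le_one hl0).2 hlau
          have h13 : 0 ≤ 2 * au / l := by positivity
          calc 2 * au / l * F.G t (F.f x₁) c₃ l (F.e c₃ x₁)
              ≤ 2 * au / l * (Ch * A) := mul_le_mul_of_nonneg_left
                (h9.trans (mul_le_mul_of_nonneg_left hAx₁ hCh)) h13
            _ ≤ 1 * (Ch * A) := mul_le_mul_of_nonneg_right h12 (by positivity)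
            _ = Ch * A := one_mul _
        linarith
      have h3 : supB (fun x => F.ψ c (t, x)) q (Real.exp (-l)) ≤
          supB (fun x => F.ψ c (t, x)) q (30 * ρ) :=
        SupReg.supB_mono hψ (Real.exp_pos _) (by linarith) hball
      have h4 : F.U t c l q = supB (fun x => F.ψ c (t, x)) q (Real.exp (-l)) - F.th t c q := rfl
      rw [hE]
      linarith

end

end Tb

section

variable {n N : ℕ} {M Z : Type} [MetricSpace M] [CompactSpace M] [MeasurableSpace M] [BorelSpace M]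
  [MetricSpace Z] {κ P : Type} [Finite κ] [Finite P] {T : ℝ} (F : Semi n N M Z κ P T)
  {μ : Measure M} (hμ : HasDens F.e F.Ω μ)

include hμ in
/-- `x` is any point, `A t (f x₁) l` for the fibres `F_{f x₁}` which pass near `x` -/
theorem Semi.tube {Λ : ℝ} (hΛ : 1 ≤ Λ) (hloj : LojAt F.f Λ) : ∃ C c₀ l₀, 0 ≤ C ∧ 0 < c₀ ∧
    1 ≤ l₀ ∧ ∀ t ∈ Ico 0 T, ∀ c x l, l₀ ≤ l → x ∈ (F.e c).source → nsq (F.e c x) ≤ 9 →
    ∀ p, 0 ≤ p → (∀ x₁, dist x x₁ ≤ Real.exp (-l) → p * F.A t (F.f x₁) l ≤ c₀ * l) →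
    ∫⁻ x' in {x' | dist (F.f x) (F.f x') ≤ Real.exp (-(Λ * l))},
      ENNReal.ofReal (Real.exp (p * (F.U t c l (F.e c x) - F.Phi t x'))) ∂μ ≤
        ENNReal.ofReal (Real.exp (C * l)) := by
  classical
  have := Fintype.ofFinite κ
  obtain ⟨Cd, hCd, hdist⟩ := F.dist_chart
  obtain ⟨δ, hδ, hnear⟩ := F.near_chart
  obtain ⟨Co, hCo, hΩ⟩ := F.Ω_bound
  set C₁ : ℝ := Cd + 1 with hC₁
  obtain ⟨C, c₀, l₀, K, hC, hc₀, hl₀, hK, hpart⟩ := Tb.chart_part F (C₁ := C₁) (by linarith)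
  obtain ⟨C₂, hC₂, hKC⟩ : ∃ C₂ : ℝ, 0 ≤ C₂ ∧
      (Fintype.card κ : ℝ≥0∞) * (ENNReal.ofReal Co * K) ≤ ENNReal.ofReal (Real.exp C₂) := by
    have h1 : (Fintype.card κ : ℝ≥0∞) * (ENNReal.ofReal Co * K) ≠ ⊤ :=
      ENNReal.mul_ne_top (ENNReal.natCast_ne_top _) (ENNReal.mul_ne_top ENNReal.ofReal_ne_top hK)
    refine ⟨((Fintype.card κ : ℝ≥0∞) * (ENNReal.ofReal Co * K)).toReal, ENNReal.toReal_nonneg, ?_⟩
    rw [← ENNReal.ofReal_toReal h1]
    refine ENNReal.ofReal_le_ofReal ?_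
    rw [ENNReal.toReal_ofReal ENNReal.toReal_nonneg]
    linarith [Real.add_one_le_exp
      ((Fintype.card κ : ℝ≥0∞) * (ENNReal.ofReal Co * K)).toReal]
  set l₁ : ℝ := max l₀ (max (Real.log C₁) (-Real.log δ)) with hl₁
  refine ⟨C + C₂, c₀, l₁, by positivity, hc₀, hl₀.trans (le_max_left _ _), ?_⟩
  intro t ht c₂ x₂ l hl hx₂ hx₂9 p hp hpA
  have hll₀ : l₀ ≤ l := (le_max_left _ _).trans hl
  have hlC₁ : Real.log C₁ ≤ l := ((le_max_left _ _).trans (le_max_right _ _)).trans hl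
  have hlδ : -Real.log δ ≤ l := ((le_max_right _ _).trans (le_max_right _ _)).trans hl
  have hl1 : 1 ≤ l := hl₀.trans hll₀
  have hC₁0 : 0 < C₁ := by positivity
  set ρ : ℝ := C₁ * Real.exp (-l) with hρ
  have hρ0 : 0 < ρ := by positivity
  have hρ1 : ρ ≤ 1 := by
    have h1 : Real.exp (-l) ≤ C₁⁻¹ := by
      rw [← Real.exp_log hC₁0, ← Real.exp_neg]
      exact Real.exp_le_exp.2 (by linarith)
    calc ρ ≤ C₁ * C₁⁻¹ := mul_le_mul_of_nonneg_left h1 hC₁0.le
      _ = 1 := mul_inv_cancel₀ hC₁0.ne'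
  have hexpδ : Real.exp (-l) ≤ δ := by
    rw [← Real.exp_log hδ]
    exact Real.exp_le_exp.2 (by linarith)
  set B : κ → Set (Cn n) := fun c => JN.Nb (Tb.fibC F c x₂ l) ρ with hB
  have hBsub : ∀ c, ∀ x ∈ B c, nsq x ≤ 4 := by
    rintro c x ⟨q, hq, hxq⟩
    have h1 := JN.nsq_tri (x := x - q) (y := q) (a := ρ) (b := 1) hρ0.le zero_le_one hxq.le
      (by rw [one_pow]; exact hq.1)
    rw [sub_add_cancel] at h1
    refine h1.trans ((pow_le_pow_left₀ (by positivity)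
      (show ρ + 1 ≤ 2 by linarith) 2).trans (by norm_num))
  have hBt : ∀ c, B c ⊆ (F.e c).target := by
    intro c x hx
    refine F.target c ?_
    show nsq x < 100
    linarith [hBsub c x hx]
  have hBm : ∀ c, MeasurableSet (B c) := fun c => (JN.isOpen_Nb _ _).measurableSet
  set g : M → ℝ≥0∞ := fun x =>
    ENNReal.ofReal (Real.exp (p * (F.U t c₂ l (F.e c₂ x₂) - F.Phi t x))) with hg
  have hgm : Measurable g := by
    have h1 := Tb.Phi_continuous F ht
    exact (ENNReal.continuous_ofReal.comp (Real.continuous_exp.comp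
      (continuous_const.mul (continuous_const.sub h1)))).measurable
  have hcov : {x' | dist (F.f x₂) (F.f x') ≤ Real.exp (-(Λ * l))} ⊆
      ⋃ c, (F.e c).symm '' B c := by
    intro x hx
    obtain ⟨x₁, x', hf, hd₁, hd⟩ := hloj l x₂ x hl1 hx
    obtain ⟨c, hc, hc1⟩ := F.cover x'
    have hd' : dist x' x ≤ Real.exp (-l) := by rwa [dist_comm]
    obtain ⟨h1, h2⟩ := hnear c x' x 1 hc zero_le_one (by norm_num) (by rwa [one_pow])
      (hd'.trans hexpδ)
    refine mem_iUnion.2 ⟨c, F.e c x, ⟨F.e c x', ⟨hc1, ?_⟩, ?_⟩, (F.e c).left_inv h1⟩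
    · exact ⟨x₁, hd₁, by rw [(F.e c).left_inv hc, hf]⟩
    · have h3 := (hdist c x x' h1 hc (h2.trans (by norm_num)) (hc1.trans (by norm_num))).2
      have h4 : √(nsq (F.e c x - F.e c x')) < ρ := by
        refine h3.trans_lt ?_
        rw [hρ, hC₁]
        have h5 := Real.exp_pos (-l)
        have h6 := mul_le_mul_of_nonneg_left hd hCd.le
        linarith
      rwa [Real.sqrt_lt' hρ0] at h4
  calc ∫⁻ x in {x' | dist (F.f x₂) (F.f x') ≤ Real.exp (-(Λ * l))}, g x ∂μ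
      ≤ ∫⁻ x in ⋃ c, (F.e c).symm '' B c, g x ∂μ := lintegral_mono_set hcov
    _ ≤ ∑' c, ∫⁻ x in (F.e c).symm '' B c, g x ∂μ := lintegral_iUnion_le _ _
    _ = ∑ c, ∫⁻ x in (F.e c).symm '' B c, g x ∂μ := tsum_fintype _
    _ ≤ ∑ _c : κ, ENNReal.ofReal Co * (K * ENNReal.ofReal (Real.exp (C * l))) := by
        refine Finset.sum_le_sum fun c _ => ?_
        rw [F.lintegral_chart hμ (hBm c) (hBt c) hgm]
        calc ∫⁻ x in B c, g ((F.e c).symm x) * ENNReal.ofReal (F.Ω c x)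
            ≤ ∫⁻ x in B c, ENNReal.ofReal Co *
                ENNReal.ofReal (Real.exp (-p * (F.phi c (t, x) - F.U t c₂ l (F.e c₂ x₂)))) := by
              refine setLIntegral_mono' (hBm c) fun x hx => ?_
              have h1 : F.Phi t ((F.e c).symm x) = F.phi c (t, x) := by
                rw [F.Phi_eq ht ((F.e c).map_target (hBt c hx)), (F.e c).right_inv (hBt c hx)]
              have h2 : p * (F.U t c₂ l (F.e c₂ x₂) - F.phi c (t, x)) =
                  -p * (F.phi c (t, x) - F.U t c₂ l (F.e c₂ x₂)) := by ring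
              simp only [hg, h1, h2]
              rw [mul_comm]
              exact mul_le_mul' (ENNReal.ofReal_le_ofReal
                (hΩ c x ((hBsub c x hx).trans (by norm_num))).1) le_rfl
          _ = ENNReal.ofReal Co * ∫⁻ x in B c,
                ENNReal.ofReal (Real.exp (-p * (F.phi c (t, x) - F.U t c₂ l (F.e c₂ x₂)))) :=
              lintegral_const_mul' _ _ ENNReal.ofReal_ne_top
          _ ≤ _ := mul_le_mul' le_rfl (hpart t ht c₂ x₂ l hll₀ hx₂ hx₂9 p hp hpA c)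
    _ = (Fintype.card κ : ℝ≥0∞) * (ENNReal.ofReal Co * K) * ENNReal.ofReal (Real.exp (C * l)) := by
        rw [Finset.sum_const, Finset.card_univ, nsmul_eq_mul]
        ring
    _ ≤ ENNReal.ofReal (Real.exp C₂) * ENNReal.ofReal (Real.exp (C * l)) :=
        mul_le_mul' hKC le_rfl
    _ ≤ ENNReal.ofReal (Real.exp ((C + C₂) * l)) := by
        rw [← ENNReal.ofReal_mul (Real.exp_pos _).le, ← Real.exp_add]
        refine ENNReal.ofReal_le_ofReal (Real.exp_le_exp.2 ?_)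
        have h1 := le_mul_of_one_le_right hC₂ hl1
        linarith

end

end Pool.Agent.KRFZ
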