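import Pool.Agent.Work.MP_a2bf38_gt.Fu.Z.Top
import Pool.Agent.Work.MP_a2bf38_gt.Fu.Z.NatC
import Pool.Agent.Work.MP_a2bf38_gt.Fu.X.RegKer
import Pool.Agent.Work.MP_a2bf38_gt.Fu.Z.HormCurv
import Pool.Agent.Work.MP_a2bf38_gt.Fu.Z.Const2
import Pool.Agent.Work.MP_a2bf38_gt.Fu.X.RegHad
import Pool.Agent.Work.MP_a2bf38_gt.Fu.Z.Tube
import Pool.Agent.Work.MP_a2bf38_gt.Fu.Z.Log
import Pool.Agent.Work.MP_a2bf38_gt.Fu.Z.DomB
import Pool.Agent.Work.MP_a2bf38_gt.Fu.Lj.Norm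
import Pool.Agent.Work.MP_a2bf38_gt.Fu.W.CurvesNatOf

section

/-!
# The setup of `Z/Setup.lean` from the natural hypotheses
-/

open scoped ContDiff ENNReal ComplexOrder Topology
open Set Filter Pool.Agent.ToricKRF Pool.Agent.ToricKRF.G Pool.Agent.KRFS Pool.Agent.KRFF

namespace Pool.Agent.KRFZ

section

variable {M Z : Type} [MetricSpace M] [CompactSpace M] [MetricSpace Z] {n N : ℕ} {κ P : Type}
  {e : κ → OpenPartialHomeomorph M (Cn n)} {U : P → Set Z} {q : P → Z → Cn N}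
  {O : P → Set (Cn N)} {K : P → Cn N → ℝ} {f : M → Z} {T : ℝ} {ψ : κ → ℝ × Cn n → ℝ}
  {Ω : κ → Cn n → ℝ}

/-- the data of `Z/Setup.lean` in refined charts -/
theorem exists_semi (hT : 0 < T) (he : IsAtlas e) (hl : ∀ c, IsLip (e c) (e c).source)
    (hZ : IsKahlerSpace U q O K) (hf : IsHolConn e U q f) (hψ : IsKRF e T ψ)
    (hlim : IsSemiampleLimit e U q f T ψ Ω K) (hcurv : HasCurves e f ψ) (hloj : IsLoj f) :
    ∃ (κ' P' : Type) (_ : Fintype κ') (_ : Fintype P') (σ : κ' → κ)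
      (F : Semi n N M Z κ' P' T), IsRefinement e F.e σ ∧ F.ψ = newψ e F.e σ ψ := by
  have : CompactSpace Z := by
    rw [← isCompact_univ_iff, ← hf.surj.range_eq]
    exact isCompact_range hf.cont
  obtain ⟨κ', _, e', σ, href, htar, hcov, -, hlip⟩ := exists_unit_charts he hl
  obtain ⟨P', _, sig, z₀, r, S, q', K', hr, hSo, hS, hq', -, hK', hqc, hinj, hlt, hcomp, hcovZ,
    hlipZ, hO, hKs, hKp, hcompat⟩ := exists_unit_embeddings hZ
  obtain ⟨D₀, C, α, hC, hα, hcu⟩ := hcurv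
  obtain ⟨CL, a, hCL, ha, hL⟩ := hloj
  let F : Semi n N M Z κ' P' T :=
    { NP.flow he hT hψ hZ hf hlim href with
      S := S
      q := q'
      f := f
      K := K'
      hT := hT
      target := fun c => by
        change {x | nsq x < 100} ⊆ (e' c).target
        rw [htar c]
      cover := hcov
      Θ_eq := fun c x => rfl
      emb := NP.emb hf href hZ.isOpen hSo hS hq' hqc hinj hlt hcomp hcovZ
      pull := NP.pull hT hψ hZ hf hlim href hr hSo hS hq' hO hK' hcompat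
      lipM := hlip
      lipZ := hlipZ
      conn := hf.connected
      curv := ⟨D₀, C, α, hC, hα, fun z l hl => by
        obtain ⟨A, hA, hAz, hp⟩ := hcu z l hl
        refine ⟨A, hA, hAz, fun p hpz => ?_⟩
        obtain ⟨D, γ, ρ, s₀, s₁, h1, h2, h3, h4, h5, h6⟩ := hp p hpz
        exact ⟨D, γ, ρ, s₀, s₁, h1, h2, h3, h4, h5, h6.refine he hψ hT href⟩⟩
      loj := lojAt_of hCL ha hL }
  exact ⟨κ', P', inferInstance, inferInstance, σ, F, href, rfl⟩

end

end Pool.Agent.KRFZ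

end

section

/-!
# Peak functions, from the slope, the Harnack inequality and the integral estimate
-/

open scoped ContDiff ENNReal ComplexOrder Topology
open Set MeasureTheory Filter Pool.Agent.ToricKRF Pool.Agent.ToricKRF.G Pool.Agent.KRFS
  Pool.Agent.KRFF Pool.Agent.KRFG Pool.Agent.KRFE Pool.Agent.KRFX

namespace Pool.Agent.KRFZ

namespace Peak

section

variable {n N : ℕ} {M Z : Type} [MetricSpace M] [CompactSpace M] [MeasurableSpace M] [BorelSpace M]
  [MetricSpace Z] {κ P : Type} [Finite κ] [Finite P] {T : ℝ} (F : Semi n N M Z κ P T)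
  {μ : Measure M} (hμ : HasDens F.e F.Ω μ)

include hμ in
theorem hormOne : HormOne F μ := by
  obtain ⟨C, c₀, hC, hc₀, h⟩ := F.horm_cut hμ
  refine ⟨C, c₀, hC, hc₀, ?_⟩
  intro t ht p hp hpt j a r W ha hr hr1 hW hW0
  obtain ⟨χ, h₁, h1, h2, h3, h4, h5⟩ := h t ht p hp hpt j a r W (fun _ => 1) ha hr hr1 hW hW0
    fun c => NF.HolC.const 1 _
  refine ⟨χ, h₁, h1, h2, h3, h4, ?_⟩
  simpa only [mul_one, norm_one, one_pow, one_mul] using h5

include hμ in
/-- the peak functions, from `Semi.slope`, `Semi.harnack`, `Semi.tube` -/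
theorem peak_of' (hS : Slope F) (hH : Harnack F) {Λ : ℝ} (hΛ : 1 ≤ Λ) (hT : Tube F μ Λ) :
    ∃ C c₀ l₀, 0 ≤ C ∧ 0 < c₀ ∧ 1 ≤ l₀ ∧
    ∀ t ∈ Ico 0 T, ∀ c x l, l₀ ≤ l → x ∈ (F.e c).source → nsq (F.e c x) ≤ 9 →
    ∀ p, 0 < p → (∀ x₁, dist x x₁ ≤ Real.exp (-l) → p * F.A t (F.f x₁) l ≤ c₀ * l) →
    ∀ j, F.f x ∈ F.S j → nsq (F.y j x) ≤ 4 →
    ∃ h, F.Adm μ t p j h ∧ h x ≠ 0 ∧ F.U t c l (F.e c x) - C * l / p ≤ F.val p j h x :=
  peak_of F.U_bound (fun _ ht _ _ hx _ _ hl h => F.U_anti ht hx hl h) F.Phi_le_U_near hS hH hΛ hT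
    (hormOne F hμ) (F.mean_value hμ)

end

end Peak

end Pool.Agent.KRFZ

end

section

/-!
# Peak functions
-/

open scoped ContDiff ENNReal ComplexOrder Topology
open Set MeasureTheory Filter Pool.Agent.ToricKRF Pool.Agent.ToricKRF.G Pool.Agent.KRFS
  Pool.Agent.KRFF Pool.Agent.KRFG Pool.Agent.KRFE

namespace Pool.Agent.KRFZ

section

variable {n N : ℕ} {M Z : Type} [MetricSpace M] [CompactSpace M] [MeasurableSpace M] [BorelSpace M]
  [MetricSpace Z] {κ P : Type} [Finite κ] [Finite P] {T : ℝ} (F : Semi n N M Z κ P T)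
  {μ : Measure M} (hμ : HasDens F.e F.Ω μ)

include hμ in
/-- Peak functions.  The weight is `W = (n + 1) log (|y - F_j(x)|^2 + ε^2)`, `ε = exp (-C' l)`, the
cut-off is at `|y - F_j(x)| = exp (-Λ l) / C'`. -/
theorem Semi.peak : ∃ C c₀ l₀, 0 ≤ C ∧ 0 < c₀ ∧ 1 ≤ l₀ ∧
    ∀ t ∈ Ico 0 T, ∀ c x l, l₀ ≤ l → x ∈ (F.e c).source → nsq (F.e c x) ≤ 9 →
    ∀ p, 0 < p → (∀ x₁, dist x x₁ ≤ Real.exp (-l) → p * F.A t (F.f x₁) l ≤ c₀ * l) →
    ∀ j, F.f x ∈ F.S j → nsq (F.y j x) ≤ 4 →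
    ∃ h, F.Adm μ t p j h ∧ h x ≠ 0 ∧ F.U t c l (F.e c x) - C * l / p ≤ F.val p j h x := by
  obtain ⟨Λ, hΛ, hloj⟩ := F.loj
  exact Peak.peak_of' F hμ (fun _ ht _ _ hl _ _ hp hx hz => F.slope ht hl hp hx hz) F.harnack hΛ
    (F.tube hμ hΛ hloj)

end

end Pool.Agent.KRFZ

end

section

/-!
# The drop estimate (semi-ample limit classes)
-/

open scoped ContDiff ENNReal ComplexOrder Topology
open Set MeasureTheory Filter Pool.Agent.ToricKRF Pool.Agent.ToricKRF.G Pool.Agent.KRFS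
  Pool.Agent.KRFF Pool.Agent.KRFG Pool.Agent.KRFE

namespace Pool.Agent.KRFZ

variable {n N : ℕ} {M Z : Type} [MetricSpace M] [CompactSpace M] [MetricSpace Z] {κ P : Type}
  [Finite κ] [Finite P] {T : ℝ} (F : Semi n N M Z κ P T)

/-- **The drop estimate**: `φ(t₀) - φ(t) ≤ C (T - t₀)^a` for `t ≥ t₀`. -/
theorem Semi.drop : ∃ a, 0 < a ∧ a ≤ 1 ∧ F.toFlow.Drop a := by
  let _ : MeasurableSpace M := borel M
  have _ : BorelSpace M := ⟨rfl⟩
  obtain ⟨μ, hμ⟩ := F.exists_measure F.hT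
  exact F.drop_of F.U_bound
    (fun t ht c x hx l l' hl h => F.U_anti ht hx hl h)
    (fun t ht c p hp hx l hl => F.Phi_le_U ht hp hx hl)
    F.U_le_U
    (fun t ht z l hl c p hp hx hz a ha ha' => (F.slope ht hl hp hx hz).2.2 a ha ha')
    F.harnack
    (F.peak hμ)
    (F.dom hμ)

end Pool.Agent.KRFZ

end

section

/-!
# The diameter bound for semi-ample limit classes
-/

open scoped ContDiff ENNReal ComplexOrder Topology
open Set Filter Pool.Agent.ToricKRF Pool.Agent.ToricKRF.G Pool.Agent.KRFS Pool.Agent.KRFF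

namespace Pool.Agent.KRFZ

section

variable {M Z : Type} [MetricSpace M] [CompactSpace M] [ConnectedSpace M] [MetricSpace Z]
  {n N : ℕ} {κ P : Type} {e : κ → OpenPartialHomeomorph M (Cn n)} {U : P → Set Z}
  {q : P → Z → Cn N} {O : P → Set (Cn N)} {K : P → Cn N → ℝ} {f : M → Z} {T : ℝ}
  {ψ : κ → ℝ × Cn n → ℝ} {Ω : κ → Cn n → ℝ}

/-- The diameter of `(M, ω(t))` is bounded if the limit class is the pull-back of a Kähler class
under a holomorphic map with connected fibres, which are covered by curves. -/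
theorem diam_bounded_of_curves (he : IsAtlas e) (hl : ∀ c, IsLip (e c) (e c).source)
    (hZ : IsKahlerSpace U q O K) (hf : IsHolConn e U q f) (hψ : IsKRF e T ψ)
    (hlim : IsSemiampleLimit e U q f T ψ Ω K) (hcurv : HasCurves e f ψ) :
    ⨆ t ∈ Ico 0 T, rdiam e ψ t < ⊤ := by
  by_cases hT : 0 < T
  swap
  · have : Ico (0 : ℝ) T = ∅ := Ico_eq_empty hT
    simp [this]
  obtain ⟨κ', P', _, _, σ, F, href, hF⟩ := exists_semi hT he hl hZ hf hψ hlim hcurv
    (KRFLj.isLoj he hl hZ.isOpen hZ.cover hZ.lip hf.cont hf.holo)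
  obtain ⟨a, ha, ha1, hd⟩ := F.drop
  refine lt_of_le_of_lt ?_ (F.toFlow.diam_of_local fun p => F.toFlow.two_points ha ha1 hd p)
  refine iSup₂_mono fun t ht => ?_
  rw [hF]
  exact iSup₂_mono fun p q => refine_rdist hψ href ht p q

/-- The diameter of `(M, ω(t))` is bounded if the limit class is the pull-back of a Kähler class
under a locally projective holomorphic map with connected fibres. -/
theorem diam_bounded_of_locProj (he : IsAtlas e) (hl : ∀ c, IsLip (e c) (e c).source)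
    (hZ : IsKahlerSpace U q O K) (hf : IsHolConn e U q f) (hproj : IsLocProj e U q f)
    (hψ : IsKRF e T ψ) (hlim : IsSemiampleLimit e U q f T ψ Ω K) :
    ⨆ t ∈ Ico 0 T, rdiam e ψ t < ⊤ := by
  by_cases hT : 0 < T
  swap
  · have : Ico (0 : ℝ) T = ∅ := Ico_eq_empty hT
    simp [this]
  have hG : KRFW.GeoData e U q f ψ :=
    { atlas := he
      lip := hl
      isOpen := hZ.isOpen
      cover := hZ.cover
      qlip := hZ.lip
      cont := hf.cont
      holo := hf.holo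
      smooth := fun c => by
        obtain ⟨S, hS, hsub, hs⟩ := hψ.smooth c
        refine ⟨S, hS, fun x hx => hsub ⟨?_, hx.2⟩, hs⟩
        rw [mem_singleton_iff.1 hx.1]
        exact ⟨le_rfl, hT⟩ }
  exact diam_bounded_of_curves he hl hZ hf hψ hlim (KRFW.hasCurves_of_locProj hG hproj)

end

end Pool.Agent.KRFZ

end
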