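import Pool.Agent.Work.MP_a2bf38_gt.Fu.Z.Const
import Pool.Agent.Work.MP_a2bf38_gt.Fu.Z.Const2
import Pool.Agent.Work.MP_a2bf38_gt.Fu.Z.Pole
import Pool.Agent.Work.MP_a2bf38_gt.Fu.Z.PoleW
import Pool.Agent.Work.MP_a2bf38_gt.Fu.K.EmReach
import Pool.Agent.Work.MP_a2bf38_gt.Fu.Q.Exh

section

/-!
# The differences of the local potentials on balls of uniform radius
-/

open scoped ContDiff ENNReal ComplexOrder Topology
open Set MeasureTheory Filter Pool.Agent.ToricKRF Pool.Agent.ToricKRF.G Pool.Agent.KRFS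
  Pool.Agent.KRFF Pool.Agent.KRFG Pool.Agent.KRFE

namespace Pool.Agent.KRFZ

open ZC

section

variable {n N : ℕ} {M Z : Type} [MetricSpace M] [CompactSpace M] [MetricSpace Z] {κ P : Type}
  [Finite κ] [Finite P] {T : ℝ} (F : Semi n N M Z κ P T)

omit [CompactSpace M] [Finite κ] [Finite P] in
theorem HolC_mono {h : Cn n → ℂ} {S S' : Set (Cn n)} (hh : NF.HolC h S) (hs : S' ⊆ S) :
    NF.HolC h S' := ⟨hh.1.mono hs, fun z hz u => hh.2 z (hs hz) u⟩

omit [CompactSpace M] [Finite κ] [Finite P] in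
theorem nsq_two_le {a b : Cn N} {r : ℝ} (hr : 0 ≤ r) (ha : nsq a ≤ 1) (hab : nsq (b - a) ≤ r ^ 2) :
    nsq b ≤ (1 + r) ^ 2 := by
  have h1 := nsq_add_le (a := a) (b := b - a) zero_le_one hr (by simpa using ha) hab
  simpa using h1

/-- the domain of the functions `G` -/
def Semi.domG (c : κ) (i : P) (a : Cn N) (r : ℝ) : Set (Cn n) :=
  {x | x ∈ (F.e c).target ∧ F.f ((F.e c).symm x) ∈ F.S i ∧
    nsq (F.y i ((F.e c).symm x) - a) < r ^ 2}

omit [CompactSpace M] [Finite κ] [Finite P] in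
theorem Semi.isOpen_domG (c : κ) (i : P) (a : Cn N) (r : ℝ) : IsOpen (F.domG c i a r) := by
  have h1 : ContinuousOn (fun x => nsq (F.y i ((F.e c).symm x) - a)) (F.domF c i) :=
    KRFH.BallM.continuous_nsq.comp_continuousOn
      ((F.hol_y c i).1.continuousOn.sub continuousOn_const)
  have h2 := h1.isOpen_inter_preimage (F.isOpen_domF c i) (isOpen_Iio (a := r ^ 2))
  convert h2 using 1
  ext x
  simp only [Semi.domG, Semi.domF, mem_ofPred_eq, mem_inter_iff, mem_preimage, mem_Iio]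
  tauto

/-- The differences of the local potentials are real parts of holomorphic functions on balls of
uniform radius. -/
theorem Semi.exists_G : ∃ r, 0 < r ∧ r ≤ 1 ∧ ∀ i j z, z ∈ F.S i → nsq (F.q i z) ≤ 1 →
    z ∈ F.S j → nsq (F.q j z) ≤ 9 → ∃ G : Z → ℂ,
      (∀ z' ∈ F.S i, nsq (F.q i z' - F.q i z) ≤ r ^ 2 → z' ∈ F.S j ∧ nsq (F.q j z') < 81 ∧
        F.K i (F.q i z') - F.K j (F.q j z') = (G z').re) ∧
      ∀ c, NF.HolC (fun x => G (F.f ((F.e c).symm x))) (F.domG c i (F.q i z) r) := by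
  obtain ⟨C, hC, hdist⟩ := F.dist_Z
  obtain ⟨δ', hδ', hnear⟩ := F.near_Z
  -- the Lebesgue number for each pair
  have key : ∀ ij : P × P, ∃ δ, 0 < δ ∧ ∀ z, z ∈ F.S ij.1 → nsq (F.q ij.1 z) ≤ 1 →
      z ∈ F.S ij.2 → nsq (F.q ij.2 z) ≤ 9 → ∃ (U : Set Z) (G : Z → ℂ), Metric.ball z δ ⊆ U ∧
        U ⊆ F.S ij.1 ∩ F.S ij.2 ∧
        (∀ c, NF.HolC (fun x => G (F.f ((F.e c).symm x)))
          {x | x ∈ (F.e c).target ∧ F.f ((F.e c).symm x) ∈ U}) ∧
        ∀ z' ∈ U, F.K ij.1 (F.q ij.1 z') - F.K ij.2 (F.q ij.2 z') = (G z').re := by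
    rintro ⟨i, j⟩
    set A : Set Z := {z | z ∈ F.S i ∧ nsq (F.q i z) ≤ 1} ∩ {z | z ∈ F.S j ∧ nsq (F.q j z) ≤ 9}
      with hA
    have hAc : IsCompact A := (F.emb.compact i 1 (by norm_num)).inter
      (F.emb.compact j 9 (by norm_num))
    have h1 : ∀ z : A, ∃ (U : Set Z) (G : Z → ℂ), IsOpen U ∧ (z : Z) ∈ U ∧
        U ⊆ F.S i ∩ F.S j ∧
        (∀ c, NF.HolC (fun x => G (F.f ((F.e c).symm x)))
          {x | x ∈ (F.e c).target ∧ F.f ((F.e c).symm x) ∈ U}) ∧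
        ∀ z' ∈ U, F.K i (F.q i z') - F.K j (F.q j z') = (G z').re := fun z =>
      F.pull.compat i j z z.2.1.1 z.2.2.1
    choose U G hU hzU hUS hGhol hG using h1
    obtain ⟨δ, hδ, hleb⟩ := lebesgue_number_lemma_of_metric hAc hU
      (fun z hz => mem_iUnion.2 ⟨⟨z, hz⟩, hzU ⟨z, hz⟩⟩)
    refine ⟨δ, hδ, fun z hzi hqi hzj hqj => ?_⟩
    obtain ⟨w, hw⟩ := hleb z ⟨⟨hzi, hqi⟩, ⟨hzj, hqj⟩⟩
    exact ⟨U w, G w, hw, hUS w, hGhol w, hG w⟩
  obtain ⟨δ, hδ, hall⟩ := exists_unif' (ι := P × P) (p := fun ij δ => ∀ z, z ∈ F.S ij.1 →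
      nsq (F.q ij.1 z) ≤ 1 → z ∈ F.S ij.2 → nsq (F.q ij.2 z) ≤ 9 →
      ∃ (U : Set Z) (G : Z → ℂ), Metric.ball z δ ⊆ U ∧
        U ⊆ F.S ij.1 ∩ F.S ij.2 ∧
        (∀ c, NF.HolC (fun x => G (F.f ((F.e c).symm x)))
          {x | x ∈ (F.e c).target ∧ F.f ((F.e c).symm x) ∈ U}) ∧
        ∀ z' ∈ U, F.K ij.1 (F.q ij.1 z') - F.K ij.2 (F.q ij.2 z') = (G z').re)
    (fun ij a b hab h z h1 h2 h3 h4 => by
      obtain ⟨U, G, hb, h5⟩ := h z h1 h2 h3 h4
      exact ⟨U, G, (Metric.ball_subset_ball hab).trans hb, h5⟩) key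
  set r : ℝ := min 1 (min δ δ' / (2 * C)) with hr
  have hm : 0 < min δ δ' := lt_min hδ hδ'
  have hr0 : 0 < r := lt_min one_pos (by positivity)
  have hCr : C * r < min δ δ' := by
    have h1 : r ≤ min δ δ' / (2 * C) := min_le_right _ _
    have h2 : C * r ≤ C * (min δ δ' / (2 * C)) := mul_le_mul_of_nonneg_left h1 hC.le
    have h3 : C * (min δ δ' / (2 * C)) = min δ δ' / 2 := by
      field_simp
    linarith
  refine ⟨r, hr0, min_le_left _ _, fun i j z hzi hqi hzj hqj => ?_⟩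
  obtain ⟨U, G, hb, hUS, hhol, hG⟩ := hall (i, j) z hzi hqi hzj hqj
  have hd : ∀ z' ∈ F.S i, nsq (F.q i z' - F.q i z) ≤ r ^ 2 → dist z z' < min δ δ' := by
    intro z' hz' hle
    have h1 : nsq (F.q i z') ≤ 81 := by
      have h2 := nsq_two_le hr0.le hqi hle
      have h3 : r ≤ 1 := min_le_left _ _
      nlinarith
    have h2 := (hdist i z z' hzi hz' (hqi.trans (by norm_num)) h1).1
    have h3 : √(nsq (F.q i z - F.q i z')) ≤ r := by
      rw [nsq_sub_comm]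
      exact (Real.sqrt_le_sqrt hle).trans (by rw [Real.sqrt_sq hr0.le])
    have h4 : C * √(nsq (F.q i z - F.q i z')) ≤ C * r := mul_le_mul_of_nonneg_left h3 hC.le
    linarith
  have hmemU : ∀ z' ∈ F.S i, nsq (F.q i z' - F.q i z) ≤ r ^ 2 → z' ∈ U := by
    intro z' hz' hle
    refine hb ?_
    rw [Metric.mem_ball, dist_comm]
    exact (hd z' hz' hle).trans_le (min_le_left _ _)
  refine ⟨G, fun z' hz' hle => ?_, fun c => ?_⟩
  · have hzU := hmemU z' hz' hle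
    refine ⟨(hUS hzU).2, ?_, hG z' hzU⟩
    have h1 := hnear j z z' 3 hzj (by norm_num) (by norm_num) (by linarith)
      ((hd z' hz' hle).le.trans (min_le_right _ _))
    have h2 := h1.2
    norm_num at h2
    linarith
  · refine HolC_mono (hhol c) ?_
    rintro x ⟨hx, hxS, hxr⟩
    exact ⟨hx, hmemU _ hxS hxr.le⟩

end

end Pool.Agent.KRFZ

end

section

/-!
# Transfer: the norm of the solution
-/

open scoped ContDiff ENNReal ComplexOrder Topology
open Set MeasureTheory Filter Pool.Agent.ToricKRF Pool.Agent.ToricKRF.G Pool.Agent.KRFS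
  Pool.Agent.KRFF Pool.Agent.KRFG Pool.Agent.KRFE

namespace Pool.Agent.KRFZ

open ZC

section

variable {n N : ℕ} {M Z : Type} [MetricSpace M] [MetricSpace Z] {κ P : Type} {T : ℝ}
  (F : Semi n N M Z κ P T)

theorem Semi.continuousOn_y (j : P) : ContinuousOn (F.y j) {p | F.f p ∈ F.S j} :=
  (F.emb.qcont j).comp F.emb.cont.continuousOn fun _ hp => hp

theorem Semi.isOpen_fS (j : P) : IsOpen {p | F.f p ∈ F.S j} :=
  (F.emb.isOpen j).preimage F.emb.cont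

theorem Semi.isOpen_V (j : P) : IsOpen (F.V j) := by
  have h1 : ContinuousOn (fun p => nsq (F.y j p)) {p | F.f p ∈ F.S j} :=
    KRFH.BallM.continuous_nsq.comp_continuousOn (F.continuousOn_y j)
  exact h1.isOpen_inter_preimage (F.isOpen_fS j) (isOpen_Iio (a := (81 : ℝ)))

/-- the points over the open ball of radius `r` -/
def Semi.B (i : P) (a : Cn N) (r : ℝ) : Set M := {p | F.f p ∈ F.S i ∧ nsq (F.y i p - a) < r ^ 2}

theorem Semi.isOpen_B (i : P) (a : Cn N) (r : ℝ) : IsOpen (F.B i a r) := by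
  have h1 : ContinuousOn (fun p => nsq (F.y i p - a)) {p | F.f p ∈ F.S i} :=
    KRFH.BallM.continuous_nsq.comp_continuousOn ((F.continuousOn_y i).sub continuousOn_const)
  exact h1.isOpen_inter_preimage (F.isOpen_fS i) (isOpen_Iio (a := r ^ 2))

theorem Semi.Phi_cont {t : ℝ} (ht : t ∈ Ico 0 T) : Continuous (F.Phi t) :=
  F.Phi_continuousOn.comp_continuous (Continuous.prodMk_right t) fun p => ⟨ht, mem_univ p⟩

theorem Semi.continuousOn_pK {t : ℝ} (ht : t ∈ Ico 0 T) (j : P) :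
    ContinuousOn (F.pK t j) (F.V j) := by
  refine (F.Phi_cont ht).continuousOn.add ?_
  have h1 : ContinuousOn (F.K j) {y | nsq y < 100} := (F.pull.smooth j).continuousOn
  refine h1.comp ((F.continuousOn_y j).mono fun p hp => hp.1) fun p hp => ?_
  exact hp.2.trans (by norm_num)

/-- a function which is continuous in the charts is continuous -/
theorem Semi.continuousOn_of_charts {A : Type*} [TopologicalSpace A] {h : M → A} {O : Set M}
    (hO : IsOpen O)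
    (hh : ∀ c, ContinuousOn (fun x => h ((F.e c).symm x))
      {x | x ∈ (F.e c).target ∧ (F.e c).symm x ∈ O}) : ContinuousOn h O := by
  intro p hp
  obtain ⟨c, hc, -⟩ := F.cover p
  have hS : IsOpen {x | x ∈ (F.e c).target ∧ (F.e c).symm x ∈ O} :=
    (F.e c).symm.isOpen_inter_preimage hO
  have hx : F.e c p ∈ {x | x ∈ (F.e c).target ∧ (F.e c).symm x ∈ O} :=
    ⟨(F.e c).map_source hc, by rwa [(F.e c).left_inv hc]⟩
  have h1 : ContinuousAt (fun x => h ((F.e c).symm x)) (F.e c p) :=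
    (hh c).continuousAt (hS.mem_nhds hx)
  have h2 : ContinuousAt (fun q => h ((F.e c).symm (F.e c q))) p :=
    ContinuousAt.comp (g := fun x => h ((F.e c).symm x)) (f := F.e c) h1
      ((F.e c).continuousAt hc)
  refine (h2.congr ?_).continuousWithinAt
  filter_upwards [(F.e c).open_source.mem_nhds hc] with q hq
  rw [(F.e c).left_inv hq]

theorem Semi.Hol.continuousOn {j : P} {h : M → ℂ} (hh : F.Hol j h) : ContinuousOn h (F.V j) :=
  F.continuousOn_of_charts (F.isOpen_V j) fun c => (hh c).1.continuousOn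

theorem Semi.V_nsq {i : P} {a : Cn N} (ha : nsq a ≤ 1) {p : M} (hp : p ∈ F.V i) :
    nsq (F.y i p - a) ≤ 100 := by
  have h1 : nsq (F.y i p) ≤ 9 ^ 2 := by
    have := hp.2
    norm_num
    linarith
  have h2 : nsq (-a) ≤ 1 ^ 2 := by
    have h3 : nsq (-a) = nsq a := by
      simp [nsq]
    rw [h3]
    linarith
  have h3 := nsq_add_le (by norm_num : (0 : ℝ) ≤ 9) zero_le_one h1 h2
  rw [← sub_eq_add_neg] at h3
  norm_num at h3
  linarith

variable [MeasurableSpace M] [BorelSpace M] {μ : Measure M}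

/-- The norm of the solution. -/
theorem Semi.norm_sol {t p : ℝ} (ht : t ∈ Ico 0 T) {i j : P} {h : M → ℂ}
    (hadm : F.Adm μ t p j h) {a : Cn N} (ha : nsq a ≤ 1) {r ε : ℝ} (hε : 0 < ε) (hε1 : ε ≤ 1)
    {G : Z → ℂ} (hG : ∀ p', p' ∈ F.B i a r → p' ∈ F.V j ∧
      F.K i (F.y i p') - F.K j (F.y j p') = (G (F.f p')).re)
    {χ : M → ℝ} {h₁ : M → ℂ} (hχ : ∀ x, 0 ≤ χ x ∧ χ x ≤ 1) (hχ0 : ∀ x, χ x ≠ 0 → x ∈ F.B i a r)
    {I₀ : ℝ} (hI₀ : 0 ≤ I₀)
    (hint : ∫⁻ x in F.V i, ENNReal.ofReal (‖(χ x : ℂ) * (h x *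
      Complex.exp ((p : ℂ) * G (F.f x) / 2)) - h₁ x‖ ^ 2 *
      Real.exp (-(p * F.pK t i x + (n + 1) * Pole.W0 a ε (F.y i x)))) ∂μ ≤ ENNReal.ofReal I₀) :
    ∫⁻ x in F.V i, ENNReal.ofReal (‖h₁ x‖ ^ 2 * Real.exp (-(p * F.pK t i x))) ∂μ ≤
      ENNReal.ofReal (2 * 101 ^ (n + 1) * I₀ + 2) := by
  set Bs : Set M := F.B i a r with hBs
  set H : M → ℂ := fun x => h x * Complex.exp ((p : ℂ) * G (F.f x) / 2) with hH
  -- the norm of `H`
  have hHn : ∀ x ∈ Bs, ‖H x‖ ^ 2 * Real.exp (-(p * F.pK t i x)) =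
      ‖h x‖ ^ 2 * Real.exp (-(p * F.pK t j x)) := by
    intro x hx
    have h1 := (hG x hx).2
    have h2 : ‖Complex.exp ((p : ℂ) * G (F.f x) / 2)‖ ^ 2 = Real.exp (p * (G (F.f x)).re) := by
      rw [Complex.norm_exp, ← Real.exp_nat_mul]
      congr 1
      have h3 : ((p : ℂ) * G (F.f x) / 2).re = p * (G (F.f x)).re / 2 := by
        rw [show (p : ℂ) * G (F.f x) / 2 = ((p / 2 : ℝ) : ℂ) * G (F.f x) by push_cast; ring,
          Complex.re_ofReal_mul]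
        ring
      rw [h3]
      push_cast
      ring
    rw [hH]
    simp only
    rw [norm_mul, mul_pow, h2, mul_assoc, ← Real.exp_add]
    congr 2
    rw [← h1]
    simp only [Semi.pK]
    ring
  -- the pointwise bound
  set f₁ : M → ℝ≥0∞ := fun x => ENNReal.ofReal (2 * 101 ^ (n + 1)) *
    ENNReal.ofReal (‖(χ x : ℂ) * H x - h₁ x‖ ^ 2 *
      Real.exp (-(p * F.pK t i x + (n + 1) * Pole.W0 a ε (F.y i x)))) with hf₁
  set f₂ : M → ℝ≥0∞ := Bs.indicator fun x => ENNReal.ofReal 2 *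
    ENNReal.ofReal (‖h x‖ ^ 2 * Real.exp (-(p * F.pK t j x))) with hf₂
  have hpt : ∀ x ∈ F.V i, ENNReal.ofReal (‖h₁ x‖ ^ 2 * Real.exp (-(p * F.pK t i x))) ≤
      f₁ x + f₂ x := by
    intro x hx
    have h1 : ‖h₁ x‖ ^ 2 ≤ 2 * ‖(χ x : ℂ) * H x - h₁ x‖ ^ 2 + 2 * ‖(χ x : ℂ) * H x‖ ^ 2 := by
      have h2 : ‖h₁ x‖ ≤ ‖(χ x : ℂ) * H x - h₁ x‖ + ‖(χ x : ℂ) * H x‖ := by
        have h3 := norm_sub_norm_le (h₁ x) ((χ x : ℂ) * H x)
        rw [norm_sub_rev] at h3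
        linarith
      nlinarith [sq_nonneg (‖(χ x : ℂ) * H x - h₁ x‖ - ‖(χ x : ℂ) * H x‖), norm_nonneg (h₁ x)]
    have hq : nsq (F.y i x - a) + ε ^ 2 ≤ 101 := by
      have h2 := F.V_nsq ha hx
      nlinarith
    have hq0 : 0 < nsq (F.y i x - a) + ε ^ 2 := HM.pos_pole a hε.ne' _
    have hq1 : Real.exp (-(p * F.pK t i x)) ≤ 101 ^ (n + 1) *
        Real.exp (-(p * F.pK t i x + (n + 1) * Pole.W0 a ε (F.y i x))) := by
      have h2 : Real.exp ((n + 1) * Pole.W0 a ε (F.y i x)) ≤ 101 ^ (n + 1) := by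
        rw [show ((n : ℝ) + 1) = ((n + 1 : ℕ) : ℝ) by push_cast; ring, Real.exp_nat_mul]
        unfold Pole.W0
        rw [Real.exp_log hq0]
        exact pow_le_pow_left₀ hq0.le hq _
      calc Real.exp (-(p * F.pK t i x)) = Real.exp ((n + 1) * Pole.W0 a ε (F.y i x)) *
            Real.exp (-(p * F.pK t i x + (n + 1) * Pole.W0 a ε (F.y i x))) := by
            rw [← Real.exp_add]
            congr 1
            ring
        _ ≤ _ := mul_le_mul_of_nonneg_right h2 (Real.exp_pos _).le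
    have h5 : ENNReal.ofReal (2 * ‖(χ x : ℂ) * H x‖ ^ 2 * Real.exp (-(p * F.pK t i x))) ≤
        f₂ x := by
      by_cases hx0 : χ x = 0
      · rw [hx0]
        simp
      · have hxB := hχ0 x hx0
        rw [hf₂, indicator_of_mem hxB, ← ENNReal.ofReal_mul zero_le_two, ← hHn x hxB]
        refine ENNReal.ofReal_le_ofReal ?_
        rw [norm_mul, mul_pow, Complex.norm_real, Real.norm_eq_abs, sq_abs]
        have h6 : χ x ^ 2 ≤ 1 := by
          have h7 := hχ x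
          nlinarith [h7.1, h7.2]
        have h8 : 0 ≤ ‖H x‖ ^ 2 * Real.exp (-(p * F.pK t i x)) := by positivity
        nlinarith
    calc ENNReal.ofReal (‖h₁ x‖ ^ 2 * Real.exp (-(p * F.pK t i x))) ≤
        ENNReal.ofReal (2 * 101 ^ (n + 1) * (‖(χ x : ℂ) * H x - h₁ x‖ ^ 2 *
          Real.exp (-(p * F.pK t i x + (n + 1) * Pole.W0 a ε (F.y i x)))) +
          2 * ‖(χ x : ℂ) * H x‖ ^ 2 * Real.exp (-(p * F.pK t i x))) := by
          refine ENNReal.ofReal_le_ofReal ?_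
          have h6 : 0 ≤ ‖(χ x : ℂ) * H x - h₁ x‖ ^ 2 := by positivity
          calc ‖h₁ x‖ ^ 2 * Real.exp (-(p * F.pK t i x)) ≤
              (2 * ‖(χ x : ℂ) * H x - h₁ x‖ ^ 2 + 2 * ‖(χ x : ℂ) * H x‖ ^ 2) *
                Real.exp (-(p * F.pK t i x)) :=
                mul_le_mul_of_nonneg_right h1 (Real.exp_pos _).le
            _ = 2 * ‖(χ x : ℂ) * H x - h₁ x‖ ^ 2 * Real.exp (-(p * F.pK t i x)) +
                2 * ‖(χ x : ℂ) * H x‖ ^ 2 * Real.exp (-(p * F.pK t i x)) := by ring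
            _ ≤ 2 * ‖(χ x : ℂ) * H x - h₁ x‖ ^ 2 * (101 ^ (n + 1) *
                Real.exp (-(p * F.pK t i x + (n + 1) * Pole.W0 a ε (F.y i x)))) +
                2 * ‖(χ x : ℂ) * H x‖ ^ 2 * Real.exp (-(p * F.pK t i x)) := by gcongr
            _ = _ := by ring
      _ = f₁ x + ENNReal.ofReal (2 * ‖(χ x : ℂ) * H x‖ ^ 2 * Real.exp (-(p * F.pK t i x))) := by
          rw [ENNReal.ofReal_add (by positivity) (by positivity), hf₁]
          simp only
          rw [← ENNReal.ofReal_mul (by positivity)]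
      _ ≤ f₁ x + f₂ x := add_le_add le_rfl h5
  have hVm : MeasurableSet (F.V i) := (F.isOpen_V i).measurableSet
  have hBm : MeasurableSet Bs := (F.isOpen_B i a r).measurableSet
  have hBV : Bs ⊆ F.V j := fun x hx => (hG x hx).1
  have hcont : ContinuousOn (fun x => ‖h x‖ ^ 2 * Real.exp (-(p * F.pK t j x))) (F.V j) :=
    (hadm.1.continuousOn.norm.pow 2).mul
      ((F.continuousOn_pK ht j).const_mul p).neg.rexp
  have hf₂m : AEMeasurable f₂ (μ.restrict (F.V i)) := by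
    rw [hf₂, aemeasurable_indicator_iff hBm]
    refine AEMeasurable.const_mul ?_ _
    refine ENNReal.measurable_ofReal.comp_aemeasurable ?_
    have h1 : AEMeasurable (fun x => ‖h x‖ ^ 2 * Real.exp (-(p * F.pK t j x)))
        (μ.restrict Bs) := (hcont.mono hBV).aemeasurable hBm
    exact h1.mono_measure (Measure.restrict_mono_measure Measure.restrict_le_self _)
  have hf₂i : ∫⁻ x in F.V i, f₂ x ∂μ ≤ ENNReal.ofReal 2 := by
    rw [hf₂, lintegral_indicator hBm, lintegral_const_mul' _ _ ENNReal.ofReal_ne_top]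
    calc ENNReal.ofReal 2 * ∫⁻ x, ENNReal.ofReal (‖h x‖ ^ 2 * Real.exp (-(p * F.pK t j x)))
          ∂(μ.restrict (F.V i)).restrict Bs
        ≤ ENNReal.ofReal 2 * ∫⁻ x in F.V j,
          ENNReal.ofReal (‖h x‖ ^ 2 * Real.exp (-(p * F.pK t j x))) ∂μ := by
          refine mul_le_mul_right (lintegral_mono' ?_ le_rfl) _
          exact (Measure.restrict_mono_measure Measure.restrict_le_self _).trans
            (Measure.restrict_mono hBV le_rfl)
      _ ≤ ENNReal.ofReal 2 * 1 := mul_le_mul_right hadm.2 _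
      _ = ENNReal.ofReal 2 := mul_one _
  calc ∫⁻ x in F.V i, ENNReal.ofReal (‖h₁ x‖ ^ 2 * Real.exp (-(p * F.pK t i x))) ∂μ
      ≤ ∫⁻ x in F.V i, (f₁ x + f₂ x) ∂μ := setLIntegral_mono' hVm hpt
    _ = (∫⁻ x in F.V i, f₁ x ∂μ) + ∫⁻ x in F.V i, f₂ x ∂μ := lintegral_add_right' _ hf₂m
    _ ≤ ENNReal.ofReal (2 * 101 ^ (n + 1)) * ENNReal.ofReal I₀ + ENNReal.ofReal 2 := by
        refine add_le_add ?_ hf₂i
        rw [hf₁, lintegral_const_mul' _ _ ENNReal.ofReal_ne_top]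
        exact mul_le_mul_right hint _
    _ = ENNReal.ofReal (2 * 101 ^ (n + 1) * I₀ + 2) := by
        rw [← ENNReal.ofReal_mul (by positivity), ← ENNReal.ofReal_add (by positivity)
          (by norm_num)]

end

end Pool.Agent.KRFZ

end

section

/-!
# Transfer: the integral over the shell, and the value at the centre
-/

open scoped ContDiff ENNReal ComplexOrder Topology
open Set MeasureTheory Filter Pool.Agent.ToricKRF Pool.Agent.ToricKRF.G Pool.Agent.KRFS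
  Pool.Agent.KRFF Pool.Agent.KRFG Pool.Agent.KRFE

namespace Pool.Agent.KRFZ

open ZC

section

variable {n N : ℕ} {M Z : Type} [MetricSpace M] [MetricSpace Z] {κ P : Type} {T : ℝ}
  (F : Semi n N M Z κ P T)

theorem Semi.norm_H {t p : ℝ} {i j : P} {h : M → ℂ} {G : Z → ℂ} {x : M}
    (hG : F.K i (F.y i x) - F.K j (F.y j x) = (G (F.f x)).re) :
    ‖h x * Complex.exp ((p : ℂ) * G (F.f x) / 2)‖ ^ 2 * Real.exp (-(p * F.pK t i x)) =
      ‖h x‖ ^ 2 * Real.exp (-(p * F.pK t j x)) := by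
  have h2 : ‖Complex.exp ((p : ℂ) * G (F.f x) / 2)‖ ^ 2 = Real.exp (p * (G (F.f x)).re) := by
    rw [Complex.norm_exp, ← Real.exp_nat_mul]
    congr 1
    have h3 : ((p : ℂ) * G (F.f x) / 2).re = p * (G (F.f x)).re / 2 := by
      rw [show (p : ℂ) * G (F.f x) / 2 = ((p / 2 : ℝ) : ℂ) * G (F.f x) by push_cast; ring,
        Complex.re_ofReal_mul]
      ring
    rw [h3]
    push_cast
    ring
  rw [norm_mul, mul_pow, h2, mul_assoc, ← Real.exp_add]
  congr 2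
  rw [← hG]
  simp only [Semi.pK]
  ring

/-- the shell -/
def Semi.Sh (i : P) (a : Cn N) (r : ℝ) : Set M :=
  {x | x ∈ F.V i ∧ r ^ 2 / 4 ≤ nsq (F.y i x - a) ∧ nsq (F.y i x - a) ≤ r ^ 2}

theorem Semi.measurableSet_Sh [MeasurableSpace M] [BorelSpace M] (i : P) (a : Cn N) (r : ℝ) :
    MeasurableSet (F.Sh i a r) := by
  have h1 : ContinuousOn (fun p => nsq (F.y i p - a)) (F.V i) :=
    (KRFH.BallM.continuous_nsq.comp_continuousOn
      ((F.continuousOn_y i).sub continuousOn_const)).mono fun p hp => hp.1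
  have h2 : F.Sh i a r = F.V i \ ((F.V i ∩ (fun p => nsq (F.y i p - a)) ⁻¹' Iio (r ^ 2 / 4)) ∪
      (F.V i ∩ (fun p => nsq (F.y i p - a)) ⁻¹' Ioi (r ^ 2))) := by
    ext x
    simp only [Semi.Sh, mem_ofPred_eq, Set.mem_sdiff, mem_union, mem_inter_iff, mem_preimage, mem_Iio,
      mem_Ioi, not_or, not_and, not_lt]
    constructor
    · rintro ⟨h3, h4, h5⟩
      exact ⟨h3, fun _ => h4, fun _ => h5⟩
    · rintro ⟨h3, h4, h5⟩
      exact ⟨h3, h4 h3, h5 h3⟩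
  rw [h2]
  exact (F.isOpen_V i).measurableSet.diff
    ((h1.isOpen_inter_preimage (F.isOpen_V i) isOpen_Iio).measurableSet.union
      (h1.isOpen_inter_preimage (F.isOpen_V i) isOpen_Ioi).measurableSet)

variable [MeasurableSpace M] [BorelSpace M] {μ : Measure M}

/-- The integral over the shell. -/
theorem Semi.shell_bound {t p : ℝ} {i j : P} {h : M → ℂ}
    (hadm : F.Adm μ t p j h) {a : Cn N} {r ε : ℝ} (hr : 0 < r) (hε : 0 < ε)
    {G : Z → ℂ} (hG : ∀ p', F.f p' ∈ F.S i → nsq (F.y i p' - a) ≤ r ^ 2 → p' ∈ F.V j ∧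
      F.K i (F.y i p') - F.K j (F.y j p') = (G (F.f p')).re) :
    ∫⁻ x in F.Sh i a r, ENNReal.ofReal (‖h x * Complex.exp ((p : ℂ) * G (F.f x) / 2)‖ ^ 2 *
      Real.exp (-(p * F.pK t i x + (n + 1) * Pole.W0 a ε (F.y i x)))) ∂μ ≤
      ENNReal.ofReal ((4 / r ^ 2) ^ (n + 1)) := by
  have hr2 : 0 < r ^ 2 / 4 := by positivity
  have hSV : F.Sh i a r ⊆ F.V j := fun x hx => (hG x hx.1.1 hx.2.2).1
  calc ∫⁻ x in F.Sh i a r, ENNReal.ofReal (‖h x * Complex.exp ((p : ℂ) * G (F.f x) / 2)‖ ^ 2 *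
        Real.exp (-(p * F.pK t i x + (n + 1) * Pole.W0 a ε (F.y i x)))) ∂μ ≤
      ∫⁻ x in F.Sh i a r, ENNReal.ofReal ((4 / r ^ 2) ^ (n + 1)) *
        ENNReal.ofReal (‖h x‖ ^ 2 * Real.exp (-(p * F.pK t j x))) ∂μ := by
        refine setLIntegral_mono' (F.measurableSet_Sh i a r) fun x hx => ?_
        rw [← ENNReal.ofReal_mul (by positivity)]
        refine ENNReal.ofReal_le_ofReal ?_
        rw [← F.norm_H (hG x hx.1.1 hx.2.2).2]
        have hq : r ^ 2 / 4 ≤ nsq (F.y i x - a) + ε ^ 2 := by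
          have := hx.2.1
          nlinarith [sq_nonneg ε]
        have hq0 : 0 < nsq (F.y i x - a) + ε ^ 2 := HM.pos_pole a hε.ne' _
        have h3 : Real.exp (-((n + 1) * Pole.W0 a ε (F.y i x))) ≤ (4 / r ^ 2) ^ (n + 1) := by
          rw [Real.exp_neg, show ((n : ℝ) + 1) = ((n + 1 : ℕ) : ℝ) by push_cast; ring,
            Real.exp_nat_mul]
          unfold Pole.W0
          rw [Real.exp_log hq0, ← inv_pow]
          refine pow_le_pow_left₀ (inv_nonneg.2 hq0.le) ?_ _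
          rw [show 4 / r ^ 2 = (r ^ 2 / 4)⁻¹ by rw [inv_div]]
          exact inv_anti₀ hr2 hq
        rw [neg_add, Real.exp_add]
        have h4 : 0 ≤ ‖h x * Complex.exp ((p : ℂ) * G (F.f x) / 2)‖ ^ 2 *
            Real.exp (-(p * F.pK t i x)) := by positivity
        nlinarith
    _ = ENNReal.ofReal ((4 / r ^ 2) ^ (n + 1)) * ∫⁻ x in F.Sh i a r,
        ENNReal.ofReal (‖h x‖ ^ 2 * Real.exp (-(p * F.pK t j x))) ∂μ :=
        lintegral_const_mul' _ _ ENNReal.ofReal_ne_top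
    _ ≤ ENNReal.ofReal ((4 / r ^ 2) ^ (n + 1)) * 1 := by
        refine mul_le_mul_right ((lintegral_mono_set hSV).trans hadm.2) _
    _ = _ := mul_one _

/-- Constants for the value at `x`, which do not depend on `ε`. -/
theorem Semi.value_const {t p : ℝ} (ht : t ∈ Ico 0 T) {i j : P} {h : M → ℂ}
    (hh : F.Hol j h) {x : M} (hxi : F.f x ∈ F.S i) (hxi1 : nsq (F.y i x) ≤ 1) {r : ℝ} (hr : 0 < r)
    {G : Z → ℂ} (hBV : F.B i (F.y i x) r ⊆ F.V j)
    (hGh : ∀ c, NF.HolC (fun x => G (F.f ((F.e c).symm x))) (F.domG c i (F.y i x) r))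
    (hμ : HasDens F.e F.Ω μ) {I₀ : ℝ} (hI₀ : 0 ≤ I₀) :
    ∃ C ε₀, 0 ≤ C ∧ 0 < ε₀ ∧ ∀ ε, 0 < ε → ε ≤ ε₀ → ∀ (χ : M → ℝ) (h₁ : M → ℂ), F.Hol i h₁ →
      (∀ x', F.f x' ∈ F.S i → nsq (F.y i x' - F.y i x) ≤ r ^ 2 / 4 → χ x' = 1) →
      ∫⁻ x' in F.V i, ENNReal.ofReal (‖(χ x' : ℂ) * (h x' *
        Complex.exp ((p : ℂ) * G (F.f x') / 2)) - h₁ x'‖ ^ 2 *
        Real.exp (-(p * F.pK t i x' + (n + 1) * Pole.W0 (F.y i x) ε (F.y i x')))) ∂μ ≤
        ENNReal.ofReal I₀ →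
      ‖h x * Complex.exp ((p : ℂ) * G (F.f x) / 2) - h₁ x‖ ^ 2 ≤ C * ε ^ 2 := by
  obtain ⟨c, hc, -⟩ := F.cover x
  set z₀ : Cn n := F.e c x with hz₀
  set H : M → ℂ := fun x' => h x' * Complex.exp ((p : ℂ) * G (F.f x') / 2) with hH
  set Fi : Cn n → Cn N := fun w => F.y i ((F.e c).symm w) with hFi
  have hz₀t : z₀ ∈ (F.e c).target := (F.e c).map_source hc
  have hz₀x : (F.e c).symm z₀ = x := (F.e c).left_inv hc
  -- the open set
  set V' : Set (Cn n) := F.domG c i (F.y i x) (r / 2) with hV'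
  have hV'o : IsOpen V' := F.isOpen_domG c i _ _
  have hz₀V : z₀ ∈ V' := by
    refine ⟨hz₀t, by rwa [hz₀x], ?_⟩
    rw [hz₀x, sub_self, nsq_zero]
    positivity
  have hV'sub : V' ⊆ F.domG c i (F.y i x) r := by
    rintro w ⟨h1, h2, h3⟩
    refine ⟨h1, h2, h3.trans_le ?_⟩
    nlinarith
  -- the set of the points of `V'` over `V i`
  set O' : Set (Cn n) := {w | w ∈ (F.e c).target ∧ (F.e c).symm w ∈ F.V i} with hO'
  have hO'o : IsOpen O' := (F.e c).symm.isOpen_inter_preimage (F.isOpen_V i)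
  have hz₀O : z₀ ∈ O' := ⟨hz₀t, by
    rw [hz₀x]
    exact ⟨hxi, hxi1.trans_lt (by norm_num)⟩⟩
  have hΩc : ContinuousOn (F.Ω c) (F.e c).target := (F.vol.smooth c).continuousOn
  have hΩ0 : 0 < F.Ω c z₀ := F.vol.pos c z₀ hz₀t
  set W₁ : Cn n → ℝ := fun w => p * F.pK t i ((F.e c).symm w) with hW₁
  have hW₁c : ContinuousOn W₁ O' := ((F.continuousOn_pK ht i).comp
    ((F.e c).symm.continuousOn.mono fun w hw => hw.1) fun w hw => hw.2).const_mul p
  -- the Lipschitz constant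
  have hFs : ContDiffAt ℝ ∞ Fi z₀ :=
    (F.hol_y c i).1.contDiffAt ((F.isOpen_domF c i).mem_nhds ⟨hz₀t, by rwa [hz₀x]⟩)
  obtain ⟨K, U, hU, hlip⟩ := (hFs.of_le (by exact_mod_cast le_top) :
    ContDiffAt ℝ 1 Fi z₀).exists_lipschitzOnWith
  set L : ℝ := √(2 * N) * K with hL
  have hev : ∀ᶠ w in 𝓝 z₀, w ∈ V' ∧ w ∈ O' ∧ nsq (Fi w - Fi z₀) ≤ L ^ 2 * nsq (w - z₀) ∧
      W₁ w ≤ W₁ z₀ + 1 ∧ F.Ω c z₀ / 2 ≤ F.Ω c w := by
    have e1 : ∀ᶠ w in 𝓝 z₀, W₁ w < W₁ z₀ + 1 :=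
      (hW₁c.continuousAt (hO'o.mem_nhds hz₀O)).eventually_lt_const (by linarith)
    have e2 : ∀ᶠ w in 𝓝 z₀, F.Ω c z₀ / 2 < F.Ω c w :=
      (hΩc.continuousAt ((F.e c).open_target.mem_nhds hz₀t)).eventually_const_lt (by linarith)
    filter_upwards [hV'o.mem_nhds hz₀V, hO'o.mem_nhds hz₀O, hU, e1, e2] with w h1 h2 h3 h4 h5
    refine ⟨h1, h2, ?_, h4.le, h5.le⟩
    have h6 : ‖Fi w - Fi z₀‖ ≤ K * ‖w - z₀‖ := by
      have := hlip.dist_le_mul w h3 z₀ (mem_of_mem_nhds hU)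
      rwa [dist_eq_norm, dist_eq_norm] at this
    have h7 := nsq_le_norm (Fi w - Fi z₀)
    have h8 := norm_sq_le (w - z₀)
    have h9 : ‖Fi w - Fi z₀‖ ^ 2 ≤ (K : ℝ) ^ 2 * nsq (w - z₀) := by
      calc ‖Fi w - Fi z₀‖ ^ 2 ≤ (K * ‖w - z₀‖) ^ 2 := by gcongr
        _ = (K : ℝ) ^ 2 * ‖w - z₀‖ ^ 2 := by ring
        _ ≤ _ := by gcongr
    have h10 : L ^ 2 = 2 * N * (K : ℝ) ^ 2 := by
      rw [hL, mul_pow, Real.sq_sqrt (by positivity)]
    rw [h10]
    calc nsq (Fi w - Fi z₀) ≤ 2 * N * ‖Fi w - Fi z₀‖ ^ 2 := h7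
      _ ≤ 2 * N * ((K : ℝ) ^ 2 * nsq (w - z₀)) := by gcongr
      _ = _ := by ring
  obtain ⟨ε₀, hε₀, hball⟩ := Metric.eventually_nhds_iff_ball.1 hev
  have hin : ∀ ε, 0 < ε → ε ≤ ε₀ / 2 → ∀ w, nsq (w - z₀) ≤ ε ^ 2 → w ∈ Metric.ball z₀ ε₀ := by
    intro ε hε hle w hw
    rw [mem_ball_iff_norm]
    have h1 : ‖w - z₀‖ ^ 2 ≤ ε ^ 2 := (norm_sq_le _).trans hw
    have h2 : ‖w - z₀‖ ≤ ε := abs_le_of_sq_le_sq' h1 hε.le |>.2
    linarith
  set v : ℝ := (volume {w : Cn n | nsq w ≤ 1}).toReal with hv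
  have hvp : 0 < v := Pole.volume_unit_pos
  refine ⟨Real.exp (W₁ z₀ + 1) * (L ^ 2 + 1) ^ (n + 1) / (F.Ω c z₀ / 2 * v) * I₀, ε₀ / 2,
    by positivity, by positivity, fun ε hε hle χ h₁ hh₁ hχ hint => ?_⟩
  set g : Cn n → ℂ := fun w => H ((F.e c).symm w) - h₁ ((F.e c).symm w) with hg
  set S₁ : Set (Cn n) := V' ∩ O' with hS₁
  have hS₁o : IsOpen S₁ := hV'o.inter hO'o
  have hgh : NF.HolC g S₁ := by
    have e1 : NF.HolC (fun w => h ((F.e c).symm w)) S₁ := HolC_mono (hh c) fun w hw =>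
      ⟨hw.1.1, hBV ⟨hw.1.2.1, hw.1.2.2.trans_le (by nlinarith)⟩⟩
    have e2 : NF.HolC (fun w => G (F.f ((F.e c).symm w))) S₁ :=
      HolC_mono (hGh c) fun w hw => hV'sub hw.1
    have e3 : NF.HolC (fun w => ((p / 2 : ℝ) : ℂ) * G (F.f ((F.e c).symm w))) S₁ :=
      (NF.HolC.const _ S₁).mul hS₁o e2
    have e4 := e1.mul hS₁o (Fb.holC_exp hS₁o e3)
    have e5 : NF.HolC (fun w => (-1 : ℂ) * h₁ ((F.e c).symm w)) S₁ :=
      (NF.HolC.const _ S₁).mul hS₁o (HolC_mono (hh₁ c) fun w hw => ⟨hw.2.1, hw.2.2⟩)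
    have e6 := e4.add hS₁o e5
    have e7 : g = fun w => h ((F.e c).symm w) * Complex.exp (((p / 2 : ℝ) : ℂ) *
        G (F.f ((F.e c).symm w))) + (-1 : ℂ) * h₁ ((F.e c).symm w) := by
      funext w
      simp only [hg, hH]
      rw [show (p : ℂ) * G (F.f ((F.e c).symm w)) / 2 =
        ((p / 2 : ℝ) : ℂ) * G (F.f ((F.e c).symm w)) by push_cast; ring]
      ring
    rw [e7]
    exact e6
  set Bl : Set (Cn n) := {w | nsq (w - z₀) ≤ ε ^ 2} with hBl
  have hBlc : IsCompact Bl := HM.isCompact_ball z₀ ε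
  have hBlS : Bl ⊆ S₁ := fun w hw =>
    ⟨(hball w (hin ε hε hle w hw)).1, (hball w (hin ε hε hle w hw)).2.1⟩
  have hBlt : Bl ⊆ (F.e c).target := fun w hw => (hBlS hw).2.1
  set X : Set M := (F.e c).symm '' Bl with hX
  have hXc : IsCompact X := hBlc.image_of_continuousOn ((F.e c).symm.continuousOn.mono hBlt)
  have hXm : MeasurableSet X := hXc.isClosed.measurableSet
  have hXs : X ⊆ (F.e c).source := by
    rintro _ ⟨w, hw, rfl⟩
    exact (F.e c).map_target (hBlt hw)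
  have hXV : X ⊆ F.V i := by
    rintro _ ⟨w, hw, rfl⟩
    exact (hBlS hw).2.2
  have hXB : X ⊆ F.B i (F.y i x) r := by
    rintro _ ⟨w, hw, rfl⟩
    have h1 := hV'sub (hBlS hw).1
    exact ⟨h1.2.1, h1.2.2⟩
  have hXχ : ∀ x' ∈ X, χ x' = 1 := by
    rintro _ ⟨w, hw, rfl⟩
    have h1 := (hBlS hw).1
    refine hχ _ h1.2.1 (h1.2.2.le.trans (le_of_eq ?_))
    ring
  set E : M → ℝ := fun x' =>
    Real.exp (-(p * F.pK t i x' + (n + 1) * Pole.W0 (F.y i x) ε (F.y i x'))) with hE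
  set f' : M → ℝ≥0∞ := fun x' => ENNReal.ofReal (‖H x' - h₁ x'‖ ^ 2 * E x') with hf'
  have hf'm : AEMeasurable f' (μ.restrict X) := by
    refine ENNReal.measurable_ofReal.comp_aemeasurable (ContinuousOn.aemeasurable ?_ hXm)
    have c1 : ContinuousOn H X := by
      have c2 : ContinuousOn h X := hh.continuousOn.mono (hXB.trans hBV)
      have c3 : ContinuousOn (fun x' => G (F.f x')) (F.B i (F.y i x) r) :=
        F.continuousOn_of_charts (F.isOpen_B i _ r) fun c' => (hGh c').1.continuousOn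
      exact c2.mul (((c3.mono hXB).const_mul _).div_const _).cexp
    have c4 : ContinuousOn h₁ X := hh₁.continuousOn.mono hXV
    have c5 : ContinuousOn (F.pK t i) X := (F.continuousOn_pK ht i).mono hXV
    have c6 : ContinuousOn (fun x' => Pole.W0 (F.y i x) ε (F.y i x')) X :=
      (Pole.W0_smooth (F.y i x) hε).continuous.comp_continuousOn
        ((F.continuousOn_y i).mono fun x' hx' => (hXV hx').1)
    exact ((c1.sub c4).norm.pow 2).mul ((c5.const_mul p).add (c6.const_mul _)).neg.rexp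
  have hμ' : KRFQ.IsDens F.e F.Ω μ := ⟨hμ⟩
  have hch := KRFQ.lintegral_chart hμ' hΩc hXm hXs hf'm
  have hI : ∫⁻ w in Bl, ENNReal.ofReal (‖g w‖ ^ 2 * Real.exp (-(W₁ w + (n + 1) *
      Real.log (nsq (Fi w - Fi z₀) + ε ^ 2))) * F.Ω c w) ≤ ENNReal.ofReal I₀ := by
    calc ∫⁻ w in Bl, ENNReal.ofReal (‖g w‖ ^ 2 * Real.exp (-(W₁ w + (n + 1) *
          Real.log (nsq (Fi w - Fi z₀) + ε ^ 2))) * F.Ω c w)
        = ∫⁻ w in Bl, ENNReal.ofReal (F.Ω c w) * X.indicator f' ((F.e c).symm w) := by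
          refine setLIntegral_congr_fun hBlc.isClosed.measurableSet fun w hw => ?_
          have hwX : (F.e c).symm w ∈ X := ⟨w, hw, rfl⟩
          have hΩw : 0 ≤ F.Ω c w := (F.vol.pos c w (hBlt hw)).le
          rw [indicator_of_mem hwX, hf', ← ENNReal.ofReal_mul hΩw]
          congr 1
          simp only [hE, Pole.W0, hg, hFi, hW₁, hz₀x]
          ring
      _ ≤ ∫⁻ w in (F.e c).target, ENNReal.ofReal (F.Ω c w) * X.indicator f' ((F.e c).symm w) :=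
          lintegral_mono_set hBlt
      _ = ∫⁻ x' in X, f' x' ∂μ := hch.symm
      _ = ∫⁻ x' in X, ENNReal.ofReal (‖(χ x' : ℂ) * H x' - h₁ x'‖ ^ 2 * E x') ∂μ := by
          refine setLIntegral_congr_fun hXm fun x' hx' => ?_
          simp only [hf', hXχ x' hx', Complex.ofReal_one, one_mul]
      _ ≤ ∫⁻ x' in F.V i, ENNReal.ofReal (‖(χ x' : ℂ) * H x' - h₁ x'‖ ^ 2 * E x') ∂μ :=
          lintegral_mono_set hXV
      _ ≤ ENNReal.ofReal I₀ := hint
  have hfin := HM.pole (F := Fi) (W₁ := W₁) (Ω := F.Ω c) (z₀ := z₀) (ε := ε) (L := L)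
    (B := W₁ z₀ + 1) (o := F.Ω c z₀ / 2) hε (by positivity)
    (fun w hw => (hball w (hin ε hε hle w hw)).2.2.1)
    (fun w hw => (hball w (hin ε hε hle w hw)).2.2.2.1)
    (fun w hw => (hball w (hin ε hε hle w hw)).2.2.2.2) hS₁o hgh hBlS hI₀ hI
  have hgz : g z₀ = H x - h₁ x := by simp only [hg, hz₀x]
  rw [hgz] at hfin
  refine hfin.trans (le_of_eq ?_)
  rw [← hv]
  ring

end

end Pool.Agent.KRFZ

end
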